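import Pool.Agent.MP_815c6c_an.Q.Osc

/-! Planar p-harmonic maps: the algebra of the first order system. -/

set_option autoImplicit false

noncomputable section

namespace Pool.Agent.MP_815c6c_an.Q

open Set Metric Complex
open scoped ComplexConjugate

namespace AlgA

variable {n : ℕ}

theorem re_inner (w x : Cn n) : (inner ℝ w x : ℝ) = (inner ℂ w x : ℂ).re := by
  rw [PiLp.inner_apply, PiLp.inner_apply, re_sum]
  exact Finset.sum_congr rfl fun a _ => by simp [Complex.inner]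

theorem cj_apply (w : Cn n) (a : Fin n) : cj w a = conj (w a) := rfl

theorem norm_cj (w : Cn n) : ‖cj w‖ = ‖w‖ := by
  rw [EuclideanSpace.norm_eq, EuclideanSpace.norm_eq]
  simp [cj_apply]

theorem cj_sub (w m : Cn n) : cj w - cj m = cj (w - m) := by
  ext a; simp [cj_apply]

theorem cj_smul (c : ℝ) (w : Cn n) : cj (c • w) = c • cj w := by
  ext a; simp [cj_apply]

theorem cont_cj : Continuous (cj : Cn n → Cn n) :=
  (PiLp.continuous_toLp 2 _).comp <| continuous_pi fun a =>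
    continuous_conj.comp ((continuous_apply a).comp (PiLp.continuous_ofLp 2 _))

theorem one_eq (N : L (Cn n)) : N 1 = zd N + zb N := by
  ext a; simp [zd, zb]; ring

theorem I_eq (N : L (Cn n)) : N I = I • (zd N - zb N) := by
  ext a
  simp only [zd, zb, PiLp.smul_apply, PiLp.sub_apply, PiLp.add_apply, smul_eq_mul]
  linear_combination (N I a) * I_mul_I

theorem app_eq (N : L (Cn n)) (z : ℂ) : N z = z • zd N + conj z • zb N := by
  rw [L_apply, one_eq, I_eq]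
  ext a
  simp only [PiLp.smul_apply, PiLp.sub_apply, PiLp.add_apply, smul_eq_mul, real_smul]
  have h1 : z = z.re + z.im * I := (re_add_im z).symm
  have h2 : conj z = z.re - z.im * I := by apply Complex.ext <;> simp
  rw [h2]
  linear_combination (-(zd N a)) * h1

theorem half_le (N : L (Cn n)) (x y : Cn n) (hx : ‖x‖ ≤ ‖N‖) (hy : ‖y‖ ≤ ‖N‖) :
    ‖(1 / 2 : ℂ) • (x + y)‖ ≤ ‖N‖ := by
  rw [norm_smul]
  have := norm_add_le x y
  have h : ‖(1 / 2 : ℂ)‖ = 1 / 2 := by simp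
  rw [h]; linarith

theorem n1 (N : L (Cn n)) : ‖zd N‖ ≤ ‖N‖ ∧ ‖zb N‖ ≤ ‖N‖ ∧ ‖N‖ ≤ ‖zd N‖ + ‖zb N‖ := by
  obtain ⟨h1, h2, -⟩ := L_norm N
  have h3 : ‖I • N I‖ ≤ ‖N‖ := by rw [norm_smul]; simpa using h2
  refine ⟨?_, half_le N _ _ h1 h3, N.opNorm_le_bound (by positivity) fun z => ?_⟩
  · rw [zd, sub_eq_add_neg]
    exact half_le N _ _ h1 (by rwa [norm_neg])
  · rw [app_eq]
    refine (norm_add_le _ _).trans (le_of_eq ?_)
    rw [norm_smul, norm_smul, RCLike.norm_conj]; ring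

theorem jc_eq (N : L (Cn n)) : jc N = ‖zd N‖ ^ 2 - ‖zb N‖ ^ 2 := by
  have h : ‖(1 / 2 : ℂ)‖ = 1 / 2 := by simp
  rw [zd, zb, norm_smul, norm_smul, h, mul_pow, mul_pow, norm_sub_sq_real, norm_add_sq_real,
    re_inner, inner_smul_right, jc]
  simp only [mul_re, I_re, I_im]
  ring

/-- the numerator -/
def nu (w : Cn n) (N : L (Cn n)) : ℂ := (inner ℝ w (N 1) : ℝ) - I * (inner ℝ w (N I) : ℝ)

theorem lz_eq (w : Cn n) (N : L (Cn n)) : lz w N = nu w N / (2 * (‖w‖ ^ 2 : ℝ)) := rfl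

theorem nu_eq (w : Cn n) (N : L (Cn n)) :
    nu w N = inner ℂ w (zd N) + conj (inner ℂ w (zb N) : ℂ) := by
  rw [nu, one_eq, I_eq, re_inner, re_inner, inner_smul_right, inner_add_right, inner_sub_right]
  generalize (inner ℂ w (zd N) : ℂ) = α
  generalize (inner ℂ w (zb N) : ℂ) = β
  apply Complex.ext <;> simp [sub_eq_add_neg]

theorem nu_le (w : Cn n) (N : L (Cn n)) : ‖nu w N‖ ≤ ‖w‖ * (‖zd N‖ + ‖zb N‖) := by
  rw [nu_eq, mul_add]
  refine (norm_add_le _ _).trans (add_le_add (norm_inner_le_norm _ _) ?_)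
  rw [RCLike.norm_conj]; exact norm_inner_le_norm _ _

theorem nu_le' (w : Cn n) (N : L (Cn n)) : ‖nu w N‖ ≤ ‖w‖ * (2 * ‖N‖) := by
  obtain ⟨h1, h2, -⟩ := n1 N
  exact (nu_le w N).trans (mul_le_mul_of_nonneg_left (by linarith) (norm_nonneg _))

theorem nu_sub (w m : Cn n) (N : L (Cn n)) : nu w N - nu m N = nu (w - m) N := by
  simp only [nu, inner_sub_left]; push_cast; ring

theorem nu_smul (c : ℝ) (w : Cn n) (N : L (Cn n)) : nu (c • w) N = c * nu w N := by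
  simp only [nu, real_inner_smul_left]; push_cast; ring

theorem lz_le (w : Cn n) (N : L (Cn n)) : ‖lz w N‖ * ‖w‖ ≤ (‖zd N‖ + ‖zb N‖) / 2 := by
  rcases eq_or_ne w 0 with rfl | hw
  · simp only [norm_zero, mul_zero]; positivity
  have h0 : 0 < ‖w‖ := norm_pos_iff.2 hw
  have h1 : ‖(2 * ((‖w‖ ^ 2 : ℝ) : ℂ))‖ = 2 * ‖w‖ ^ 2 := by simp
  rw [lz_eq, norm_div, h1, div_mul_eq_mul_div, div_le_div_iff₀ (by positivity) two_pos]
  have := mul_le_mul_of_nonneg_right (nu_le w N) h0.le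
  nlinarith

theorem term_le (s : ℝ) (w : Cn n) (N : L (Cn n)) :
    ‖((s : ℂ) * lz w N) • cj w‖ ≤ |s| * ((‖zd N‖ + ‖zb N‖) / 2) := by
  rw [norm_smul, norm_mul, norm_cj, norm_real, Real.norm_eq_abs, mul_assoc]
  exact mul_le_mul_of_nonneg_left (lz_le w N) (abs_nonneg s)

theorem gar (s : ℝ) (w : Cn n) (N : L (Cn n)) (h0 : 0 ≤ s) (h1 : s < 1) :
    ‖zb N‖ ≤ s / (2 - s) * ‖zd N‖ + 2 * ‖Op s w N‖ := by
  have h := term_le s w N
  rw [abs_of_nonneg h0] at h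
  have e : zb N = Op s w N - ((s : ℂ) * lz w N) • cj w := by rw [Op]; abel
  have h2 : ‖zb N‖ ≤ ‖Op s w N‖ + ‖((s : ℂ) * lz w N) • cj w‖ := by
    conv_lhs => rw [e]
    exact norm_sub_le _ _
  have h3 : 0 < 2 - s := by linarith
  have h4 := norm_nonneg (Op s w N)
  rw [div_mul_eq_mul_div, div_add' _ _ _ h3.ne', le_div_iff₀ h3]
  nlinarith

theorem op_le (s : ℝ) (w : Cn n) (hs : |s| ≤ 1) (N : L (Cn n)) : ‖Op s w N‖ ≤ 2 * ‖N‖ := by
  obtain ⟨h1, h2, -⟩ := n1 N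
  have h := term_le s w N
  have h3 : |s| * ((‖zd N‖ + ‖zb N‖) / 2) ≤ 1 * ‖N‖ :=
    mul_le_mul hs (by linarith) (by positivity) zero_le_one
  have := norm_add_le (zb N) (((s : ℂ) * lz w N) • cj w)
  rw [Op]; linarith

/-- the operator as a linear map -/
def opL (s : ℝ) (w : Cn n) : L (Cn n) →ₗ[ℝ] Cn n where
  toFun := Op s w
  map_add' N M := by
    ext a
    simp only [Op, zb, lz, add_apply, inner_add_right, PiLp.add_apply, PiLp.smul_apply,
      smul_eq_mul]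
    push_cast; ring
  map_smul' c N := by
    ext a
    simp only [Op, zb, lz, smul_apply, real_inner_smul_right, PiLp.add_apply, PiLp.smul_apply,
      smul_eq_mul, real_smul, RingHom.id_apply]
    push_cast; ring

theorem clm (s : ℝ) (w : Cn n) (hs : |s| ≤ 1) :
    ∃ A : L (Cn n) →L[ℝ] Cn n, ‖A‖ ≤ 2 ∧ ∀ N, Op s w N = A N :=
  ⟨(opL s w).mkContinuous 2 (op_le s w hs), LinearMap.mkContinuous_norm_le _ zero_le_two _,
    fun _ => rfl⟩

theorem unit_form (w : Cn n) (hw : w ≠ 0) (N : L (Cn n)) :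
    lz w N • cj w = (nu (‖w‖⁻¹ • w) N / 2) • cj (‖w‖⁻¹ • w) := by
  have h0 : (‖w‖ : ℂ) ≠ 0 := by simpa using hw
  rw [nu_smul, cj_smul, lz_eq]
  ext a
  simp only [PiLp.smul_apply, smul_eq_mul, real_smul]
  push_cast
  field_simp

theorem unit_sub (w m : Cn n) (hw : w ≠ 0) (hm : m ≠ 0) :
    ‖‖w‖⁻¹ • w - ‖m‖⁻¹ • m‖ ≤ 2 * (‖w - m‖ / ‖m‖) := by
  have a : 0 < ‖w‖ := norm_pos_iff.2 hw
  have b : 0 < ‖m‖ := norm_pos_iff.2 hm
  have e : ‖w‖⁻¹ • w - ‖m‖⁻¹ • m = (‖w‖⁻¹ - ‖m‖⁻¹) • w + ‖m‖⁻¹ • (w - m) := by module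
  have h1 : ‖(‖w‖⁻¹ - ‖m‖⁻¹) • w‖ ≤ ‖w - m‖ / ‖m‖ := by
    have : (‖w‖⁻¹ - ‖m‖⁻¹) * ‖w‖ = (‖m‖ - ‖w‖) / ‖m‖ := by field_simp
    rw [norm_smul, Real.norm_eq_abs, ← abs_of_pos a, ← abs_mul, abs_of_pos a, this, abs_div,
      abs_of_pos b, abs_sub_comm]
    exact div_le_div_of_nonneg_right (abs_norm_sub_norm_le w m) b.le
  have h2 : ‖‖m‖⁻¹ • (w - m)‖ = ‖w - m‖ / ‖m‖ := by
    rw [norm_smul, norm_inv, norm_norm]; field_simp
  rw [e]
  exact (norm_add_le _ _).trans (by linarith)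

theorem near (s o : ℝ) (w m : Cn n) (N : L (Cn n)) (hs : |s| ≤ 1) (hm : m ≠ 0) (ho : o ≤ 1 / 2)
    (h : ‖w - m‖ ≤ o * ‖m‖) : ‖Op s w N - Op s m N‖ ≤ 8 * o * ‖N‖ := by
  have b : 0 < ‖m‖ := norm_pos_iff.2 hm
  have hw : w ≠ 0 := by
    rintro rfl
    rw [zero_sub, norm_neg] at h
    nlinarith
  have a : 0 < ‖w‖ := norm_pos_iff.2 hw
  have hd : ‖w - m‖ / ‖m‖ ≤ o := (div_le_iff₀ b).2 h
  have ho0 : 0 ≤ o := (div_nonneg (norm_nonneg _) b.le).trans hd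
  set u := ‖w‖⁻¹ • w with hu
  set v := ‖m‖⁻¹ • m with hv
  have nu1 : ‖u‖ = 1 := by rw [hu, norm_smul, norm_inv, norm_norm]; field_simp
  have nv1 : ‖v‖ = 1 := by rw [hv, norm_smul, norm_inv, norm_norm]; field_simp
  have huv : ‖u - v‖ ≤ 2 * o := (unit_sub w m hw hm).trans (by linarith)
  have e : Op s w N - Op s m N =
      (s : ℂ) • ((nu (u - v) N / 2) • cj u + (nu v N / 2) • cj (u - v)) := by
    rw [Op, Op, mul_smul, mul_smul, unit_form w hw, unit_form m hm, ← nu_sub, ← cj_sub]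
    module
  have hN := norm_nonneg N
  have n2 : ‖(2 : ℂ)‖ = 2 := by simp
  have h1 : ‖(nu (u - v) N / 2) • cj u‖ ≤ 2 * o * ‖N‖ := by
    rw [norm_smul, norm_cj, nu1, norm_div, n2]
    have := nu_le' (u - v) N
    nlinarith
  have h2 : ‖(nu v N / 2) • cj (u - v)‖ ≤ 2 * o * ‖N‖ := by
    rw [norm_smul, norm_cj, norm_div, n2]
    have h3 := nu_le' v N
    rw [nv1] at h3
    calc ‖nu v N‖ / 2 * ‖u - v‖ ≤ ‖N‖ * (2 * o) :=
          mul_le_mul (by linarith) huv (norm_nonneg _) hN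
      _ = _ := by ring
  rw [e, norm_smul, norm_real, Real.norm_eq_abs]
  have h4 := (norm_add_le _ _).trans (add_le_add h1 h2)
  have h5 := mul_nonneg ho0 hN
  calc _ ≤ 1 * (2 * o * ‖N‖ + 2 * o * ‖N‖) := mul_le_mul hs h4 (norm_nonneg _) zero_le_one
    _ ≤ _ := by nlinarith

theorem cont (s : ℝ) :
    ContinuousOn (fun p : Cn n × L (Cn n) => Op s p.1 p.2) {p | p.1 ≠ 0} := by
  have c1 : Continuous fun p : Cn n × L (Cn n) => zb p.2 := by unfold zb; fun_prop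
  have c2 : Continuous fun p : Cn n × L (Cn n) => nu p.1 p.2 := by unfold nu; fun_prop
  have c3 : Continuous fun p : Cn n × L (Cn n) => (2 * ((‖p.1‖ ^ 2 : ℝ) : ℂ)) := by fun_prop
  have c4 : ContinuousOn (fun p : Cn n × L (Cn n) => lz p.1 p.2) {p | p.1 ≠ 0} :=
    c2.continuousOn.div c3.continuousOn fun p hp => by simpa using hp
  exact c1.continuousOn.add
    ((continuousOn_const.mul c4).smul (cont_cj.comp continuous_fst).continuousOn)

theorem sys (hP : PowS) (s : ℝ) (w : Cn n) (N : L (Cn n)) (hw : w ≠ 0)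
    (h1 : ∀ a, (fderiv ℝ (pw (-s)) w (N 1) a + I * fderiv ℝ (pw (-s)) w (N I) a).im = 0)
    (h2 : ∀ a, (fderiv ℝ (pw s) w (N 1) a + I * fderiv ℝ (pw s) w (N I) a).re = 0) :
    Op s w N = 0 := by
  have a0 : 0 < ‖w‖ := norm_pos_iff.2 hw
  have p1 : ‖w‖ ^ (-s) ≠ 0 := (Real.rpow_pos_of_pos a0 _).ne'
  have p2 : ‖w‖ ^ s ≠ 0 := (Real.rpow_pos_of_pos a0 _).ne'
  set x : ℝ := inner ℝ w (N 1) / ‖w‖ ^ 2 with hx
  set y : ℝ := inner ℝ w (N I) / ‖w‖ ^ 2 with hy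
  have hl : lz w N = ((x : ℂ) - I * y) / 2 := by
    have h0 : (‖w‖ : ℂ) ≠ 0 := by simpa using hw
    rw [lz, hx, hy]; push_cast; field_simp
  ext a
  have k1 := h1 a
  have k2 := h2 a
  rw [(hP _).der _ _ _ hw, (hP _).der _ _ _ hw, mul_div_assoc, mul_div_assoc, ← hx, ← hy] at k1 k2
  simp only [PiLp.smul_apply, PiLp.add_apply, real_smul, add_im, add_re, mul_im, mul_re, I_re,
    I_im, ofReal_re, ofReal_im] at k1 k2
  have e1 : (N 1 a).im - s * x * (w a).im + (N I a).re - s * y * (w a).re = 0 :=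
    mul_left_cancel₀ p1 (by linear_combination k1)
  have e2 : (N 1 a).re + s * x * (w a).re - (N I a).im - s * y * (w a).im = 0 :=
    mul_left_cancel₀ p2 (by linear_combination k2)
  simp only [Op, zb, hl, PiLp.add_apply, PiLp.smul_apply, smul_eq_mul, cj_apply, PiLp.zero_apply]
  apply Complex.ext
  · simp
    linear_combination (1 / 2) * e2
  · simp
    linear_combination (1 / 2) * e1

end AlgA

theorem alg : PowS → AlgS := fun hP _ =>
  { n1 := AlgA.n1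
    jc := AlgA.jc_eq
    gar := AlgA.gar
    clm := AlgA.clm
    near := AlgA.near
    cont := AlgA.cont
    sys := AlgA.sys hP }

end Pool.Agent.MP_815c6c_an.Q
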