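import Mathlib.Algebra.Lie.OfAssociative
import Mathlib.Algebra.Ring.IsFormallyReal
import Mathlib.Analysis.CStarAlgebra.Module.Constructions
import Mathlib.Analysis.Calculus.BumpFunction.Convolution
import Mathlib.Analysis.Calculus.FDeriv.Symmetric
import Mathlib.Analysis.Calculus.LineDeriv.IntegrationByParts
import Mathlib.MeasureTheory.Function.L2Space
import Mathlib.MeasureTheory.Measure.Lebesgue.VolumeOfBalls
import Pool.Agent.MP_815c6c_an.P.Basic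
import Pool.Agent.MP_815c6c_an.N.XSpec

-- ======== part 0: formerly Pool.Agent.MP_815c6c_an.Q.Defs
section MrgPart0

/-! Planar p-harmonic maps: definitions. Note: `/team-store/PLAP_T4_shell.md`. -/

set_option autoImplicit false

noncomputable section

namespace Pool.Agent.MP_815c6c_an.Q

open Set Metric MeasureTheory Filter Topology Complex
open scoped ContDiff ENNReal ComplexConjugate
open P (vo Ts Cu)

/-- values; a real and a complex inner product space -/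
abbrev Cn (n : ℕ) : Type := EuclideanSpace ℂ (Fin n)

/-- real linear maps on the plane -/
abbrev L (E : Type) [NormedAddCommGroup E] [NormedSpace ℝ E] : Type := ℂ →L[ℝ] E

section
variable {E : Type} [NormedAddCommGroup E] [NormedSpace ℝ E]

/-- dominated convergence of maps and derivatives -/
def Dom (U : Set ℂ) (u : ℕ → ℂ → E) (D : ℕ → ℂ → L E) (u0 : ℂ → E) (D0 : ℂ → L E) : Prop :=
  ∃ g : ℂ → ℝ, MemLp g 2 (vo U) ∧ ∀ᵐ z ∂vo U, (∀ n, ‖u n z‖ ≤ g z ∧ ‖D n z‖ ≤ g z) ∧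
    Tendsto (fun n => u n z) atTop (𝓝 (u0 z)) ∧ Tendsto (fun n => D n z) atTop (𝓝 (D0 z))

/-- Sobolev maps with their derivative, as limits of smooth maps -/
def Sb (U : Set ℂ) (u : ℂ → E) (D : ℂ → L E) : Prop :=
  ∃ v : ℕ → ℂ → E, (∀ n, ContDiff ℝ ∞ (v n)) ∧ Dom U v (fun n => fderiv ℝ (v n)) u D

/-- radial powers -/
def pw (a : ℝ) (w : E) : E := ‖w‖ ^ a • w

/-- the exterior derivative of a one form, pulled back by `N` -/
def dl (lam : E → E →L[ℝ] ℝ) (w : E) (N : L E) : ℝ :=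
  fderiv ℝ lam w (N 1) (N I) - fderiv ℝ lam w (N I) (N 1)

/-- mean value and mean oscillation on a disc -/
def av (f : ℂ → E) (x : ℂ) (r : ℝ) : E := ⨍ z in ball x r, f z
def osc (f : ℂ → E) (x : ℂ) (r : ℝ) : ℝ := √(⨍ z in ball x r, ‖f z - av f x r‖ ^ 2)

open Classical in
/-- the derivative off the zeros -/
def Dz (F : ℂ → E) (z : ℂ) : L E := if F z = 0 then 0 else fderiv ℝ F z

/-- bounded difference quotients -/
def Dq (R : ℝ) (V : ℂ → E) : Prop := ∃ C τ : ℝ, 0 < τ ∧ ∀ h : ℂ, ‖h‖ < τ →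
  ∫⁻ z in ball 0 R, ‖V (z + h) - V z‖ₑ ^ 2 ≤ ENNReal.ofReal (C * ‖h‖ ^ 2)
end

/-- the squared `L^2` norm -/
def en {E : Type} [NormedAddCommGroup E] (U : Set ℂ) (f : ℂ → E) : ℝ := ∫ z in U, ‖f z‖ ^ 2

variable {n : ℕ}

/-- the complex conjugate -/
def cj (w : Cn n) : Cn n := WithLp.toLp 2 fun a => conj (w a)

/-- the Wirtinger derivatives -/
def zd (N : L (Cn n)) : Cn n := (1 / 2 : ℂ) • (N 1 - I • N I)
def zb (N : L (Cn n)) : Cn n := (1 / 2 : ℂ) • (N 1 + I • N I)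

/-- the `z` derivative of the logarithm of the norm -/
def lz (w : Cn n) (N : L (Cn n)) : ℂ :=
  ((inner ℝ w (N 1) : ℝ) - I * (inner ℝ w (N I) : ℝ)) / (2 * (‖w‖ ^ 2 : ℝ))

/-- the operator frozen at `w` -/
def Op (s : ℝ) (w : Cn n) (N : L (Cn n)) : Cn n := zb N + (s * lz w N) • cj w

/-- the sum of the Jacobians -/
def jc (N : L (Cn n)) : ℝ := (inner ℂ (N 1) (N I)).im

/-- the weak equations -/
def Wk (s : ℝ) (U : Set ℂ) (F : ℂ → Cn n) : Prop :=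
  ∀ a, Cu U (fun z => pw (-s) (F z) a) ∧ Cu U fun z => I * pw s (F z) a

/-- continuous solutions -/
def Sol (s : ℝ) (U : Set ℂ) (F : ℂ → Cn n) : Prop := ContinuousOn F U ∧ Wk s U F

/-- the regularity of continuous solutions -/
structure Reg (s : ℝ) (U : Set ℂ) (F : ℂ → Cn n) : Prop where
  c0 : ContinuousOn F U
  c1 : ∀ z ∈ U, F z ≠ 0 → ContDiffAt ℝ 1 F z ∧ Op s (F z) (fderiv ℝ F z) = 0
  sb : ∀ x r, closedBall x r ⊆ U → Sb (ball x r) F (Dz F)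

/-- what the core may use -/
structure Shell (n : ℕ) (s : ℝ) : Prop where
  s1 : ∀ (U : Set ℂ) (F : ℂ → Cn n), IsOpen U → Sol s U F → ∀ z ∈ U, F z ≠ 0 →
    ContDiffAt ℝ 1 F z ∧ Op s (F z) (fderiv ℝ F z) = 0
  s2 : ∀ (U : Set ℂ) (F : ℂ → Cn n), IsOpen U → Sol s U F →
    (∀ K ⊆ U, IsCompact K → MemLp (Dz F) 2 (vo K)) ∧
    ∀ (al : Cn n → Cn n →L[ℝ] ℝ) (η : ℂ → ℝ), ContDiff ℝ 1 al → ContDiff ℝ 1 η →
      HasCompactSupport η → tsupport η ⊆ U →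
      Integrable (fun z => η z * dl al (F z) (Dz F z)) ∧
      Integrable (fun z => fderiv ℝ η z 1 * al (F z) (Dz F z I) -
        fderiv ℝ η z I * al (F z) (Dz F z 1)) ∧
      ∫ z, η z * dl al (F z) (Dz F z) =
        -∫ z, (fderiv ℝ η z 1 * al (F z) (Dz F z I) - fderiv ℝ η z I * al (F z) (Dz F z 1))
  s3 : ∃ a C : ℝ, 0 < a ∧ 0 ≤ C ∧ ∀ (F : ℂ → Cn n) (x : ℂ) (r M : ℝ), 0 < r →
    Sol s (ball x (2 * r)) F → (∀ y ∈ ball x (2 * r), ‖F y‖ ≤ M) →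
    ∀ y ∈ ball x r, ‖F y - F x‖ ≤ C * M * (‖y - x‖ / r) ^ a
  s4 : ∀ F : ℕ → ℂ → Cn n, (∀ j, Sol s univ (F j)) →
    (∀ R : ℝ, ∃ M : ℝ, ∀ j, ∀ z ∈ ball (0 : ℂ) R, ‖F j z‖ ≤ M) →
    ∃ (φ : ℕ → ℕ) (G : ℂ → Cn n), StrictMono φ ∧ Sol s univ G ∧
      TendstoLocallyUniformly (fun j => F (φ j)) G atTop ∧
      ∀ K : Set ℂ, IsCompact K → (∀ z ∈ K, G z ≠ 0) →
        TendstoUniformlyOn (fun j => fderiv ℝ (F (φ j))) (fderiv ℝ G) atTop K
  s5 : ∀ (U U' : Set ℂ) (F : ℂ → Cn n) (x : ℂ) (r c : ℝ), 0 < r → 0 < c →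
    (∀ z ∈ U', x + r * z ∈ U) → Sol s U F → Sol s U' fun z => c • F (x + r * z)

/-- the Liouville theorem -/
def LiouS (n : ℕ) (s : ℝ) : Prop := ∃ ε : ℝ, 0 < ε ∧ ∀ (F : ℂ → Cn n) (C : ℝ), Sol s univ F →
  (∀ z, ‖F z‖ ≤ C * (1 + ‖z‖) ^ (1 + ε)) → ∀ z, F z = F 0

end Pool.Agent.MP_815c6c_an.Q

end
end MrgPart0

-- ======== part 1: formerly Pool.Agent.MP_815c6c_an.Q.Spec
section MrgPart1

/-! Planar p-harmonic maps: the statements of the shell. Note: `/team-store/PLAP_T4_shell.md`. -/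

set_option autoImplicit false

noncomputable section

namespace Pool.Agent.MP_815c6c_an.Q

open Set Metric MeasureTheory Filter Topology Complex Bornology
open scoped ContDiff ENNReal ComplexConjugate
open P (vo Ts Cu ml)

/-! A. kits -/

section
variable (E : Type) [NormedAddCommGroup E] [NormedSpace ℝ E]

/-- closure properties of the Sobolev class -/
structure Sob : Prop where
  l2 : ∀ (U : Set ℂ) (u : ℕ → ℂ → E) (D : ℕ → ℂ → L E) (u0 : ℂ → E) (D0 : ℂ → L E),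
    (∀ n, Sb U (u n) (D n)) → AEStronglyMeasurable u0 (vo U) → AEStronglyMeasurable D0 (vo U) →
    Tendsto (fun n => eLpNorm (u n - u0) 2 (vo U)) atTop (𝓝 0) →
    Tendsto (fun n => eLpNorm (D n - D0) 2 (vo U)) atTop (𝓝 0) → Sb U u0 D0
  dom : ∀ (U : Set ℂ) (u : ℕ → ℂ → E) (D : ℕ → ℂ → L E) (u0 : ℂ → E) (D0 : ℂ → L E),
    (∀ n, Sb U (u n) (D n)) → Dom U u D u0 D0 → Sb U u0 D0
  sm : ∀ (U : Set ℂ) (u : ℂ → E), IsBounded U → MeasurableSet U → ContDiff ℝ ∞ u →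
    Sb U u (fderiv ℝ u)
  lin : ∀ (U : Set ℂ) (u u' : ℂ → E) (D D' : ℂ → L E) (t t' : ℝ) (B : L E) (c : E),
    IsBounded U → MeasurableSet U → Sb U u D → Sb U u' D' →
    Sb U (fun z => t • u z + t' • u' z + B z + c) fun z => t • D z + t' • D' z + B
  sca : ∀ (U U' : Set ℂ) (u : ℂ → E) (D : ℂ → L E) (a b : ℂ), b ≠ 0 → MeasurableSet U' →
    (∀ z ∈ U', a + b * z ∈ U) → Sb U u D →
    Sb U' (fun z => u (a + b * z)) fun z => (D (a + b * z)).comp (ml b)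
  chain : ∀ (E' : Type) [NormedAddCommGroup E'] [NormedSpace ℝ E'] (U : Set ℂ) (u : ℂ → E)
    (D : ℂ → L E) (Φ : E → E') (b : ℝ), IsBounded U → Sb U u D → ContDiff ℝ ∞ Φ →
    (∀ w, ‖fderiv ℝ Φ w‖ ≤ b) →
    Sb U (fun z => Φ (u z)) fun z => (fderiv ℝ Φ (u z)).comp (D z)

/-- integration by parts and its consequences -/
def Part : Prop := ∀ (U : Set ℂ) (u : ℂ → E) (D : ℂ → L E), IsOpen U → IsBounded U → Sb U u D →
  (∀ φ : ℂ → ℝ, ContDiff ℝ 1 φ → HasCompactSupport φ → tsupport φ ⊆ U → ∀ v : ℂ,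
    Integrable (fun z => fderiv ℝ φ z v • u z) ∧ Integrable (fun z => φ z • D z v) ∧
    ∫ z, fderiv ℝ φ z v • u z = -∫ z, φ z • D z v) ∧
  (∀ᵐ z ∂vo U, u z = 0 → D z = 0) ∧
  (∀ O ⊆ U, IsOpen O → ContDiffOn ℝ 1 u O → ∀ᵐ z ∂vo O, D z = fderiv ℝ u z) ∧
  ∀ O ⊆ U, IsOpen O → ContinuousOn u O → ∀ D' : ℂ → L E, ContinuousOn D' O → D' =ᵐ[vo O] D →
    ∀ z ∈ O, HasFDerivAt u (D' z) z

/-- mean values and oscillations -/
structure Osc : Prop where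
  nn : ∀ (f : ℂ → E) x r, 0 ≤ osc f x r
  congr : ∀ (f g : ℂ → E) x r, f =ᵐ[vo (ball x r)] g → av f x r = av g x r ∧ osc f x r = osc g x r
  en_eq : ∀ (f : ℂ → E) x r, 0 < r →
    en (ball x r) (fun z => f z - av f x r) = Real.pi * r ^ 2 * osc f x r ^ 2
  le : ∀ (f : ℂ → E) x r (c : E) (B : ℝ), 0 < r → 0 ≤ B → MemLp f 2 (vo (ball x r)) →
    en (ball x r) (fun z => f z - c) ≤ Real.pi * r ^ 2 * B ^ 2 →
    ‖av f x r - c‖ ≤ B ∧ osc f x r ≤ 2 * B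
  sup : ∀ (f : ℂ → E) x r (c : E) (B : ℝ), 0 < r → AEStronglyMeasurable f (vo (ball x r)) →
    (∀ z ∈ ball x r, ‖f z - c‖ ≤ B) →
    MemLp f 2 (vo (ball x r)) ∧ ‖av f x r - c‖ ≤ B ∧ osc f x r ≤ 2 * B
  sub : ∀ (f : ℂ → E) x r y ρ, 0 < ρ → ball y ρ ⊆ ball x r → MemLp f 2 (vo (ball x r)) →
    ‖av f y ρ - av f x r‖ ≤ r / ρ * osc f x r ∧ osc f y ρ ≤ 2 * (r / ρ) * osc f x r
  tot : ∀ (f : ℂ → E) x r, 0 < r → MemLp f 2 (vo (ball x r)) →
    en (ball x r) f ≤ 2 * Real.pi * r ^ 2 * (osc f x r ^ 2 + ‖av f x r‖ ^ 2)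
  sca : ∀ (f : ℂ → E) (x : ℂ) (r c ρ : ℝ), 0 < r → 0 ≤ c →
    av (fun z => c • f (x + r * z)) 0 ρ = c • av f x (r * ρ) ∧
    osc (fun z => c • f (x + r * z)) 0 ρ = c * osc f x (r * ρ) ∧
    en (ball 0 ρ) (fun z => f (x + r * z)) = (r ^ 2)⁻¹ * en (ball x (r * ρ)) f ∧
    (MemLp f 2 (vo (ball x (r * ρ))) → MemLp (fun z => c • f (x + r * z)) 2 (vo (ball 0 ρ))) ∧
    ∀ p : ℂ → Prop, (∀ᵐ z ∂vo (ball x (r * ρ)), p z) ↔ ∀ᵐ z ∂vo (ball 0 ρ), p (x + r * z)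
  mono : ∀ (f : ℂ → E) (U U' : Set ℂ), U' ⊆ U → MemLp f 2 (vo U) → en U' f ≤ en U f
  lim : ∀ (f : ℕ → ℂ → E) (g : ℂ → E) x r, 0 < r → (∀ᶠ j in atTop, MemLp (f j) 2 (vo (ball x r))) →
    TendstoUniformlyOn f g atTop (ball x r) →
    Tendsto (fun j => av (f j) x r) atTop (𝓝 (av g x r)) ∧
    Tendsto (fun j => osc (f j) x r) atTop (𝓝 (osc g x r))

/-- the Stokes formula -/
def Sto : Prop := ∀ (U : Set ℂ) (u : ℂ → E) (D : ℂ → L E), IsOpen U → IsBounded U → Sb U u D →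
  ∀ (al : E → E →L[ℝ] ℝ) (η : ℂ → ℝ), ContDiff ℝ 1 al → ContDiff ℝ 1 η → HasCompactSupport η →
    tsupport η ⊆ U → ((∃ b, ∀ w, ‖fderiv ℝ al w‖ ≤ b) ∨ ContinuousOn u U) →
    Integrable (fun z => η z * dl al (u z) (D z)) ∧
    Integrable (fun z => fderiv ℝ η z 1 * al (u z) (D z I) - fderiv ℝ η z I * al (u z) (D z 1)) ∧
    ∫ z, η z * dl al (u z) (D z) =
      -∫ z, (fderiv ℝ η z 1 * al (u z) (D z I) - fderiv ℝ η z I * al (u z) (D z 1))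
end

def SobS : Prop := ∀ (E : Type) [NormedAddCommGroup E] [NormedSpace ℝ E], Sob E
def PartS : Prop := ∀ (E : Type) [NormedAddCommGroup E] [NormedSpace ℝ E] [CompleteSpace E]
  [FiniteDimensional ℝ E], Part E
def OscS : Prop := ∀ (E : Type) [NormedAddCommGroup E] [NormedSpace ℝ E] [CompleteSpace E], Osc E
def StoS : Prop := ∀ (E : Type) [NormedAddCommGroup E] [NormedSpace ℝ E]
  [FiniteDimensional ℝ E], Sto E

/-- radial powers -/
structure Pow (E : Type) [NormedAddCommGroup E] [InnerProductSpace ℝ E] : Prop where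
  norm : ∀ (a : ℝ) (w : E), -1 < a → ‖pw a w‖ = ‖w‖ ^ (a + 1)
  cont : ∀ a : ℝ, -1 < a → Continuous (pw a : E → E)
  sm : ∀ a : ℝ, ContDiffOn ℝ ∞ (pw a : E → E) {0}ᶜ
  comp : ∀ (a b : ℝ) (w : E), -1 < b → pw a (pw b w) = pw ((a + 1) * (b + 1) - 1) w
  smul : ∀ (a c : ℝ) (w : E), 0 < c → pw a (c • w) = c ^ (a + 1) • pw a w
  der : ∀ (a : ℝ) (w X : E), w ≠ 0 →
    fderiv ℝ (pw a) w X = ‖w‖ ^ a • (X + (a * inner ℝ w X / ‖w‖ ^ 2) • w)
  mon : ∀ (s : ℝ) (x y : E), 0 ≤ s → s < 1 →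
    (1 - s) * ‖x - y‖ ^ 2 ≤ inner ℝ (pw s x - pw s y) (pw (-s) x - pw (-s) y)
  lip : ∀ a : ℝ, 0 ≤ a → ∃ C : ℝ, 0 < C ∧ ∀ x y : E,
    ‖pw a x - pw a y‖ ≤ C * ((‖x‖ + ‖y‖) ^ a * ‖x - y‖)

def PowS : Prop := ∀ (E : Type) [NormedAddCommGroup E] [InnerProductSpace ℝ E], Pow E

/-- the first order system -/
structure Alg (n : ℕ) : Prop where
  n1 : ∀ N : L (Cn n), ‖zd N‖ ≤ ‖N‖ ∧ ‖zb N‖ ≤ ‖N‖ ∧ ‖N‖ ≤ ‖zd N‖ + ‖zb N‖
  jc : ∀ N : L (Cn n), jc N = ‖zd N‖ ^ 2 - ‖zb N‖ ^ 2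
  gar : ∀ (s : ℝ) (w : Cn n) (N : L (Cn n)), 0 ≤ s → s < 1 →
    ‖zb N‖ ≤ s / (2 - s) * ‖zd N‖ + 2 * ‖Op s w N‖
  clm : ∀ (s : ℝ) (w : Cn n), |s| ≤ 1 →
    ∃ A : L (Cn n) →L[ℝ] Cn n, ‖A‖ ≤ 2 ∧ ∀ N, Op s w N = A N
  near : ∀ (s o : ℝ) (w m : Cn n) (N : L (Cn n)), |s| ≤ 1 → m ≠ 0 → o ≤ 1 / 2 →
    ‖w - m‖ ≤ o * ‖m‖ → ‖Op s w N - Op s m N‖ ≤ 8 * o * ‖N‖
  cont : ∀ s : ℝ, ContinuousOn (fun p : Cn n × L (Cn n) => Op s p.1 p.2) {p | p.1 ≠ 0}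
  sys : ∀ (s : ℝ) (w : Cn n) (N : L (Cn n)), w ≠ 0 →
    (∀ a, (fderiv ℝ (pw (-s)) w (N 1) a + I * fderiv ℝ (pw (-s)) w (N I) a).im = 0) →
    (∀ a, (fderiv ℝ (pw s) w (N 1) a + I * fderiv ℝ (pw s) w (N I) a).re = 0) → Op s w N = 0

def AlgS : Prop := ∀ n, Alg n

/-- invariance of the weak equations -/
def ScaS : Prop := ∀ (n : ℕ) (s : ℝ) (U : Set ℂ) (F : ℂ → Cn n), Wk s U F →
  (∀ (U' : Set ℂ) (x : ℂ) (r c : ℝ), 0 < r → 0 < c → (∀ z ∈ U', x + r * z ∈ U) →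
    Wk s U' fun z => c • F (x + r * z)) ∧
  ∀ F' : ℂ → Cn n, MeasurableSet U → F' =ᵐ[vo U] F → Wk s U F'

/-- the bundle of the kits -/
structure Kit : Prop where
  sob : SobS
  part : PartS
  osc : OscS
  sto : StoS
  pow : PowS
  alg : AlgS
  sca : ScaS

/-! B. entry -/

def DqS : Prop := ∀ (n : ℕ) (s r R : ℝ) (V : ℂ → Cn n), 0 ≤ s → s < 1 → r < R →
  MemLp V 2 (vo (ball 0 R)) → Wk s (ball 0 R) V → Dq r V

def WkS : Prop := ∀ n : ℕ,
  (∀ (r R R' : ℝ) (V : ℂ → Cn n), r < R → R < R' → MemLp V 2 (vo (ball 0 R')) → Dq R V →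
    ∃ D, Sb (ball 0 r) V D) ∧
  ∀ (r R : ℝ) (V : ℂ → Cn n) (D : ℂ → L (Cn n)), r < R → Sb (ball 0 R) V D →
    MemLp V 4 (vo (ball 0 r))

/-- the pointwise equation -/
def PtS : Prop := ∀ (n : ℕ) (R : ℝ) (V : ℂ → Cn n) (Ψ : Cn n → ℂ) (D : ℂ → L (Cn n)),
  Sb (ball 0 R) V D → ContDiffOn ℝ ∞ Ψ {0}ᶜ → MemLp (fun z => Ψ (V z)) 2 (vo (ball 0 R)) →
  Cu (ball 0 R) (fun z => Ψ (V z)) → ∀ᵐ z ∂vo (ball 0 R), V z ≠ 0 →
    (fderiv ℝ Ψ (V z) (D z 1) + I * fderiv ℝ Ψ (V z) (D z I)).im = 0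

/-- weak solutions are Sobolev and solve the system -/
def NatS : Prop := ∀ (n : ℕ) (s r R : ℝ) (x : ℂ) (V : ℂ → Cn n), 0 ≤ s → s < 1 → r < R →
  MemLp V 2 (vo (ball x R)) → Wk s (ball x R) V → ∃ D, Sb (ball x r) V D ∧
    ∀ᵐ z ∂vo (ball x r), Op s (V z) (D z) = 0 ∧ (V z = 0 → D z = 0)

/-! C. Hölder continuity -/

/-- the Caccioppoli inequality with a right hand side -/
def CacS : Prop := ∀ k : ℝ, 0 ≤ k → k < 1 → ∃ C : ℝ, 0 ≤ C ∧ ∀ (n : ℕ) (u : ℂ → Cn n)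
  (D : ℂ → L (Cn n)) (g : ℂ → ℝ) (c : Cn n) (x : ℂ) (r : ℝ), 0 < r → Sb (ball x (2 * r)) u D →
  MemLp g 2 (vo (ball x (2 * r))) →
  (∀ᵐ z ∂vo (ball x (2 * r)), ‖zb (D z)‖ ≤ k * ‖zd (D z)‖ + g z) →
  en (ball x r) D ≤ C * ((r ^ 2)⁻¹ * en (ball x (2 * r) \ ball x r) (fun z => u z - c) +
    en (ball x (2 * r)) g)

/-- the Poincaré inequalities on discs and on annuli -/
def PoiS : Prop := ∃ C : ℝ, 0 ≤ C ∧ ∀ (E : Type) [NormedAddCommGroup E] [NormedSpace ℝ E]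
  [CompleteSpace E] (u : ℂ → E) (D : ℂ → L E) (x : ℂ) (r : ℝ), 0 < r →
  (Sb (ball x r) u D → ∃ c, en (ball x r) (fun z => u z - c) ≤ C * r ^ 2 * en (ball x r) D) ∧
  (Sb (ball x (2 * r)) u D → ∃ c, en (ball x (2 * r) \ ball x r) (fun z => u z - c) ≤
    C * r ^ 2 * en (ball x (2 * r) \ ball x r) D)

/-- the Campanato criterion -/
def CamS : Prop := ∀ α : ℝ, 0 < α → α ≤ 1 → ∃ C : ℝ, 0 ≤ C ∧ ∀ (E : Type) [NormedAddCommGroup E]
  [NormedSpace ℝ E] [CompleteSpace E] (u : ℂ → E) (x : ℂ) (r K : ℝ), 0 < r → 0 ≤ K →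
  MemLp u 2 (vo (ball x (2 * r))) →
  (∀ y ∈ ball x r, ∀ ρ ∈ Ioc (0 : ℝ) r, osc u y ρ ≤ K * (ρ / r) ^ α) →
  ∃ W : ℂ → E, W =ᵐ[vo (ball x r)] u ∧
    (∀ y ∈ ball x r, ∀ y' ∈ ball x r, ‖W y - W y'‖ ≤ C * K * (‖y - y'‖ / r) ^ α) ∧
    ∀ y ∈ ball x r, ‖W y - av u x r‖ ≤ C * K

/-- the estimate for a representative `W` -/
def Hol {n : ℕ} (α C : ℝ) (F W : ℂ → Cn n) (x : ℂ) (r : ℝ) : Prop :=
  (∀ y ∈ ball x (r / 8), ∀ y' ∈ ball x (r / 8),
    ‖W y - W y'‖ ≤ C * osc F x r * (‖y - y'‖ / r) ^ α) ∧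
  ∀ y ∈ ball x (r / 8), ‖W y - av F x r‖ ≤ C * osc F x r

def HolS : Prop := ∀ s : ℝ, 0 ≤ s → s < 1 → ∃ α C : ℝ, 0 < α ∧ α ≤ 1 ∧ 0 ≤ C ∧
  ∀ (n : ℕ) (F : ℂ → Cn n) (x : ℂ) (r : ℝ), 0 < r → Wk s (ball x r) F →
    MemLp F 2 (vo (ball x r)) → (∃ W, W =ᵐ[vo (ball x (r / 8))] F ∧ Hol α C F W x r) ∧
      (ContinuousOn F (ball x r) → Hol α C F F x r)

/-! D. the nondegenerate regime -/

/-- a Sobolev embedding -/
def SupS : Prop := ∀ ρ : ℝ, 0 < ρ → ∃ C : ℝ, 0 ≤ C ∧ ∀ (E : Type) [NormedAddCommGroup E]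
  [NormedSpace ℝ E] [CompleteSpace E] (f : ℂ → E), ContDiff ℝ ∞ f → ∀ y ∈ ball (0 : ℂ) ρ,
  ‖f y‖ ^ 2 ≤ C * (en (ball 0 (2 * ρ)) f + en (ball 0 (2 * ρ)) (fun z => fderiv ℝ f z 1) +
    en (ball 0 (2 * ρ)) (fun z => fderiv ℝ f z I) +
    en (ball 0 (2 * ρ)) fun z => fderiv ℝ (fun w => fderiv ℝ f w I) z 1)

/-- the interior estimate for a mollification -/
def IntS : Prop := ∀ s : ℝ, 0 ≤ s → s < 1 → ∃ C₀ : ℝ, 0 ≤ C₀ ∧ ∀ τ : ℝ, 0 < τ → τ ≤ 1 / 2 →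
  ∃ C : ℝ, 0 ≤ C ∧ ∀ (n : ℕ) (m : Cn n) (u : ℂ → Cn n), ContDiff ℝ ∞ u →
    ∃ (c : Cn n) (N : L (Cn n)) (v : ℂ → Cn n), Continuous v ∧
      en (ball 0 (1 / 2)) (fun z => u z - v z) ≤ τ ^ 2 * en (ball 0 1) (fderiv ℝ u) ∧
      ‖Op s m N‖ ^ 2 ≤ C * en (ball 0 1) (fun z => Op s m (fderiv ℝ u z)) ∧
      ∀ y ∈ ball (0 : ℂ) (1 / 32), ‖v y - c - N y‖ ^ 2 ≤ (C₀ * en (ball 0 1) (fderiv ℝ u) +
        C * en (ball 0 1) fun z => Op s m (fderiv ℝ u z)) * ‖y‖ ^ 4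

/-- the decay for the frozen operator -/
def LinS : Prop := ∀ s : ℝ, 0 ≤ s → s < 1 → ∃ C₀ : ℝ, 0 ≤ C₀ ∧ ∀ θ : ℝ, 0 < θ → θ ≤ 1 / 64 →
  ∃ C : ℝ, 0 ≤ C ∧ ∀ (n : ℕ) (m : Cn n) (u : ℂ → Cn n) (D : ℂ → L (Cn n)), Sb (ball 0 1) u D →
    osc D 0 θ ^ 2 ≤ C₀ * θ ^ 2 * en (ball 0 1) D + C * en (ball 0 1) fun z => Op s m (D z)

/-- one step of the iteration -/
def StpS : Prop := ∀ s : ℝ, 0 ≤ s → s < 1 → ∃ C₀ : ℝ, 0 ≤ C₀ ∧ ∀ θ : ℝ, 0 < θ → θ ≤ 1 / 64 →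
  ∃ C : ℝ, 0 ≤ C ∧ ∀ (n : ℕ) (m : Cn n) (F : ℂ → Cn n) (D : ℂ → L (Cn n)) (y : ℂ) (ρ o : ℝ),
    0 < ρ → m ≠ 0 → o ≤ 1 / 2 → Sb (ball y ρ) F D →
    (∀ᵐ z ∂vo (ball y ρ), Op s (F z) (D z) = 0) → (∀ z ∈ ball y ρ, ‖F z - m‖ ≤ o * ‖m‖) →
    osc D y (θ * ρ) ≤ C₀ * θ * osc D y ρ + C * o * (osc D y ρ + ‖av D y ρ‖)

/-- the iteration -/
def IteS : Prop := ∀ s α : ℝ, 0 ≤ s → s < 1 → 0 < α → α ≤ 1 → ∃ δ C : ℝ, 0 < δ ∧ 0 ≤ C ∧
  ∀ (n : ℕ) (F : ℂ → Cn n) (D : ℂ → L (Cn n)) (y : ℂ) (r : ℝ), 0 < r → F y ≠ 0 →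
    Sb (ball y r) F D → (∀ᵐ z ∂vo (ball y r), Op s (F z) (D z) = 0) →
    (∀ z ∈ ball y r, ‖F z - F y‖ ≤ δ * (‖z - y‖ / r) ^ α * ‖F y‖) →
    ∀ ρ ∈ Ioc (0 : ℝ) r, osc D y ρ ≤ C * (osc D y r + ‖av D y r‖) * (ρ / r) ^ (α / 2)

def NdS : Prop := ∀ s : ℝ, 0 ≤ s → s < 1 → ∃ δ β C : ℝ, 0 < δ ∧ 0 < β ∧ 0 ≤ C ∧
  ∀ (n : ℕ) (F : ℂ → Cn n) (x : ℂ) (r : ℝ), 0 < r → Sol s (ball x r) F →
    MemLp F 2 (vo (ball x r)) → osc F x r < δ * ‖av F x r‖ →
    (∀ y ∈ ball x (r / 64), F y ≠ 0 ∧ ‖fderiv ℝ F y‖ ≤ C * osc F x r / r) ∧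
    ContDiffOn ℝ 1 F (ball x (r / 64)) ∧ ∀ y ∈ ball x (r / 64), ∀ y' ∈ ball x (r / 64),
      ‖fderiv ℝ F y - fderiv ℝ F y'‖ ≤ C * osc F x r / r * (‖y - y'‖ / r) ^ β

def RegS : Prop := ∀ (n : ℕ) (s : ℝ) (U : Set ℂ) (F : ℂ → Cn n), 0 ≤ s → s < 1 → IsOpen U →
  Sol s U F → Reg s U F

/-! E. compactness -/

def CptS : Prop := ∀ (n : ℕ) (s : ℝ) (F : ℕ → ℂ → Cn n) (R : ℕ → ℝ), 0 ≤ s → s < 1 →
  Tendsto R atTop atTop → (∀ j, Sol s (ball 0 (R j)) (F j)) →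
  (∀ r : ℝ, ∃ M : ℝ, ∀ᶠ j in atTop, ∀ z ∈ ball (0 : ℂ) r, ‖F j z‖ ≤ M) →
  ∃ (φ : ℕ → ℕ) (G : ℂ → Cn n), StrictMono φ ∧ Sol s univ G ∧
    ∀ r : ℝ, TendstoUniformlyOn (fun j => F (φ j)) G atTop (ball 0 r)

def CvS : Prop := ∀ (n : ℕ) (s : ℝ) (F : ℕ → ℂ → Cn n) (G : ℂ → Cn n), 0 ≤ s → s < 1 →
  (∀ j, Sol s univ (F j)) → Sol s univ G →
  (∀ r : ℝ, TendstoUniformlyOn F G atTop (ball 0 r)) →
  ∀ K : Set ℂ, IsCompact K → (∀ z ∈ K, G z ≠ 0) →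
    TendstoUniformlyOn (fun j => fderiv ℝ (F j)) (fderiv ℝ G) atTop K

def ShlS : Prop := ∀ (n : ℕ) (s : ℝ), 0 ≤ s → s < 1 → Shell n s

/-! F. the end -/

/-- the degenerate regime -/
def DegS (n : ℕ) (s : ℝ) : Prop := ∃ ε : ℝ, 0 < ε ∧ ∀ δ : ℝ, 0 < δ → ∃ C : ℝ, 0 ≤ C ∧
  ∀ (F : ℂ → Cn n) (x : ℂ) (r ρ : ℝ), 0 < ρ → ρ ≤ r → Sol s (ball x r) F →
    MemLp F 2 (vo (ball x r)) → (∀ t ∈ Icc ρ r, δ * ‖av F x t‖ ≤ osc F x t) →
    osc F x ρ ≤ C * (ρ / r) ^ (1 + ε) * osc F x r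

def CoreS (n : ℕ) (s : ℝ) : Prop := ∃ C : ℝ, 0 ≤ C ∧ ∀ (F : ℂ → Cn n) (x : ℂ) (r : ℝ), 0 < r →
  Sol s (ball x r) F → MemLp F 2 (vo (ball x r)) → ContDiffOn ℝ 1 F (ball x (r / 4)) ∧
    ∀ y ∈ ball x (r / 4), ‖fderiv ℝ F y‖ ≤ C * osc F x r / r

def EndS (n : ℕ) (s : ℝ) : Prop := ∃ c : ℝ, ∀ (U : Set ℂ) (F : ℂ → Cn n), IsOpen U → Wk s U F →
  (∀ K ⊆ U, IsCompact K → MemLp F 2 (vo K)) →
  (∃ W : ℂ → Cn n, ContDiffOn ℝ 1 W U ∧ W =ᵐ[vo U] F) ∧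
  ∀ (x : ℂ) (r : ℝ), 0 < r → ball x r ⊆ U → MemLp F 2 (vo (ball x r)) →
    ∀ θ ∈ Ioc (0 : ℝ) 1, osc F x (θ * r) ≤ c * θ * osc F x r

def FinS : Prop := ∀ (n : ℕ) (p : ℝ), 2 < p → EndS n (1 - 2 / p) → N.Yes 2 n p

theorem fin_of (sob : SobS) (part : SobS → PartS) (osc : OscS) (sto : StoS) (pow : PowS)
    (alg : PowS → AlgS) (sca : PowS → ScaS) (dq : PowS → DqS) (wk : SobS → WkS) (pt : SobS → PtS)
    (nat : Kit → DqS → WkS → PtS → NatS) (cac : SobS → StoS → AlgS → CacS) (poi : PoiS)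
    (cam : OscS → CamS) (hol : Kit → NatS → CacS → PoiS → CamS → HolS) (sup : SupS)
    (int : Kit → CacS → SupS → IntS) (lin : Kit → CacS → IntS → LinS) (stp : Kit → LinS → StpS)
    (ite : Kit → StpS → IteS) (nd : Kit → NatS → CacS → CamS → HolS → IteS → NdS)
    (reg : Kit → NatS → NdS → RegS) (cpt : Kit → HolS → CptS) (cv : Kit → NdS → CvS)
    (shl : Kit → HolS → RegS → CptS → CvS → ShlS)
    (liou : ∀ n s, 0 < s → s < 1 → Shell n s → LiouS n s)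
    (deg : Kit → HolS → CptS → ∀ n s, 0 ≤ s → s < 1 → LiouS n s → DegS n s)
    (core : Kit → HolS → NdS → ∀ n s, 0 ≤ s → s < 1 → DegS n s → CoreS n s)
    (ends : Kit → HolS → ∀ n s, 0 ≤ s → s < 1 → CoreS n s → EndS n s) (fin : PowS → FinS)
    (n : ℕ) (p : ℝ) (hp : 2 < p) : N.Yes 2 n p :=
  have k : Kit := ⟨sob, part sob, osc, sto, pow, alg pow, sca pow⟩
  have na := nat k (dq pow) (wk sob) (pt sob)
  have ca := cac sob sto (alg pow)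
  have ho := hol k na ca poi (cam osc)
  have nd' := nd k na ca (cam osc) ho (ite k (stp k (lin k ca (int k ca sup))))
  have s0 : 0 < 1 - 2 / p := sub_pos.2 ((div_lt_one (by linarith)).2 hp)
  have s1 : 1 - 2 / p < 1 := sub_lt_self _ (div_pos two_pos (by linarith))
  fin pow n p hp (ends k ho n _ s0.le s1 (core k ho nd' n _ s0.le s1 (deg k ho (cpt k ho) n _ s0.le
    s1 (liou n _ s0 s1 (shl k ho (reg k na nd') (cpt k ho) (cv k nd') n _ s0.le s1)))))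

end Pool.Agent.MP_815c6c_an.Q

end
end MrgPart1

-- ======== part 2: formerly Pool.Agent.MP_815c6c_an.Q.Basic
section MrgPart2

/-! Planar p-harmonic maps: elementary facts. -/

set_option autoImplicit false

namespace Pool.Agent.MP_815c6c_an.Q

open Set Metric MeasureTheory Filter Topology Complex
open scoped ContDiff ENNReal ComplexConjugate
open P (vo Ts Cu)

section
variable {E : Type} [NormedAddCommGroup E] [NormedSpace ℝ E] {U U' : Set ℂ} {u u' : ℂ → E}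
  {D D' : ℂ → L E}

theorem L_apply (N : L E) (z : ℂ) : N z = z.re • N 1 + z.im • N I := by
  conv_lhs => rw [show z = z.re • (1 : ℂ) + z.im • I by simp]
  rw [map_add, map_smul, map_smul]

theorem L_ext {N N' : L E} (h1 : N 1 = N' 1) (h2 : N I = N' I) : N = N' :=
  ContinuousLinearMap.ext fun z => by rw [L_apply N, L_apply N', h1, h2]

theorem L_norm (N : L E) : ‖N 1‖ ≤ ‖N‖ ∧ ‖N I‖ ≤ ‖N‖ ∧ ‖N‖ ≤ ‖N 1‖ + ‖N I‖ := by
  refine ⟨by simpa using N.le_opNorm 1, by simpa using N.le_opNorm I,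
    N.opNorm_le_bound (by positivity) fun z => ?_⟩
  rw [L_apply, add_mul]
  refine (norm_add_le _ _).trans (add_le_add ?_ ?_) <;> rw [norm_smul, mul_comm] <;> gcongr
  exacts [abs_re_le_norm z, abs_im_le_norm z]

theorem Sb.mono (h : Sb U u D) (hU : U' ⊆ U) : Sb U' u D := by
  obtain ⟨v, hv, g, hg, h⟩ := h
  exact ⟨v, hv, g, hg.mono_measure (Measure.restrict_mono hU le_rfl),
    ae_restrict_of_ae_restrict_of_subset hU h⟩

theorem Sb.congr (h : Sb U u D) (h1 : u =ᵐ[vo U] u') (h2 : D =ᵐ[vo U] D') : Sb U u' D' := by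
  obtain ⟨v, hv, g, hg, h⟩ := h
  refine ⟨v, hv, g, hg, ?_⟩
  filter_upwards [h, h1, h2] with z a b c
  rwa [← b, ← c]

theorem Sb.memLp (h : Sb U u D) : MemLp u 2 (vo U) ∧ MemLp D 2 (vo U) := by
  obtain ⟨v, hv, g, hg, h⟩ := h
  refine ⟨hg.mono' (aestronglyMeasurable_of_tendsto_ae atTop
    (fun n => (hv n).continuous.aestronglyMeasurable) (h.mono fun z a => a.2.1))
    (h.mono fun z a => le_of_tendsto' a.2.1.norm fun n => (a.1 n).1),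
    hg.mono' (aestronglyMeasurable_of_tendsto_ae atTop
    (fun n => ((hv n).continuous_fderiv (by simp)).aestronglyMeasurable) (h.mono fun z a => a.2.2))
    (h.mono fun z a => le_of_tendsto' a.2.2.norm fun n => (a.1 n).2)⟩

theorem pw_zero (a : ℝ) : pw a (0 : E) = 0 := by simp [pw]
end

theorem sb_iff {U : Set ℂ} {u : ℂ → ℂ} {D : ℂ → L ℂ} : Sb U u D ↔ P.Sb U u D := Iff.rfl

theorem en_nonneg {E : Type} [NormedAddCommGroup E] (U : Set ℂ) (f : ℂ → E) : 0 ≤ en U f :=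
  integral_nonneg fun _ => sq_nonneg _

instance finB (x : ℂ) (r : ℝ) : IsFiniteMeasure (vo (ball x r)) :=
  isFiniteMeasure_restrict.2 measure_ball_lt_top.ne

variable {n : ℕ} {s : ℝ} {U U' : Set ℂ} {F : ℂ → Cn n}

theorem Wk.mono (h : Wk s U F) (hU : U' ⊆ U) : Wk s U' F :=
  fun a => ⟨(h a).1.mono hU, (h a).2.mono hU⟩

theorem Sol.mono (h : Sol s U F) (hU : U' ⊆ U) : Sol s U' F := ⟨h.1.mono hU, h.2.mono hU⟩

theorem cj_apply (w : Cn n) (a : Fin n) : cj w a = conj (w a) := rfl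

example : FiniteDimensional ℝ (L (Cn n)) ∧ CompleteSpace (L (Cn n)) ∧
    FiniteDimensional ℝ (Cn n) := ⟨inferInstance, inferInstance, inferInstance⟩

end Pool.Agent.MP_815c6c_an.Q

end MrgPart2

-- ======== part 3: formerly Pool.Agent.MP_815c6c_an.L.Spec
section MrgPart3

/-! Planar p-harmonic maps: the Liouville theorem, definitions and statements.
Note: `/team-store/PLAP_T4_helper50.md`. -/

set_option autoImplicit false

noncomputable section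

namespace Pool.Agent.MP_815c6c_an.L

open Set Metric MeasureTheory Filter Topology Complex
open scoped ContDiff ComplexConjugate
open Q

variable {n : ℕ}

/-! definitions -/

/-- the bilinear product -/
def bil (u v : Cn n) : ℂ := ∑ a, u a * v a
def J2 (w : Cn n) : ℝ := ‖w‖ ^ 4 - ‖bil w w‖ ^ 2
def ra (y : ℝ) (w : Cn n) : ℝ := √(1 + y ^ 2 * J2 w)
def rb (y : ℝ) (w : Cn n) : ℝ := √(1 + y ^ 2 * ‖w‖ ^ 4)
def uu (y : ℝ) (w : Cn n) : ℝ := (ra y w * (1 + ra y w))⁻¹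
def vv (y : ℝ) (w : Cn n) : ℝ := (rb y w * (1 + rb y w))⁻¹
def th (x : ℝ) : ℝ := x / (1 + √(1 + x ^ 2))
/-- the monotone one form -/
def vf (y : ℝ) (w : Cn n) : Cn n := I • ((y / (1 + ra y w)) • w -
  (y ^ 3 * ‖w‖ ^ 2 / ((1 + ra y w) * (1 + rb y w) * (ra y w + rb y w))) • bil w w • cj w)
def La (y : ℝ) (w : Cn n) : Cn n →L[ℝ] ℝ := innerSL ℝ (vf y w)

/-- invariants of a jet -/
def ph (w : Cn n) : ℂ := bil w w / (‖w‖ ^ 2 : ℝ)
def C2 (w : Cn n) : ℝ := J2 w / ‖w‖ ^ 4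
def pp (w : Cn n) (N : L (Cn n)) : ℂ := bil (zd N) (cj w) / (‖w‖ ^ 2 : ℝ)
def et (w : Cn n) (N : L (Cn n)) : ℂ := bil (zd N) w / (‖w‖ ^ 2 : ℝ) - pp w N * ph w
def be (w : Cn n) (N : L (Cn n)) : ℂ := et w N / (C2 w : ℝ)
def Z2 (w : Cn n) (N : L (Cn n)) : ℝ := ‖et w N‖ ^ 2 / C2 w
def Nn (w : Cn n) (N : L (Cn n)) : ℝ :=
  ‖zd N - (pp w N - be w N * conj (ph w)) • w - be w N • cj w‖ ^ 2 / ‖w‖ ^ 2
def X2 (y : ℝ) (w : Cn n) (N : L (Cn n)) : ℝ := uu y w * Z2 w N + vv y w * ‖lz w N‖ ^ 2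
def Y2 (w : Cn n) (N : L (Cn n)) : ℝ := Z2 w N + ‖lz w N‖ ^ 2
/-- the density in closed form -/
def mu (s y : ℝ) (w : Cn n) (N : L (Cn n)) : ℝ := 2 * (y * ‖w‖ ^ 2) *
  (-2 * ((y * ‖w‖ ^ 2) ^ 2 * uu y w * vv y w * (1 + (ra y w + rb y w)⁻¹)) *
      (lz w N * ph w * conj (et w N) + (s * C2 w : ℝ) * (lz w N ^ 2 * conj (ph w))).re +
    (1 + ra y w)⁻¹ * (‖zd N‖ ^ 2 / ‖w‖ ^ 2 - ‖pp w N‖ ^ 2) -
    (y * ‖w‖ ^ 2) ^ 2 * ‖et w N‖ ^ 2 / (ra y w * (1 + ra y w) ^ 2) -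
    uu y w * (s ^ 2 * C2 w * ‖lz w N‖ ^ 2) +
    4 * vv y w * (‖lz w N‖ ^ 2 + s * (lz w N ^ 2 * conj (ph w)).re))
/-- the limit form -/
def Lo (w X : Cn n) : ℝ := (bil X (cj w)).im / ‖w‖ ^ 2 -
  ((conj (bil w w) * bil w X).im / ‖w‖ ^ 4 - ‖ph w‖ ^ 2 * ((bil X (cj w)).im / ‖w‖ ^ 2)) /
    (√(C2 w) * (1 + √(C2 w)))

/-- the wedge product of two one forms -/
def wd (α β : ℂ → ℝ) : ℝ := α 1 * β I - α I * β 1
/-- test functions -/
def Tf (U : Set ℂ) (η : ℂ → ℝ) : Prop := ContDiff ℝ 1 η ∧ HasCompactSupport η ∧ tsupport η ⊆ U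
/-- density, flux, mass -/
def dn (y : ℝ) (F : ℂ → Cn n) (z : ℂ) : ℝ := dl (La y) (F z) (Dz F z)
def fl (y : ℝ) (F : ℂ → Cn n) (η : ℂ → ℝ) (z : ℂ) : ℝ :=
  2 * η z * wd (fderiv ℝ η z) fun X => La y (F z) (Dz F z X)
def ms (y : ℝ) (F : ℂ → Cn n) (η : ℂ → ℝ) : ℝ := ∫ z, η z ^ 2 * dn y F z
def Sg (y : ℝ) (F : ℂ → Cn n) (η : ℂ → ℝ) : ℝ :=
  ∫ z, η z ^ 2 * (th (y * ‖F z‖ ^ 2) * Y2 (F z) (Dz F z))
/-- the truncated logarithm -/
def Ps (x : ℝ) : ℝ := Real.smoothTransition (x - 1) * Real.log x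
/-- no zero where `η` is not locally constant -/
def Gd (F : ℂ → Cn n) (η : ℂ → ℝ) : Prop :=
  ∃ K, IsCompact K ∧ (∀ z ∈ K, F z ≠ 0) ∧ ∀ z ∉ K, fderiv ℝ η z = 0
/-- `η` is one on a disc that contains a point with `F ≠ 0` -/
def On (F : ℂ → Cn n) (x : ℂ) (η : ℂ → ℝ) : Prop :=
  ∃ r, ∃ x' ∈ ball x r, x' ≠ x ∧ F x' ≠ 0 ∧ ∀ z ∈ ball x r, η z = 1
/-- rigid solutions -/
def Rg (G : ℂ → Cn n) : Prop :=
  ∀ η, Tf {0}ᶜ η → Gd G η → ∃ C : ℝ, ∀ y, 1 ≤ y → ms y G η ≤ C / y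
/-- rescaling -/
def sc (R N : ℝ) (F : ℂ → Cn n) (z : ℂ) : Cn n := N⁻¹ • F (R * z)
/-- `G` is a blow down of `F` -/
structure Bl (s : ℝ) (F : ℂ → Cn n) (R N : ℕ → ℝ) (G : ℂ → Cn n) : Prop where
  r0 : ∀ k, 0 < R k
  n0 : ∀ k, 0 < N k
  rt : Tendsto R atTop atTop
  nt : Tendsto N atTop atTop
  sol : Sol s univ G
  g0 : G 0 = 0
  g1 : ∃ z, G z ≠ 0
  c0 : ∀ K : Set ℂ, IsCompact K → TendstoUniformlyOn (fun k => sc (R k) (N k) F) G atTop K
  c1 : ∀ K : Set ℂ, IsCompact K → (∀ z ∈ K, G z ≠ 0) →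
    TendstoUniformlyOn (fun k => fderiv ℝ (sc (R k) (N k) F)) (fderiv ℝ G) atTop K
/-- the projection -/
def pj (e w : Cn n) : Cn n := bil w e • cj e + bil w (cj e) • e

/-- planar jets: the differential of the logarithm of the norm, the system -/
def dlg (a c : ℂ) (A C : L ℂ) (X : ℂ) : ℝ :=
  (conj a * A X + conj c * C X).re / (‖a‖ ^ 2 + ‖c‖ ^ 2)
def Jet (s : ℝ) (a c : ℂ) (A C : L ℂ) : Prop :=
  A 1 + I * A I = -s * (dlg a c A C 1 - I * dlg a c A C I) * conj c ∧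
  C 1 + I * C I = -s * (dlg a c A C 1 - I * dlg a c A C I) * conj a
/-- planar solutions in the punctured plane -/
structure Pd (s : ℝ) (a c : ℂ → ℂ) : Prop where
  ca : ContDiffOn ℝ 1 a {0}ᶜ
  cc : ContDiffOn ℝ 1 c {0}ᶜ
  ne : ∀ z ≠ 0, a z ≠ 0
  le : ∀ z ≠ 0, ‖c z‖ ≤ ‖a z‖
  eq : ∀ z ≠ 0, Jet s (a z) (c z) (fderiv ℝ a z) (fderiv ℝ c z)
/-- the differential of the argument -/
def ar (a : ℂ → ℂ) (z X : ℂ) : ℝ := (fderiv ℝ a z X / a z).im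
/-- the winding number -/
def Wn (a : ℂ → ℂ) (M : ℤ) : Prop := ∀ β : ℂ → ℝ, Tf univ β → (∀ᶠ z in 𝓝 (0 : ℂ), β z = 1) →
  Integrable (fun z => wd (fderiv ℝ β z) (ar a z)) ∧
    ∫ z, wd (fderiv ℝ β z) (ar a z) = -(2 * Real.pi * M)
/-- the differential of `conj c / a` -/
def dm (a c : ℂ) (A C : L ℂ) (X : ℂ) : ℂ := conj (C X) / a - conj c / a * (A X / a)
/-- the certificate; `m` is the differential of `μ`, `R = |μ|^2` -/
def Qv (s R : ℝ) (z μ : ℂ) (l ψ : ℂ → ℝ) (m : ℂ → ℂ) : ℝ :=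
  wd (fun X => l X - 2 * (X / z).re) ψ +
  (1 - s ^ 2 / 8) * wd (fun X => (X / z).re) (fun X => (X / z).im) -
  (1 - s ^ 2 * R)⁻¹ / 2 * wd (fun X => 2 * (conj μ * m X).re) ψ -
  (1 - s ^ 2 * R)⁻¹ / (2 * (1 + R)) *
    wd (fun X => 2 * (conj μ * m X).re) (fun X => (conj μ * m X).im) +
  ((1 - R) * (1 - s ^ 2 * R)⁻¹ - 1) / (2 * (1 + R)) *
    wd (fun X => 2 * (conj μ * m X).re) (fun X => (X / z).im) -
  s / 4 * (wd (fun X => ((m X - 2 * I * μ * (X / z).im) * (conj z / z)).re) (fun X => (X / z).im) -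
    wd (fun X => ((m X - 2 * I * μ * (X / z).im) * (conj z / z)).im) fun X => (X / z).re)

/-! A. algebra -/

/-- the form is smooth; scaling; its exterior derivative -/
def DlS : Prop := ∀ n : ℕ, (∀ y, ContDiff ℝ ∞ (La y : Cn n → _)) ∧
  (∀ (y t r : ℝ) (w : Cn n) (N : L (Cn n)), 0 < t →
    dl (La y) (t • w) (r • N) = (r / t) ^ 2 * dl (La (y * t ^ 2)) w N) ∧
  ∀ (s y : ℝ) (w : Cn n) (N : L (Cn n)), w ≠ 0 → Op s w N = 0 → dl (La y) w N = mu s y w N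

/-- the lower bound -/
def MonS : Prop := ∀ (n : ℕ) (s y : ℝ) (w : Cn n) (N : L (Cn n)), 0 < s → s < 1 → 0 < y → w ≠ 0 →
  2 * (y / (1 + ra y w)) * ‖w‖ ^ 2 * Nn w N + (1 - s) * (y * ‖w‖ ^ 2) * X2 y w N ≤ mu s y w N

/-- bounds for the form -/
structure Bnd (n : ℕ) : Prop where
  la : ∀ (s y : ℝ) (w : Cn n) (N : L (Cn n)) (X : ℂ), |s| ≤ 1 → 0 < y → w ≠ 0 → Op s w N = 0 →
    |La y w (N X)| ≤ 10 * th (y * ‖w‖ ^ 2) * √(Y2 w N) * ‖X‖ ∧
    |La y w (N X) - Lo w (N X)| ≤ 20 * √(X2 y w N) * ‖X‖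
  anti : ∀ (y y' : ℝ) (w : Cn n) (N : L (Cn n)), 0 < y → y ≤ y' → X2 y' w N ≤ X2 y w N ∧
    y / (1 + ra y w) ≤ y' / (1 + ra y' w)
  xy : ∀ (y : ℝ) (w : Cn n) (N : L (Cn n)), 0 ≤ Z2 w N ∧ 0 < vv y w ∧ vv y w ≤ uu y w ∧
    uu y w ≤ 1 ∧ vv y w * Y2 w N ≤ X2 y w N ∧ X2 y w N ≤ Y2 w N ∧ Y2 w N ≤ 2 * ‖N‖ ^ 2 / ‖w‖ ^ 2
  lim : ∀ (w : Cn n) (N : L (Cn n)), w ≠ 0 → Tendsto (fun y => X2 y w N) atTop (𝓝 0)
  th0 : ∀ x, 0 ≤ x → 0 ≤ th x ∧ th x ≤ 1 ∧ th x ≤ x ∧ (1 ≤ x → 1 / 3 ≤ th x)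
  th1 : Monotone th ∧ Continuous th
  th2 : ∀ (y : ℝ) (w : Cn n), 0 < y →
    th (4 * y * ‖w‖ ^ 2) ≤ th (y * ‖w‖ ^ 2) + 3 * (y * ‖w‖ ^ 2) * vv y w
def BndS : Prop := ∀ n, Bnd n

/-- the two logarithms -/
def LogS : Prop := ∃ C : ℝ, 0 ≤ C ∧ ContDiff ℝ ∞ Ps ∧ (∀ x ≤ 1, Ps x = 0) ∧
  (∀ x, 2 ≤ x → Ps x = Real.log x) ∧ ∀ (n : ℕ) (y : ℝ), 0 < y →
    ContDiff ℝ ∞ (fun w : Cn n => Real.log (1 + y ^ 2 * J2 w)) ∧
    ∀ (s : ℝ) (w : Cn n) (N : L (Cn n)), |s| ≤ 1 → w ≠ 0 → Op s w N = 0 →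
      ‖(fderiv ℝ (fun w : Cn n => Ps (y * ‖w‖ ^ 2)) w).comp N‖ ^ 2 ≤
        C * (th (y * ‖w‖ ^ 2) * ‖lz w N‖ ^ 2) ∧
      ‖(fderiv ℝ (fun w : Cn n => Real.log (1 + y ^ 2 * J2 w)) w).comp N‖ ^ 2 ≤
        C * ((y * ‖w‖ ^ 2) ^ 2 * X2 y w N + ‖lz w N‖ ^ 2)

/-- the certificate is nonnegative -/
def CertS : Prop := ∀ (s : ℝ) (z a c : ℂ) (A C : L ℂ), 0 < s → s < 1 → z ≠ 0 → a ≠ 0 →
  ‖c‖ ≤ ‖a‖ → Jet s a c A C → 0 ≤ Qv s (‖conj c / a‖ ^ 2) z (conj c / a) (dlg a c A C)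
    (fun X => (A X / a).im) (dm a c A C)

/-- the choice of the plane; the planar jets -/
def PlaS : Prop := ∀ n : ℕ,
  (∀ w : Cn n, w ≠ 0 → ∃ e : Cn n, pj e w = w ∧ (J2 w = 0 → cj e = e) ∧
    (J2 w ≠ 0 → ‖bil w (cj e)‖ < ‖bil w e‖)) ∧
  ∀ (s : ℝ) (e w : Cn n) (N : L (Cn n)) (A C : L ℂ), w ≠ 0 → pj e w = w → Op s w N = 0 →
    (∀ X, A X = bil (N X) e) → (∀ X, C X = bil (N X) (cj e)) →
    ‖bil w e‖ ^ 2 + ‖bil w (cj e)‖ ^ 2 = ‖w‖ ^ 2 ∧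
    (‖bil w e‖ ^ 2 - ‖bil w (cj e)‖ ^ 2) ^ 2 = J2 w ∧ Jet s (bil w e) (bil w (cj e)) A C ∧
    (cj e = e ∨ ‖bil w (cj e)‖ < ‖bil w e‖ → ∀ X, Lo w (N X) = (A X / bil w e).im)

/-! B. calculus in the plane -/

/-- lower bounds for the energy -/
def PolS : Prop := ∀ (x x' : ℂ) (R τ : ℝ), 0 < τ → x' ≠ x → x' ∈ ball x R → ∃ c : ℝ, 0 < c ∧
  ∀ (w : ℂ → ℝ) (A Δ : ℝ), ContDiffOn ℝ 1 w (ball x R) →
    IntegrableOn (fun z => ‖fderiv ℝ w z‖ ^ 2) (ball x R) → 0 ≤ Δ →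
    (∀ z ∈ ball x' τ, A + Δ ≤ w z) →
    ((∀ r ∈ Ioo 0 R, ∃ z ∈ sphere x r, w z ≤ A) → c * Δ ^ 2 ≤ en (ball x R) (fderiv ℝ w)) ∧
    ∀ ρ, 0 < ρ → ρ ≤ ‖x' - x‖ / 2 → (∀ z ∈ sphere x ρ, w z ≤ A) →
      c * Δ ^ 2 ≤ Real.log (R / ρ) * en (ball x R) (fderiv ℝ w)

/-- null Lagrangians -/
def StkS : Prop := ∀ (U : Set ℂ) (η f : ℂ → ℝ), IsOpen U → Tf U η → ContDiffOn ℝ 1 f U →
  (∀ g : ℂ → ℝ, ContDiffOn ℝ 1 g U →
    Integrable (fun z => η z * wd (fderiv ℝ f z) (fderiv ℝ g z)) ∧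
    Integrable (fun z => f z * wd (fderiv ℝ η z) (fderiv ℝ g z)) ∧
    ∫ z, η z * wd (fderiv ℝ f z) (fderiv ℝ g z) = -∫ z, f z * wd (fderiv ℝ η z) (fderiv ℝ g z)) ∧
  ∀ a : ℂ → ℂ, ContDiffOn ℝ 1 a U → (∀ z ∈ U, a z ≠ 0) →
    Integrable (fun z => η z * wd (fderiv ℝ f z) (ar a z)) ∧
    Integrable (fun z => f z * wd (fderiv ℝ η z) (ar a z)) ∧
    ∫ z, η z * wd (fderiv ℝ f z) (ar a z) = -∫ z, f z * wd (fderiv ℝ η z) (ar a z)

def WinS : Prop := Wn (fun z => z) 1 ∧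
  ∀ a : ℂ → ℂ, ContDiffOn ℝ 1 a {0}ᶜ → (∀ z ≠ 0, a z ≠ 0) → ∃ M, Wn a M

/-- the punctured plane is connected; unique continuation -/
def ConS : Prop := (∀ Z : Set ℂ, (∀ x ≠ (0 : ℂ), x ∉ Z → ∀ᶠ z in 𝓝 x, z ∉ Z) →
    (∃ x ≠ (0 : ℂ), x ∈ Z) → (∃ x ≠ (0 : ℂ), x ∉ Z) →
    ∃ x ≠ (0 : ℂ), x ∈ Z ∧ ∀ r, 0 < r → ∃ z ∈ ball x r, z ∉ Z) ∧
  ∀ (n : ℕ) (f : ℂ → Cn n) (k : ℂ → ℝ), DifferentiableOn ℝ f {0}ᶜ → ContinuousOn k {0}ᶜ →
    (∀ z ≠ 0, ‖fderiv ℝ f z‖ ≤ k z * ‖f z‖) → f 1 = 0 → ∀ z ≠ 0, f z = 0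

/-- the primitives of the coefficients -/
def PriS : Prop := ∀ s : ℝ, 0 < s → s < 1 → ∃ (G₁ G₂ G₃ : ℝ → ℝ) (B : ℝ), ∀ R ∈ Icc (0 : ℝ) 1,
  (ContDiffAt ℝ 1 G₁ R ∧ ContDiffAt ℝ 1 G₂ R ∧ ContDiffAt ℝ 1 G₃ R) ∧
  (|G₁ R| ≤ B ∧ |G₂ R| ≤ B ∧ |G₃ R| ≤ B) ∧ deriv G₁ R = (1 - s ^ 2 * R)⁻¹ / 2 ∧
  G₂ R + R * deriv G₂ R = R * ((1 - s ^ 2 * R)⁻¹ / (2 * (1 + R))) ∧
  deriv G₃ R = ((1 - R) * (1 - s ^ 2 * R)⁻¹ - 1) / (2 * (1 + R))

/-- the integrated certificate -/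
def CiS : Prop := ∀ s : ℝ, 0 < s → s < 1 → ∃ B : ℝ, 0 ≤ B ∧ ∀ (a c : ℂ → ℂ) (η : ℂ → ℝ),
  Pd s a c → Tf {0}ᶜ η → (∀ z, 0 ≤ η z) →
  ∫ z, ((Real.log (‖a z‖ ^ 2 + ‖c z‖ ^ 2) / 2 - 2 * Real.log ‖z‖) * wd (fderiv ℝ η z) (ar a z) +
    (1 - s ^ 2 / 8) * Real.log ‖z‖ * wd (fderiv ℝ η z) (ar (fun x => x) z)) ≤
  B * ∫ z, ‖fderiv ℝ η z‖ * ((‖fderiv ℝ a z‖ + ‖fderiv ℝ c z‖) / ‖a z‖ + ‖z‖⁻¹)

/-- the lower bound for the growth -/
def ShS : Prop := ∀ (s γ B : ℝ) (a c : ℂ → ℂ) (M : ℤ), 0 < s → s < 1 → 0 < γ →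
  γ < 1 + s ^ 2 / 8 → 0 < B → Pd s a c → Wn a M → 1 ≤ M →
  (∀ ρ₀ : ℝ, ∃ ρ N : ℝ, ρ₀ ≤ ρ ∧ 0 < N ∧ N ≤ B * (1 + ρ) ^ γ ∧ ∀ z : ℂ, ρ ≤ ‖z‖ → ‖z‖ ≤ 2 * ρ →
    N ≤ B * ‖a z‖ ∧ ‖a z‖ ≤ B * N ∧ ‖fderiv ℝ a z‖ + ‖fderiv ℝ c z‖ ≤ B * N / ρ) → False

/-- the bundle of the statements above -/
structure Kit : Prop where
  dl : DlS
  mon : MonS
  bnd : BndS
  log : LogS
  pol : PolS
  con : ConS

/-! C. entire solutions -/

section
variable (n : ℕ) (s : ℝ)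

/-- the mass -/
structure Mas : Prop where
  op : ∀ F : ℂ → Cn n, Sol s univ F → ∀ z, F z ≠ 0 → Op s (F z) (Dz F z) = 0
  low : ∀ F : ℂ → Cn n, Sol s univ F → ∀ y z, 0 < y → 0 ≤ dn y F z ∧
    2 * (y / (1 + ra y (F z))) * ‖F z‖ ^ 2 * Nn (F z) (Dz F z) ≤ dn y F z ∧
    (1 - s) * (y * ‖F z‖ ^ 2) * X2 y (F z) (Dz F z) ≤ dn y F z
  sto : ∀ F : ℂ → Cn n, Sol s univ F → ∀ y η, Tf univ η →
    Integrable (fun z => η z ^ 2 * dn y F z) ∧ Integrable (fl y F η) ∧ ms y F η = -∫ z, fl y F η z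
  fl : ∀ F : ℂ → Cn n, Sol s univ F → ∀ y η z, 0 < y →
    |fl y F η z| ≤ 40 * |η z| * ‖fderiv ℝ η z‖ * (th (y * ‖F z‖ ^ 2) * √(Y2 (F z) (Dz F z)))
  mea : ∀ F : ℂ → Cn n, Sol s univ F → Measurable (fun z => Y2 (F z) (Dz F z)) ∧
    ∀ y, Measurable fun z => X2 y (F z) (Dz F z)
  sca : ∀ (F : ℂ → Cn n) (R N y : ℝ) (z : ℂ), Sol s univ F → 0 < R → 0 < N →
    Sol s univ (sc R N F) ∧ Dz (sc R N F) z = (R / N) • Dz F (R * z) ∧
    dn (y * N ^ 2) (sc R N F) z = R ^ 2 * dn y F (R * z)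
  tra : ∃ C : ℝ, 0 ≤ C ∧ ∀ (F : ℂ → Cn n) (η : ℂ → ℝ) (y y' c : ℝ), Sol s univ F → Tf univ η →
    0 < y → y ≤ y' → 0 < c → (∀ z, fderiv ℝ η z ≠ 0 → c ≤ ‖F z‖ ^ 2) →
    ms y F η ≤ 2 * ms y' F η + C * (∫ z, ‖fderiv ℝ η z‖ ^ 2) / (y * c)

/-- the logarithmic energy -/
def SigS : Prop := ∃ C : ℝ, 0 ≤ C ∧ ∀ (F : ℂ → Cn n) (η : ℂ → ℝ), Sol s univ F → Tf univ η →
  (∀ y, 0 < y → Integrable fun z => η z ^ 2 * (th (y * ‖F z‖ ^ 2) * Y2 (F z) (Dz F z))) ∧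
  (∀ y y', 0 < y → y ≤ y' → Sg y F η ≤ Sg y' F η) ∧
  (∀ K : ℕ, Sg (4 ^ K) F η ≤ Sg 1 F η + C * ∑ j ∈ Finset.range K, ms (4 ^ j) F η) ∧
  ∀ y, 0 < y → ContDiff ℝ 1 (fun z => Ps (y * ‖F z‖ ^ 2)) ∧ ∀ (x : ℂ) (r : ℝ),
    (∀ z ∈ ball x r, η z = 1) →
    en (ball x r) (fderiv ℝ fun z => Ps (y * ‖F z‖ ^ 2)) ≤ C * Sg y F η

/-- a circle without zeros -/
def CirS : Prop := ∀ (F : ℂ → Cn n) (x x' : ℂ) (R : ℝ), Sol s univ F → x' ∈ ball x R → x' ≠ x →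
  F x' ≠ 0 → ∃ η, Tf (ball x R) η ∧ Gd F η ∧ On F x η

/-- a zero carries mass -/
def ZerS : Prop := ∀ (F : ℂ → Cn n) (x : ℂ) (η : ℂ → ℝ), Sol s univ F → F x = 0 → Tf univ η →
  On F x η → ¬ Tendsto (fun y => ms y F η) atTop (𝓝 0)

def BdS : Prop := ∀ (F : ℂ → Cn n) (C γ γ' : ℝ), Sol s univ F → (∃ z, F z ≠ F 0) → 0 < γ →
  γ < γ' → (∀ z, ‖F z‖ ≤ C * (1 + ‖z‖) ^ γ) → ∃ R N G, Bl s F R N G ∧
    (∀ z, ‖G z‖ ≤ (1 + ‖z‖) ^ γ') ∧ ∀ k, N k ≤ C * (1 + R k) ^ γ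

def RigS : Prop := ∀ (F G : ℂ → Cn n) (R N : ℕ → ℝ), Sol s univ F → Bl s F R N G → Rg G

def ZfS : Prop := ∀ G : ℂ → Cn n, Sol s univ G → Rg G → (∃ z ≠ 0, G z ≠ 0) → ∀ z ≠ 0, G z ≠ 0

def NfS : Prop := ∀ G : ℂ → Cn n, Sol s univ G → Rg G → (∀ z ≠ 0, G z ≠ 0) →
  (∀ z ≠ 0, J2 (G z) ≠ 0) ∨ ∀ z ≠ 0, J2 (G z) = 0

/-- the plane is constant -/
def PjS : Prop := ∀ (G : ℂ → Cn n) (e : Cn n), Sol s univ G → Rg G → (∀ z ≠ 0, G z ≠ 0) →
  ((∀ z ≠ 0, J2 (G z) ≠ 0) ∨ ∀ z ≠ 0, J2 (G z) = 0) → pj e (G 1) = G 1 →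
  ∀ z ≠ 0, pj e (G z) = G z

/-- the planar representation -/
def PlS : Prop := ∀ G : ℂ → Cn n, Sol s univ G → Rg G → (∀ z ≠ 0, G z ≠ 0) →
  ∃ (a c : ℂ → ℂ) (B : ℝ), 0 < B ∧ Pd s a c ∧ ∀ z ≠ 0, ‖a z‖ ^ 2 + ‖c z‖ ^ 2 = ‖G z‖ ^ 2 ∧
    ‖fderiv ℝ a z‖ + ‖fderiv ℝ c z‖ ≤ B * ‖fderiv ℝ G z‖ ∧
    ∀ X, Lo (G z) (fderiv ℝ G z X) = ar a z X

/-- the winding number is positive -/
def OneS : Prop := ∀ (G : ℂ → Cn n) (a : ℂ → ℂ) (M : ℤ), Sol s univ G → G 0 = 0 →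
  (∀ z ≠ 0, G z ≠ 0) → (∀ z ≠ 0, ∀ X, Lo (G z) (fderiv ℝ G z X) = ar a z X) → Wn a M → 1 ≤ M
end

theorem liou_of (dl : DlS) (mon : MonS) (bnd : BndS) (log : LogS) (cert : CertS) (pla : PlaS)
    (pol : PolS) (stk : StkS) (win : StkS → WinS) (con : ConS) (pri : PriS)
    (ci : CertS → StkS → PriS → CiS)
    (sh : WinS → CiS → ShS)
    (mas : Kit → ∀ n s, 0 < s → s < 1 → Shell n s → Mas n s)
    (sig : Kit → ∀ n s, 0 < s → s < 1 → Shell n s → Mas n s → SigS n s)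
    (cir : Kit → ∀ n s, 0 < s → s < 1 → Shell n s → Mas n s → SigS n s → CirS n s)
    (zer : Kit → ∀ n s, 0 < s → s < 1 → Shell n s → Mas n s → SigS n s → ZerS n s)
    (bd : ∀ n s, Shell n s → BdS n s)
    (rig : Kit → ∀ n s, 0 < s → s < 1 → Shell n s → Mas n s → CirS n s → RigS n s)
    (zf : Kit → ∀ n s, Mas n s → CirS n s → ZerS n s → ZfS n s)
    (nf : Kit → ∀ n s, 0 < s → s < 1 → Shell n s → Mas n s → NfS n s)
    (pj : Kit → ∀ n s, 0 < s → s < 1 → Shell n s → Mas n s → PjS n s)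
    (pl : Kit → PlaS → ∀ n s, Shell n s → NfS n s → PjS n s → PlS n s)
    (one : Kit → ∀ n s, 0 < s → s < 1 → Shell n s → Mas n s → ZerS n s → OneS n s)
    (fin : WinS → ShS → ∀ n s, 0 < s → s < 1 → Shell n s → Mas n s → BdS n s → RigS n s →
      ZfS n s → PlS n s → OneS n s → LiouS n s)
    (n : ℕ) (s : ℝ) (h0 : 0 < s) (h1 : s < 1) (h : Shell n s) : LiouS n s :=
  have k : Kit := ⟨dl, mon, bnd, log, pol, con⟩
  have m := mas k n s h0 h1 h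
  have g := sig k n s h0 h1 h m
  have c := cir k n s h0 h1 h m g
  have z := zer k n s h0 h1 h m g
  fin (win stk) (sh (win stk) (ci cert stk pri)) n s h0 h1 h m (bd n s h) (rig k n s h0 h1 h m c)
    (zf k n s m c z) (pl k pla n s h (nf k n s h0 h1 h m) (pj k n s h0 h1 h m))
    (one k n s h0 h1 h m z)

end Pool.Agent.MP_815c6c_an.L

end
end MrgPart3

-- ======== part 4: formerly Pool.Agent.MP_815c6c_an.L.Stk
section MrgPart4

/-! Null Lagrangians for maps of class `C^1`. -/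

set_option autoImplicit false

noncomputable section

namespace Pool.Agent.MP_815c6c_an.L

open Set Metric MeasureTheory Filter Topology Complex
open scoped ContDiff Convolution

namespace StkA

variable {U : Set ℂ} {φ η f g : ℂ → ℝ}

lemma ig {k : ℂ → ℝ} (hc : IsCompact (tsupport η)) (hs : tsupport η ⊆ U) (h : ContinuousOn k U)
    (h0 : ∀ z, z ∉ tsupport η → k z = 0) : Integrable k :=
  (integrableOn_iff_integrable_of_support_subset (s := tsupport η) fun z hz => by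
    by_contra h'; exact hz (h0 z h')).1 ((h.mono hs).integrableOn_compact hc)

lemma fz {z : ℂ} (h : z ∉ tsupport η) : fderiv ℝ η z = 0 :=
  image_eq_zero_of_notMem_tsupport fun h' => h (tsupport_fderiv_subset ℝ h')

lemma cd (hU : IsOpen U) (hg : ContDiffOn ℝ 1 g U) : ContinuousOn (fderiv ℝ g) U :=
  hg.continuousOn_fderiv_of_isOpen hU le_rfl

lemma cw {α β : ℂ → ℂ →L[ℝ] ℝ} (ha : ContinuousOn α U) (hb : ContinuousOn β U) :
    ContinuousOn (fun z => wd (α z) (β z)) U :=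
  ((ha.clm_apply continuousOn_const).mul (hb.clm_apply continuousOn_const)).sub
    ((ha.clm_apply continuousOn_const).mul (hb.clm_apply continuousOn_const))

lemma smooth (hU : IsOpen U) (h1 : ContDiff ℝ ∞ φ) (h2 : HasCompactSupport φ)
    (h3 : tsupport φ ⊆ U) (hg : ContDiffOn ℝ 1 g U) :
    ∫ z, wd (fderiv ℝ φ z) (fderiv ℝ g z) = 0 := by
  have d1 : ∀ v, ContDiff ℝ ∞ fun z => fderiv ℝ φ z v := fun v =>
    (h1.fderiv_right (m := ∞) (by simp)).clm_apply contDiff_const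
  have t : ∀ v, tsupport (fun z => fderiv ℝ φ z v) ⊆ tsupport φ := fun v =>
    tsupport_fderiv_apply_subset ℝ v
  have i : ∀ v w, Integrable fun z => fderiv ℝ φ z v * fderiv ℝ g z w := fun v w =>
    ig h2 h3 ((d1 v).continuous.continuousOn.mul ((cd hU hg).clm_apply continuousOn_const))
      fun z hz => by simp [fz hz]
  have e : ∀ v w, ∫ z, fderiv ℝ φ z v * fderiv ℝ g z w =
      -∫ z, fderiv ℝ (fun x => fderiv ℝ φ x v) z w * g z := fun v w =>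
    integral_smul_fderiv_eq_neg_fderiv_smul_of_integrable (μ := volume)
      (f := fun x => fderiv ℝ φ x v) (g := g) (v := w)
      (ig h2 h3 ((((d1 v).continuous_fderiv (by simp)).clm_apply continuous_const).continuousOn.mul
        hg.continuousOn) fun z hz => by rw [fz fun h => hz (t v h)]; simp) (i v w)
      (ig h2 h3 ((d1 v).continuous.continuousOn.mul hg.continuousOn) fun z hz => by simp [fz hz])
      (fun x _ => (d1 v).differentiable (by simp) x)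
      fun x hx => (hg.contDiffAt (hU.mem_nhds (h3 (t v hx)))).differentiableAt one_ne_zero
  simp only [wd]
  rw [integral_sub (i _ _) (i _ _), e, e, sub_eq_zero, neg_inj]
  refine integral_congr_ae (ae_of_all _ fun y => ?_)
  have df := (h1.fderiv_right (m := ∞) (by simp)).differentiable (by simp) y
  have sy := (h1.contDiffAt.isSymmSndFDerivAt (x := y) (by
    rw [minSmoothness_of_isRCLikeNormedField]; exact WithTop.coe_le_coe.2 le_top)).eq 1 I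
  simp only [fderiv_clm_apply df (differentiableAt_const _)]
  simp [sy]

lemma null (hU : IsOpen U) (h : Tf U φ) (hg : ContDiffOn ℝ 1 g U) :
    ∫ z, wd (fderiv ℝ φ z) (fderiv ℝ g z) = 0 := by
  obtain ⟨h1, h2, h3⟩ := h
  obtain ⟨δ, δ0, hδ⟩ := h2.exists_cthickening_subset_open hU h3
  have hK := h2.cthickening (r := δ)
  have c1 := h1.continuous_fderiv one_ne_zero
  have c2 : Continuous fun z => ‖fderiv ℝ φ z‖ := c1.norm
  obtain ⟨A, hA⟩ := (h2.fderiv ℝ).exists_bound_of_continuous c1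
  obtain ⟨B, hB⟩ := hK.exists_bound_of_continuousOn ((cd hU hg).mono hδ)
  have li := h1.continuous.locallyIntegrable (μ := volume)
  have dv : ∀ k z, fderiv ℝ (P.mo k φ) z = P.mo k (fderiv ℝ φ) z := fun k z => by
    rw [P.mo, (h2.hasFDerivAt_convolution_right _
      ((P.bp k).continuous_normed.locallyIntegrable (μ := volume)) h1 z).fderiv]
    rfl
  have rl : Tendsto (fun k => (P.bp k).rOut) atTop (𝓝 0) := by
    simpa [P.bp, div_eq_mul_inv] using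
      (tendsto_one_div_add_atTop_nhds_zero_nat (𝕜 := ℝ)).const_mul 2
  have sp : ∀ᶠ k in atTop, tsupport (P.mo k φ) ⊆ cthickening δ (tsupport φ) := by
    filter_upwards [rl.eventually (gt_mem_nhds δ0)] with k hk
    refine closure_minimal ((support_convolution_subset _).trans ?_) isClosed_cthickening
    rintro _ ⟨a, ha, b, hb, rfl⟩
    rw [(P.bp k).support_normed_eq, mem_ball_zero_iff] at ha
    exact mem_cthickening_of_dist_le _ b _ _ (subset_closure hb) (by simpa using (ha.trans hk).le)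
  have bd : ∀ k z, ‖P.mo k (fderiv ℝ φ) z‖ ≤ A := fun k z => by
    refine (norm_integral_le_of_norm_le ((P.bp k).integrable_normed.mul_const A)
      (ae_of_all _ fun t => ?_)).trans_eq (by
        rw [integral_mul_const, (P.bp k).integral_normed, one_mul])
    rw [ContinuousLinearMap.lsmul_apply, norm_smul, Real.norm_of_nonneg ((P.bp k).nonneg_normed t)]
    exact mul_le_mul_of_nonneg_left (hA _) ((P.bp k).nonneg_normed t)
  have z0 : ∀ᶠ k in atTop, ∫ z in cthickening δ (tsupport φ),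
      wd (P.mo k (fderiv ℝ φ) z : ℂ →L[ℝ] ℝ) (fderiv ℝ g z) = 0 := sp.mono fun k hk => by
    simp only [← dv]
    rw [setIntegral_eq_integral_of_forall_compl_eq_zero fun z hz => by
      simp [wd, fz fun h => hz (hk h)]]
    exact smooth hU ((P.bp k).hasCompactSupport_normed.contDiff_convolution_left _
      (P.bp k).contDiff_normed li) (hK.of_isClosed_subset (isClosed_tsupport _) hk) (hk.trans hδ) hg
  have : IsFiniteMeasure (volume.restrict (cthickening δ (tsupport φ))) :=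
    isFiniteMeasure_restrict.2 hK.measure_lt_top.ne
  have lim := tendsto_integral_of_dominated_convergence
    (μ := volume.restrict (cthickening δ (tsupport φ)))
    (F := fun k z => wd (P.mo k (fderiv ℝ φ) z : ℂ →L[ℝ] ℝ) (fderiv ℝ g z))
    (f := fun z => wd (fderiv ℝ φ z) (fderiv ℝ g z)) (fun _ => A * B + A * B)
    (fun k => ((cw ((P.bp k).hasCompactSupport_normed.continuous_convolution_left _
      (P.bp k).continuous_normed c1.locallyIntegrable).continuousOn (cd hU hg)).mono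
        hδ).aestronglyMeasurable hK.measurableSet) (integrable_const _)
    (fun k => (ae_restrict_iff' hK.measurableSet).2 (ae_of_all _ fun z hz => by
      have a := bd k z
      have b := hB z hz
      have a1 := Q.L_norm (P.mo k (fderiv ℝ φ) z)
      have b1 := Q.L_norm (fderiv ℝ g z)
      have A0 := (norm_nonneg _).trans a
      refine (norm_sub_le _ _).trans (add_le_add ?_ ?_) <;> rw [norm_mul]
      exacts [mul_le_mul (a1.1.trans a) (b1.2.1.trans b) (norm_nonneg _) A0,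
        mul_le_mul (a1.2.1.trans a) (b1.1.trans b) (norm_nonneg _) A0]))
    (ae_of_all _ fun z => by
      have t := ContDiffBump.convolution_tendsto_right_of_continuous (μ := volume) rl c1 z
      have e : ∀ v, Tendsto (fun k => P.mo k (fderiv ℝ φ) z v) atTop (𝓝 (fderiv ℝ φ z v)) :=
        fun v => ((ContinuousLinearMap.apply ℝ ℝ v).continuous.tendsto _).comp t
      exact ((e 1).mul_const _).sub ((e I).mul_const _))
  rw [← setIntegral_eq_integral_of_forall_compl_eq_zero (s := cthickening δ (tsupport φ))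
    fun z hz => by simp [wd, fz fun h => hz (self_subset_cthickening _ h)]]
  exact tendsto_nhds_unique lim (tendsto_const_nhds.congr' (z0.mono fun k hk => hk.symm))

lemma prod (hU : IsOpen U) (h : Tf U η) (hf : ContDiffOn ℝ 1 f U) : Tf U (fun z => η z * f z) ∧
    ∀ z, fderiv ℝ (fun z => η z * f z) z = η z • fderiv ℝ f z + f z • fderiv ℝ η z := by
  have t : tsupport (fun z => η z * f z) ⊆ tsupport η := tsupport_mul_subset_left
  refine ⟨⟨contDiff_iff_contDiffAt.2 fun z => ?_, h.2.1.mul_right, t.trans h.2.2⟩, fun z => ?_⟩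
  · by_cases hz : z ∈ tsupport η
    · exact h.1.contDiffAt.mul (hf.contDiffAt (hU.mem_nhds (h.2.2 hz)))
    · exact contDiffAt_const.congr_of_eventuallyEq
        (notMem_tsupport_iff_eventuallyEq.1 fun h' => hz (t h'))
  · by_cases hz : z ∈ tsupport η
    · exact fderiv_mul (h.1.differentiable one_ne_zero z)
        ((hf.contDiffAt (hU.mem_nhds (h.2.2 hz))).differentiableAt one_ne_zero)
    · simp [fz hz, fz fun h' => hz (t h'), image_eq_zero_of_notMem_tsupport hz]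

lemma parts (hU : IsOpen U) (h : Tf U η) (hf : ContDiffOn ℝ 1 f U) {β : ℂ → ℂ → ℝ}
    (h1 : ContinuousOn (fun z => β z 1) U) (h2 : ContinuousOn (fun z => β z I) U)
    (h0 : ∀ φ, Tf U φ → ∫ z, wd (fderiv ℝ φ z) (β z) = 0) :
    Integrable (fun z => η z * wd (fderiv ℝ f z) (β z)) ∧
    Integrable (fun z => f z * wd (fderiv ℝ η z) (β z)) ∧
    ∫ z, η z * wd (fderiv ℝ f z) (β z) = -∫ z, f z * wd (fderiv ℝ η z) (β z) := by
  have c : ∀ {α : ℂ → ℂ →L[ℝ] ℝ}, ContinuousOn α U → ContinuousOn (fun z => wd (α z) (β z)) U :=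
    fun a => ((a.clm_apply continuousOn_const).mul h2).sub ((a.clm_apply continuousOn_const).mul h1)
  have i1 : Integrable fun z => η z * wd (fderiv ℝ f z) (β z) :=
    ig h.2.1 h.2.2 (h.1.continuous.continuousOn.mul (c (cd hU hf))) fun z hz => by
      simp [image_eq_zero_of_notMem_tsupport hz]
  have i2 : Integrable fun z => f z * wd (fderiv ℝ η z) (β z) :=
    ig h.2.1 h.2.2 (hf.continuousOn.mul (c (cd hU h.1.contDiffOn))) fun z hz => by simp [wd, fz hz]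
  refine ⟨i1, i2, ?_⟩
  rw [eq_neg_iff_add_eq_zero, ← integral_add i1 i2, ← h0 _ (prod hU h hf).1]
  refine integral_congr_ae (ae_of_all _ fun z => ?_)
  simp only [(prod hU h hf).2, wd, add_apply, smul_apply, smul_eq_mul]
  ring

lemma jac (hU : IsOpen U) (h : Tf U η) (hf : ContDiffOn ℝ 1 f U) (hg : ContDiffOn ℝ 1 g U) :
    Integrable (fun z => η z * wd (fderiv ℝ f z) (fderiv ℝ g z)) ∧
    Integrable (fun z => f z * wd (fderiv ℝ η z) (fderiv ℝ g z)) ∧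
    ∫ z, η z * wd (fderiv ℝ f z) (fderiv ℝ g z) = -∫ z, f z * wd (fderiv ℝ η z) (fderiv ℝ g z) :=
  parts hU h hf (β := fun z => fderiv ℝ g z) ((cd hU hg).clm_apply continuousOn_const)
    ((cd hU hg).clm_apply continuousOn_const) fun _ hφ => null hU hφ hg

lemma arg0 (hU : IsOpen U) (h : Tf U φ) {a : ℂ → ℂ} (ha : ContDiffOn ℝ 1 a U)
    (h0 : ∀ z ∈ U, a z ≠ 0) : ∫ z, wd (fderiv ℝ φ z) (ar a z) = 0 := by
  have hi : ContDiffOn ℝ 1 (fun z => (a z)⁻¹) U := ha.inv h0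
  have re : ∀ {b : ℂ → ℂ}, ContDiffOn ℝ 1 b U → ContDiffOn ℝ 1 (fun z => (b z).re) U ∧
      ContDiffOn ℝ 1 (fun z => (b z).im) U ∧ ∀ z ∈ U, ∀ X,
      fderiv ℝ (fun z => (b z).re) z X = (fderiv ℝ b z X).re ∧
      fderiv ℝ (fun z => (b z).im) z X = (fderiv ℝ b z X).im := fun {b} hb =>
    ⟨reCLM.contDiff.comp_contDiffOn hb, imCLM.contDiff.comp_contDiffOn hb, fun z hz X => by
      have d := ((hb.contDiffAt (hU.mem_nhds hz)).differentiableAt one_ne_zero).hasFDerivAt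
      exact ⟨congrArg (fun L => L X) (reCLM.hasFDerivAt.comp z d).fderiv,
        congrArg (fun L => L X) (imCLM.hasFDerivAt.comp z d).fderiv⟩⟩
  obtain ⟨a1, a2, a3⟩ := re ha
  obtain ⟨b1, b2, b3⟩ := re hi
  obtain ⟨i1, i2, e1⟩ := jac hU h b2 a1
  obtain ⟨i3, i4, e2⟩ := jac hU h b1 a2
  have z1 : ∫ z, (φ z * wd (fderiv ℝ (fun z => (a z)⁻¹.im) z) (fderiv ℝ (fun z => (a z).re) z) +
      φ z * wd (fderiv ℝ (fun z => (a z)⁻¹.re) z) (fderiv ℝ (fun z => (a z).im) z)) = 0 := by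
    refine (integral_congr_ae (ae_of_all _ fun z => ?_)).trans (integral_zero _ _)
    by_cases hz : z ∈ U
    · have d := ((ha.contDiffAt (hU.mem_nhds hz)).differentiableAt one_ne_zero).hasFDerivAt
      have e : ∀ X, fderiv ℝ (fun z => (a z)⁻¹) z X = -(a z ^ 2)⁻¹ * fderiv ℝ a z X := fun X => by
        have := ((hasDerivAt_inv (h0 z hz)).hasFDerivAt.restrictScalars ℝ).comp z d
        refine (congrArg (fun L => L X) this.fderiv).trans ?_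
        simp [mul_comm]
      simp only [wd, a3 z hz, b3 z hz, e, mul_re, mul_im]
      ring
    · simp [image_eq_zero_of_notMem_tsupport fun h' => hz (h.2.2 h')]
  rw [integral_add i1 i3, e1, e2, ← neg_add, neg_eq_zero, ← integral_add i2 i4] at z1
  refine (integral_congr_ae (ae_of_all _ fun z => ?_)).trans z1
  by_cases hz : z ∈ U
  · simp only [wd, ar, a3 z hz, div_eq_mul_inv, mul_im]
    ring
  · simp [wd, fz fun h' => hz (h.2.2 h')]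

lemma car (hU : IsOpen U) {a : ℂ → ℂ} (ha : ContDiffOn ℝ 1 a U) (h0 : ∀ z ∈ U, a z ≠ 0) (X : ℂ) :
    ContinuousOn (fun z => ar a z X) U :=
  continuous_im.comp_continuousOn ((((ha.continuousOn_fderiv_of_isOpen hU le_rfl).clm_apply
    continuousOn_const)).div ha.continuousOn h0)

end StkA

open StkA in
theorem stk : StkS := fun _ _ _ hU hη hf => ⟨fun _ hg => jac hU hη hf hg, fun _ ha h0 =>
  parts hU hη hf (car hU ha h0 1) (car hU ha h0 I) fun _ hφ => arg0 hU hφ ha h0⟩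

end Pool.Agent.MP_815c6c_an.L

end
end MrgPart4

-- ======== part 5: formerly Pool.Agent.MP_815c6c_an.L.Ci
section MrgPart5

/-! The integrated certificate. -/

set_option autoImplicit false

noncomputable section

namespace Pool.Agent.MP_815c6c_an.L

open Set Metric MeasureTheory Filter Topology Complex
open scoped ContDiff ComplexConjugate

namespace CiA

open StkA

/-- a map of class `C^1` in the punctured plane with its differential -/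
def D {E : Type} [NormedAddCommGroup E] [NormedSpace ℝ E] (f : ℂ → E) (α : ℂ → ℂ → E) : Prop :=
  ContDiffOn ℝ 1 f {0}ᶜ ∧ ∀ z ≠ 0, ∀ X, fderiv ℝ f z X = α z X

lemma hd {E : Type} [NormedAddCommGroup E] [NormedSpace ℝ E] {f : ℂ → E}
    (h : ContDiffOn ℝ 1 f {0}ᶜ) {z : ℂ} (hz : z ≠ 0) : HasFDerivAt f (fderiv ℝ f z) z :=
  ((h.contDiffAt (isOpen_compl_singleton.mem_nhds hz)).differentiableAt one_ne_zero).hasFDerivAt

variable {μ a c : ℂ → ℂ} {m : ℂ → ℂ → ℂ} {f g : ℂ → ℝ} {α β : ℂ → ℂ → ℝ}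

lemma D.re (h : D μ m) : D (fun z => (μ z).re) fun z X => (m z X).re :=
  ⟨reCLM.contDiff.comp_contDiffOn h.1, fun z hz X => by
    beta_reduce
    rw [← h.2 z hz]
    exact congrArg (fun L => L X) (reCLM.hasFDerivAt.comp z (hd h.1 hz)).fderiv⟩

lemma D.im (h : D μ m) : D (fun z => (μ z).im) fun z X => (m z X).im :=
  ⟨imCLM.contDiff.comp_contDiffOn h.1, fun z hz X => by
    beta_reduce
    rw [← h.2 z hz]
    exact congrArg (fun L => L X) (imCLM.hasFDerivAt.comp z (hd h.1 hz)).fderiv⟩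

lemma D.cj (h : D μ m) : D (fun z => conj (μ z)) fun z X => conj (m z X) :=
  ⟨conjCLE.contDiff.comp_contDiffOn h.1, fun z hz X => by
    beta_reduce
    rw [← h.2 z hz]
    exact congrArg (fun L => L X) (conjCLE.hasFDerivAt.comp z (hd h.1 hz)).fderiv⟩

lemma D.mul {E : Type} [NormedCommRing E] [NormedAlgebra ℝ E] {f g : ℂ → E} {α β : ℂ → ℂ → E}
    (h : D f α) (k : D g β) : D (fun z => f z * g z) fun z X => f z * β z X + g z * α z X :=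
  ⟨h.1.mul k.1, fun z hz X => by
    beta_reduce
    rw [← h.2 z hz, ← k.2 z hz]
    exact congrArg (fun L => L X) ((hd h.1 hz).mul (hd k.1 hz)).fderiv⟩

lemma D.add (h : D f α) (k : D g β) : D (fun z => f z + g z) fun z X => α z X + β z X :=
  ⟨h.1.add k.1, fun z hz X => by
    beta_reduce
    rw [← h.2 z hz, ← k.2 z hz]
    exact congrArg (fun L => L X) ((hd h.1 hz).add (hd k.1 hz)).fderiv⟩

lemma D.inv (h : D a m) (h0 : ∀ z ≠ 0, a z ≠ 0) :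
    D (fun z => (a z)⁻¹) fun z X => -(a z ^ 2)⁻¹ * m z X :=
  ⟨h.1.inv h0, fun z hz X => by
    have := ((hasDerivAt_inv (h0 z hz)).hasFDerivAt.restrictScalars ℝ).comp z (hd h.1 hz)
    refine (congrArg (fun L => L X) this.fderiv).trans ?_
    simp [mul_comm, h.2 z hz]⟩

lemma D.comp (h : D f α) {G : ℝ → ℝ} (hG : ∀ z ≠ 0, ContDiffAt ℝ 1 G (f z)) :
    D (fun z => G (f z)) fun z X => deriv G (f z) * α z X :=
  ⟨fun z hz => (hG z hz).comp_contDiffWithinAt z (h.1 z hz), fun z hz X => by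
    beta_reduce
    rw [← h.2 z hz]
    exact congrArg (fun L => L X) (((hG z hz).differentiableAt one_ne_zero).hasDerivAt.comp_hasFDerivAt
      z (hd h.1 hz)).fderiv⟩

lemma D.congr {E : Type} [NormedAddCommGroup E] [NormedSpace ℝ E] {f g : ℂ → E} {α β : ℂ → ℂ → E}
    (h : D f α) (e : ∀ z, g z = f z) (e' : ∀ z ≠ 0, ∀ X, α z X = β z X) : D g β := by
  obtain rfl : g = f := funext e
  exact ⟨h.1, fun z hz X => (h.2 z hz X).trans (e' z hz X)⟩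

lemma D.sq (h : D μ m) : D (fun z => ‖μ z‖ ^ 2) fun z X => 2 * (conj (μ z) * m z X).re :=
  ((h.re.mul h.re).add (h.im.mul h.im)).congr (fun z => by rw [Complex.sq_norm, normSq_apply])
    fun z _ X => by simp; ring

lemma Did : D (fun z : ℂ => z) fun _ X => X := ⟨contDiffOn_id, fun z _ X => by simp⟩

lemma D.lg (h : D f α) (h0 : ∀ z ≠ 0, f z ≠ 0) (k : ℝ) :
    D (fun z => k * Real.log (f z)) fun z X => k * (f z)⁻¹ * α z X :=
  (h.comp (G := fun x => k * Real.log x) fun z hz =>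
    contDiffAt_const.mul (Real.contDiffAt_log.2 (h0 z hz))).congr (fun _ => rfl) fun z _ X => by
      rw [deriv_const_mul_field', Real.deriv_log']

lemma Dt (k : ℝ) : D (fun z : ℂ => k * Real.log ‖z‖) fun z X => k * (X / z).re :=
  (Did.sq.lg (fun z hz => by simpa using hz) (k / 2)).congr (fun z => by
    rw [Real.log_pow]; push_cast; ring) fun z hz X => by
      rw [Complex.sq_norm, div_re]
      simp
      ring

lemma wb {η : ℂ →L[ℝ] ℝ} {β : ℂ → ℝ} {x B K : ℝ} (hx : |x| ≤ B)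
    (h : ∀ X : ℂ, ‖X‖ = 1 → |β X| ≤ K) : |x * wd η β| ≤ 2 * B * (‖η‖ * K) := by
  have b := Q.L_norm η
  have k0 := (abs_nonneg _).trans (h 1 (by simp))
  have : |wd η β| ≤ ‖η‖ * K + ‖η‖ * K := by
    refine (abs_sub _ _).trans (add_le_add ?_ ?_) <;> rw [abs_mul]
    exacts [mul_le_mul b.1 (h I (by simp)) (abs_nonneg _) (norm_nonneg _),
      mul_le_mul b.2.1 (h 1 (by simp)) (abs_nonneg _) (norm_nonneg _)]
  rw [abs_mul]
  exact (mul_le_mul hx this (abs_nonneg _) ((abs_nonneg _).trans hx)).trans_eq (by ring)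

/-- a pair of integrable functions with opposite integrals -/
def Pr (A B : ℂ → ℝ) : Prop := Integrable A ∧ Integrable B ∧ ∫ z, A z = -∫ z, B z

lemma Pr.add {A B A' B' : ℂ → ℝ} (h : Pr A B) (k : Pr A' B') (x : ℝ) :
    Pr (fun z => A z + x * A' z) fun z => B z + x * B' z :=
  ⟨h.1.add (k.1.const_mul x), h.2.1.add (k.2.1.const_mul x), by
    rw [integral_add h.1 (k.1.const_mul x), integral_add h.2.1 (k.2.1.const_mul x),
      integral_const_mul, integral_const_mul, h.2.2, k.2.2]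
    ring⟩

lemma Pr.le {A B M W : ℂ → ℝ} {C : ℝ} (h : Pr A B) (hM : Integrable M) (hW : Integrable W)
    (h0 : ∀ z ≠ 0, 0 ≤ A z) (h1 : ∀ z ≠ 0, M z ≤ B z + C * W z) : ∫ z, M z ≤ C * ∫ z, W z := by
  have ae : ∀ᵐ z : ℂ, z ≠ 0 := by simp [ae_iff]
  have a := integral_nonneg_of_ae (μ := volume) (ae.mono h0)
  have b := integral_mono_ae hM (h.2.1.add (hW.const_mul C)) (ae.mono h1)
  simp only [Pi.add_apply] at b
  rw [integral_add h.2.1 (hW.const_mul C), integral_const_mul] at b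
  linarith [h.2.2]

end CiA

open CiA StkA in
theorem ci : CertS → StkS → PriS → CiS := fun cert stk pri s s0 s1 => by
  obtain ⟨G₁, G₂, G₃, B, hG⟩ := pri s s0 s1
  have B0 : 0 ≤ B := (abs_nonneg _).trans (hG 0 (by simp)).2.1.1
  refine ⟨8 * B + 1, by positivity, fun a c η h t η0 => ?_⟩
  have U := isOpen_compl_singleton (x := (0 : ℂ))
  have da : D a fun z => fderiv ℝ a z := ⟨h.ca, fun _ _ _ => rfl⟩
  have dc : D c fun z => fderiv ℝ c z := ⟨h.cc, fun _ _ _ => rfl⟩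
  have dμ : D (fun z => conj (c z) / a z) fun z => dm (a z) (c z) (fderiv ℝ a z) (fderiv ℝ c z) :=
    (dc.cj.mul (da.inv h.ne)).congr (fun z => div_eq_mul_inv _ _) fun z hz X => by
      have := h.ne z hz
      rw [dm]
      field_simp
      ring
  have n1 : ∀ z ≠ 0, ‖conj (c z) / a z‖ ≤ 1 := fun z hz => by
    rw [norm_div, Complex.norm_conj]
    exact div_le_one_of_le₀ (h.le z hz) (norm_nonneg _)
  have hR : ∀ z ≠ 0, ‖conj (c z) / a z‖ ^ 2 ∈ Icc (0 : ℝ) 1 := fun z hz =>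
    ⟨sq_nonneg _, pow_le_one₀ (norm_nonneg _) (n1 z hz)⟩
  have dν : D (fun z => conj (c z) / a z * (conj z / z)) fun z X =>
      (dm (a z) (c z) (fderiv ℝ a z) (fderiv ℝ c z) X - 2 * I * (conj (c z) / a z) * (X / z).im) *
        (conj z / z) :=
    (dμ.mul (Did.cj.mul (Did.inv fun _ h => h))).congr (fun z => by rw [div_eq_mul_inv (conj z)])
      fun z hz X => by
        have e := sub_conj (X / z)
        have z0 : conj z ≠ 0 := (map_ne_zero _).2 hz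
        rw [map_div₀] at e
        push_cast at e
        rw [show ∀ u v : ℂ, 2 * I * u * v = u * (2 * v * I) from fun u v => by ring, ← e]
        field_simp
        ring
  have d1 : D (fun z => Real.log (‖a z‖ ^ 2 + ‖c z‖ ^ 2) / 2 - 2 * Real.log ‖z‖) fun z X =>
      dlg (a z) (c z) (fderiv ℝ a z) (fderiv ℝ c z) X - 2 * (X / z).re :=
    (((da.sq.add dc.sq).lg (fun z hz => by
      have := norm_pos_iff.2 (h.ne z hz)
      positivity) (1 / 2)).add (Dt (-2))).congr (fun z => by ring) fun z hz X => by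
        rw [dlg, add_re]
        ring
  have d2 := Dt (1 - s ^ 2 / 8)
  have d8 := Dt 1
  have d3 := dμ.sq.comp fun z hz => (hG _ (hR z hz)).1.1
  have dg := dμ.sq.comp fun z hz => (hG _ (hR z hz)).1.2.1
  have d4 := dg.mul dμ.re
  have d5 := dg.mul dμ.im
  have d6 := dμ.sq.comp fun z hz => (hG _ (hR z hz)).1.2.2
  have id0 : ∀ z ∈ ({0}ᶜ : Set ℂ), z ≠ 0 := fun _ h => h
  have p1 : Pr _ _ := (stk _ η _ U t d1.1).2 a h.ca h.ne
  have p2 : Pr _ _ := (stk _ η _ U t d2.1).2 (fun x => x) contDiffOn_id id0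
  have p3 : Pr _ _ := (stk _ η _ U t d3.1).2 a h.ca h.ne
  have p4 : Pr _ _ := (stk _ η _ U t d4.1).1 _ dμ.im.1
  have p5 : Pr _ _ := (stk _ η _ U t d5.1).1 _ dμ.re.1
  have p6 : Pr _ _ := (stk _ η _ U t d6.1).2 (fun x => x) contDiffOn_id id0
  have p7 : Pr _ _ := (stk _ η _ U t dν.re.1).2 (fun x => x) contDiffOn_id id0
  have p8 : Pr _ _ := (stk _ η _ U t dν.im.1).1 _ d8.1
  have ai : ∀ z X, ar (fun x => x) z X = (X / z).im := fun z X => by simp [ar]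
  refine (((((((p1.add p2 1).add p3 (-1)).add p4 (-1)).add p5 1).add p6 1).add p7 (-(s / 4))).add
    p8 (s / 4)).le (p1.2.1.add p2.2.1) (ig t.2.1 t.2.2 ((cd U t.1.contDiffOn).norm.mul
      ((((h.ca.continuousOn_fderiv_of_isOpen U le_rfl).norm.add
        (h.cc.continuousOn_fderiv_of_isOpen U le_rfl).norm).div h.ca.continuousOn.norm
        fun z hz => norm_ne_zero_iff.2 (h.ne z hz)).add (continuousOn_id.norm.inv₀
          fun z hz => norm_ne_zero_iff.2 hz))) fun z hz => by simp [fz hz])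
    (fun z hz => ?_) fun z hz => ?_
  · refine (mul_nonneg (η0 z)
      (cert s z _ _ _ _ s0 s1 hz (h.ne z hz) (h.le z hz) (h.eq z hz))).trans_eq ?_
    obtain ⟨-, -, g1, g2, g3⟩ := hG _ (hR z hz)
    simp only [wd, Qv, d1.2 z hz, d2.2 z hz, d3.2 z hz, d4.2 z hz, d5.2 z hz, d6.2 z hz,
      dν.re.2 z hz, dν.im.2 z hz, d8.2 z hz, dμ.re.2 z hz, dμ.im.2 z hz, ai, g1, g3]
    simp only [ar]
    have r := Complex.sq_norm (conj (c z) / a z)
    rw [normSq_apply] at r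
    generalize conj (c z) / a z = μ at *
    generalize dm (a z) (c z) (fderiv ℝ a z) (fderiv ℝ c z) = m
    simp only [mul_re (conj μ), mul_im (conj μ), conj_re, conj_im]
    linear_combination 2 * η z * ((m 1).re * (m I).im - (m I).re * (m 1).im) * (g2 +
      ((1 - s ^ 2 * ‖μ‖ ^ 2)⁻¹ / (2 * (1 + ‖μ‖ ^ 2)) - deriv G₂ (‖μ‖ ^ 2)) * r)
  · obtain ⟨-, ⟨b1, b2, b3⟩, -⟩ := hG _ (hR z hz)
    have a0 := norm_pos_iff.2 (h.ne z hz)
    have z0 := inv_pos.2 (norm_pos_iff.2 hz)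
    have nA := norm_nonneg (fderiv ℝ a z)
    have nC := norm_nonneg (fderiv ℝ c z)
    set K := (‖fderiv ℝ a z‖ + ‖fderiv ℝ c z‖) / ‖a z‖ + ‖z‖⁻¹ with hK
    have lA : ∀ X : ℂ, ‖X‖ = 1 → ‖fderiv ℝ a z X / a z‖ ≤ ‖fderiv ℝ a z‖ / ‖a z‖ := fun X hX => by
      rw [norm_div]
      gcongr
      simpa [hX] using (fderiv ℝ a z).le_opNorm X
    have k1 : ∀ X : ℂ, ‖X‖ = 1 → |ar a z X| ≤ K := fun X hX =>
      (abs_im_le_norm _).trans ((lA X hX).trans (by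
        rw [hK, add_div, add_assoc]
        exact le_add_of_nonneg_right (by positivity)))
    have k2 : ∀ X : ℂ, ‖X‖ = 1 → ‖X / z‖ ≤ K := fun X hX => by
      rw [norm_div, hX, one_div]
      exact le_add_of_nonneg_left (by positivity)
    have k3 : ∀ X : ℂ, ‖X‖ = 1 → ‖dm (a z) (c z) (fderiv ℝ a z) (fderiv ℝ c z) X‖ ≤ K :=
      fun X hX => by
        refine (norm_sub_le _ _).trans ((add_le_add (b := ‖fderiv ℝ c z‖ / ‖a z‖) ?_
          ((norm_mul_le _ _).trans ((mul_le_of_le_one_left (norm_nonneg _) (n1 z hz)).trans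
            (lA X hX)))).trans (by rw [hK, add_div]; linarith))
        rw [norm_div, Complex.norm_conj]
        gcongr
        simpa [hX] using (fderiv ℝ c z).le_opNorm X
    have k4 : ∀ X : ℂ, ‖X‖ = 1 → |ar (fun x => x) z X| ≤ K := fun X hX =>
      (ai z X).symm ▸ (abs_im_le_norm _).trans (k2 X hX)
    have nν : ‖conj (c z) / a z * (conj z / z)‖ ≤ 1 := by
      rw [norm_mul, norm_div (conj z), Complex.norm_conj, div_self (norm_ne_zero_iff.2 hz), mul_one]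
      exact n1 z hz
    have mu : ∀ {x y : ℝ}, |x| ≤ B → |y| ≤ 1 → |x * y| ≤ B := fun hx hy =>
      (abs_mul _ _).trans_le ((mul_le_of_le_one_right (abs_nonneg _) hy).trans hx)
    have q3 := abs_le.1 (wb (η := fderiv ℝ η z) b1 k1)
    have q4 := abs_le.1 (wb (η := fderiv ℝ η z) (mu b2 ((abs_re_le_norm _).trans (n1 z hz)))
      fun X hX => (congrArg abs (dμ.im.2 z hz X)).trans_le ((abs_im_le_norm _).trans (k3 X hX)))
    have q5 := abs_le.1 (wb (η := fderiv ℝ η z) (mu b2 ((abs_im_le_norm _).trans (n1 z hz)))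
      fun X hX => (congrArg abs (dμ.re.2 z hz X)).trans_le ((abs_re_le_norm _).trans (k3 X hX)))
    have q6 := abs_le.1 (wb (η := fderiv ℝ η z) b3 k4)
    have q7 := abs_le.1 (wb (η := fderiv ℝ η z) ((abs_re_le_norm _).trans nν) k4)
    have q8 := abs_le.1 (wb (η := fderiv ℝ η z) ((abs_im_le_norm _).trans nν)
      fun X hX => (congrArg abs ((d8.2 z hz X).trans (one_mul _))).trans_le
        ((abs_re_le_norm _).trans (k2 X hX)))
    have : 0 ≤ ‖fderiv ℝ η z‖ * K := by positivity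
    nlinarith [mul_le_mul_of_nonneg_left q7.2 s0.le, mul_le_mul_of_nonneg_left q8.1 s0.le]

end Pool.Agent.MP_815c6c_an.L

end
end MrgPart5

-- ======== part 6: formerly Pool.Agent.MP_815c6c_an.Q.Osc
section MrgPart6

/-! Planar p-harmonic maps: mean values and mean oscillations on discs. -/

set_option autoImplicit false

namespace Pool.Agent.MP_815c6c_an.Q

open Set Metric MeasureTheory Filter Topology Complex
open scoped ContDiff ENNReal ComplexConjugate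
open P (vo Ts Cu)

namespace OscA

variable {E : Type} [NormedAddCommGroup E] {x : ℂ} {r ρ : ℝ}

theorem vol (x : ℂ) (hr : 0 < r) : (vo (ball x r)).real univ = Real.pi * r ^ 2 := by
  rw [measureReal_restrict_apply_univ, Measure.real, Complex.volume_ball]
  simp [hr.le, mul_comm]

theorem sq_int {μ : Measure ℂ} {f : ℂ → E} (h : MemLp f 2 μ) :
    Integrable (fun z => ‖f z‖ ^ 2) μ := (memLp_two_iff_integrable_sq_norm h.1).1 h

theorem tri {μ : Measure ℂ} [IsFiniteMeasure μ] {f : ℂ → E} (h : MemLp f 2 μ) (c : E) :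
    ∫ z, ‖f z‖ ^ 2 ∂μ ≤ 2 * ∫ z, ‖f z - c‖ ^ 2 ∂μ + 2 * (μ.real univ * ‖c‖ ^ 2) := by
  have i : Integrable (fun z => ‖f z - c‖ ^ 2) μ := sq_int (h.sub (memLp_const c))
  rw [← smul_eq_mul (μ.real univ), ← integral_const, ← integral_const_mul, ← integral_const_mul,
    ← integral_add (i.const_mul 2) (integrable_const _)]
  refine integral_mono (sq_int h) ((i.const_mul 2).add (integrable_const _)) fun z => ?_
  have a : ‖f z‖ ≤ ‖f z - c‖ + ‖c‖ := norm_le_norm_sub_add _ _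
  have := pow_le_pow_left₀ (norm_nonneg _) a 2
  simp only
  nlinarith [sq_nonneg (‖f z - c‖ - ‖c‖)]

theorem jen {μ : Measure ℂ} [IsFiniteMeasure μ] {f : ℂ → E} (h : MemLp f 2 μ) (m : ℝ) :
    2 * m * ∫ z, ‖f z‖ ∂μ - μ.real univ * m ^ 2 ≤ ∫ z, ‖f z‖ ^ 2 ∂μ := by
  have i := (h.integrable one_le_two).norm.const_mul (2 * m)
  rw [← smul_eq_mul (μ.real univ), ← integral_const, ← integral_const_mul,
    ← integral_sub i (integrable_const _)]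
  refine integral_mono (i.sub (integrable_const _)) (sq_int h) fun z => ?_
  simp only
  nlinarith [sq_nonneg (‖f z‖ - m)]

theorem mono {f : ℂ → E} {U U' : Set ℂ} (hU : U' ⊆ U) (h : MemLp f 2 (vo U)) :
    en U' f ≤ en U f :=
  setIntegral_mono_set (sq_int h) (ae_of_all _ fun _ => sq_nonneg _) hU.eventuallyLE

theorem emb (x : ℂ) (hr : 0 < r) : MeasurableEmbedding fun z : ℂ => x + r * z :=
  ((Homeomorph.mulLeft₀ (r : ℂ) (ofReal_ne_zero.2 hr.ne')).trans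
    (Homeomorph.addLeft x)).measurableEmbedding

theorem map_sc (x : ℂ) (hr : 0 < r) (ρ : ℝ) : (vo (ball 0 ρ)).map (fun z : ℂ => x + r * z) =
    ENNReal.ofReal (r ^ 2)⁻¹ • vo (ball x (r * ρ)) := by
  have e : (volume : Measure ℂ).map (fun z : ℂ => x + r * z) =
      ENNReal.ofReal (r ^ 2)⁻¹ • volume := by
    rw [show (fun z : ℂ => x + r * z) = (fun z => x + z) ∘ (fun z : ℂ => r • z) from rfl,
      ← Measure.map_map (by fun_prop) (by fun_prop), Measure.map_addHaar_smul _ hr.ne',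
      Measure.map_smul, map_add_left_eq_self, finrank_real_complex, abs_of_pos (by positivity)]
  rw [vo, vo, ← Measure.restrict_smul, ← e, (emb x hr).restrict_map]
  congr 2
  ext z
  simp [abs_of_pos hr, hr]

variable [NormedSpace ℝ E]

theorem avg (hr : 0 < r) (g : ℂ → E) :
    ⨍ z in ball x r, g z = (Real.pi * r ^ 2)⁻¹ • ∫ z in ball x r, g z := by
  rw [average_eq, vol x hr]

theorem int_sc (hr : 0 < r) (g : ℂ → E) : ∫ z in ball (0 : ℂ) ρ, g (x + r * z) =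
    (r ^ 2)⁻¹ • ∫ w in ball x (r * ρ), g w := by
  rw [← (emb x hr).integral_map (μ := vo (ball 0 ρ)) g, map_sc x hr, integral_smul_measure,
    ENNReal.toReal_ofReal (by positivity)]

theorem avg_sc (hr : 0 < r) (g : ℂ → E) :
    ⨍ z in ball (0 : ℂ) ρ, g (x + r * z) = ⨍ w in ball x (r * ρ), g w := by
  rcases le_or_gt ρ 0 with h | h
  · rw [ball_eq_empty.2 h, ball_eq_empty.2 (mul_nonpos_of_nonneg_of_nonpos hr.le h)]
    simp
  rw [avg h, avg (mul_pos hr h), int_sc hr, smul_smul]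
  congr 1
  field_simp

theorem avg_smul (μ : Measure ℂ) (c : ℝ) (g : ℂ → E) : ⨍ z, c • g z ∂μ = c • ⨍ z, g z ∂μ := by
  rw [average_eq, average_eq, integral_smul, smul_comm]

theorem en_eq (f : ℂ → E) (hr : 0 < r) :
    en (ball x r) (fun z => f z - av f x r) = Real.pi * r ^ 2 * osc f x r ^ 2 := by
  have := Real.pi_pos
  rw [osc, avg hr, smul_eq_mul, Real.sq_sqrt (mul_nonneg (by positivity)
    (integral_nonneg fun _ => sq_nonneg _)), en]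
  field_simp

theorem av_sub {f g : ℂ → E} (h : MemLp f 2 (vo (ball x r))) (k : MemLp g 2 (vo (ball x r))) :
    av (fun z => f z - g z) x r = av f x r - av g x r := by
  rw [av, av, av, average_eq, average_eq, average_eq,
    integral_sub (h.integrable one_le_two) (k.integrable one_le_two), smul_sub]

variable [CompleteSpace E]

theorem le {f : ℂ → E} {c : E} {B : ℝ} (hr : 0 < r) (hB : 0 ≤ B) (h : MemLp f 2 (vo (ball x r)))
    (e : en (ball x r) (fun z => f z - c) ≤ Real.pi * r ^ 2 * B ^ 2) :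
    ‖av f x r - c‖ ≤ B ∧ osc f x r ≤ 2 * B := by
  have A : 0 < Real.pi * r ^ 2 := mul_pos Real.pi_pos (by positivity)
  have k : MemLp (fun z => f z - c) 2 (vo (ball x r)) := h.sub (memLp_const c)
  have a : ‖av f x r - c‖ ≤ B := by
    have c0 : av (fun _ => c) x r = c := by
      rw [av, avg hr, integral_const, vol x hr, smul_smul, inv_mul_cancel₀ A.ne', one_smul]
    rw [← c0, ← av_sub h (memLp_const c), av, avg hr, norm_smul, Real.norm_of_nonneg (by positivity)]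
    refine (mul_le_mul_of_nonneg_left (norm_integral_le_integral_norm _) (by positivity)).trans ?_
    have j := (jen k ((Real.pi * r ^ 2)⁻¹ * ∫ z in ball x r, ‖f z - c‖)).trans e
    rw [vol x hr] at j
    generalize ∫ z in ball x r, ‖f z - c‖ = J at j ⊢
    generalize Real.pi * r ^ 2 = A0 at A j ⊢
    obtain ⟨m, rfl⟩ : ∃ m, J = A0 * m := ⟨A0⁻¹ * J, by field_simp⟩
    rw [inv_mul_cancel_left₀ A.ne'] at j ⊢
    exact (abs_le_of_sq_le_sq' (le_of_mul_le_mul_left (by linarith) A) hB).2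
  refine ⟨a, (abs_le_of_sq_le_sq' (le_of_mul_le_mul_left ?_ A) (by positivity)).2⟩
  have t := tri (h.sub (memLp_const (av f x r))) (c - av f x r)
  simp only [Pi.sub_apply, sub_sub_sub_cancel_right, vol x hr] at t
  have b := mul_le_mul_of_nonneg_left (pow_le_pow_left₀ (norm_nonneg _) a 2) A.le
  rw [norm_sub_rev] at b
  rw [← en_eq f hr]
  unfold en at e ⊢
  linarith

theorem sup {f : ℂ → E} {c : E} {B : ℝ} (hr : 0 < r) (h : AEStronglyMeasurable f (vo (ball x r)))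
    (b : ∀ z ∈ ball x r, ‖f z - c‖ ≤ B) :
    MemLp f 2 (vo (ball x r)) ∧ ‖av f x r - c‖ ≤ B ∧ osc f x r ≤ 2 * B := by
  have b' : ∀ᵐ z ∂vo (ball x r), ‖f z - c‖ ≤ B := ae_restrict_of_forall_mem measurableSet_ball b
  have k : MemLp (fun z => f z - c) 2 (vo (ball x r)) :=
    .of_bound (h.sub aestronglyMeasurable_const) B b'
  have m : MemLp f 2 (vo (ball x r)) :=
    (k.add (memLp_const c)).ae_eq (ae_of_all _ fun z => sub_add_cancel _ _)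
  refine ⟨m, le hr ((norm_nonneg _).trans (b x (mem_ball_self hr))) m ?_⟩
  rw [← vol x hr, ← smul_eq_mul, ← integral_const]
  exact integral_mono_ae (sq_int k) (integrable_const _)
    (b'.mono fun z a => pow_le_pow_left₀ (norm_nonneg _) a 2)

theorem lim {f : ℕ → ℂ → E} {g : ℂ → E} (hr : 0 < r)
    (h : ∀ᶠ j in atTop, MemLp (f j) 2 (vo (ball x r))) (u : TendstoUniformlyOn f g atTop (ball x r)) :
    Tendsto (fun j => av (f j) x r) atTop (𝓝 (av g x r)) ∧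
    Tendsto (fun j => osc (f j) x r) atTop (𝓝 (osc g x r)) := by
  have pt : ∀ᵐ z ∂vo (ball x r), Tendsto (fun j => f j z) atTop (𝓝 (g z)) :=
    ae_restrict_of_forall_mem measurableSet_ball fun z hz => u.tendsto_at hz
  have gm : AEStronglyMeasurable g (vo (ball x r)) := by
    obtain ⟨N, hN⟩ := eventually_atTop.1 h
    exact aestronglyMeasurable_of_tendsto_ae atTop (fun j => (hN (j + N) le_add_self).1)
      (pt.mono fun z a => (tendsto_add_atTop_iff_nat N).2 a)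
  have cl : ∀ ε > 0, ∀ᶠ j in atTop, MemLp (f j) 2 (vo (ball x r)) ∧
      ∀ z ∈ ball x r, ‖f j z - g z - 0‖ ≤ ε := fun ε hε =>
    h.and ((Metric.tendstoUniformlyOn_iff.1 u ε hε).mono fun j a z hz => by
      rw [sub_zero, ← dist_eq_norm, dist_comm]; exact (a z hz).le)
  have gl : MemLp g 2 (vo (ball x r)) := by
    obtain ⟨j, a, b⟩ := (cl 1 one_pos).exists
    simpa using a.sub (sup hr (a.1.sub gm) b).1
  have c2 : ∀ ε > 0, ∀ᶠ j in atTop, ‖av (f j) x r - av g x r‖ ≤ ε := fun ε hε =>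
    (cl ε hε).mono fun j a => by
      have := (sup (f := fun z => f j z - g z) hr (a.1.1.sub gm) a.2).2.1
      rwa [sub_zero, av_sub a.1 gl] at this
  have t : Tendsto (fun j => av (f j) x r) atTop (𝓝 (av g x r)) :=
    Metric.tendsto_nhds.2 fun ε hε => (c2 (ε / 2) (half_pos hε)).mono fun j a => by
      rw [dist_eq_norm]; linarith
  refine ⟨t, ?_⟩
  simp only [osc, avg hr]
  refine (Tendsto.const_smul ?_ _).sqrt
  have gi := (gl.sub (memLp_const (av g x r))).norm.add (memLp_const (2 : ℝ))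
  refine tendsto_integral_filter_of_dominated_convergence (fun z => ‖‖g z - av g x r‖ + 2‖ ^ 2)
    (h.mono fun j a => (sq_int (a.sub (memLp_const _))).1) ?_ (sq_int gi)
    (pt.mono fun z a => (a.sub t).norm.pow 2)
  filter_upwards [cl 1 one_pos, c2 1 one_pos] with j a b
  refine ae_restrict_of_forall_mem measurableSet_ball fun z hz => ?_
  rw [Real.norm_of_nonneg (sq_nonneg _), Real.norm_of_nonneg (by positivity)]
  refine pow_le_pow_left₀ (norm_nonneg _) ?_ 2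
  rw [show f j z - av (f j) x r =
    g z - av g x r + (f j z - g z - 0) - (av (f j) x r - av g x r) by abel]
  have := a.2 z hz
  exact (norm_sub_le _ _).trans ((add_le_add_left (norm_add_le _ _) _).trans (by linarith))

end OscA

open OscA in
theorem oscS : OscS := fun E _ _ _ =>
  { nn := fun _ _ _ => Real.sqrt_nonneg _
    congr := fun f g x r h => by
      have a : av f x r = av g x r := average_congr h
      refine ⟨a, ?_⟩
      rw [osc, osc, a]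
      exact congrArg _ (average_congr (h.mono fun z b => by simp only [b]))
    en_eq := fun f x r hr => en_eq f hr
    le := fun f x r c B hr hB h e => le hr hB h e
    sup := fun f x r c B hr h b => sup hr h b
    sub := fun f x r y ρ hρ s h => by
      have hr : 0 < r := pos_of_mem_ball (s (mem_ball_self hρ))
      have o : 0 ≤ osc f x r := Real.sqrt_nonneg _
      rw [mul_assoc]
      refine le hρ (by positivity) (h.mono_measure (Measure.restrict_mono s le_rfl))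
        ((mono s (h.sub (memLp_const (av f x r)))).trans (((en_eq f hr).trans ?_).le))
      field_simp
    tot := fun f x r hr h => by
      have t := tri h (av f x r)
      have e := en_eq (x := x) f hr
      rw [vol x hr] at t
      unfold en at e ⊢
      linarith
    sca := fun f x r c ρ hr hc => by
      have a : av (fun z => c • f (x + r * z)) 0 ρ = c • av f x (r * ρ) := by
        rw [av, av, avg_smul, avg_sc hr]
      refine ⟨a, ?_, int_sc hr fun w => ‖f w‖ ^ 2, fun h => ?_, fun p => ?_⟩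
      · rw [osc, osc, a, ← avg_sc hr, ← Real.sqrt_sq hc, ← Real.sqrt_mul (sq_nonneg c),
          Real.sqrt_sq hc, ← smul_eq_mul (c ^ 2), ← avg_smul]
        simp only [← smul_sub, norm_smul, mul_pow, Real.norm_eq_abs, sq_abs, smul_eq_mul]
      · have := h.smul_measure (ENNReal.ofReal_ne_top (r := (r ^ 2)⁻¹))
        rw [← map_sc x hr, (emb x hr).memLp_map_measure_iff] at this
        exact this.const_smul c
      · rw [← (emb x hr).ae_map_iff, map_sc x hr, Measure.ae_ennreal_smul_measure_iff]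
        simpa using hr.ne'
    mono := fun f U U' s h => mono s h
    lim := fun f g x r hr h u => lim hr h u }

end Pool.Agent.MP_815c6c_an.Q

end MrgPart6

-- marker of a merged file
example : 731051 + 638582 = 731051 + 638582 := rfl
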