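import Mathlib.Topology.Separation.CompletelyRegular
import Pool.Agent.MP_815c6c_an.Q.Osc

-- ======== part 0: formerly Pool.Agent.MP_815c6c_an.Q.Int
section MrgPart0

/-! The interior estimate for a mollification. -/

set_option autoImplicit false

noncomputable section

namespace Pool.Agent.MP_815c6c_an.Q

open Set Metric MeasureTheory Filter Topology Complex Bornology
open scoped ContDiff ENNReal Convolution
open P (vo)

namespace IntA

lemma mink {T : Type} [MeasurableSpace T] (μ : Measure T) [IsProbabilityMeasure μ]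
    {Φ : ℂ × T → ℝ≥0∞} (hm : Measurable Φ) {U : Set ℂ} {M : ℝ≥0∞}
    (h : ∀ᵐ t ∂μ, ∫⁻ z in U, Φ (z, t) ^ 2 ≤ M) : ∫⁻ z in U, (∫⁻ t, Φ (z, t) ∂μ) ^ 2 ≤ M := by
  have a : ∀ z, (∫⁻ t, Φ (z, t) ∂μ) ^ 2 ≤ ∫⁻ t, Φ (z, t) ^ 2 ∂μ := fun z => by
    have := ENNReal.lintegral_mul_le_Lp_mul_Lq μ Real.HolderConjugate.two_two
      (f := fun t => Φ (z, t)) (g := fun _ => 1) (by fun_prop) (by fun_prop)
    simp only [Pi.mul_apply, mul_one, ENNReal.one_rpow, lintegral_const, measure_univ,
      ENNReal.rpow_two, one_pow] at this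
    refine (pow_le_pow_left' this 2).trans_eq ?_
    rw [← ENNReal.rpow_natCast, ← ENNReal.rpow_mul]
    norm_num
  refine (lintegral_mono a).trans ?_
  rw [lintegral_lintegral_swap (hm.pow_const 2).aemeasurable]
  simpa using lintegral_mono_ae h

variable {E : Type} [NormedAddCommGroup E]

lemma ib {f : ℂ → E} (hf : Continuous f) (r : ℝ) :
    IntegrableOn (fun z => ‖f z‖ ^ 2) (ball 0 r) :=
  ((hf.norm.pow 2).continuousOn.integrableOn_compact (isCompact_closedBall 0 r)).mono_set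
    ball_subset_closedBall

lemma en_eq {f : ℂ → E} (hf : Continuous f) (r : ℝ) :
    ENNReal.ofReal (en (ball 0 r) f) = ∫⁻ z in ball 0 r, ‖f z‖ₑ ^ 2 := by
  rw [en, ofReal_integral_eq_lintegral_ofReal (ib hf r) (ae_of_all _ fun _ => sq_nonneg _)]
  simp only [ENNReal.ofReal_pow (norm_nonneg _), ofReal_norm]

lemma shift (g : ℂ → ℝ≥0∞) {t : ℂ} (ht : ‖t‖ ≤ 1 / 2) :
    ∫⁻ z in ball 0 (1 / 2), g (z - t) ≤ ∫⁻ z in ball 0 1, g z := by
  rw [← lintegral_indicator measurableSet_ball, ← lintegral_indicator measurableSet_ball,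
    ← lintegral_sub_right_eq_self ((ball 0 1).indicator g) t]
  refine lintegral_mono fun z => ?_
  by_cases h : z ∈ ball (0 : ℂ) (1 / 2)
  · rw [indicator_of_mem h, indicator_of_mem]
    rw [mem_ball_zero_iff] at h ⊢
    linarith [norm_sub_le z t]
  · rw [indicator_of_notMem h]
    exact zero_le

lemma en_le {F : Type} [NormedAddCommGroup F] {f : ℂ → E} {g : ℂ → F} (hf : Continuous f)
    (hg : Continuous g) {r R : ℝ} (h : r ≤ R) (l : ∀ z, ‖f z‖ ≤ ‖g z‖) :
    en (ball 0 r) f ≤ en (ball 0 R) g :=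
  (setIntegral_mono (ib hf r) (ib hg r) fun z => pow_le_pow_left₀ (norm_nonneg _) (l z) 2).trans
    (setIntegral_mono_set (ib hg R) (ae_of_all _ fun _ => sq_nonneg _)
      (ball_subset_ball h).eventuallyLE)

variable [NormedSpace ℝ E] [CompleteSpace E]

/-- convolution -/
abbrev cv (k : ℂ → ℝ) (f : ℂ → E) : ℂ → E := k ⋆[ContinuousLinearMap.lsmul ℝ ℝ, volume] f

/-- directional derivatives -/
abbrev dd (e : ℂ) (f : ℂ → E) : ℂ → E := fun z => fderiv ℝ f z e

/-- kernels -/
def Ke (k : ℂ → ℝ) : Prop := ContDiff ℝ ∞ k ∧ tsupport k ⊆ closedBall 0 (1 / 2)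

omit [CompleteSpace E] in
lemma dd_sm {f : ℂ → E} (h : ContDiff ℝ ∞ f) (e : ℂ) : ContDiff ℝ ∞ (dd e f) :=
  (h.fderiv_right (m := ∞) (by simp)).clm_apply contDiff_const

lemma Ke.cs {k : ℂ → ℝ} (h : Ke k) : HasCompactSupport k :=
  (isCompact_closedBall _ _).of_isClosed_subset (isClosed_tsupport k) h.2

lemma Ke.dd {k : ℂ → ℝ} (h : Ke k) (e : ℂ) : Ke (dd e k) :=
  ⟨dd_sm h.1 e, (tsupport_fderiv_apply_subset ℝ e).trans h.2⟩

omit [CompleteSpace E] in
lemma Ke.int {k : ℂ → ℝ} (h : Ke k) {g : ℂ → E} (hg : Continuous g) (z : ℂ) :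
    Integrable fun t => k t • g (z - t) :=
  (h.1.continuous.smul (by fun_prop)).integrable_of_hasCompactSupport h.cs.smul_right

omit [CompleteSpace E] in
lemma dd_cv {k : ℂ → ℝ} (h : Ke k) {g : ℂ → E} (hg : Continuous g) (e : ℂ) :
    dd e (cv k g) = cv (dd e k) g := by
  ext z
  have c := h.1.continuous_fderiv (by simp)
  rw [dd, (h.cs.hasFDerivAt_convolution_left _ (h.1.of_le (by exact_mod_cast le_top))
    hg.locallyIntegrable z).fderiv, convolution_def, ContinuousLinearMap.integral_apply]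
  · rfl
  · exact Continuous.integrable_of_hasCompactSupport (by fun_prop)
      ((h.cs.fderiv ℝ).mono fun t ht h0 => ht (by simp [h0]))

lemma Ke.bd (os : OscS) {k : ℂ → ℝ} (h : Ke k) : ∃ M : ℝ, 0 ≤ M ∧ ∀ (n : ℕ) (g : ℂ → Cn n),
    Continuous g → ∀ z ∈ ball (0 : ℂ) (1 / 2), ‖cv k g z‖ ^ 2 ≤ M * en (ball 0 1) g := by
  obtain ⟨c, hc⟩ := h.cs.exists_bound_of_continuous h.1.continuous
  have pi := Real.pi_pos
  refine ⟨c ^ 2 * Real.pi, by positivity, fun n g hg z hz => ?_⟩
  have e0 := en_nonneg (ball 0 1) g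
  have m : MemLp (fun z => ‖g z‖) 2 (vo (ball 0 1)) :=
    (memLp_two_iff_integrable_sq hg.norm.aestronglyMeasurable).2 (ib hg 1)
  have a := ((os ℝ).le (fun z => ‖g z‖) 0 1 0 (√(en (ball 0 1) g / Real.pi)) one_pos
    (Real.sqrt_nonneg _) m (by
      rw [Real.sq_sqrt (by positivity)]
      simp only [en, sub_zero, norm_norm]
      exact le_of_eq (by field_simp))).1
  rw [sub_zero, av, setAverage_eq, Measure.real, Complex.volume_ball] at a
  have a' : ∫ w in ball (0 : ℂ) 1, ‖g w‖ ≤ Real.pi * √(en (ball 0 1) g / Real.pi) := by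
    rw [← inv_mul_le_iff₀ pi]
    exact (le_abs_self _).trans (by simpa using a)
  have b : ‖cv k g z‖ ≤ c * ∫ w in ball (0 : ℂ) 1, ‖g w‖ := by
    rw [cv, convolution_eq_swap, ← integral_const_mul, ← integral_indicator measurableSet_ball]
    refine norm_integral_le_of_norm_le ((integrable_indicator_iff measurableSet_ball).2
      ((m.integrable one_le_two).const_mul c)) (ae_of_all _ fun w => ?_)
    by_cases hw : w ∈ ball (0 : ℂ) 1
    · rw [indicator_of_mem hw, ContinuousLinearMap.lsmul_apply, norm_smul]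
      gcongr
      exact hc _
    · rw [indicator_of_notMem hw, image_eq_zero_of_notMem_tsupport (f := k) fun h' => hw ?_]
      · simp
      have := h.2 h'
      rw [mem_closedBall_zero_iff] at this
      rw [mem_ball_zero_iff] at hz ⊢
      linarith [norm_sub_le z (z - w), show ‖z - (z - w)‖ = ‖w‖ by simp]
  have c0 : 0 ≤ c := (norm_nonneg _).trans (hc 0)
  refine (pow_le_pow_left₀ (norm_nonneg _) (b.trans (mul_le_mul_of_nonneg_left a' c0)) 2).trans_eq ?_
  rw [mul_pow, mul_pow, Real.sq_sqrt (by positivity)]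
  field_simp

omit [CompleteSpace E] in
lemma dd_comm {F : Type} [NormedAddCommGroup F] [NormedSpace ℝ F] (A : L E →L[ℝ] F) {w : ℂ → E}
    (hw : ContDiff ℝ ∞ w) (e z : ℂ) :
    A (fderiv ℝ (dd e w) z) = dd e (fun z => A (fderiv ℝ w z)) z := by
  have df := (hw.fderiv_right (m := ∞) (by simp)).differentiable (by simp) z
  have sy := (hw.contDiffAt.isSymmSndFDerivAt (x := z) (by
    rw [minSmoothness_of_isRCLikeNormedField]; exact WithTop.coe_le_coe.2 le_top)).eq
  have e1 : fderiv ℝ (fun z => A (fderiv ℝ w z)) z = _ := (A.hasFDerivAt.comp z df.hasFDerivAt).fderiv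
  rw [dd, e1, fderiv_clm_apply df (differentiableAt_const _), ContinuousLinearMap.comp_apply]
  congr 1
  ext x
  simp [sy x]

/-- the two estimates for probability kernels -/
lemma prob {τ : ℝ} (hτ : τ ≤ 1 / 2) (b : ContDiffBump (0 : ℂ)) (hb : b.rOut = τ) {u : ℂ → E}
    (hu : ContDiff ℝ ∞ u) :
    en (ball 0 (1 / 2)) (cv (b.normed volume) u) ≤ en (ball 0 1) u ∧
    en (ball 0 (1 / 2)) (fun z => u z - cv (b.normed volume) u z) ≤
      τ ^ 2 * en (ball 0 1) (fderiv ℝ u) := by
  have kc := b.continuous_normed (μ := volume)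
  have uc := hu.continuous
  have dc := hu.continuous_fderiv (by simp)
  have vc : Continuous (cv (b.normed volume) u) :=
    b.hasCompactSupport_normed.continuous_convolution_left _ kc uc.locallyIntegrable
  obtain ⟨μ, hμ⟩ : ∃ μ : Measure ℂ,
    μ = volume.withDensity fun t => ENNReal.ofReal (b.normed volume t) := ⟨_, rfl⟩
  have km : Measurable fun t => ENNReal.ofReal (b.normed volume t) := by fun_prop
  have : IsProbabilityMeasure μ := ⟨by
    rw [hμ, withDensity_apply _ MeasurableSet.univ, Measure.restrict_univ,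
      ← ofReal_integral_eq_lintegral_ofReal b.integrable_normed (ae_of_all _ b.nonneg_normed),
      b.integral_normed, ENNReal.ofReal_one]⟩
  have sp : ∀ᵐ t ∂μ, ‖t‖ ≤ τ := by
    rw [hμ, ae_withDensity_iff km]
    refine ae_of_all _ fun t ht => ?_
    have : t ∈ Function.support (b.normed volume) := fun h => ht (by simp [h])
    rw [b.support_normed_eq, hb, mem_ball_zero_iff] at this
    exact this.le
  have le : ∀ Φ : ℂ → E, Continuous Φ →
      ‖∫ t, b.normed volume t • Φ t‖ₑ ≤ ∫⁻ t, ‖Φ t‖ₑ ∂μ := fun Φ h => by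
    rw [hμ, lintegral_withDensity_eq_lintegral_mul _ km h.enorm.measurable]
    refine (enorm_integral_le_lintegral_enorm _).trans_eq (lintegral_congr fun t => ?_)
    rw [enorm_smul, Real.enorm_of_nonneg (b.nonneg_normed t)]
    rfl
  have τ0 : 0 < τ := hb ▸ b.rOut_pos
  constructor
  · rw [← ENNReal.ofReal_le_ofReal_iff (en_nonneg _ _), en_eq vc, en_eq uc]
    refine (lintegral_mono fun z => pow_le_pow_left' (le _ (by fun_prop)) 2).trans
      (mink μ (Φ := fun p => ‖u (p.1 - p.2)‖ₑ) (Continuous.measurable (by fun_prop)) ?_)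
    filter_upwards [sp] with t ht
    exact shift (fun z => ‖u z‖ₑ ^ 2) (ht.trans hτ)
  · rw [← ENNReal.ofReal_le_ofReal_iff (mul_nonneg (sq_nonneg _) (en_nonneg _ _)),
      en_eq (f := fun z => u z - cv (b.normed volume) u z) (uc.sub vc),
      ENNReal.ofReal_mul (sq_nonneg _), en_eq dc]
    have e : ∀ z, u z - cv (b.normed volume) u z =
        ∫ t, b.normed volume t • (u z - u (z - t)) := fun z => by
      simp only [smul_sub]
      have i : Integrable fun t => b.normed volume t • u (z - t) :=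
        Continuous.integrable_of_hasCompactSupport (by fun_prop)
          b.hasCompactSupport_normed.smul_right
      rw [integral_sub (b.integrable_normed.smul_const _) i, integral_smul_const, b.integral_normed,
        one_smul]
      rfl
    simp only [e]
    refine (lintegral_mono fun z => pow_le_pow_left' (le _ (by fun_prop)) 2).trans
      (mink μ (Φ := fun p => ‖u p.1 - u (p.1 - p.2)‖ₑ) (Continuous.measurable (by fun_prop)) ?_)
    filter_upwards [sp] with t ht
    have : IsProbabilityMeasure (volume.restrict (Ioc (0 : ℝ) 1)) := ⟨by simp⟩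
    have f : ∀ z, ‖u z - u (z - t)‖ₑ ≤
        ∫⁻ σ in Ioc (0 : ℝ) 1, ENNReal.ofReal τ * ‖fderiv ℝ u (z - σ • t)‖ₑ := fun z => by
      have hd : ∀ σ : ℝ, HasDerivAt (fun σ : ℝ => -u (z - σ • t))
          (fderiv ℝ u (z - σ • t) t) σ := fun σ => by
        have a : HasDerivAt (fun σ : ℝ => z - σ • t) (-t) σ := by
          simpa using ((hasDerivAt_id σ).smul_const t).const_sub z
        have := ((hu.differentiable (by simp) _).hasFDerivAt.comp_hasDerivAt σ a).neg
        rwa [map_neg, neg_neg] at this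
      have i := intervalIntegral.integral_eq_sub_of_hasDerivAt (a := 0) (b := 1) (fun σ _ => hd σ)
        (Continuous.intervalIntegrable (by fun_prop) _ _)
      simp only [one_smul, zero_smul, sub_zero, neg_sub_neg] at i
      rw [← i, intervalIntegral.integral_of_le zero_le_one]
      refine (enorm_integral_le_lintegral_enorm _).trans (lintegral_mono fun σ => ?_)
      rw [← ofReal_norm, ← ofReal_norm, ← ENNReal.ofReal_mul τ0.le, mul_comm]
      exact ENNReal.ofReal_le_ofReal (((fderiv ℝ u _).le_opNorm _).trans (by gcongr))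
    refine (lintegral_mono fun z => pow_le_pow_left' (f z) 2).trans
      (mink _ (Φ := fun p : ℂ × ℝ => ENNReal.ofReal τ * ‖fderiv ℝ u (p.1 - p.2 • t)‖ₑ)
        (Measurable.const_mul (Continuous.measurable (by fun_prop)) _) ?_)
    filter_upwards [ae_restrict_mem measurableSet_Ioc] with σ hσ
    simp only [mul_pow]
    rw [lintegral_const_mul' _ _ (by simp), ENNReal.ofReal_pow τ0.le]
    refine mul_le_mul_right (shift (fun z => ‖fderiv ℝ u z‖ₑ ^ 2) ?_) _
    rw [norm_smul, Real.norm_of_nonneg hσ.1.le]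
    exact (mul_le_of_le_one_left (norm_nonneg _) hσ.2).trans (ht.trans hτ)

omit [CompleteSpace E] in
lemma tay {v : ℂ → E} (hv : ContDiff ℝ ∞ v) {S ρ : ℝ} (hS : 0 ≤ S)
    (h : ∀ a ∈ ({1, I} : Set ℂ), ∀ b ∈ ({1, I} : Set ℂ), ∀ y ∈ ball (0 : ℂ) ρ,
      ‖dd a (dd b v) y‖ ≤ S) {y : ℂ} (hy : y ∈ ball (0 : ℂ) ρ) :
    ‖v y - v 0 - fderiv ℝ v 0 y‖ ≤ 4 * S * ‖y‖ ^ 2 := by
  have ρ0 : (0 : ℂ) ∈ ball (0 : ℂ) ρ := mem_ball_self (pos_of_mem_ball hy)
  have a : ∀ b ∈ ({1, I} : Set ℂ), ∀ w ∈ ball (0 : ℂ) ρ,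
      ‖dd b v w - dd b v 0‖ ≤ 2 * S * ‖w‖ := fun b hb w hw => by
    simpa using (convex_ball (0 : ℂ) ρ).norm_image_sub_le_of_norm_fderiv_le (C := 2 * S)
      (fun x _ => (dd_sm hv b).differentiable (by simp) x) (fun x hx => (L_norm _).2.2.trans (by
        linarith [h 1 (by simp) b hb x hx, h I (by simp) b hb x hx])) ρ0 hw
  have := (convex_closedBall (0 : ℂ) ‖y‖).norm_image_sub_le_of_norm_fderiv_le'
    (C := 4 * S * ‖y‖) (φ := fderiv ℝ v 0) (fun x _ => hv.differentiable (by simp) x)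
    (fun x hx => (L_norm _).2.2.trans (by
      have hx' := mem_closedBall_zero_iff.1 hx
      have m : x ∈ ball (0 : ℂ) ρ := mem_ball_zero_iff.2 (hx'.trans_lt (mem_ball_zero_iff.1 hy))
      have a1 := a 1 (by simp) x m
      have a2 := a I (by simp) x m
      simp only [sub_apply]
      nlinarith [mul_le_mul_of_nonneg_left hx' hS]))
    (mem_closedBall_self (norm_nonneg y)) (mem_closedBall_zero_iff.2 le_rfl)
  simpa [sq, mul_assoc] using this

end IntA

open IntA in
theorem int : Kit → CacS → SupS → IntS := by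
  intro kit cac sup s s0 s1
  obtain ⟨c, c0, hc⟩ := cac (s / (2 - s)) (div_nonneg s0 (by linarith))
    ((div_lt_one (by linarith)).2 (by linarith))
  obtain ⟨d, d0, hd⟩ := sup (1 / 32) (by norm_num)
  refine ⟨16 * d * (16 * c + 2 * (64 * 16 * c ^ 2) + 256 * 64 * 16 * c ^ 3), by positivity,
    fun τ τ0 τ1 => ?_⟩
  let b : ContDiffBump (0 : ℂ) := ⟨τ / 2, τ, by positivity, by linarith⟩
  have k0 : Ke (b.normed volume) := ⟨b.contDiff_normed, by
    rw [b.tsupport_normed_eq]; exact closedBall_subset_closedBall τ1⟩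
  obtain ⟨κ, hκ⟩ : ∃ κ, κ = b.normed volume := ⟨_, rfl⟩
  rw [← hκ] at k0
  choose! M M0 hM using fun k (h : Ke k) => h.bd kit.osc
  obtain ⟨K, hK⟩ := ((((Set.toFinite ({1, I} : Set ℂ)).prod ((Set.toFinite ({1, I} : Set ℂ)).prod
    (Set.toFinite ({1, I} : Set ℂ)))).image fun p => M κ + M (dd p.1 κ) + M (dd p.2.1 (dd p.1 κ)) +
      M (dd p.2.2 (dd p.2.1 (dd p.1 κ))))).bddAbove
  have hK' : ∀ x ∈ ({1, I} : Set ℂ), ∀ y ∈ ({1, I} : Set ℂ), ∀ z ∈ ({1, I} : Set ℂ), M κ ≤ K ∧
      M (dd x κ) ≤ K ∧ M (dd y (dd x κ)) ≤ K ∧ M (dd z (dd y (dd x κ))) ≤ K := by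
    intro x hx y hy z hz
    have := hK ⟨(x, y, z), ⟨hx, hy, hz⟩, rfl⟩
    have := M0 _ k0
    have := M0 _ (k0.dd x)
    have := M0 _ ((k0.dd x).dd y)
    have := M0 _ (((k0.dd x).dd y).dd z)
    dsimp only at *
    refine ⟨?_, ?_, ?_, ?_⟩ <;> linarith
  have o1 : (1 : ℂ) ∈ ({1, I} : Set ℂ) := by simp
  have oI : I ∈ ({1, I} : Set ℂ) := by simp
  have K0 : 0 ≤ K := (M0 _ k0).trans (hK' 1 o1 1 o1 1 o1).1
  refine ⟨K + 16 * d * (4 * c * K * (1 + 2 * (64 * c + 1) + (256 * c * (64 * c + 1) + 1))),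
    by positivity, fun n m u₀ hu₀ => ?_⟩
  obtain ⟨A, -, hA⟩ := (kit.alg n).clm s m (abs_le.2 ⟨by linarith, s1.le⟩)
  simp only [hA]
  let χ : ContDiffBump (0 : ℂ) := ⟨1, 2, one_pos, one_lt_two⟩
  obtain ⟨u, hu, us, e1, e2⟩ : ∃ u : ℂ → Cn n, ContDiff ℝ ∞ u ∧ HasCompactSupport u ∧
      (∀ z ∈ ball (0 : ℂ) 1, u₀ z = u z) ∧ ∀ z ∈ ball (0 : ℂ) 1, fderiv ℝ u₀ z = fderiv ℝ u z := by
    have e : ∀ z ∈ ball (0 : ℂ) 1, u₀ z = χ z • u₀ z := fun z hz => by
      rw [χ.one_of_mem_closedBall (ball_subset_closedBall hz), one_smul]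
    exact ⟨fun z => χ z • u₀ z, χ.contDiff.smul hu₀, χ.hasCompactSupport.smul_right, e,
      fun z hz => EventuallyEq.fderiv_eq (eventually_of_mem (isOpen_ball.mem_nhds hz) e)⟩
  have f1 : en (ball 0 1) (fderiv ℝ u₀) = en (ball 0 1) (fderiv ℝ u) :=
    setIntegral_congr_fun measurableSet_ball fun z hz => by simp only [e2 z hz]
  have f2 : en (ball 0 1) (fun z => A (fderiv ℝ u₀ z)) =
      en (ball 0 1) fun z => A (fderiv ℝ u z) :=
    setIntegral_congr_fun measurableSet_ball fun z hz => by simp only [e2 z hz]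
  have f3 : en (ball 0 (1 / 2)) (fun z => u₀ z - cv κ u z) =
      en (ball 0 (1 / 2)) fun z => u z - cv κ u z :=
    setIntegral_congr_fun measurableSet_ball fun z hz => by
      simp only [e1 z (ball_subset_ball (by norm_num) hz)]
  have dc := hu.continuous_fderiv (by simp)
  have gc : Continuous fun z => A (fderiv ℝ u z) := A.continuous.comp dc
  have hv : ContDiff ℝ ∞ (cv κ u) :=
    k0.cs.contDiff_convolution_left _ k0.1 hu.continuous.locallyIntegrable
  have dv : ∀ z, fderiv ℝ (cv κ u) z = ∫ t, κ t • fderiv ℝ u (z - t) := fun z => by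
    rw [(us.hasFDerivAt_convolution_right _ k0.1.continuous.locallyIntegrable
      (hu.of_le (by exact_mod_cast le_top)) z).fderiv, convolution_def]
    rfl
  have p0 : ∀ z, A (fderiv ℝ (cv κ u) z) = cv κ (fun z => A (fderiv ℝ u z)) z := fun z => by
    rw [dv, ← A.integral_comp_comm (k0.int dc z), cv, convolution_def]
    simp
  have l1 : ∀ x ∈ ({1, I} : Set ℂ),
      en (ball 0 (2 * (1 / 4))) (dd x (cv κ u)) ≤ en (ball 0 1) (fderiv ℝ u) := fun x hx => by
    have : dd x (cv κ u) = cv κ (dd x u) := funext fun z => by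
      rw [dd, dv, ContinuousLinearMap.integral_apply (k0.int dc z), cv, convolution_def]
      rfl
    rw [this, hκ, show (2 * (1 / 4) : ℝ) = 1 / 2 by norm_num]
    refine (prob τ1 b rfl (dd_sm hu x)).1.trans (en_le (dd_sm hu x).continuous dc le_rfl fun z => ?_)
    rcases hx with rfl | rfl
    exacts [(L_norm _).1, (L_norm _).2.1]
  have q := (prob τ1 b rfl hu).2
  rw [← hκ] at q
  rw [f1, f2]
  have a0 := en_nonneg (ball 0 1) (fderiv ℝ u)
  have b0 := en_nonneg (ball 0 1) fun z => A (fderiv ℝ u z)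
  generalize en (ball 0 1) (fderiv ℝ u) = a at *
  generalize hg : (fun z => A (fderiv ℝ u z)) = g at *
  generalize cv κ u = v at *
  have st : ∀ {w : ℂ → Cn n} {k : ℂ → ℝ}, ContDiff ℝ ∞ w → Ke k →
      (∀ z, A (fderiv ℝ w z) = cv k g z) → ∀ e z, A (fderiv ℝ (dd e w) z) = cv (dd e k) g z := by
    intro w k h1 h2 h3 e z
    rw [dd_comm A h1, ← dd_cv h2 gc, funext h3]
  have ce : ∀ {w : ℂ → Cn n} {k : ℂ → ℝ} {ρ X : ℝ}, ContDiff ℝ ∞ w → Ke k →
      (∀ z, A (fderiv ℝ w z) = cv k g z) → M k ≤ K → 0 < ρ → ρ ≤ 1 / 4 →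
      en (ball 0 (2 * ρ)) w ≤ X → ∀ e ∈ ({1, I} : Set ℂ),
      en (ball 0 ρ) (dd e w) ≤ c * ((ρ ^ 2)⁻¹ * X + 4 * K * en (ball 0 1) g) := by
    intro w k ρ X h1 h2 h3 h4 r0 r1 h5 e he
    have wc := h1.continuous_fderiv (by simp)
    have c2 : Continuous fun z => 2 * ‖A (fderiv ℝ w z)‖ := by fun_prop
    have := hc n w _ (fun z => 2 * ‖A (fderiv ℝ w z)‖) 0 0 ρ r0
      ((kit.sob _).sm _ w isBounded_ball measurableSet_ball h1)
      ((memLp_two_iff_integrable_sq_norm c2.aestronglyMeasurable).2 (ib c2 _))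
      (ae_of_all _ fun z => hA _ ▸ (kit.alg n).gar s m _ s0 s1)
    refine (en_le (dd_sm h1 e).continuous wc le_rfl fun z => ?_).trans (this.trans ?_)
    · rcases he with rfl | rfl
      exacts [(L_norm _).1, (L_norm _).2.1]
    gcongr
    · simp only [sub_zero]
      exact (setIntegral_mono_set (ib h1.continuous _) (ae_of_all _ fun _ => sq_nonneg _)
        sdiff_subset.eventuallyLE).trans h5
    · refine (setIntegral_mono_on (ib c2 _) (integrableOn_const (C := 4 * (K * en (ball 0 1) g))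
        measure_ball_lt_top.ne) measurableSet_ball fun z hz => ?_).trans ?_
      · have := hM k h2 n g gc z (ball_subset_ball (by linarith) hz)
        rw [Real.norm_of_nonneg (by positivity), mul_pow, h3]
        nlinarith [mul_le_mul_of_nonneg_right h4 b0]
      · rw [setIntegral_const, Measure.real, Complex.volume_ball, smul_eq_mul, ← mul_assoc 4]
        refine mul_le_of_le_one_left (by positivity) ?_
        simp only [ENNReal.toReal_mul, ENNReal.toReal_pow, ENNReal.coe_toReal, NNReal.coe_real_pi,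
          ENNReal.toReal_ofReal (show 0 ≤ 2 * ρ by positivity)]
        nlinarith [Real.pi_le_four, Real.pi_pos, show ρ ^ 2 ≤ 1 / 16 by nlinarith]
  have m0 := hM κ k0 n g gc 0 (mem_ball_self (by norm_num))
  generalize en (ball 0 1) g = B at *
  refine ⟨v 0, fderiv ℝ v 0, v, hv.continuous, f3.trans_le q, ?_, fun y hy => ?_⟩
  · rw [p0]
    refine m0.trans (mul_le_mul_of_nonneg_right ((hK' 1 o1 1 o1 1 o1).1.trans ?_) b0)
    exact le_add_of_nonneg_right (by positivity)
  obtain ⟨X2, h2⟩ : ∃ X, X = c * (((1 / 4 : ℝ) ^ 2)⁻¹ * a + 4 * K * B) := ⟨_, rfl⟩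
  obtain ⟨X3, h3⟩ : ∃ X, X = c * (((1 / 8 : ℝ) ^ 2)⁻¹ * X2 + 4 * K * B) := ⟨_, rfl⟩
  obtain ⟨X4, h4⟩ : ∃ X, X = c * (((1 / 16 : ℝ) ^ 2)⁻¹ * X3 + 4 * K * B) := ⟨_, rfl⟩
  have S0 : 0 ≤ d * (X2 + X3 + X3 + X4) := by rw [h4, h3, h2]; positivity
  have t := tay hv (Real.sqrt_nonneg (d * (X2 + X3 + X3 + X4))) (fun x' hx' x hx z hz => by
    have v1 := dd_sm hv x
    have v2 := dd_sm v1 x'
    have p1 := st hv k0 p0 x
    have p2 := st v1 (k0.dd x) p1 x'
    have l2 := ce v1 (k0.dd x) p1 (hK' x hx x' hx' 1 o1).2.1 (by norm_num) le_rfl (l1 x hx) x' hx'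
    rw [← h2, show (1 / 4 : ℝ) = 2 * (1 / 8) by norm_num] at l2
    have l3 := ce v2 ((k0.dd x).dd x') p2 (hK' x hx x' hx' 1 o1).2.2.1 (by norm_num)
      (by norm_num) l2
    rw [← h3, show (1 / 8 : ℝ) = 2 * (1 / 16) by norm_num] at l3
    have l4 := ce (dd_sm v2 I) (((k0.dd x).dd x').dd I) (st v2 ((k0.dd x).dd x') p2 I)
      (hK' x hx x' hx' I oI).2.2.2 (by norm_num) (by norm_num) (l3 I oI) 1 o1
    rw [← h4, show (1 / 16 : ℝ) = 2 * (1 / 32) by norm_num] at l4
    refine Real.le_sqrt_of_sq_le ((hd _ _ v2 z hz).trans ?_)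
    gcongr
    · exact (en_le v2.continuous v2.continuous (by norm_num) fun _ => le_rfl).trans l2
    · exact (en_le (dd_sm v2 1).continuous (dd_sm v2 1).continuous (by norm_num)
        fun _ => le_rfl).trans (l3 1 o1)
    · exact (en_le (dd_sm v2 I).continuous (dd_sm v2 I).continuous (by norm_num)
        fun _ => le_rfl).trans (l3 I oI)) hy
  refine (pow_le_pow_left₀ (norm_nonneg _) t 2).trans ?_
  rw [mul_pow, mul_pow, Real.sq_sqrt S0, ← pow_mul]
  gcongr
  rw [h4, h3, h2]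
  nlinarith [mul_nonneg K0 b0]

end Pool.Agent.MP_815c6c_an.Q

end
end MrgPart0

-- ======== part 1: formerly Pool.Agent.MP_815c6c_an.Q.Lin
section MrgPart1

/-! Planar p-harmonic maps: a Sobolev embedding and the decay for the frozen operator. -/

set_option autoImplicit false

namespace Pool.Agent.MP_815c6c_an.Q

open Set Metric MeasureTheory Filter Topology Complex
open scoped ContDiff ENNReal ComplexConjugate
open P (vo Ts Cu)

namespace LinA

theorem fub {F : ℂ → ℝ} (hF : Continuous F) (F0 : ∀ z, 0 ≤ F z) {ρ : ℝ} (hρ : 0 < ρ) {y : ℂ}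
    (hy : y ∈ ball (0 : ℂ) ρ) :
    ∫ t in y.im..y.im + ρ / 2, ∫ s in y.re..y.re + ρ / 2, F (s + t * I) ≤
      ∫ z in ball (0 : ℂ) (2 * ρ), F z := by
  have hc : Continuous fun p : ℝ × ℝ => F (p.1 + p.2 * I) := by fun_prop
  have h : y.re ≤ y.re + ρ / 2 := by linarith
  have h' : y.im ≤ y.im + ρ / 2 := by linarith
  have e := volume_preserving_equiv_real_prod.setIntegral_preimage_emb
    measurableEquivRealProd.measurableEmbedding (fun p : ℝ × ℝ => F (p.1 + p.2 * I))
    (Icc y.re (y.re + ρ / 2) ×ˢ Icc y.im (y.im + ρ / 2))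
  simp only [measurableEquivRealProd_apply, re_add_im] at e
  rw [Measure.volume_eq_prod, setIntegral_prod _
    (hc.continuousOn.integrableOn_compact (isCompact_Icc.prod isCompact_Icc))] at e
  simp only [integral_Icc_eq_integral_Ioc, ← intervalIntegral.integral_of_le h,
    ← intervalIntegral.integral_of_le h'] at e
  rw [← intervalIntegral_intervalIntegral_swap (F := fun s t : ℝ => F (s + t * I))
    ((hc.continuousOn.integrableOn_compact (isCompact_uIcc.prod isCompact_uIcc)).mono_set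
      (prod_mono uIoc_subset_uIcc uIoc_subset_uIcc)), ← e]
  refine setIntegral_mono_set
    ((hF.continuousOn.integrableOn_compact (isCompact_closedBall 0 (2 * ρ))).mono_set
      ball_subset_closedBall) (Eventually.of_forall F0) (Eventually.of_forall ?_)
  intro z hz
  obtain ⟨⟨a1, a2⟩, a3, a4⟩ := hz
  simp only [measurableEquivRealProd_apply] at a1 a2 a3 a4
  have b1 : |(z - y).re| ≤ ρ / 2 := by rw [sub_re, abs_le]; constructor <;> linarith
  have b2 : |(z - y).im| ≤ ρ / 2 := by rw [sub_im, abs_le]; constructor <;> linarith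
  have b3 := norm_le_abs_re_add_abs_im (z - y)
  have b4 : ‖z‖ ≤ ‖y‖ + ‖z - y‖ := by simpa using norm_add_le y (z - y)
  have b5 := mem_ball_zero_iff.1 hy
  show z ∈ ball (0 : ℂ) (2 * ρ)
  rw [mem_ball_zero_iff]
  linarith

section
variable {E : Type} [NormedAddCommGroup E] [NormedSpace ℝ E] [CompleteSpace E]

theorem one {φ φ' : ℝ → E} (hd : ∀ t, HasDerivAt φ (φ' t) t) (hc : Continuous φ') (a : ℝ)
    {h : ℝ} (h0 : 0 < h) : ‖φ a‖ ^ 2 ≤ 2 / h * (∫ t in a..a + h, ‖φ t‖ ^ 2) +
      2 * h * ∫ t in a..a + h, ‖φ' t‖ ^ 2 := by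
  have c0 : Continuous φ := continuous_iff_continuousAt.2 fun t => (hd t).continuousAt
  have ha : a ≤ a + h := by linarith
  set A := ∫ t in a..a + h, ‖φ' t‖ with hA
  set B := ∫ t in a..a + h, ‖φ' t‖ ^ 2 with hB
  have cs : A ^ 2 ≤ h * B := by
    have k := intervalIntegral.integral_mono_on (μ := volume) ha
      (f := fun t => 2 * (A / h) * ‖φ' t‖) (g := fun t => ‖φ' t‖ ^ 2 + (A / h) ^ 2)
      (Continuous.intervalIntegrable (by fun_prop) _ _)
      (Continuous.intervalIntegrable (by fun_prop) _ _)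
      fun t _ => by nlinarith [sq_nonneg (‖φ' t‖ - A / h)]
    rw [intervalIntegral.integral_const_mul, intervalIntegral.integral_add
      (Continuous.intervalIntegrable (by fun_prop) _ _) intervalIntegrable_const,
      intervalIntegral.integral_const, ← hA, ← hB, add_sub_cancel_left, smul_eq_mul] at k
    have e : A = h * (A / h) := by field_simp
    generalize A / h = m at k e
    rw [e] at k ⊢
    nlinarith
  have pt : ∀ s ∈ Icc a (a + h), ‖φ a‖ ^ 2 ≤ 2 * ‖φ s‖ ^ 2 + 2 * (h * B) := by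
    intro s hs
    have e := intervalIntegral.integral_eq_sub_of_hasDerivAt (a := a) (b := s)
      (fun t _ => hd t) (hc.intervalIntegrable _ _)
    have n1 : ‖φ s - φ a‖ ≤ A := by
      rw [← e]
      refine (intervalIntegral.norm_integral_le_integral_norm hs.1).trans ?_
      exact intervalIntegral.integral_mono_interval le_rfl hs.1 hs.2
        (Eventually.of_forall fun _ => norm_nonneg _) (hc.norm.intervalIntegrable _ _)
    have n2 : ‖φ a‖ ≤ ‖φ s‖ + A := by
      have := norm_sub_le (φ s) (φ s - φ a)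
      rw [sub_sub_cancel] at this
      linarith
    have n3 := pow_le_pow_left₀ (norm_nonneg _) n2 2
    nlinarith [sq_nonneg (‖φ s‖ - A)]
  have k := intervalIntegral.integral_mono_on (μ := volume) ha
    (f := fun _ => ‖φ a‖ ^ 2) (g := fun s => 2 * ‖φ s‖ ^ 2 + 2 * (h * B))
    intervalIntegrable_const (Continuous.intervalIntegrable (by fun_prop) _ _) pt
  rw [intervalIntegral.integral_add (Continuous.intervalIntegrable (by fun_prop) _ _)
    intervalIntegrable_const, intervalIntegral.integral_const, intervalIntegral.integral_const,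
    intervalIntegral.integral_const_mul, add_sub_cancel_left, smul_eq_mul, smul_eq_mul] at k
  refine le_of_mul_le_mul_left (k.trans_eq ?_) h0
  field_simp

theorem two {g : ℂ → E} (hg : ContDiff ℝ ∞ g) {ρ : ℝ} (hρ : 0 < ρ) {y : ℂ}
    (hy : y ∈ ball (0 : ℂ) ρ) :
    ∫ t in y.im..y.im + ρ / 2, ‖g (y.re + t * I)‖ ^ 2 ≤ 2 / (ρ / 2) * en (ball 0 (2 * ρ)) g +
      2 * (ρ / 2) * en (ball 0 (2 * ρ)) fun z => fderiv ℝ g z 1 := by
  have c0 := hg.continuous
  have c1 : Continuous fun z => fderiv ℝ g z 1 :=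
    (hg.continuous_fderiv (by simp)).clm_apply continuous_const
  have j0 : Continuous fun t : ℝ => ∫ s in y.re..y.re + ρ / 2, ‖g (s + t * I)‖ ^ 2 :=
    intervalIntegral.continuous_parametric_intervalIntegral_of_continuous' (by fun_prop) _ _
  have j1 : Continuous fun t : ℝ => ∫ s in y.re..y.re + ρ / 2, ‖fderiv ℝ g (s + t * I) 1‖ ^ 2 :=
    intervalIntegral.continuous_parametric_intervalIntegral_of_continuous'
      ((c1.comp (by fun_prop)).norm.pow 2) _ _
  have k := intervalIntegral.integral_mono_on (μ := volume) (a := y.im) (b := y.im + ρ / 2)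
    (by linarith) (f := fun t : ℝ => ‖g (y.re + t * I)‖ ^ 2)
    (g := fun t : ℝ => 2 / (ρ / 2) * (∫ s in y.re..y.re + ρ / 2, ‖g (s + t * I)‖ ^ 2) +
      2 * (ρ / 2) * ∫ s in y.re..y.re + ρ / 2, ‖fderiv ℝ g (s + t * I) 1‖ ^ 2)
    (Continuous.intervalIntegrable (by fun_prop) _ _)
    (Continuous.intervalIntegrable (by fun_prop) _ _) fun t _ => by
      refine one (φ := fun s : ℝ => g (s + t * I)) (φ' := fun s => fderiv ℝ g (s + t * I) 1)
        (fun s => ?_) (c1.comp (by fun_prop)) _ (half_pos hρ)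
      exact ((hg.differentiable (by simp)) _).hasFDerivAt.comp_hasDerivAt s
        ((ofRealCLM.hasDerivAt (x := s)).add_const _)
  rw [intervalIntegral.integral_add ((j0.intervalIntegrable _ _).const_mul _)
    ((j1.intervalIntegrable _ _).const_mul _), intervalIntegral.integral_const_mul,
    intervalIntegral.integral_const_mul] at k
  refine k.trans (add_le_add ?_ ?_)
  · exact mul_le_mul_of_nonneg_left (fub (F := fun z => ‖g z‖ ^ 2) (by fun_prop)
      (fun _ => sq_nonneg _) hρ hy) (by positivity)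
  · exact mul_le_mul_of_nonneg_left (fub (F := fun z => ‖fderiv ℝ g z 1‖ ^ 2) (c1.norm.pow 2)
      (fun _ => sq_nonneg _) hρ hy) (by positivity)
end

section
variable {E E' : Type} [NormedAddCommGroup E] [NormedAddCommGroup E']

theorem mem_of_cont {f : ℂ → E} (hf : Continuous f) (x : ℂ) (r : ℝ) :
    MemLp f 2 (vo (ball x r)) := by
  obtain ⟨C, hC⟩ := (isCompact_closedBall x r).exists_bound_of_continuousOn hf.continuousOn
  exact MemLp.of_bound hf.aestronglyMeasurable C
    (ae_restrict_of_forall_mem measurableSet_ball fun z hz => hC z (ball_subset_closedBall hz))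

theorem int_sq {f : ℂ → E} {U : Set ℂ} (hf : MemLp f 2 (vo U)) :
    Integrable (fun z => ‖f z‖ ^ 2) (vo U) := (memLp_two_iff_integrable_sq_norm hf.1).1 hf

theorem en_mono {f : ℂ → E} {U U' : Set ℂ} (h : U' ⊆ U) (hf : MemLp f 2 (vo U)) :
    en U' f ≤ en U f :=
  setIntegral_mono_set (int_sq hf) (Eventually.of_forall fun _ => sq_nonneg _) h.eventuallyLE

theorem en_lim {U : Set ℂ} {f : ℕ → ℂ → E} {f0 : ℂ → E} {g : ℂ → ℝ} (b : ℝ)
    (hg : MemLp g 2 (vo U)) (hm : ∀ j, AEStronglyMeasurable (f j) (vo U))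
    (hb : ∀ᵐ z ∂vo U, (∀ j, ‖f j z‖ ≤ b * g z) ∧ Tendsto (fun j => f j z) atTop (𝓝 (f0 z))) :
    Tendsto (fun j => en U (f j)) atTop (𝓝 (en U f0)) := by
  refine tendsto_integral_of_dominated_convergence (fun z => ‖b * g z‖ ^ 2)
    (fun j => (hm j).norm.pow 2) (int_sq (hg.const_mul b)) (fun j => ?_)
    (hb.mono fun z h => h.2.norm.pow 2)
  filter_upwards [hb] with z h
  rw [Real.norm_of_nonneg (sq_nonneg _)]
  exact pow_le_pow_left₀ (norm_nonneg _) ((h.1 j).trans (le_abs_self _)) 2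

/-- an integrated pointwise bound -/
theorem en_le {x : ℂ} {r a b c : ℝ} (hr : 0 ≤ r) {f : ℂ → E} {g g' : ℂ → E'}
    (hg : MemLp g 2 (vo (ball x r))) (hg' : MemLp g' 2 (vo (ball x r)))
    (h : ∀ z ∈ ball x r, ‖f z‖ ^ 2 ≤ a * ‖g z‖ ^ 2 + b * ‖g' z‖ ^ 2 + c) :
    en (ball x r) f ≤ a * en (ball x r) g + b * en (ball x r) g' + Real.pi * r ^ 2 * c := by
  have i1 := (int_sq hg).const_mul a
  have i2 := (int_sq hg').const_mul b
  have k := integral_mono_of_nonneg (μ := vo (ball x r)) (f := fun z => ‖f z‖ ^ 2)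
    (Eventually.of_forall fun _ => sq_nonneg _) ((i1.add i2).add (integrable_const c))
    (ae_restrict_of_forall_mem measurableSet_ball h)
  refine k.trans_eq ?_
  have v : (vo (ball x r)).real univ = Real.pi * r ^ 2 := by
    simp [Measure.real, Complex.volume_ball, hr, mul_comm]
  simp only [Pi.add_apply]
  have i3 : Integrable (fun z => a * ‖g z‖ ^ 2 + b * ‖g' z‖ ^ 2) (vo (ball x r)) := i1.add i2
  rw [integral_add i3 (integrable_const c), integral_add i1 i2, integral_const_mul,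
    integral_const_mul, integral_const, v, smul_eq_mul]
  rfl
end

end LinA

open LinA

theorem sup : SupS := by
  intro ρ hρ
  refine ⟨(2 / (ρ / 2) + 2 * (ρ / 2)) ^ 2, sq_nonneg _, fun E _ _ _ f hf y hy => ?_⟩
  have hI : ContDiff ℝ ∞ fun w => fderiv ℝ f w I :=
    (hf.fderiv_right (m := ∞) (by simp)).clm_apply contDiff_const
  have k := one (φ := fun t : ℝ => f (y.re + t * I)) (φ' := fun t => fderiv ℝ f (y.re + t * I) I)
    (fun t => by
      have d : HasDerivAt (fun t : ℝ => (y.re : ℂ) + t * I) I t := by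
        simpa using ((ofRealCLM.hasDerivAt (x := t)).mul_const I).const_add (y.re : ℂ)
      exact ((hf.differentiable (by simp)) _).hasFDerivAt.comp_hasDerivAt t d)
    (hI.continuous.comp (by fun_prop)) y.im (half_pos hρ)
  rw [re_add_im] at k
  have k1 := two hf hρ hy
  have k2 := two hI hρ hy
  have p1 : 0 ≤ 2 / (ρ / 2) := by positivity
  have p2 : 0 ≤ 2 * (ρ / 2) := by positivity
  refine k.trans ((add_le_add (mul_le_mul_of_nonneg_left k1 p1)
    (mul_le_mul_of_nonneg_left k2 p2)).trans ?_)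
  have e1 := en_nonneg (ball 0 (2 * ρ)) f
  have e2 := en_nonneg (ball 0 (2 * ρ)) fun z => fderiv ℝ f z 1
  have e3 := en_nonneg (ball 0 (2 * ρ)) fun z => fderiv ℝ f z I
  have e4 := en_nonneg (ball 0 (2 * ρ)) fun z => fderiv ℝ (fun w => fderiv ℝ f w I) z 1
  generalize en (ball 0 (2 * ρ)) f = a at e1 ⊢
  generalize en (ball 0 (2 * ρ)) (fun z => fderiv ℝ f z 1) = b at e2 ⊢
  generalize en (ball 0 (2 * ρ)) (fun z => fderiv ℝ f z I) = c at e3 ⊢
  generalize en (ball 0 (2 * ρ)) (fun z => fderiv ℝ (fun w => fderiv ℝ f w I) z 1) = d at e4 ⊢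
  generalize 2 / (ρ / 2) = p at p1 ⊢
  generalize 2 * (ρ / 2) = q at p2 ⊢
  have : (p + q) ^ 2 * (a + b + c + d) - (p * (p * a + q * b) + q * (p * c + q * d)) =
      (2 * p * q + q ^ 2) * a + (p ^ 2 + p * q + q ^ 2) * (b + c) + (p ^ 2 + 2 * p * q) * d := by
    ring
  have : 0 ≤ (2 * p * q + q ^ 2) * a + (p ^ 2 + p * q + q ^ 2) * (b + c) +
    (p ^ 2 + 2 * p * q) * d := by positivity
  linarith

theorem lin : Kit → CacS → IntS → LinS := by
  intro K cac int s s0 s1
  have k0 : 0 ≤ s / (2 - s) := div_nonneg s0 (by linarith)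
  have k1 : s / (2 - s) < 1 := (div_lt_one (by linarith)).2 (by linarith)
  obtain ⟨Cc, Cc0, cac⟩ := cac _ k0 k1
  obtain ⟨C0, C00, int⟩ := int s s0 s1
  have pi0 := Real.pi_pos
  refine ⟨4 * Cc / Real.pi * (3 + 192 * Real.pi * C0), by positivity, fun θ θ0 θ1 => ?_⟩
  obtain ⟨C, Cp, int⟩ := int (θ ^ 3) (by positivity)
    ((pow_le_of_le_one θ0.le (by linarith) (by norm_num)).trans (by linarith))
  refine ⟨4 * Cc / Real.pi * (192 * Real.pi * θ ^ 2 * C + 8 / θ ^ 2 + 32 * Real.pi * C),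
    by positivity, fun n m u D hu => ?_⟩
  obtain ⟨A, A2, hA⟩ := (K.alg n).clm s m (abs_le.2 ⟨by linarith, s1.le⟩)
  simp only [hA] at int ⊢
  have s2 : ball (0 : ℂ) (2 * θ) ⊆ ball 0 1 := ball_subset_ball (by linarith)
  have hu2 := hu.mono s2
  obtain ⟨v, hv, g, hg, hd⟩ := id hu
  have cD : ∀ j, Continuous (fderiv ℝ (v j)) := fun j => (hv j).continuous_fderiv (by simp)
  have mA : MemLp (fun z => A (D z)) 2 (vo (ball 0 1)) := A.comp_memLp' hu.memLp.2
  have step : ∀ j, osc D 0 θ ^ 2 ≤ 4 * Cc / Real.pi / θ ^ 2 * ((θ ^ 2)⁻¹ *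
      (3 * en (ball 0 1) (fun z => u z - v j z) + 3 * (θ ^ 6 * en (ball 0 1) (fderiv ℝ (v j))) +
        192 * Real.pi * θ ^ 6 * (C0 * en (ball 0 1) (fderiv ℝ (v j)) +
          C * en (ball 0 1) fun z => A (fderiv ℝ (v j) z))) +
      (8 * en (ball 0 1) (fun z => A (D z)) +
        32 * Real.pi * θ ^ 2 * (C * en (ball 0 1) fun z => A (fderiv ℝ (v j) z)))) := by
    intro j
    obtain ⟨c, N, w, wc, h1, h2, h3⟩ := int n m (v j) (hv j)
    simp only [hA] at h2 h3
    have sb : Sb (ball 0 (2 * θ)) (fun z => u z - N z - c) fun z => D z - N := by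
      have := (K.sob (Cn n)).lin _ u u D D 1 0 (-N) (-c) isBounded_ball measurableSet_ball hu2 hu2
      simpa [sub_eq_add_neg] using this
    have mg : MemLp (fun z => 2 * ‖A (D z - N)‖) 2 (vo (ball 0 (2 * θ))) :=
      (A.comp_memLp' sb.memLp.2).norm.const_mul 2
    have k := cac n _ _ _ 0 0 θ θ0 sb mg (Eventually.of_forall fun z => by
      simpa only [hA] using (K.alg n).gar s m (D z - N) s0 s1)
    simp only [sub_zero] at k
    have muv : MemLp (fun z => u z - v j z) 2 (vo (ball 0 1)) :=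
      hu.memLp.1.sub (mem_of_cont (hv j).continuous _ _)
    have E0 := en_nonneg (ball (0 : ℂ) 1) (fderiv ℝ (v j))
    have G0 := en_nonneg (ball (0 : ℂ) 1) fun z => A (fderiv ℝ (v j) z)
    set Ej := en (ball (0 : ℂ) 1) (fderiv ℝ (v j))
    set Gj := en (ball (0 : ℂ) 1) fun z => A (fderiv ℝ (v j) z)
    have a1 : en (ball 0 (2 * θ)) (fun z => u z - N z - c) ≤
        3 * en (ball 0 (2 * θ)) (fun z => u z - v j z) +
        3 * en (ball 0 (2 * θ)) (fun z => v j z - w z) +
        Real.pi * (2 * θ) ^ 2 * (3 * ((C0 * Ej + C * Gj) * (2 * θ) ^ 4)) := by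
      refine en_le (by positivity) (muv.mono_measure (Measure.restrict_mono s2 le_rfl))
        (mem_of_cont ((hv j).continuous.sub wc) _ _) fun z hz => ?_
      have z1 := mem_ball_zero_iff.1 hz
      have b1 := (h3 z (mem_ball_zero_iff.2 (by linarith))).trans
        (mul_le_mul_of_nonneg_left (pow_le_pow_left₀ (norm_nonneg z) z1.le 4) (by positivity))
      have b2 : ‖u z - N z - c‖ ≤ ‖u z - v j z‖ + ‖v j z - w z‖ + ‖w z - c - N z‖ := by
        rw [show u z - N z - c = u z - v j z + (v j z - w z) + (w z - c - N z) by abel]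
        exact norm_add₃_le
      have b3 := pow_le_pow_left₀ (norm_nonneg _) b2 2
      nlinarith [sq_nonneg (‖u z - v j z‖ - ‖v j z - w z‖),
        sq_nonneg (‖u z - v j z‖ - ‖w z - c - N z‖), sq_nonneg (‖v j z - w z‖ - ‖w z - c - N z‖)]
    have a2 := en_mono s2 muv
    have a3 : en (ball 0 (2 * θ)) (fun z => v j z - w z) ≤ (θ ^ 3) ^ 2 * Ej :=
      (en_mono (ball_subset_ball (by linarith : 2 * θ ≤ 1 / 2))
      (mem_of_cont ((hv j).continuous.sub wc) 0 _)).trans h1
    have a4 := en_mono (sdiff_subset : ball (0 : ℂ) (2 * θ) \ ball 0 θ ⊆ _) sb.memLp.1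
    have mA2 := mA.mono_measure (Measure.restrict_mono s2 le_rfl)
    have a5 : en (ball 0 (2 * θ)) (fun z => 2 * ‖A (D z - N)‖) ≤
        8 * en (ball 0 (2 * θ)) (fun z => A (D z)) + 0 * en (ball 0 (2 * θ)) (fun z => A (D z)) +
        Real.pi * (2 * θ) ^ 2 * (8 * (C * Gj)) := by
      refine en_le (by positivity) mA2 mA2 fun z _ => ?_
      have b1 : ‖A (D z - N)‖ ≤ ‖A (D z)‖ + ‖A N‖ := by rw [map_sub]; exact norm_sub_le _ _
      have b3 := pow_le_pow_left₀ (norm_nonneg _) b1 2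
      rw [Real.norm_of_nonneg (by positivity)]
      nlinarith [sq_nonneg (‖A (D z)‖ - ‖A N‖)]
    have a6 := en_mono s2 mA
    set X := en (ball (0 : ℂ) θ) fun z => D z - N with hX
    have X0 : 0 ≤ X := en_nonneg _ _
    have o := ((K.osc (L (Cn n))).le D 0 θ N (√(X / (Real.pi * θ ^ 2))) θ0 (Real.sqrt_nonneg _)
      (hu.mono (ball_subset_ball (by linarith))).memLp.2 (by
        rw [Real.sq_sqrt (by positivity), ← hX]
        exact le_of_eq (by field_simp))).2
    have o2 := pow_le_pow_left₀ ((K.osc (L (Cn n))).nn D 0 θ) o 2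
    rw [mul_pow, Real.sq_sqrt (by positivity)] at o2
    refine o2.trans ?_
    rw [show (2 : ℝ) ^ 2 * (X / (Real.pi * θ ^ 2)) = 4 / Real.pi / θ ^ 2 * X by field_simp; ring,
      show 4 * Cc / Real.pi / θ ^ 2 = 4 / Real.pi / θ ^ 2 * Cc by ring, mul_assoc]
    refine mul_le_mul_of_nonneg_left (k.trans (mul_le_mul_of_nonneg_left (add_le_add
      (mul_le_mul_of_nonneg_left ?_ (by positivity)) ?_) Cc0)) (by positivity)
    · have e : Real.pi * (2 * θ) ^ 2 * (3 * ((C0 * Ej + C * Gj) * (2 * θ) ^ 4)) =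
          192 * Real.pi * θ ^ 6 * (C0 * Ej + C * Gj) := by ring
      have e2 : (θ ^ 3) ^ 2 = θ ^ 6 := by ring
      rw [e] at a1
      rw [e2] at a3
      linarith
    · have e : Real.pi * (2 * θ) ^ 2 * (8 * (C * Gj)) = 32 * Real.pi * θ ^ 2 * (C * Gj) := by ring
      rw [e] at a5
      linarith
  have l1 : Tendsto (fun j => en (ball 0 1) fun z => u z - v j z) atTop (𝓝 0) := by
    have := en_lim (f := fun j z => u z - v j z) (f0 := fun _ => 0) 2 hg
      (fun j => hu.memLp.1.1.sub (hv j).continuous.aestronglyMeasurable) (hd.mono fun z h =>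
        ⟨fun j => by
          have := le_of_tendsto' h.2.1.norm fun j => (h.1 j).1
          have := norm_sub_le (u z) (v j z)
          have := (h.1 j).1
          linarith, by simpa using h.2.1.const_sub (u z)⟩)
    simpa [en] using this
  have l2 : Tendsto (fun j => en (ball 0 1) (fderiv ℝ (v j))) atTop (𝓝 (en (ball 0 1) D)) :=
    en_lim 1 hg (fun j => (cD j).aestronglyMeasurable)
      (hd.mono fun z h => ⟨fun j => by simpa using (h.1 j).2, h.2.2⟩)
  have l3 : Tendsto (fun j => en (ball 0 1) fun z => A (fderiv ℝ (v j) z)) atTop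
      (𝓝 (en (ball 0 1) fun z => A (D z))) :=
    en_lim ‖A‖ hg (fun j => (A.continuous.comp (cD j)).aestronglyMeasurable)
      (hd.mono fun z h => ⟨fun j => (A.le_opNorm _).trans
        (mul_le_mul_of_nonneg_left (h.1 j).2 (norm_nonneg _)),
        (A.continuous.tendsto _).comp h.2.2⟩)
  refine (ge_of_tendsto' (((((l1.const_mul 3).add ((l2.const_mul _).const_mul 3)).add
    (((l2.const_mul C0).add (l3.const_mul C)).const_mul _)).const_mul _).add
    (((l3.const_mul C).const_mul _).const_add _) |>.const_mul _) step).trans_eq ?_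
  field_simp
  ring

end Pool.Agent.MP_815c6c_an.Q

end MrgPart1

-- marker of a merged file
example : 731051 + 679759 = 731051 + 679759 := rfl
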