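import Mathlib.MeasureTheory.SpecificCodomains.WithLp
import Pool.Agent.MP_815c6c_an.Q.Osc
import Pool.Agent.MP_815c6c_an.P.Pt

-- ======== part 0: formerly Pool.Agent.MP_815c6c_an.Q.Fin
section MrgPart0

/-! Planar p-harmonic maps: transfer from the complex plane to the Euclidean plane. -/

set_option autoImplicit false

noncomputable section

namespace Pool.Agent.MP_815c6c_an.Q

open Set Metric MeasureTheory Filter Topology Complex
open scoped ContDiff ENNReal ComplexConjugate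
open P (vo Ts Cu dz)
open P.FinT (e mp emb mpr avg_e dz_e test)
open N (X Gr)

namespace FinA

variable {n : ℕ}

/-- gradients as complex vectors -/
def m (n : ℕ) : Gr 2 n ≃ₗᵢ[ℝ] Cn n where
  toFun G := WithLp.toLp 2 fun a => (⟨G (a, 0), -G (a, 1)⟩ : ℂ)
  invFun w := WithLp.toLp 2 fun k => if k.2 = 0 then (w k.1).re else -(w k.1).im
  map_add' _ _ := by ext a : 1; apply Complex.ext <;> simp [add_comm]
  map_smul' _ _ := by ext a : 1; apply Complex.ext <;> simp
  left_inv G := by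
    ext ⟨a, i⟩
    fin_cases i <;> simp
  right_inv w := by ext a : 1; apply Complex.ext <;> simp
  norm_map' G := by
    simp only [EuclideanSpace.norm_eq, Complex.sq_norm]
    simp [Fintype.sum_prod_type, Fin.sum_univ_two, normSq_apply, sq]

lemma m_re (G : Gr 2 n) (a : Fin n) : (m n G a).re = G (a, 0) := rfl
lemma m_im (G : Gr 2 n) (a : Fin n) : (m n G a).im = -G (a, 1) := rfl

lemma e1 : e 1 = EuclideanSpace.single 0 1 := by
  ext i
  fin_cases i <;> simp [e]

lemma eI : e I = EuclideanSpace.single 1 1 := by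
  ext i
  fin_cases i <;> simp [e]

lemma osc_e (V : X 2 → Gr 2 n) (x : X 2) (r : ℝ) :
    osc (fun z => m n (V (e z))) (e.symm x) r = N.osc V x r := by
  have h : ⨍ y in ball x r, m n (V y) = m n (⨍ y in ball x r, V y) := by
    rw [setAverage_eq, setAverage_eq, map_smul]
    congr 1
    exact (m n).toLinearIsometry.integral_comp_comm V
  rw [osc, av, N.osc, avg_e (fun y => m n (V y)), h, avg_e fun y => ‖m n (V y) - m n _‖ ^ 2]
  simp only [← map_sub, LinearIsometryEquiv.norm_map]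

lemma pw_m (a : ℝ) (y : Gr 2 n) : pw a (m n y) = m n (‖y‖ ^ a • y) := by
  rw [pw, map_smul, LinearIsometryEquiv.norm_map]

/-- a weak gradient is curl free -/
lemma curl {U : Set (X 2)} {h g0 g1 : X 2 → ℝ} {v w : X 2}
    (h0 : ∀ K ⊆ U, IsCompact K → IntegrableOn g0 K)
    (h1 : ∀ K ⊆ U, IsCompact K → IntegrableOn g1 K)
    (h2 : ∀ φ : X 2 → ℝ, ContDiff ℝ ∞ φ → HasCompactSupport φ → tsupport φ ⊆ U →
      (∫ x, h x * fderiv ℝ φ x v = -∫ x, φ x * g0 x) ∧
      ∫ x, h x * fderiv ℝ φ x w = -∫ x, φ x * g1 x)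
    {φ : X 2 → ℝ} (a1 : ContDiff ℝ ∞ φ) (a2 : HasCompactSupport φ) (a3 : tsupport φ ⊆ U) :
    ∫ x, (fderiv ℝ φ x w * g0 x - fderiv ℝ φ x v * g1 x) = 0 := by
  have b0 : ContDiff ℝ ∞ (fderiv ℝ φ) := a1.fderiv_right (m := ∞) (by simp)
  have b1 : ∀ v, ContDiff ℝ ∞ fun x => fderiv ℝ φ x v := fun v => b0.clm_apply contDiff_const
  have b2 : ∀ v, tsupport (fun x => fderiv ℝ φ x v) ⊆ tsupport φ := tsupport_fderiv_apply_subset ℝ
  have b3 : ∀ (g : X 2 → ℝ) w, (∀ K ⊆ U, IsCompact K → IntegrableOn g K) →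
      Integrable fun x => fderiv ℝ φ x w * g x := fun g w hg => by
    refine (integrableOn_iff_integrable_of_support_subset
      (((Function.support_mul_subset_left _ _).trans (subset_tsupport _)).trans (b2 w))).1 ?_
    exact IntegrableOn.continuousOn_mul (b1 w).continuous.continuousOn (hg _ a3 a2) a2
  have b4 : ∀ x v w, fderiv ℝ (fun x => fderiv ℝ φ x w) x v = fderiv ℝ (fderiv ℝ φ) x v w := by
    intro x v w
    rw [fderiv_clm_apply (b0.differentiable (by simp) x) (differentiableAt_const _)]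
    simp
  have b5 := (h2 _ (b1 w) (a2.fderiv_apply ℝ w) ((b2 w).trans a3)).1
  have b6 := (h2 _ (b1 v) (a2.fderiv_apply ℝ v) ((b2 v).trans a3)).2
  have b7 : ∀ x, fderiv ℝ (fderiv ℝ φ) x v w = fderiv ℝ (fderiv ℝ φ) x w v := fun x =>
    (a1.contDiffAt.isSymmSndFDerivAt (by
      rw [minSmoothness_of_isRCLikeNormedField]
      exact WithTop.coe_le_coe.2 (le_top : (2 : ℕ∞) ≤ ⊤)) :) v w
  simp only [b4, b7] at b5 b6
  rw [integral_sub (b3 g0 w h0) (b3 g1 v h1)]
  linarith

end FinA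

open FinA

theorem fin : PowS → FinS := by
  rintro pow n p hp ⟨C, hC⟩
  have p0 : 0 < p := by linarith
  have pw1 : ∀ y : Gr 2 n, pw (-(1 - 2 / p)) (m n (‖y‖ ^ (p / 2 - 1) • y)) = m n y := fun y => by
    rw [← pw_m, (pow _).comp _ _ _ (by linarith),
      show (-(1 - 2 / p) + 1) * (p / 2 - 1 + 1) - 1 = 0 by field_simp; ring, pw, Real.rpow_zero,
      one_smul]
  have pw2 : ∀ y : Gr 2 n, pw (1 - 2 / p) (m n (‖y‖ ^ (p / 2 - 1) • y)) =
      m n (‖y‖ ^ (p - 2) • y) := fun y => by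
    rw [← pw_m, (pow _).comp _ _ _ (by linarith),
      show (1 - 2 / p + 1) * (p / 2 - 1 + 1) - 1 = p - 2 by field_simp; ring, pw_m]
  refine ⟨C, fun U h G hU ⟨H1, H2, H3⟩ => ?_⟩
  have ig : ∀ k, ∀ K ⊆ U, IsCompact K → IntegrableOn (fun y => G y k) K := fun k K a b => by
    have : IsFiniteMeasure (volume.restrict K) := isFiniteMeasure_restrict.2 b.measure_lt_top.ne
    exact (memLp_piLp_iff.1 (H1 K a b).2 k).integrable (ENNReal.one_le_ofReal.2 (by linarith))
  have hW : Wk (1 - 2 / p) (e ⁻¹' U) fun z => m n (‖G (e z)‖ ^ (p / 2 - 1) • G (e z)) := by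
    refine fun a => ⟨fun φ hφ => ?_, fun φ hφ => ?_⟩
    · obtain ⟨a1, a2, a3⟩ := test hφ
      rw [← curl (ig (a, 0)) (ig (a, 1))
        (fun φ b1 b2 b3 => ⟨H2 φ b1 b2 b3 a 0, H2 φ b1 b2 b3 a 1⟩) a1 a2 a3, ← mp.integral_comp emb]
      refine integral_congr_ae (ae_of_all _ fun z => ?_)
      simp only [pw1, dz_e φ, e1, eI]
      simp [m_re, m_im]
      ring
    · obtain ⟨a1, a2, a3⟩ := test hφ
      have := H3 (fun y => (φ ∘ e.symm) y • EuclideanSpace.single a 1) (a1.smul contDiff_const)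
        a2.smul_right ((tsupport_smul_subset_left _ _).trans a3)
      rw [← this, ← mp.integral_comp emb]
      refine integral_congr_ae (ae_of_all _ fun z => ?_)
      simp only [pw2, dz_e φ, e1, eI, fderiv_smul_const (a1.differentiable (by simp) _)]
      rw [Finset.sum_eq_single a (fun b _ hb => by simp [hb]) (by simp)]
      simp [m_re, m_im, add_comm]
  have hL : ∀ K ⊆ e ⁻¹' U, IsCompact K →
      MemLp (fun z => m n (‖G (e z)‖ ^ (p / 2 - 1) • G (e z))) 2 (vo K) := fun K a1 a2 => by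
    have b0 := (H1 _ (image_subset_iff.2 a1) (a2.image e.continuous)).2.comp_measurePreserving
      (mpr _)
    rw [preimage_image_eq _ e.injective] at b0
    have b1 := b0.norm_rpow_div (ENNReal.ofReal (p / 2))
    rw [← ENNReal.ofReal_div_of_pos (by linarith), show p / (p / 2) = 2 by field_simp,
      ENNReal.ofReal_ofNat, ENNReal.toReal_ofReal (by linarith)] at b1
    simp only [← pw_m]
    refine b1.of_le (((pow _).cont _ (by linarith)).comp_aestronglyMeasurable
      ((m n).continuous.comp_aestronglyMeasurable b0.1)) (Eventually.of_forall fun z => ?_)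
    rw [(pow _).norm _ _ (by linarith), sub_add_cancel, LinearIsometryEquiv.norm_map]
    exact le_abs_self _
  obtain ⟨⟨g, a1, a2⟩, hD⟩ := hC _ _ (hU.preimage e.continuous) hW hL
  refine ⟨⟨fun y => (m n).symm (g (e.symm y)), (m n).symm.contDiff.comp_contDiffOn
    (a1.comp e.symm.contDiff.contDiffOn fun y hy => by simpa using hy), ?_⟩,
    fun x r hr hx hm θ hθ => ?_⟩
  · rw [← (mpr U).map_eq]
    refine emb.ae_map_iff.2 (a2.mono fun z hz => ?_)
    simp only [LinearIsometryEquiv.symm_apply_apply, hz]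
  · have := hD (e.symm x) r hr (by rw [← e.preimage_ball]; exact preimage_mono hx)
      (by
        rw [← e.preimage_ball]
        exact (m n).toLinearIsometry.toContinuousLinearMap.comp_memLp'
          (hm.comp_measurePreserving (mpr _))) θ hθ
    rwa [osc_e fun y => ‖G y‖ ^ (p / 2 - 1) • G y, osc_e fun y => ‖G y‖ ^ (p / 2 - 1) • G y] at this

end Pool.Agent.MP_815c6c_an.Q

end
end MrgPart0

-- ======== part 1: formerly Pool.Agent.MP_815c6c_an.Q.Ite
section MrgPart1

/-! Planar p-harmonic maps: one step of the iteration, and the iteration. -/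

set_option autoImplicit false

namespace Pool.Agent.MP_815c6c_an.Q

open Set Metric MeasureTheory Filter Topology Complex
open scoped ContDiff ENNReal ComplexConjugate
open P (vo Ts Cu ml)

namespace IteA

theorem av_clm {E F : Type} [NormedAddCommGroup E] [NormedSpace ℝ E] [CompleteSpace E]
    [NormedAddCommGroup F] [NormedSpace ℝ F] [CompleteSpace F] (A : E →L[ℝ] F) (f : ℂ → E)
    (x : ℂ) (r : ℝ) (h : MemLp f 2 (vo (ball x r))) :
    av (fun z => A (f z)) x r = A (av f x r) := by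
  unfold av
  rw [average_eq, average_eq, map_smul, A.integral_comp_comm (h.integrable one_le_two)]

theorem en_le {E F : Type} [NormedAddCommGroup E] [NormedAddCommGroup F] {U : Set ℂ} {f : ℂ → E}
    {g : ℂ → F} {c : ℝ} (hf : MemLp f 2 (vo U)) (h : ∀ᵐ z ∂vo U, ‖g z‖ ≤ c * ‖f z‖) :
    en U g ≤ c ^ 2 * en U f := by
  unfold en
  rw [← integral_const_mul]
  refine integral_mono_of_nonneg (Eventually.of_forall fun _ => sq_nonneg _)
    ((hf.integrable_norm_pow two_ne_zero).const_mul _) (h.mono fun z hz => ?_)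
  dsimp only
  rw [← mul_pow]
  exact pow_le_pow_left₀ (norm_nonneg _) hz 2

theorem sq_add {x p q : ℝ} (hp : 0 ≤ p) (hq : 0 ≤ q) (h : x ^ 2 ≤ p ^ 2 + q ^ 2) : x ≤ p + q :=
  (abs_le_of_sq_le_sq' (by nlinarith [mul_nonneg hp hq]) (add_nonneg hp hq)).2

theorem seq {a b : ℕ → ℝ} {σ θ e M : ℝ} (σ0 : 0 < σ) (σ1 : σ < 1) (θ0 : 0 < θ) (e0 : 0 ≤ e)
    (M0 : 0 ≤ M) (he : e * (2 + 1 / (θ * (1 - σ))) ≤ σ / 2) (ha : a 0 ≤ M) (hb : b 0 ≤ M)
    (sa : ∀ j, a (j + 1) ≤ σ / 2 * a j + e * σ ^ j * (a j + b j))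
    (sb : ∀ j, b (j + 1) ≤ b j + 1 / θ * a j) (j : ℕ) :
    a j ≤ M * σ ^ j ∧ b j ≤ M + M * (1 - σ ^ j) / (θ * (1 - σ)) := by
  have h1 : 0 < 1 - σ := sub_pos.2 σ1
  induction j with
  | zero => simpa using ⟨ha, hb⟩
  | succ j ih =>
    have p0 : 0 < σ ^ j := pow_pos σ0 j
    have p1 : σ ^ j ≤ 1 := pow_le_one₀ σ0.le σ1.le
    constructor
    · have c1 : a j ≤ M := ih.1.trans (mul_le_of_le_one_right M0 p1)
      have c2 : M * (1 - σ ^ j) / (θ * (1 - σ)) ≤ M * (1 / (θ * (1 - σ))) := by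
        rw [mul_one_div]
        exact div_le_div_of_nonneg_right (mul_le_of_le_one_right M0 (by linarith))
          (mul_pos θ0 h1).le
      have c3 : a j + b j ≤ M * (2 + 1 / (θ * (1 - σ))) := by linarith [ih.2]
      have c4 : e * σ ^ j * (a j + b j) ≤ e * σ ^ j * (M * (2 + 1 / (θ * (1 - σ)))) :=
        mul_le_mul_of_nonneg_left c3 (mul_nonneg e0 p0.le)
      have c5 : M * σ ^ j * (e * (2 + 1 / (θ * (1 - σ)))) ≤ M * σ ^ j * (σ / 2) :=
        mul_le_mul_of_nonneg_left he (mul_nonneg M0 p0.le)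
      have c6 : σ / 2 * a j ≤ σ / 2 * (M * σ ^ j) :=
        mul_le_mul_of_nonneg_left ih.1 (half_pos σ0).le
      rw [pow_succ]
      linarith [sa j]
    · have c1 : 1 / θ * a j ≤ 1 / θ * (M * σ ^ j) :=
        mul_le_mul_of_nonneg_left ih.1 (one_div_pos.2 θ0).le
      have c2 : M * (1 - σ ^ (j + 1)) / (θ * (1 - σ)) =
          M * (1 - σ ^ j) / (θ * (1 - σ)) + 1 / θ * (M * σ ^ j) := by
        field_simp
        ring
      linarith [sb j, ih.2]

end IteA

open IteA

theorem stp (k : Kit) (lin : LinS) : StpS := by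
  intro s s0 s1
  obtain ⟨C₀, hC₀, h⟩ := lin s s0 s1
  refine ⟨2 * √(C₀ * Real.pi), by positivity, fun θ θ0 θ1 => ?_⟩
  obtain ⟨C, hC, h⟩ := h θ θ0 θ1
  refine ⟨48 * √(C * Real.pi), by positivity, fun n m F D y ρ o ρ0 m0 o1 hS hO hF => ?_⟩
  have os := k.osc (L (Cn n))
  have ot := k.osc (Cn n)
  have s2 : |s| ≤ 1 := abs_le.2 ⟨by linarith, s1.le⟩
  have o0 : 0 ≤ o := nonneg_of_mul_nonneg_left
    ((norm_nonneg _).trans (hF y (mem_ball_self ρ0))) (norm_pos_iff.2 m0)
  have hD : MemLp D 2 (vo (ball y ρ)) := hS.memLp.2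
  obtain ⟨A, -, hA⟩ := (k.alg n).clm s m s2
  set N := av D y ρ with hN
  set a := osc D y ρ with ha
  have a0 : 0 ≤ a := os.nn _ _ _
  have hρ : (ρ : ℂ) ≠ 0 := ofReal_ne_zero.2 ρ0.ne'
  have S1 := (k.sob (Cn n)).sca (ball y ρ) (ball 0 1) F D y ρ hρ measurableSet_ball
    (fun z hz => by
      rw [mem_ball_zero_iff] at hz
      rw [mem_ball_iff_norm, add_sub_cancel_left, norm_mul, norm_real, Real.norm_of_nonneg ρ0.le]
      exact mul_lt_of_lt_one_right ρ0 hz) hS
  have S2 := (k.sob (Cn n)).lin (ball 0 1) _ _ _ _ ρ⁻¹ 0 (-N) 0 isBounded_ball measurableSet_ball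
    S1 S1
  have e1 : (fun z : ℂ => ρ⁻¹ • (D (y + ρ * z)).comp (ml ρ) +
      (0 : ℝ) • (D (y + ρ * z)).comp (ml ρ) + -N) = fun z : ℂ => D (y + ρ * z) - N := by
    funext z
    rw [zero_smul, add_zero, ← sub_eq_add_neg]
    congr 1
    ext w
    · simp [ml, ← Complex.real_smul, smul_smul, inv_mul_cancel₀ ρ0.ne']
  rw [e1] at S2
  have H := h n m _ _ S2
  have hρ2 : (ρ ^ 2)⁻¹ * (Real.pi * ρ ^ 2) = Real.pi := by field_simp
  have e2 : en (ball 0 1) (fun z : ℂ => D (y + ρ * z) - N) = Real.pi * a ^ 2 := by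
    have := (os.sca (fun w => D w - N) y ρ 1 1 ρ0 zero_le_one).2.2.1
    rw [mul_one, hN, os.en_eq D y ρ ρ0, ← mul_assoc, hρ2] at this
    exact this
  have hg : MemLp (fun w => A (D w)) 2 (vo (ball y ρ)) := A.comp_memLp' hD
  have e3 : en (ball 0 1) (fun z : ℂ => Op s m (D (y + ρ * z) - N)) =
      Real.pi * osc (fun w => A (D w)) y ρ ^ 2 := by
    have := (ot.sca (fun w => A (D w) - av (fun w => A (D w)) y ρ) y ρ 1 1 ρ0 zero_le_one).2.2.1
    rw [mul_one, ot.en_eq _ y ρ ρ0, ← mul_assoc, hρ2, av_clm A D y ρ hD] at this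
    rw [← this]
    simp only [hA, map_sub, hN]
  have e4 : osc (fun w => A (D w)) y ρ ≤ 2 * (12 * o * (a + ‖N‖)) := by
    refine (ot.le _ y ρ 0 _ ρ0 (by positivity) hg ?_).2
    have c1 : en (ball y ρ) (fun z => A (D z) - 0) ≤ (8 * o) ^ 2 * en (ball y ρ) D := by
      refine en_le hD ?_
      filter_upwards [hO, ae_restrict_mem measurableSet_ball] with z h1 h2
      have := (k.alg n).near s o (F z) m (D z) s2 m0 o1 (hF z h2)
      rwa [h1, zero_sub, norm_neg, hA, ← sub_zero (A _)] at this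
    have c2 := mul_le_mul_of_nonneg_left (os.tot D y ρ ρ0 hD) (sq_nonneg (8 * o))
    have c3 : 0 ≤ Real.pi * ρ ^ 2 * o ^ 2 * (16 * a ^ 2 + 288 * (a * ‖N‖) + 16 * ‖N‖ ^ 2) := by
      positivity
    rw [← ha, ← hN] at c2
    linarith
  have hD' : MemLp (fun z : ℂ => D (y + ρ * z)) 2 (vo (ball 0 θ)) := by
    have := (os.sca D y ρ 1 θ ρ0 zero_le_one).2.2.2.1 (hD.mono_measure (Measure.restrict_mono
      (ball_subset_ball (mul_le_of_le_one_right ρ0.le (by linarith))) le_rfl))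
    simpa using this
  have e5 : osc D y (θ * ρ) ≤ 2 * osc (fun z : ℂ => D (y + ρ * z) - N) 0 θ := by
    have c1 := (os.sca D y ρ 1 θ ρ0 zero_le_one).2.1
    simp only [one_smul, one_mul] at c1
    rw [mul_comm θ, ← c1]
    refine (os.le _ 0 θ (N + av (fun z : ℂ => D (y + ρ * z) - N) 0 θ) _ θ0 (os.nn _ _ _) hD'
      (le_of_eq ?_)).2
    rw [← os.en_eq _ 0 θ θ0]
    simp only [sub_sub]
  have e6 : osc (fun z : ℂ => D (y + ρ * z) - N) 0 θ ≤
      √(C₀ * Real.pi) * θ * a + √(C * Real.pi) * (2 * (12 * o * (a + ‖N‖))) := by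
    refine sq_add (by positivity) (by positivity) (H.trans ?_)
    rw [e2, e3, mul_pow, mul_pow, mul_pow _ (2 * _), Real.sq_sqrt (by positivity),
      Real.sq_sqrt (by positivity)]
    have := mul_le_mul_of_nonneg_left (pow_le_pow_left₀ (ot.nn _ _ _) e4 2)
      (mul_nonneg hC Real.pi_pos.le)
    linarith
  linarith

theorem ite (k : Kit) (stp : StpS) : IteS := by
  intro s α s0 s1 α0 α1
  obtain ⟨C₀, hC₀, h⟩ := stp s s0 s1
  obtain ⟨t, t0, t1, t2⟩ : ∃ t : ℝ, 0 < t ∧ t ≤ 1 / 8 ∧ C₀ * t ≤ 1 / 2 := by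
    refine ⟨1 / (8 * (C₀ + 1)), by positivity, ?_, ?_⟩
    · exact one_div_le_one_div_of_le (by norm_num) (by linarith)
    · rw [mul_one_div, div_le_iff₀ (by positivity)]
      linarith
  have θ0 : 0 < t ^ 2 := by positivity
  have θ1 : t ^ 2 ≤ 1 / 64 := by nlinarith
  obtain ⟨C, hC, h⟩ := h _ θ0 θ1
  set θ := t ^ 2 with hθ
  set σ := θ ^ (α / 2) with hσ
  have σ0 : 0 < σ := Real.rpow_pos_of_pos θ0 _
  have σ1 : σ < 1 := Real.rpow_lt_one θ0.le (by linarith) (half_pos α0)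
  have σt : t ≤ σ := by
    have := Real.rpow_le_rpow_of_exponent_ge θ0 (by linarith) (show α / 2 ≤ 1 / 2 by linarith)
    rwa [← Real.sqrt_eq_rpow, hθ, Real.sqrt_sq t0.le] at this
  have hK : 0 < 2 + 1 / (θ * (1 - σ)) := by
    have := mul_pos θ0 (sub_pos.2 σ1)
    positivity
  obtain ⟨δ, δ0, δ1, δ2⟩ : ∃ δ : ℝ, 0 < δ ∧ δ ≤ 1 / 2 ∧
      C * δ * (2 + 1 / (θ * (1 - σ))) ≤ σ / 2 := by
    generalize 2 + 1 / (θ * (1 - σ)) = K at hK
    have c1 : 0 ≤ C * K := by positivity
    refine ⟨σ / (2 * (C * K + 1)), by positivity, ?_, ?_⟩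
    · rw [div_le_iff₀ (by positivity)]
      linarith
    · rw [mul_right_comm, ← mul_div_assoc, div_le_iff₀ (by positivity)]
      linarith
  refine ⟨δ, 2 / (θ * σ), δ0, by positivity, fun n F D y r r0 F0 hS hO hF ρ hρ => ?_⟩
  have os := k.osc (L (Cn n))
  have θ2 : θ < 1 := by linarith
  have rj : ∀ j : ℕ, 0 < θ ^ j * r := fun j => by positivity
  have sj : ∀ j : ℕ, ball y (θ ^ j * r) ⊆ ball y r := fun j =>
    ball_subset_ball (mul_le_of_le_one_left r0.le (pow_le_one₀ θ0.le θ2.le))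
  have mj : ∀ j : ℕ, MemLp D 2 (vo (ball y (θ ^ j * r))) := fun j => (hS.mono (sj j)).memLp.2
  have pj : ∀ j : ℕ, (θ ^ j) ^ (α / 2) = σ ^ j := fun j => by
    rw [hσ, ← Real.rpow_natCast, ← Real.rpow_natCast, ← Real.rpow_mul θ0.le,
      ← Real.rpow_mul θ0.le, mul_comm]
  set M := osc D y r + ‖av D y r‖ with hM
  have a0 := os.nn D y r
  have M0 : 0 ≤ M := by positivity
  have key := seq (a := fun j => osc D y (θ ^ j * r)) (b := fun j => ‖av D y (θ ^ j * r)‖)
    (M := M) σ0 σ1 θ0 (mul_nonneg hC δ0.le) M0 δ2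
    (by simp [hM]) (by simpa [hM] using a0) (fun j => by
      have p1 : σ ^ j ≤ 1 := pow_le_one₀ σ0.le σ1.le
      have c1 := h n (F y) F D y (θ ^ j * r) (δ * σ ^ j) (rj j) F0
        ((mul_le_of_le_one_right δ0.le p1).trans δ1) (hS.mono (sj j))
        (ae_restrict_of_ae_restrict_of_subset (sj j) hO) fun z hz => by
          refine (hF z (sj j hz)).trans (mul_le_mul_of_nonneg_right
            (mul_le_mul_of_nonneg_left ?_ δ0.le) (norm_nonneg _))
          rw [← pj]
          refine (Real.rpow_le_rpow (by positivity) ?_ α0.le).trans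
            (Real.rpow_le_rpow_of_exponent_ge (pow_pos θ0 j) (pow_le_one₀ θ0.le θ2.le)
              (by linarith))
          rw [div_le_iff₀ r0]
          exact (mem_ball_iff_norm.1 hz).le
      have c2 : C₀ * θ ≤ σ / 2 := by
        have := mul_le_mul_of_nonneg_right t2 t0.le
        rw [hθ]
        linarith
      have c3 := mul_le_mul_of_nonneg_right c2 (os.nn D y (θ ^ j * r))
      rw [← mul_assoc θ, ← pow_succ'] at c1
      linarith)
    fun j => by
      have c1 := (os.sub D y (θ ^ j * r) y (θ ^ (j + 1) * r) (rj _) (ball_subset_ball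
        (mul_le_mul_of_nonneg_right (pow_le_pow_of_le_one θ0.le θ2.le j.le_succ) r0.le)) (mj j)).1
      have c2 : θ ^ j * r / (θ ^ (j + 1) * r) = 1 / θ := by
        rw [pow_succ]
        field_simp
      rw [c2] at c1
      linarith [norm_sub_norm_le (av D y (θ ^ (j + 1) * r)) (av D y (θ ^ j * r))]
  obtain ⟨j, j1, j2⟩ := exists_nat_pow_near_of_lt_one (div_pos hρ.1 r0)
    ((div_le_one r0).2 hρ.2) θ0 θ2
  have c1 := (os.sub D y (θ ^ j * r) y ρ hρ.1 (ball_subset_ball ((div_le_iff₀ r0).1 j2))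
    (mj j)).2
  have c2 : θ ^ j * r / ρ ≤ 1 / θ := by
    rw [div_le_div_iff₀ hρ.1 θ0]
    have := (lt_div_iff₀ r0).1 j1
    rw [pow_succ] at this
    linarith
  have c3 : σ ^ (j + 1) ≤ (ρ / r) ^ (α / 2) := by
    rw [← pj]
    exact Real.rpow_le_rpow (by positivity) j1.le (half_pos α0).le
  calc osc D y ρ ≤ 2 * (1 / θ) * (M * σ ^ j) := c1.trans (mul_le_mul
        (mul_le_mul_of_nonneg_left c2 two_pos.le) (key j).1 (os.nn _ _ _) (by positivity))
    _ = 2 / (θ * σ) * M * σ ^ (j + 1) := by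
        rw [pow_succ σ]
        field_simp
    _ ≤ _ := mul_le_mul_of_nonneg_left c3 (by positivity)

end Pool.Agent.MP_815c6c_an.Q

end MrgPart1

-- ======== part 2: formerly Pool.Agent.MP_815c6c_an.Q.Nd
section MrgPart2

/-! Planar p-harmonic maps: the nondegenerate regime and the regularity off the zeros. -/

set_option autoImplicit false

namespace Pool.Agent.MP_815c6c_an.Q

open Set Metric MeasureTheory Filter Topology Complex
open scoped ContDiff ENNReal ComplexConjugate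
open P (vo Ts Cu)

namespace NdA

theorem cont_of_hol {E : Type} [NormedAddCommGroup E] {W : ℂ → E} {O : Set ℂ} {K r a : ℝ}
    (ha : 0 < a) (h : ∀ y ∈ O, ∀ y' ∈ O, ‖W y - W y'‖ ≤ K * (‖y - y'‖ / r) ^ a) :
    ContinuousOn W O := by
  intro y hy
  have h1 : Continuous fun y' : ℂ => K * (‖y' - y‖ / r) ^ a :=
    continuous_const.mul (((continuous_id.sub continuous_const).norm.div_const r).rpow_const
      fun _ => Or.inr ha.le)
  have h2 : Tendsto (fun y' : ℂ => K * (‖y' - y‖ / r) ^ a) (𝓝[O] y) (𝓝 0) := by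
    have := (h1.tendsto y).mono_left (nhdsWithin_le_nhds (s := O))
    simpa [Real.zero_rpow ha.ne'] using this
  rw [ContinuousWithinAt, tendsto_iff_norm_sub_tendsto_zero]
  refine squeeze_zero' (Eventually.of_forall fun _ => norm_nonneg _) ?_ h2
  filter_upwards [self_mem_nhdsWithin] with y' hy'
  exact h y' hy' y hy

theorem sub_ball {x y : ℂ} {r ρ t : ℝ} (hy : y ∈ ball x ρ) (h : ρ + t ≤ r) :
    ball y t ⊆ ball x r := fun z hz => by
  have := dist_triangle z y x
  rw [mem_ball] at *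
  linarith

/-- the energy bound -/
theorem energy (k : Kit) (ca : CacS) (s : ℝ) (s0 : 0 ≤ s) (s1 : s < 1) : ∃ C : ℝ, 0 ≤ C ∧
    ∀ (n : ℕ) (F : ℂ → Cn n) (D : ℂ → L (Cn n)) (x : ℂ) (r : ℝ), 0 < r →
      MemLp F 2 (vo (ball x r)) → Sb (ball x (r / 2)) F D →
      (∀ᵐ z ∂vo (ball x (r / 2)), Op s (F z) (D z) = 0) → ∀ y ∈ ball x (r / 64),
      ‖av D y (r / 64)‖ ≤ C * osc F x r / r ∧ osc D y (r / 64) ≤ 2 * (C * osc F x r / r) := by
  obtain ⟨C, C0, hC⟩ := ca (s / (2 - s)) (div_nonneg s0 (by linarith))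
    ((div_lt_one (by linarith)).2 (by linarith))
  refine ⟨256 * (C + 1), by positivity, fun n F D x r r0 hF hD hO y hy => ?_⟩
  have e2 : 2 * (r / 4) = r / 2 := by ring
  have o0 := (k.osc (Cn n)).nn F x r
  have h1 := hC n F D (fun _ => 0) (av F x r) x (r / 4) (by positivity) (by rwa [e2])
    (memLp_const 0) (by
      rw [e2]
      filter_upwards [hO] with z hz
      have := (k.alg n).gar s (F z) (D z) s0 s1
      rw [hz] at this
      simpa using this)
  have h2 : en (ball x (2 * (r / 4)) \ ball x (r / 4)) (fun z => F z - av F x r) ≤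
      Real.pi * r ^ 2 * osc F x r ^ 2 := by
    rw [← (k.osc (Cn n)).en_eq F x r r0]
    exact (k.osc (Cn n)).mono _ _ _ (sdiff_subset.trans (ball_subset_ball (by linarith)))
      (hF.sub (memLp_const _))
  have h3 : en (ball x (2 * (r / 4))) (fun _ : ℂ => (0 : ℝ)) = 0 := by simp [en]
  have hs : ball y (r / 64) ⊆ ball x (r / 4) := sub_ball hy (by linarith)
  have hm : MemLp D 2 (vo (ball x (r / 4))) := (hD.mono (ball_subset_ball (by linarith))).memLp.2
  have h4 : en (ball y (r / 64)) D ≤ en (ball x (r / 4)) D := (k.osc (L (Cn n))).mono _ _ _ hs hm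
  have h5 : en (ball x (r / 4)) D ≤ 16 * Real.pi * C * osc F x r ^ 2 := by
    refine h1.trans ?_
    rw [h3, add_zero]
    calc C * (((r / 4) ^ 2)⁻¹ * en (ball x (2 * (r / 4)) \ ball x (r / 4))
          fun z => F z - av F x r)
        ≤ C * (((r / 4) ^ 2)⁻¹ * (Real.pi * r ^ 2 * osc F x r ^ 2)) := by gcongr
      _ = 16 * Real.pi * C * osc F x r ^ 2 := by field_simp; ring
  have := (k.osc (L (Cn n))).le D y (r / 64) 0 (256 * (C + 1) * osc F x r / r) (by positivity)
    (by positivity) (hm.mono_measure (Measure.restrict_mono hs le_rfl)) (by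
      simp only [sub_zero]
      refine h4.trans (h5.trans ?_)
      have e : Real.pi * (r / 64) ^ 2 * (256 * (C + 1) * osc F x r / r) ^ 2 =
          16 * Real.pi * (C + 1) ^ 2 * osc F x r ^ 2 := by field_simp; ring
      rw [e]
      have : C ≤ (C + 1) ^ 2 := by nlinarith
      have := Real.pi_pos
      gcongr)
  simpa using this

end NdA

open NdA

theorem nd (k : Kit) (na : NatS) (ca : CacS) (cm : CamS) (ho : HolS) (it : IteS) : NdS := by
  intro s s0 s1
  obtain ⟨α, CH, α0, α1, CH0, hH⟩ := ho s s0 s1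
  obtain ⟨δ, CI, δ0, CI0, hI⟩ := it s α s0 s1 α0 α1
  obtain ⟨CE, CE0, hE⟩ := energy k ca s s0 s1
  obtain ⟨CM, CM0, hM⟩ := cm (α / 2) (by positivity) (by linarith)
  have m0 : 0 < min (1 / 2 : ℝ) (δ / 2) := lt_min (by norm_num) (by positivity)
  refine ⟨min (1 / 2) (δ / 2) / (CH + 1), α / 2, 64 * (CM * (3 * CI * CE)) + CE, by positivity,
    by positivity, by positivity, fun n F x r r0 hS hF hlt => ?_⟩
  have o0 := (k.osc (Cn n)).nn F x r
  obtain ⟨hh1, hh2⟩ := (hH n F x r r0 hS.2 hF).2 hS.1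
  have hb : CH * osc F x r ≤ min (1 / 2) (δ / 2) * ‖av F x r‖ := by
    calc CH * osc F x r ≤ (CH + 1) * (min (1 / 2) (δ / 2) / (CH + 1) * ‖av F x r‖) := by
          gcongr; linarith
      _ = _ := by field_simp
  have a0 : 0 < ‖av F x r‖ := by
    by_contra h
    have : ‖av F x r‖ = 0 := le_antisymm (not_lt.1 h) (norm_nonneg _)
    rw [this, mul_zero] at hlt
    linarith
  have hlow : ∀ y ∈ ball x (r / 8), ‖av F x r‖ ≤ 2 * ‖F y‖ := fun y hy => by
    have h1 := hh2 y hy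
    have h2 : ‖av F x r‖ ≤ ‖F y‖ + ‖F y - av F x r‖ := by
      simpa using norm_sub_le (F y) (F y - av F x r)
    have h3 : min (1 / 2) (δ / 2) * ‖av F x r‖ ≤ 1 / 2 * ‖av F x r‖ := by
      gcongr; exact min_le_left _ _
    linarith
  have hne : ∀ y ∈ ball x (r / 64), F y ≠ 0 := fun y hy h => by
    have := hlow y (ball_subset_ball (by linarith) hy)
    rw [h, norm_zero] at this
    linarith
  obtain ⟨D, hD, hO⟩ := na n s (r / 2) r x F s0 s1 (by linarith) hF hS.2
  have hO' : ∀ᵐ z ∂vo (ball x (r / 2)), Op s (F z) (D z) = 0 := hO.mono fun z h => h.1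
  have hB := hE n F D x r r0 hF hD hO'
  have B0 : 0 ≤ CE * osc F x r / r := by positivity
  have hosc : ∀ y ∈ ball x (r / 64), ∀ ρ ∈ Ioc (0 : ℝ) (r / 64),
      osc D y ρ ≤ 3 * CI * (CE * osc F x r / r) * (ρ / (r / 64)) ^ (α / 2) := fun y hy ρ hρ => by
    have hs : ball y (r / 64) ⊆ ball x (r / 2) := sub_ball hy (by linarith)
    have hy8 : y ∈ ball x (r / 8) := ball_subset_ball (by linarith) hy
    have := hI n F D y (r / 64) (by positivity) (hne y hy) (hD.mono hs)
      (ae_restrict_of_ae_restrict_of_subset hs hO') (fun z hz => by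
        refine (hh1 z (sub_ball hy (by linarith) hz) y hy8).trans ?_
        have h1 : (‖z - y‖ / r) ^ α ≤ (‖z - y‖ / (r / 64)) ^ α := by
          gcongr; linarith
        have h2 : CH * osc F x r ≤ δ * ‖F y‖ := by
          refine hb.trans ?_
          calc min (1 / 2) (δ / 2) * ‖av F x r‖ ≤ δ / 2 * (2 * ‖F y‖) := by
                gcongr
                exacts [min_le_right _ _, hlow y hy8]
            _ = _ := by ring
        calc CH * osc F x r * (‖z - y‖ / r) ^ α
            ≤ δ * ‖F y‖ * (‖z - y‖ / (r / 64)) ^ α := by gcongr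
          _ = _ := by ring) ρ hρ
    refine this.trans ?_
    have h3 : osc D y (r / 64) + ‖av D y (r / 64)‖ ≤ 3 * (CE * osc F x r / r) := by
      linarith [(hB y hy).1, (hB y hy).2]
    have h4 : 0 ≤ (ρ / (r / 64)) ^ (α / 2) := Real.rpow_nonneg (div_nonneg hρ.1.le (by positivity)) _
    calc CI * (osc D y (r / 64) + ‖av D y (r / 64)‖) * (ρ / (r / 64)) ^ (α / 2)
        ≤ CI * (3 * (CE * osc F x r / r)) * (ρ / (r / 64)) ^ (α / 2) := by gcongr
      _ = _ := by ring
  obtain ⟨W, hW, hW1, hW2⟩ := hM (L (Cn n)) D x (r / 64) (3 * CI * (CE * osc F x r / r))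
    (by positivity) (by positivity) (hD.mono (ball_subset_ball (by linarith))).memLp.2 hosc
  have hWc : ContinuousOn W (ball x (r / 64)) := cont_of_hol (by positivity) hW1
  have hder := (k.part (Cn n) _ F D isOpen_ball isBounded_ball hD).2.2.2 (ball x (r / 64))
    (ball_subset_ball (by linarith)) isOpen_ball (hS.1.mono (ball_subset_ball (by linarith))) W hWc
    hW
  have hK : 0 ≤ CM * (3 * CI * (CE * osc F x r / r)) := by positivity
  refine ⟨fun y hy => ⟨hne y hy, ?_⟩, ?_, fun y hy y' hy' => ?_⟩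
  · rw [(hder y hy).fderiv]
    have h1 : ‖W y‖ ≤ ‖W y - av D x (r / 64)‖ + ‖av D x (r / 64)‖ := by
      simpa using norm_add_le (W y - av D x (r / 64)) (av D x (r / 64))
    have h2 := (hB x (mem_ball_self (by positivity))).1
    have e : (64 * (CM * (3 * CI * CE)) + CE) * osc F x r / r =
      64 * (CM * (3 * CI * (CE * osc F x r / r))) + CE * osc F x r / r := by ring
    rw [e]
    linarith [hW2 y hy]
  · rw [show (1 : WithTop ℕ∞) = 0 + 1 from rfl, contDiffOn_succ_iff_fderiv_of_isOpen isOpen_ball]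
    refine ⟨fun y hy => (hder y hy).differentiableAt.differentiableWithinAt, by simp, ?_⟩
    rw [contDiffOn_zero]
    exact hWc.congr fun y hy => (hder y hy).fderiv
  · rw [(hder y hy).fderiv, (hder y' hy').fderiv]
    refine (hW1 y hy y' hy').trans ?_
    have p0 : 0 ≤ (‖y - y'‖ / r) ^ (α / 2) := by positivity
    have h1 : (‖y - y'‖ / (r / 64)) ^ (α / 2) ≤ 64 * (‖y - y'‖ / r) ^ (α / 2) := by
      rw [show ‖y - y'‖ / (r / 64) = 64 * (‖y - y'‖ / r) by field_simp,
        Real.mul_rpow (by norm_num) (by positivity)]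
      gcongr
      calc (64 : ℝ) ^ (α / 2) ≤ 64 ^ (1 : ℝ) :=
            Real.rpow_le_rpow_of_exponent_le (by norm_num) (by linarith)
        _ = 64 := Real.rpow_one _
    have e : (64 * (CM * (3 * CI * CE)) + CE) * osc F x r / r =
      64 * (CM * (3 * CI * (CE * osc F x r / r))) + CE * osc F x r / r := by ring
    rw [e]
    calc CM * (3 * CI * (CE * osc F x r / r)) * (‖y - y'‖ / (r / 64)) ^ (α / 2)
        ≤ CM * (3 * CI * (CE * osc F x r / r)) * (64 * (‖y - y'‖ / r) ^ (α / 2)) := by gcongr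
      _ ≤ _ := by nlinarith [mul_nonneg B0 p0]

theorem reg (k : Kit) (na : NatS) (hn : NdS) : RegS := by
  intro n s U F s0 s1 hU hS
  obtain ⟨δ, β, C, δ0, -, -, hN⟩ := hn s s0 s1
  have c1 : ∀ z ∈ U, F z ≠ 0 → ContDiffAt ℝ 1 F z ∧ Op s (F z) (fderiv ℝ F z) = 0 := by
    intro z hz hF
    have F0 : 0 < ‖F z‖ := norm_pos_iff.2 hF
    have m0 : 0 < min (1 / 2 : ℝ) (δ / 8) := lt_min (by norm_num) (by positivity)
    have hc : ContinuousAt F z := hS.1.continuousAt (hU.mem_nhds hz)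
    obtain ⟨r, r0, hr⟩ := Metric.mem_nhds_iff.1 (inter_mem (hU.mem_nhds hz)
      (hc (closedBall_mem_nhds (F z) (mul_pos m0 F0))))
    have hb : ball z r ⊆ U := fun w hw => (hr hw).1
    obtain ⟨h1, h2, h3⟩ := (k.osc (Cn n)).sup F z r (F z) (min (1 / 2) (δ / 8) * ‖F z‖) r0
      ((hS.1.mono hb).aestronglyMeasurable measurableSet_ball) fun w hw => by
        simpa [dist_eq_norm] using (hr hw).2
    have h4 : ‖F z‖ ≤ ‖av F z r - F z‖ + ‖av F z r‖ := by
      rw [norm_sub_rev]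
      simpa using norm_add_le (F z - av F z r) (av F z r)
    have h5 : min (1 / 2) (δ / 8) * ‖F z‖ ≤ 1 / 2 * ‖F z‖ := by gcongr; exact min_le_left _ _
    have h6 : min (1 / 2) (δ / 8) * ‖F z‖ ≤ δ / 8 * ‖F z‖ := by gcongr; exact min_le_right _ _
    have h7 : osc F z r < δ * ‖av F z r‖ := by
      have : δ * (‖F z‖ / 2) ≤ δ * ‖av F z r‖ := by gcongr; linarith
      nlinarith [mul_pos δ0 F0]
    obtain ⟨g1, g2, -⟩ := hN n F z r r0 (hS.mono hb) h1 h7
    have hz' : z ∈ ball z (r / 64) := mem_ball_self (by positivity)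
    refine ⟨g2.contDiffAt (isOpen_ball.mem_nhds hz'), ?_⟩
    obtain ⟨D, hD, hO⟩ := na n s (r / 64) r z F s0 s1 (by linarith) h1 (hS.2.mono hb)
    have h8 := (k.part (Cn n) _ F D isOpen_ball isBounded_ball hD).2.2.1 _ Subset.rfl isOpen_ball g2
    have h9 : (fun w => Op s (F w) (fderiv ℝ F w)) =ᵐ[vo (ball z (r / 64))] fun _ => 0 := by
      filter_upwards [hO, h8] with w a b
      rw [← b, a.1]
    have hp : ContinuousOn (fun w => (F w, fderiv ℝ F w)) (ball z (r / 64)) :=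
      g2.continuousOn.prodMk (g2.continuousOn_fderiv_of_isOpen isOpen_ball le_rfl)
    have hco : ContinuousOn (fun w => Op s (F w) (fderiv ℝ F w)) (ball z (r / 64)) :=
      ContinuousOn.comp (g := fun p : Cn n × L (Cn n) => Op s p.1 p.2)
        (f := fun w => (F w, fderiv ℝ F w)) ((k.alg n).cont s) hp fun w hw => (g1 w hw).1
    exact Measure.eqOn_open_of_ae_eq h9 isOpen_ball hco continuousOn_const hz'
  refine ⟨hS.1, c1, fun x r hr => ?_⟩
  rcases le_or_gt r 0 with r0 | r0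
  · rw [ball_eq_empty.2 r0]
    exact ⟨fun _ _ => 0, fun _ => contDiff_const, 0, MemLp.zero, by simp [vo]⟩
  obtain ⟨ε, ε0, hε⟩ := (isCompact_closedBall x r).exists_cthickening_subset_open hU hr
  rw [cthickening_closedBall ε0.le r0.le] at hε
  obtain ⟨M, hM⟩ := (isCompact_closedBall x (ε + r)).exists_bound_of_continuousOn (hS.1.mono hε)
  have hb : ball x (ε + r) ⊆ U := ball_subset_closedBall.trans hε
  have h1 := ((k.osc (Cn n)).sup F x (ε + r) 0 M (by positivity)
    ((hS.1.mono hb).aestronglyMeasurable measurableSet_ball) fun w hw => by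
      simpa using hM w (ball_subset_closedBall hw)).1
  obtain ⟨D, hD, hO⟩ := na n s r (ε + r) x F s0 s1 (by linarith) h1 (hS.2.mono hb)
  have hb' : ball x r ⊆ U := ball_subset_closedBall.trans hr
  have hop : IsOpen (ball x r ∩ F ⁻¹' {0}ᶜ) :=
    (hS.1.mono hb').isOpen_inter_preimage isOpen_ball isOpen_compl_singleton
  have h2 := (k.part (Cn n) _ F D isOpen_ball isBounded_ball hD).2.2.1 _ inter_subset_left hop
    fun w hw => (c1 w (hb' hw.1) hw.2).1.contDiffWithinAt
  rw [ae_restrict_iff' hop.measurableSet] at h2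
  refine hD.congr EventuallyEq.rfl ?_
  filter_upwards [hO, ae_restrict_of_ae h2, ae_restrict_mem measurableSet_ball] with w a b c
  unfold Dz
  split_ifs with h
  exacts [a.2 h, b ⟨c, h⟩]

end Pool.Agent.MP_815c6c_an.Q

end MrgPart2

-- ======== part 3: formerly Pool.Agent.MP_815c6c_an.Q.Pt
section MrgPart3

/-! Planar p-harmonic maps: from the weak equation to the pointwise equation. -/

set_option autoImplicit false

noncomputable section

namespace Pool.Agent.MP_815c6c_an.Q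

open Set Metric MeasureTheory Filter Topology Complex
open scoped ContDiff ENNReal ComplexConjugate
open P (vo Ts Cu dz)
open P.Pt (S norm_S cont_S dz_eq int_S cont_dz fin_ball)

namespace PtA

variable {E : Type} [NormedAddCommGroup E] [NormedSpace ℝ E]

def T (P : E → ℂ) (η : ℂ → ℝ) (z : ℂ) (w : E) (N : L E) : ℂ :=
  P w * dz η z + η z * S ((fderiv ℝ P w).comp N)

lemma S_prod {η : ℂ → ℝ} {P : E → ℂ} {v : ℂ → E} {z : ℂ} (h : DifferentiableAt ℝ η z)
    (hP : DifferentiableAt ℝ P (v z)) (hv : DifferentiableAt ℝ v z) :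
    S (fderiv ℝ (fun y => (η y : ℂ) * P (v y)) z) = T P η z (v z) (fderiv ℝ v z) := by
  have h1 := (ofRealCLM.hasFDerivAt.comp z h.hasFDerivAt).mul
    (hP.hasFDerivAt.comp z hv.hasFDerivAt)
  have h2 : fderiv ℝ (fun y => (η y : ℂ) * P (v y)) z = _ := h1.fderiv
  rw [h2]
  simp [S, T, dz]
  ring

lemma T_zero {U : Set ℂ} {η : ℂ → ℝ} (hη : Ts U η) (P : E → ℂ) {z : ℂ} (hz : z ∉ U) (w : E)
    (N : L E) : T P η z w N = 0 := by
  have h1 : z ∉ tsupport η := fun h => hz (hη.2.2 h)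
  have h2 : fderiv ℝ η z = 0 := fderiv_of_notMem_tsupport ℝ h1
  simp [T, dz, h2, image_eq_zero_of_notMem_tsupport h1]

lemma bound {P : E → ℂ} (hP : ContDiff ℝ ∞ P) (hc : HasCompactSupport P) {η : ℂ → ℝ}
    (hη : ContDiff ℝ ∞ η) (hη' : HasCompactSupport η) :
    ∃ C : ℝ, 0 ≤ C ∧ ∀ z w N, ‖T P η z w N‖ ≤ C * (1 + ‖N‖) := by
  obtain ⟨C1, h1⟩ := hP.continuous.bounded_above_of_compact_support hc
  obtain ⟨C2, h2⟩ := (hP.continuous_fderiv (by simp)).bounded_above_of_compact_support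
    (hc.fderiv ℝ)
  obtain ⟨C3, h3⟩ := hη.continuous.bounded_above_of_compact_support hη'
  obtain ⟨C4, h4⟩ := (cont_dz hη).bounded_above_of_compact_support
    (hη'.mono' fun z hz => by_contra fun h => hz (by simp [dz, fderiv_of_notMem_tsupport ℝ h]))
  have p1 := (norm_nonneg _).trans (h1 0)
  have p2 := (norm_nonneg _).trans (h2 0)
  have p3 := (norm_nonneg _).trans (h3 0)
  have p4 := (norm_nonneg _).trans (h4 0)
  refine ⟨C1 * C4 + C3 * (2 * C2), by positivity, fun z w N => ?_⟩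
  have a : ‖P w * dz η z‖ ≤ C1 * C4 := by
    rw [norm_mul]
    exact mul_le_mul (h1 w) (h4 z) (norm_nonneg _) p1
  have b : ‖(η z : ℂ) * S ((fderiv ℝ P w).comp N)‖ ≤ C3 * (2 * (C2 * ‖N‖)) := by
    rw [norm_mul, norm_real]
    refine mul_le_mul (h3 z) ((norm_S _).trans ?_) (norm_nonneg _) p3
    exact mul_le_mul_of_nonneg_left (((fderiv ℝ P w).opNorm_comp_le N).trans
      (mul_le_mul_of_nonneg_right (h2 w) (norm_nonneg _))) two_pos.le
  refine (norm_add_le _ _).trans ((add_le_add a b).trans ?_)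
  have := norm_nonneg N
  nlinarith [mul_nonneg (mul_nonneg p1 p4) this, mul_nonneg p3 p2]

lemma cont_T {P : E → ℂ} (hP : ContDiff ℝ ∞ P) {η : ℂ → ℝ} (hη : ContDiff ℝ ∞ η) :
    Continuous fun q : ℂ × E × L E => T P η q.1 q.2.1 q.2.2 := by
  have h1 := hP.continuous
  have h2 := hP.continuous_fderiv (by simp)
  have h3 := hη.continuous
  have h4 := cont_dz hη
  have h5 := cont_S
  unfold T
  refine ((h1.comp continuous_snd.fst).mul (h4.comp continuous_fst)).add
    ((continuous_ofReal.comp (h3.comp continuous_fst)).mul (h5.comp ?_))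
  exact (h2.comp continuous_snd.fst).clm_comp continuous_snd.snd

lemma key {R : ℝ} {V : ℂ → E} {D : ℂ → L E} {v : ℕ → ℂ → E} (hv : ∀ n, ContDiff ℝ ∞ (v n))
    (hd : Dom (ball 0 R) v (fun n => fderiv ℝ (v n)) V D) {P : E → ℂ} (hP : ContDiff ℝ ∞ P)
    (hc : HasCompactSupport P) {η : ℂ → ℝ} (hη : Ts (ball 0 R) η) {a : ℂ → ℂ}
    (ha : MemLp a 2 (vo (ball 0 R)))
    (h0 : ∀ n, ∫ z, (a z * T P η z (v n z) (fderiv ℝ (v n) z)).im = 0) :
    Integrable (fun z => (a z * T P η z (V z) (D z)).im) (vo (ball 0 R)) ∧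
      ∫ z in ball 0 R, (a z * T P η z (V z) (D z)).im = 0 := by
  have := fin_ball R
  obtain ⟨g, hg, h⟩ := hd
  obtain ⟨C, hC, hb⟩ := bound hP hc hη.1 hη.2.1
  have hT := cont_T hP hη.1
  have hi : Integrable (fun z => ‖a z‖ * (C * (1 + g z))) (vo (ball 0 R)) :=
    ha.norm.integrable_mul (((memLp_const (1 : ℝ)).add hg).const_mul C)
  have hbd : ∀ (z : ℂ) (w : E) (N : L E), ‖N‖ ≤ g z →
      ‖(a z * T P η z w N).im‖ ≤ ‖a z‖ * (C * (1 + g z)) := fun z w N hN => by
    refine (abs_im_le_norm _).trans ?_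
    rw [norm_mul]
    exact mul_le_mul_of_nonneg_left ((hb z w N).trans (by gcongr)) (norm_nonneg _)
  have hm : ∀ n, AEStronglyMeasurable
      (fun z => (a z * T P η z (v n z) (fderiv ℝ (v n) z)).im) (vo (ball 0 R)) := fun n =>
    continuous_im.comp_aestronglyMeasurable (ha.1.mul (hT.comp (continuous_id.prodMk
      ((hv n).continuous.prodMk ((hv n).continuous_fderiv (by simp))))).aestronglyMeasurable)
  have hl : ∀ᵐ z ∂vo (ball 0 R), Tendsto
      (fun n => (a z * T P η z (v n z) (fderiv ℝ (v n) z)).im) atTop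
      (𝓝 (a z * T P η z (V z) (D z)).im) := h.mono fun z hz =>
    (continuous_im.tendsto _).comp (((hT.tendsto (z, V z, D z)).comp
      (tendsto_const_nhds.prodMk_nhds (hz.2.1.prodMk_nhds hz.2.2))).const_mul (a z))
  refine ⟨hi.mono' (aestronglyMeasurable_of_tendsto_ae atTop hm hl) (h.mono fun z hz =>
    hbd z _ _ (le_of_tendsto' hz.2.2.norm fun n => (hz.1 n).2)), ?_⟩
  have ht := tendsto_integral_of_dominated_convergence _ hm hi
    (fun n => h.mono fun z hz => hbd z _ _ (hz.1 n).2) hl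
  refine tendsto_nhds_unique ht (tendsto_const_nhds.congr fun n => ?_)
  rw [setIntegral_eq_integral_of_forall_compl_eq_zero fun z hz => by
    simp [T_zero hη P hz], h0]

lemma int_aS {R : ℝ} {V : ℂ → E} {D : ℂ → L E} (h : Sb (ball 0 R) V D) {P : E → ℂ}
    (hP : ContDiff ℝ ∞ P) (hc : HasCompactSupport P) {a : ℂ → ℂ}
    (ha : MemLp a 2 (vo (ball 0 R))) :
    Integrable (fun z => (a z * S ((fderiv ℝ P (V z)).comp (D z))).im) (vo (ball 0 R)) := by
  obtain ⟨hV, hD⟩ := h.memLp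
  have h2 := hP.continuous_fderiv (by simp)
  obtain ⟨C, hC⟩ := h2.bounded_above_of_compact_support (hc.fderiv ℝ)
  have hi : Integrable (fun z => ‖a z‖ * (2 * (C * ‖D z‖))) (vo (ball 0 R)) :=
    ha.norm.integrable_mul ((hD.norm.const_mul C).const_mul 2)
  have hs : Continuous fun q : E × L E => S ((fderiv ℝ P q.1).comp q.2) :=
    cont_S.comp ((h2.comp continuous_fst).clm_comp continuous_snd)
  refine hi.mono' (continuous_im.comp_aestronglyMeasurable
    (ha.1.mul (hs.comp_aestronglyMeasurable (hV.1.prodMk hD.1)))) (.of_forall fun z => ?_)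
  refine (abs_im_le_norm _).trans ?_
  rw [norm_mul]
  refine mul_le_mul_of_nonneg_left ((norm_S _).trans ?_) (norm_nonneg _)
  exact mul_le_mul_of_nonneg_left (((fderiv ℝ P (V z)).opNorm_comp_le _).trans
    (mul_le_mul_of_nonneg_right (hC _) (norm_nonneg _))) two_pos.le

lemma one {R : ℝ} {V : ℂ → E} {Ψ : E → ℂ} {D : ℂ → L E} (h : Sb (ball 0 R) V D)
    (hΨ : ContDiffOn ℝ ∞ Ψ {0}ᶜ) (hm : MemLp (fun z => Ψ (V z)) 2 (vo (ball 0 R)))
    (hcu : Cu (ball 0 R) fun z => Ψ (V z)) {χ : E → ℝ} (hχ : ContDiff ℝ ∞ χ)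
    (hc : HasCompactSupport χ) (h0 : χ =ᶠ[𝓝 0] 0) :
    ∀ᵐ z ∂vo (ball 0 R), χ (V z) * (S ((fderiv ℝ Ψ (V z)).comp (D z))).im = 0 := by
  have := fin_ball R
  have hX : ContDiff ℝ ∞ fun w => (χ w : ℂ) := ofRealCLM.contDiff.comp hχ
  have hXc : HasCompactSupport fun w => (χ w : ℂ) := hc.comp_left ofReal_zero
  have hΨ' : ∀ w : E, w ≠ 0 → ContDiffAt ℝ ∞ Ψ w := fun w hw =>
    hΨ.contDiffAt (isOpen_compl_singleton.mem_nhds hw)
  have e0 : (fun w => (χ w : ℂ) * Ψ w) =ᶠ[𝓝 0] fun _ => 0 := h0.mono fun w hw => by simp [hw]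
  have e1 : (fun w => (χ w : ℂ)) =ᶠ[𝓝 0] fun _ => 0 := h0.mono fun w hw => by simp [hw]
  have hΦ : ContDiff ℝ ∞ fun w => (χ w : ℂ) * Ψ w := contDiff_iff_contDiffAt.2 fun w => by
    by_cases hw : w = 0
    · subst hw
      exact contDiffAt_const.congr_of_eventuallyEq e0
    · exact hX.contDiffAt.mul (hΨ' w hw)
  have hΦc : HasCompactSupport fun w => (χ w : ℂ) * Ψ w := hXc.mul_right
  have pt : ∀ (w : E) (N : L E), S ((fderiv ℝ (fun w => (χ w : ℂ) * Ψ w) w).comp N) =
      χ w * S ((fderiv ℝ Ψ w).comp N) + Ψ w * S ((fderiv ℝ (fun w => (χ w : ℂ)) w).comp N) :=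
    fun w N => by
      by_cases hw : w = 0
      · subst hw
        rw [e0.fderiv_eq, e1.fderiv_eq, h0.eq_of_nhds]
        simp [S]
      · have h2 : fderiv ℝ (fun w => (χ w : ℂ) * Ψ w) w = _ :=
          ((hX.differentiable (by simp) w).hasFDerivAt.mul
            ((hΨ' w hw).differentiableAt (by simp)).hasFDerivAt).fderiv
        rw [h2]
        simp [S]
        ring
  have hi : Integrable (fun z => χ (V z) * (S ((fderiv ℝ Ψ (V z)).comp (D z))).im)
      (vo (ball 0 R)) := by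
    refine ((int_aS h hΦ hΦc (memLp_const (1 : ℂ))).sub (int_aS h hX hXc hm)).congr
      (.of_forall fun z => ?_)
    simp [pt]
  rw [ae_restrict_iff' measurableSet_ball]
  refine isOpen_ball.ae_eq_zero_of_integral_contDiff_smul_eq_zero
    (IntegrableOn.locallyIntegrableOn hi) fun η h1 h2 h3 => ?_
  have hη : Ts (ball 0 R) η := ⟨h1, h2, h3⟩
  obtain ⟨v, hv, hd⟩ := h
  have dη := h1.differentiable (by simp)
  have dv := fun n => (hv n).differentiable (by simp)
  obtain ⟨iA, hA⟩ := key hv hd hX hXc hη hm fun n => by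
    have hφ : ContDiff ℝ ∞ fun z => η z * χ (v n z) := h1.mul (hχ.comp (hv n))
    rw [← hcu _ ⟨hφ, h2.mul_right, (tsupport_mul_subset_left).trans h3⟩]
    refine integral_congr_ae (.of_forall fun z => ?_)
    simp only
    rw [dz_eq (hφ.differentiable (by simp) z),
      ← S_prod (dη z) (hX.differentiable (by simp) _) (dv n z)]
    simp only [ofReal_mul]
  obtain ⟨iB, hB⟩ := key hv hd hΦ hΦc hη (memLp_const (1 : ℂ)) fun n => by
    have h4 : HasCompactSupport fun w => (η w : ℂ) := h2.comp_left ofReal_zero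
    rw [← int_S ((ofRealCLM.contDiff.comp h1).mul (hΦ.comp (hv n))) h4.mul_right]
    refine integral_congr_ae (.of_forall fun z => ?_)
    simp only
    rw [one_mul, ← S_prod (dη z) (hΦ.differentiable (by simp) _) (dv n z)]
    rfl
  rw [← setIntegral_eq_integral_of_forall_compl_eq_zero (s := ball 0 R) fun z hz => by
    simp [image_eq_zero_of_notMem_tsupport fun h => hz (h3 h)], ← sub_zero (0 : ℝ)]
  nth_rewrite 1 [← hB, ← hA]
  rw [← integral_sub iB iA]
  refine integral_congr_ae (.of_forall fun z => ?_)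
  simp only [T, pt]
  simp
  ring

def b1 (k : ℕ) : ContDiffBump (0 : E) := ⟨k + 1, k + 2, by positivity, by linarith⟩

def b2 (k : ℕ) : ContDiffBump (0 : E) :=
  ⟨1 / (k + 2), 1 / (k + 1), by positivity,
    one_div_lt_one_div_of_lt (by positivity) (by linarith)⟩

end PtA

open PtA in
theorem pt : SobS → PtS := fun _ n R V Ψ D h hΨ hm hcu => by
  have := fun k : ℕ => one h hΨ hm hcu (χ := fun w => b1 (E := Cn n) k w * (1 - b2 (E := Cn n) k w))
    ((b1 (E := Cn n) k).contDiff.mul (contDiff_const.sub (b2 (E := Cn n) k).contDiff)) (b1 (E := Cn n) k).hasCompactSupport.mul_right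
    ((b2 (E := Cn n) k).eventuallyEq_one.mono fun w hw => by simp [hw])
  filter_upwards [ae_all_iff.2 this] with z hz h0
  obtain ⟨k1, hk1⟩ := exists_nat_one_div_lt (norm_pos_iff.2 h0)
  obtain ⟨k2, hk2⟩ := exists_nat_ge ‖V z‖
  have a1 : (k1 : ℝ) ≤ (max k1 k2 : ℕ) := by exact_mod_cast le_max_left _ _
  have a2 : (k2 : ℝ) ≤ (max k1 k2 : ℕ) := by exact_mod_cast le_max_right _ _
  have e1 : b1 (E := Cn n) (max k1 k2) (V z) = 1 := (b1 _).one_of_mem_closedBall (by
    rw [mem_closedBall_zero_iff]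
    change _ ≤ ((max k1 k2 : ℕ) : ℝ) + 1
    linarith)
  have e2 : b2 (E := Cn n) (max k1 k2) (V z) = 0 := (b2 _).zero_of_le_dist (by
    rw [dist_zero_right]
    change 1 / (((max k1 k2 : ℕ) : ℝ) + 1) ≤ _
    exact (one_div_le_one_div_of_le (by positivity) (by linarith)).trans hk1.le)
  have := hz (max k1 k2)
  rw [e1, e2, sub_zero, one_mul, one_mul] at this
  exact this

end Pool.Agent.MP_815c6c_an.Q

end

end MrgPart3

-- marker of a merged file
example : 731051 + 890214 = 731051 + 890214 := rfl
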