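import Mathlib.MeasureTheory.Covering.DensityTheorem
import Mathlib.Analysis.Distribution.AEEqOfIntegralContDiff
import Mathlib.RingTheory.Complex
import Mathlib.MeasureTheory.Integral.IntervalIntegral.ContDiff
import Pool.Agent.MP_815c6c_an.Q.Osc
import Pool.Agent.MP_815c6c_an.P.Wk

-- ======== part 0: formerly Pool.Agent.MP_815c6c_an.Q.Cam
section MrgPart0

/-! Planar p-harmonic maps: the Campanato criterion. -/

set_option autoImplicit false

noncomputable section

namespace Pool.Agent.MP_815c6c_an.Q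

open Set Metric MeasureTheory Filter Topology Complex
open P (vo)

namespace CamA

variable {E : Type} [NormedAddCommGroup E] [NormedSpace ℝ E] [CompleteSpace E]

theorem pw_half {α ρ r : ℝ} (hρ : 0 ≤ ρ) (hr : 0 < r) (j : ℕ) :
    (ρ / 2 ^ j / r) ^ α = (ρ / r) ^ α * ((1 / 2 : ℝ) ^ α) ^ j := by
  rw [← Real.rpow_mul_natCast (by norm_num), mul_comm α, Real.rpow_natCast_mul (by norm_num),
    ← Real.mul_rpow (by positivity) (by positivity)]
  congr 1
  rw [one_div, inv_pow]
  field_simp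

theorem sub2 {x y : ℂ} {r ρ : ℝ} (hy : y ∈ ball x r) (hρ : ρ ≤ r) : ball y ρ ⊆ ball x (2 * r) := by
  refine ball_subset_ball' ?_
  have := mem_ball.1 hy
  linarith

theorem leb (u : ℂ → E) (x : ℂ) (r : ℝ) (hr : 0 < r) (hu : MemLp u 2 (vo (ball x (2 * r)))) :
    ∀ᵐ y ∂vo (ball x r), Tendsto (fun j : ℕ => av u y (r / 2 ^ j)) atTop (𝓝 (u y)) := by
  have hi : Integrable ((ball x (2 * r)).indicator u) volume :=
    (integrable_indicator_iff measurableSet_ball).2 (hu.integrable (by norm_num))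
  have h := IsUnifLocDoublingMeasure.ae_tendsto_average (μ := (volume : Measure ℂ))
    hi.locallyIntegrable 1
  filter_upwards [ae_restrict_of_ae h, ae_restrict_mem measurableSet_ball] with y hy hyx
  have hδ : Tendsto (fun j : ℕ => r / 2 ^ j) atTop (𝓝[>] 0) := by
    refine tendsto_nhdsWithin_iff.2 ⟨?_, Eventually.of_forall fun j => ?_⟩
    · exact tendsto_const_nhds.div_atTop (tendsto_pow_atTop_atTop_of_one_lt one_lt_two)
    · exact mem_Ioi.2 (by positivity)
  have h1 := hy (fun _ : ℕ => y) (fun j : ℕ => r / 2 ^ j) hδ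
    (Eventually.of_forall fun j => mem_closedBall_self (by positivity))
  rw [indicator_of_mem (ball_subset_ball (by linarith) hyx)] at h1
  refine h1.congr fun j => ?_
  have hb : closedBall y (r / 2 ^ j) =ᵐ[volume] ball y (r / 2 ^ j) := by
    rw [← ball_union_sphere]
    exact union_ae_eq_left_of_ae_eq_empty (ae_eq_empty.2 (Measure.addHaar_sphere _ _ _))
  rw [setAverage_congr hb]
  refine setAverage_congr_fun measurableSet_ball (Eventually.of_forall fun z hz => ?_)
  refine indicator_of_mem (sub2 hyx ?_ hz) _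
  exact div_le_self hr.le (one_le_pow₀ one_le_two)

theorem scale (O : Osc E) {α : ℝ} (hα : 0 < α) (u : ℂ → E) (y : ℂ) (r K : ℝ) (hr : 0 < r)
    (hu : MemLp u 2 (vo (ball y r)))
    (h : ∀ ρ ∈ Ioc (0 : ℝ) r, osc u y ρ ≤ K * (ρ / r) ^ α) :
    ∃ w : E, Tendsto (fun j : ℕ => av u y (r / 2 ^ j)) atTop (𝓝 w) ∧ ∀ ρ ∈ Ioc (0 : ℝ) r,
      ‖av u y ρ - w‖ ≤ 2 / (1 - (1 / 2 : ℝ) ^ α) * (K * (ρ / r) ^ α) := by
  set q : ℝ := (1 / 2 : ℝ) ^ α with hq
  have hq0 : 0 ≤ q := Real.rpow_nonneg (by norm_num) _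
  have hq1 : q < 1 := Real.rpow_lt_one (by norm_num) (by norm_num) hα
  have hm : ∀ ρ, ρ ≤ r → MemLp u 2 (vo (ball y ρ)) := fun ρ hρ =>
    hu.mono_measure (Measure.restrict_mono (ball_subset_ball hρ) le_rfl)
  have hle : ∀ (ρ : ℝ) (j : ℕ), 0 < ρ → ρ / 2 ^ j ≤ ρ := fun ρ j hρ =>
    div_le_self hρ.le (one_le_pow₀ one_le_two)
  have hos : ∀ ρ ∈ Ioc (0 : ℝ) r, ∀ j : ℕ, osc u y (ρ / 2 ^ j) ≤ K * (ρ / r) ^ α * q ^ j := by
    intro ρ hρ j
    have hp : 0 < ρ / 2 ^ j := div_pos hρ.1 (by positivity)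
    have := h _ ⟨hp, (hle ρ j hρ.1).trans hρ.2⟩
    rwa [pw_half hρ.1.le hr, ← mul_assoc] at this
  have hst : ∀ ρ ∈ Ioc (0 : ℝ) r, ∀ j : ℕ,
      dist (av u y (ρ / 2 ^ j)) (av u y (ρ / 2 ^ (j + 1))) ≤ 2 * (K * (ρ / r) ^ α) * q ^ j := by
    intro ρ hρ j
    have hρ0 := hρ.1
    have h1 := (O.sub u y (ρ / 2 ^ j) y (ρ / 2 ^ (j + 1)) (by positivity)
      (ball_subset_ball (by rw [pow_succ, ← div_div]; exact half_le_self (by positivity)))
      (hm _ ((hle ρ j hρ0).trans hρ.2))).1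
    have h2 : ρ / 2 ^ j / (ρ / 2 ^ (j + 1)) = 2 := by rw [pow_succ]; field_simp
    rw [h2] at h1
    rw [dist_comm, dist_eq_norm]
    have := hos ρ hρ j
    linarith
  obtain ⟨w, hw⟩ := cauchySeq_tendsto_of_complete
    (cauchySeq_of_le_geometric q _ hq1 (hst r ⟨hr, le_rfl⟩))
  refine ⟨w, hw, fun ρ hρ => ?_⟩
  have hρ0 := hρ.1
  have hw' : Tendsto (fun j : ℕ => av u y (ρ / 2 ^ j)) atTop (𝓝 w) := by
    refine hw.congr_dist ?_
    have h0 : Tendsto (fun j : ℕ => r / ρ * (K * (r / r) ^ α * q ^ j)) atTop (𝓝 0) := by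
      have := ((tendsto_pow_atTop_nhds_zero_of_lt_one hq0 hq1).const_mul
        (K * (r / r) ^ α)).const_mul (r / ρ)
      simpa using this
    refine squeeze_zero (fun _ => dist_nonneg) (fun j => ?_) h0
    have h1 := (O.sub u y (r / 2 ^ j) y (ρ / 2 ^ j) (by positivity)
      (ball_subset_ball (by gcongr; exact hρ.2)) (hm _ (hle r j hr))).1
    have h2 : r / 2 ^ j / (ρ / 2 ^ j) = r / ρ := by field_simp
    rw [h2] at h1
    rw [dist_comm, dist_eq_norm]
    exact h1.trans (mul_le_mul_of_nonneg_left (hos r ⟨hr, le_rfl⟩ j) (by positivity))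
  have h3 := dist_le_of_le_geometric_of_tendsto₀ q _ hq1 (hst ρ hρ) hw'
  rw [dist_eq_norm] at h3
  simp only [pow_zero, div_one] at h3
  refine h3.trans (le_of_eq ?_)
  ring

end CamA

theorem cam : OscS → CamS := by
  intro hO α hα hα1
  set q : ℝ := (1 / 2 : ℝ) ^ α with hq
  have hq1 : q < 1 := Real.rpow_lt_one (by norm_num) (by norm_num) hα
  have hq2 : 1 / 2 ≤ q := by
    have := Real.rpow_le_rpow_of_exponent_ge (x := 1 / 2) (by norm_num) (by norm_num) hα1
    rwa [Real.rpow_one] at this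
  set A : ℝ := 2 / (1 - q) with hA
  have hA0 : 0 ≤ A := div_nonneg zero_le_two (by linarith)
  refine ⟨4 * (A + 4), by positivity, fun E _ _ _ u x r K hr hK hu h => ?_⟩
  have O := hO E
  have hm : ∀ y ∈ ball x r, ∀ ρ, ρ ≤ r → MemLp u 2 (vo (ball y ρ)) := fun y hy ρ hρ =>
    hu.mono_measure (Measure.restrict_mono (CamA.sub2 hy hρ) le_rfl)
  have hW := fun y (hy : y ∈ ball x r) =>
    CamA.scale O hα u y r K hr (hm y hy r le_rfl) (h y hy)
  choose! W hW1 hW2 using hW
  have hone : (r / r) ^ α = 1 := by rw [div_self hr.ne', Real.one_rpow]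
  have hsup : ∀ y ∈ ball x r, ‖W y - av u x r‖ ≤ (A + 4) * K := by
    intro y hy
    have hd : ‖y - x‖ < r := mem_ball_iff_norm.1 hy
    have hm1 : ball ((x + y) / 2) (r / 2) ⊆ ball x r := by
      refine ball_subset_ball' ?_
      rw [dist_eq_norm, show (x + y) / 2 - x = (y - x) / 2 by ring, norm_div]
      simp only [Complex.norm_ofNat]
      linarith
    have hm2 : ball ((x + y) / 2) (r / 2) ⊆ ball y r := by
      refine ball_subset_ball' ?_
      rw [dist_eq_norm, show (x + y) / 2 - y = -(y - x) / 2 by ring, norm_div, norm_neg]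
      simp only [Complex.norm_ofNat]
      linarith
    have h1 := (O.sub u x r _ (r / 2) (by positivity) hm1 (hm x (mem_ball_self hr) r le_rfl)).1
    have h2 := (O.sub u y r _ (r / 2) (by positivity) hm2 (hm y hy r le_rfl)).1
    have h3 : r / (r / 2) = 2 := by field_simp
    rw [h3] at h1 h2
    have h4 := h x (mem_ball_self hr) r ⟨hr, le_rfl⟩
    have h5 := h y hy r ⟨hr, le_rfl⟩
    have h6 := hW2 y hy r ⟨hr, le_rfl⟩
    rw [hone, mul_one] at h4 h5 h6
    have h7 : W y - av u x r = -(av u y r - W y) - (av u ((x + y) / 2) (r / 2) - av u y r) +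
        (av u ((x + y) / 2) (r / 2) - av u x r) := by abel
    rw [h7]
    refine (norm_add_le _ _).trans ((add_le_add_left (norm_sub_le _ _) _).trans ?_)
    rw [norm_neg]
    linarith
  refine ⟨W, ?_, fun y hy y' hy' => ?_, fun y hy => (hsup y hy).trans (by nlinarith)⟩
  · filter_upwards [CamA.leb u x r hr hu, ae_restrict_mem measurableSet_ball] with y h1 h2
    exact tendsto_nhds_unique (hW1 y h2) h1
  · obtain ⟨d, hd⟩ : ∃ d, d = ‖y - y'‖ := ⟨_, rfl⟩
    rw [← hd]
    have hd0 : 0 ≤ d := hd ▸ norm_nonneg _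
    have hp : 0 ≤ (d / r) ^ α := Real.rpow_nonneg (by positivity) _
    rcases hd0.eq_or_lt with h0 | h0
    · have : y = y' := sub_eq_zero.1 (norm_eq_zero.1 (by rw [← hd, ← h0]))
      rw [this, sub_self, norm_zero]
      positivity
    by_cases hdr : 2 * d ≤ r
    · have hb : ball y' d ⊆ ball y (2 * d) := by
        refine ball_subset_ball' ?_
        rw [dist_comm, dist_eq_norm, ← hd]
        linarith
      have h1 := (O.sub u y (2 * d) y' d h0 hb (hm y hy _ hdr)).1
      have h3 : 2 * d / d = 2 := by field_simp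
      rw [h3] at h1
      have h4 := h y hy (2 * d) ⟨by linarith, hdr⟩
      have h5 := hW2 y hy (2 * d) ⟨by linarith, hdr⟩
      have h6 := hW2 y' hy' d ⟨h0, by linarith⟩
      have h8 : (2 * d / r) ^ α ≤ 2 * (d / r) ^ α := by
        have h9 := CamA.pw_half (α := α) (ρ := 2 * d) (by linarith) hr 1
        rw [pow_one, pow_one, show 2 * d / 2 = d by ring, ← hq] at h9
        have h10 : 0 ≤ (2 * d / r) ^ α := Real.rpow_nonneg (by positivity) _
        nlinarith
      have h11 : K * (2 * d / r) ^ α ≤ 2 * (K * (d / r) ^ α) := by nlinarith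
      have h12 := mul_le_mul_of_nonneg_left h11 hA0
      have h13 : 0 ≤ K * (d / r) ^ α := mul_nonneg hK hp
      have h14 := mul_nonneg hA0 h13
      have h7 : W y - W y' = -(av u y (2 * d) - W y) - (av u y' d - av u y (2 * d)) +
          (av u y' d - W y') := by abel
      rw [h7]
      refine (norm_add_le _ _).trans ((add_le_add_left (norm_sub_le _ _) _).trans ?_)
      rw [norm_neg]
      nlinarith
    · have h1 : q ≤ (d / r) ^ α := by
        refine Real.rpow_le_rpow (by norm_num) ?_ hα.le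
        rw [le_div_iff₀ hr]
        linarith [not_le.1 hdr]
      have h7 : W y - W y' = (W y - av u x r) - (W y' - av u x r) := by abel
      rw [h7]
      refine (norm_sub_le _ _).trans ?_
      have h2 := hsup y hy
      have h3 := hsup y' hy'
      have h4 : 0 ≤ (A + 4) * K := by positivity
      nlinarith

end Pool.Agent.MP_815c6c_an.Q

end
end MrgPart0

-- ======== part 1: formerly Pool.Agent.MP_815c6c_an.Q.Part
section MrgPart1

/-! Planar p-harmonic maps: integration by parts and its consequences. -/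

set_option autoImplicit false

noncomputable section

namespace Pool.Agent.MP_815c6c_an.Q

open Set Metric MeasureTheory Filter Topology Complex Bornology
open scoped ContDiff ENNReal ComplexConjugate
open P (vo bp mo)

namespace PartA

variable {E : Type} [NormedAddCommGroup E] [NormedSpace ℝ E] {U O : Set ℂ} {u : ℂ → E}
  {D : ℂ → L E}

theorem fin (hb : IsBounded U) : IsFiniteMeasure (vo U) :=
  isFiniteMeasure_restrict.2 hb.measure_lt_top.ne

theorem lim (hb : IsBounded U) {a : ℂ → ℝ} (ha : Continuous a)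
    (hc : HasCompactSupport a) (hs : Function.support a ⊆ U) {w : ℕ → ℂ → E} {w0 : ℂ → E}
    {g : ℂ → ℝ} (hg : MemLp g 2 (vo U)) (hm : ∀ n, AEStronglyMeasurable (w n) (vo U))
    (h : ∀ᵐ z ∂vo U, (∀ n, ‖w n z‖ ≤ g z) ∧ Tendsto (fun n => w n z) atTop (𝓝 (w0 z))) :
    Integrable (fun z => a z • w0 z) ∧
      Tendsto (fun n => ∫ z, a z • w n z) atTop (𝓝 (∫ z, a z • w0 z)) := by
  have := fin hb
  obtain ⟨C, hC⟩ := hc.exists_bound_of_continuous ha
  have hC0 : 0 ≤ C := (norm_nonneg _).trans (hC 0)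
  have hgi : Integrable (fun z => C * g z) (vo U) := (hg.integrable one_le_two).const_mul C
  have e : ∀ f : ℂ → E, ∫ z in U, a z • f z = ∫ z, a z • f z := fun f =>
    setIntegral_eq_integral_of_forall_compl_eq_zero fun z hz => by
      rw [Function.notMem_support.1 fun h => hz (hs h), zero_smul]
  have m0 : AEStronglyMeasurable w0 (vo U) :=
    aestronglyMeasurable_of_tendsto_ae atTop hm (h.mono fun z a => a.2)
  refine ⟨(integrableOn_iff_integrable_of_support_subset (s := U) fun z hz =>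
    hs fun h0 => hz (by simp only [h0, zero_smul])).1 ?_, ?_⟩
  · refine hgi.mono' (ha.aestronglyMeasurable.smul m0) (h.mono fun z hz => ?_)
    rw [norm_smul]
    exact mul_le_mul (hC z) (le_of_tendsto' hz.2.norm hz.1) (norm_nonneg _) hC0
  · simp only [← e]
    refine tendsto_integral_of_dominated_convergence (fun z => C * g z)
      (fun n => ha.aestronglyMeasurable.smul (hm n)) hgi (fun n => h.mono fun z hz => ?_)
      (h.mono fun z hz => hz.2.const_smul _)
    rw [norm_smul]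
    exact mul_le_mul (hC z) (hz.1 n) (norm_nonneg _) hC0

theorem ibp (hb : IsBounded U) (h : Sb U u D) {φ : ℂ → ℝ} (h1 : ContDiff ℝ 1 φ)
    (hc : HasCompactSupport φ) (hs : tsupport φ ⊆ U) (v : ℂ) :
    Integrable (fun z => fderiv ℝ φ z v • u z) ∧ Integrable (fun z => φ z • D z v) ∧
    ∫ z, fderiv ℝ φ z v • u z = -∫ z, φ z • D z v := by
  obtain ⟨w, hw, g, hg, h⟩ := h
  have c1 : Continuous fun z => fderiv ℝ φ z v :=
    (h1.continuous_fderiv one_ne_zero).clm_apply continuous_const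
  have k1 : HasCompactSupport fun z => fderiv ℝ φ z v := hc.fderiv_apply ℝ v
  have c2 : ∀ n, Continuous fun z => fderiv ℝ (w n) z v := fun n =>
    ((hw n).continuous_fderiv (by simp)).clm_apply continuous_const
  have A := lim hb c1 k1 (fun z hz => hs (support_fderiv_subset ℝ fun h0 => hz (by
      simp only [h0, zero_apply]))) hg
    (fun n => (hw n).continuous.aestronglyMeasurable)
    (h.mono fun z a => ⟨fun n => (a.1 n).1, a.2.1⟩)
  have B := lim (w := fun n z => fderiv ℝ (w n) z v) (w0 := fun z => D z v) hb h1.continuous hc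
    ((subset_tsupport φ).trans hs) (hg.mul_const ‖v‖) (fun n => (c2 n).aestronglyMeasurable)
    (h.mono fun z a => ⟨fun n => ((fderiv ℝ (w n) z).le_opNorm v).trans
      (mul_le_mul_of_nonneg_right (a.1 n).2 (norm_nonneg _)),
      ((ContinuousLinearMap.apply ℝ E v).continuous.tendsto _).comp a.2.2⟩)
  refine ⟨A.1, B.1, tendsto_nhds_unique A.2 (B.2.neg.congr fun n => ?_)⟩
  rw [integral_smul_fderiv_eq_neg_fderiv_smul_of_integrable
    ((c1.smul (hw n).continuous).integrable_of_hasCompactSupport k1.smul_right)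
    ((h1.continuous.smul (c2 n)).integrable_of_hasCompactSupport hc.smul_right)
    ((h1.continuous.smul (hw n).continuous).integrable_of_hasCompactSupport hc.smul_right)
    (fun x _ => h1.differentiable one_ne_zero x)
    (fun x _ => (hw n).differentiable (by simp) x), neg_neg]

theorem locInt (hb : IsBounded U) (h : Sb U u D) (v : ℂ) : IntegrableOn (fun z => D z v) U := by
  have := fin hb
  exact (ContinuousLinearMap.apply ℝ E v).integrable_comp (h.memLp.2.integrable one_le_two)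

theorem intg {a : ℂ → ℝ} {f : ℂ → E} {K : Set ℂ} (ha : Continuous a) (hK : IsCompact K)
    (hs : Function.support a ⊆ K) (hf : ContinuousOn f K) : Integrable fun z => a z • f z :=
  (integrableOn_iff_integrable_of_support_subset (s := K) fun z hz =>
    hs fun h0 => hz (by simp only [h0, zero_smul])).1
    ((ha.continuousOn.smul hf).integrableOn_compact hK)

variable [CompleteSpace E]

theorem uniq (hU : IsOpen U) (hb : IsBounded U) (h : Sb U (fun _ => 0) D) :
    ∀ᵐ z ∂vo U, D z = 0 := by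
  have A : ∀ v : ℂ, ∀ᵐ z, z ∈ U → D z v = 0 := fun v =>
    hU.ae_eq_zero_of_integral_contDiff_smul_eq_zero (locInt hb h v).locallyIntegrableOn
      fun φ h1 hc hs => by
        have := (ibp hb h (h1.of_le (by simp)) hc hs v).2.2
        simp only [smul_zero, integral_zero] at this
        exact neg_eq_zero.1 this.symm
  rw [ae_restrict_iff' hU.measurableSet]
  filter_upwards [A 1, A I] with z a b hz
  exact L_ext (a hz) (b hz)

theorem cls (hb : IsBounded U) (h : Sb U u D) (hOU : O ⊆ U) (hO : IsOpen O)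
    (hu : ContDiffOn ℝ 1 u O) : ∀ᵐ z ∂vo O, D z = fderiv ℝ u z := by
  have c : ∀ v : ℂ, ContinuousOn (fun z => fderiv ℝ u z v) O := fun v =>
    (hu.continuousOn_fderiv_of_isOpen hO le_rfl).clm_apply continuousOn_const
  have A : ∀ v : ℂ, ∀ᵐ z, z ∈ O → D z v - fderiv ℝ u z v = 0 := fun v => by
    refine hO.ae_eq_zero_of_integral_contDiff_smul_eq_zero
      (((locInt hb h v).mono_set hOU).locallyIntegrableOn.sub
        ((c v).locallyIntegrableOn hO.measurableSet)) fun φ h1 hc hs => ?_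
    obtain ⟨i1, i2, e⟩ := ibp hb h (h1.of_le (by simp)) hc (hs.trans hOU) v
    have i3 := intg h1.continuous hc (subset_tsupport φ) ((c v).mono hs)
    have i4 := intg h1.continuous hc (subset_tsupport φ) (hu.continuousOn.mono hs)
    simp only [smul_sub]
    rw [integral_sub i2 i3, integral_smul_fderiv_eq_neg_fderiv_smul_of_integrable i1 i3 i4
      (fun x _ => h1.differentiable (by simp) x) (fun x hx =>
        (hu.contDiffAt (hO.mem_nhds (hs hx))).differentiableAt one_ne_zero), e, neg_neg, sub_self]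
  rw [ae_restrict_iff' hO.measurableSet]
  filter_upwards [A 1, A I] with z a b hz
  exact L_ext (sub_eq_zero.1 (a hz)) (sub_eq_zero.1 (b hz))

omit [CompleteSpace E] in
theorem locU (hU : IsOpen U) (hb : IsBounded U) (h : Sb U u D) :
    LocallyIntegrable (U.indicator u) volume := by
  have := fin hb
  exact ((integrable_indicator_iff hU.measurableSet).2
    (h.memLp.1.integrable one_le_two)).locallyIntegrable

omit [CompleteSpace E] in
/-- the derivative of the mollification -/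
theorem der (hU : IsOpen U) (hb : IsBounded U) (h : Sb U u D) (hOU : O ⊆ U) (hO : IsOpen O)
    {D' : ℂ → L E} (hD : D' =ᵐ[vo O] D) (n : ℕ) {z : ℂ} (hz : closedBall z (bp n).rOut ⊆ O)
    (v : ℂ) : fderiv ℝ (mo n (U.indicator u)) z v = mo n (O.indicator fun y => D' y v) z := by
  have hf := locU hU hb h
  set ρ : ℂ → ℝ := (bp n).normed volume with hρ
  have h1 : ContDiff ℝ ∞ ρ := (bp n).contDiff_normed
  have h2 : HasCompactSupport ρ := (bp n).hasCompactSupport_normed
  have h3 : Continuous (fderiv ℝ ρ) := h1.continuous_fderiv (by simp)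
  have ex := ((h2.fderiv ℝ).convolutionExists_left
    ((ContinuousLinearMap.lsmul ℝ ℝ : ℝ →L[ℝ] E →L[ℝ] E).precompL ℂ) h3 hf z).integrable_swap
  have key : fderiv ℝ (mo n (U.indicator u)) z v =
      ∫ y, fderiv ℝ ρ (z - y) v • U.indicator u y := by
    rw [mo, (h2.hasFDerivAt_convolution_left (ContinuousLinearMap.lsmul ℝ ℝ) (h1.of_le (by simp))
      hf z).fderiv, convolution_eq_swap, ContinuousLinearMap.integral_apply ex]
    rfl
  have t : tsupport (fun y => ρ (z - y)) ⊆ O := fun y hy => by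
    have := tsupport_comp_subset_preimage (f := fun y => z - y) ρ (by fun_prop) hy
    rw [hρ, (bp n).tsupport_normed_eq, mem_preimage, mem_closedBall_zero_iff] at this
    exact hz (mem_closedBall_iff_norm'.2 this)
  have d : ∀ y, fderiv ℝ (fun y => ρ (z - y)) y = -fderiv ℝ ρ (z - y) := fun y => by
    have := ((h1.differentiable (by simp)) (z - y)).hasFDerivAt.comp y
      ((hasFDerivAt_id y).const_sub z)
    exact this.fderiv.trans (by simp)
  have e := (ibp hb h ((h1.comp (contDiff_const.sub contDiff_id)).of_le (by simp))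
    (h2.comp_homeomorph (Homeomorph.subLeft z)) (t.trans hOU) v).2.2
  have e1 : ∫ y, fderiv ℝ ρ (z - y) v • U.indicator u y =
      -∫ y, fderiv ℝ (fun y => ρ (z - y)) y v • u y := by
    rw [← integral_neg]
    refine integral_congr_ae (Eventually.of_forall fun y => ?_)
    by_cases hy : y ∈ U
    · simp [d, hy]
    · simp [hy, fderiv_of_notMem_tsupport ℝ fun a => hy (hOU (t a))]
  rw [key, e1, mo, convolution_eq_swap]
  refine (neg_eq_iff_eq_neg.2 e).trans (integral_congr_ae ?_)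
  filter_upwards [(ae_restrict_iff' hO.measurableSet).1 hD] with y hy
  by_cases hy' : y ∈ O
  · simp [hy', hy hy', hρ]
  · have : ρ (z - y) = 0 := image_eq_zero_of_notMem_tsupport (f := fun y => ρ (z - y))
      fun a => hy' (t a)
    simp [hy', this]

omit [CompleteSpace E] in
theorem rOut_lim : Tendsto (fun n => (bp n).rOut) atTop (𝓝 0) := by
  simpa [bp, div_eq_mul_inv] using (tendsto_one_div_add_atTop_nhds_zero_nat (𝕜 := ℝ)).const_mul 2

theorem cnt (hU : IsOpen U) (hb : IsBounded U) (h : Sb U u D) (hOU : O ⊆ U) (hO : IsOpen O)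
    (hu : ContinuousOn u O) {D' : ℂ → L E} (hc : ContinuousOn D' O) (hD : D' =ᵐ[vo O] D) {z : ℂ}
    (hz : z ∈ O) : HasFDerivAt u (D' z) z := by
  have hf := locU hU hb h
  rw [hasFDerivAt_iff_isLittleO, Asymptotics.isLittleO_iff]
  intro ε hε
  obtain ⟨δ, hδ, hd⟩ : ∃ δ > 0, ∀ y ∈ ball z δ, y ∈ O ∧ ‖D' y - D' z‖ ≤ ε / 6 := by
    have a := (hc.continuousAt (hO.mem_nhds hz)).eventually
      (closedBall_mem_nhds (D' z) (show 0 < ε / 6 by positivity))
    obtain ⟨δ, hδ, hd⟩ := Metric.eventually_nhds_iff_ball.1 ((hO.eventually_mem hz).and a)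
    exact ⟨δ, hδ, fun y hy => ⟨(hd y hy).1, mem_closedBall_iff_norm.1 (hd y hy).2⟩⟩
  have pt : ∀ y ∈ O, Tendsto (fun n => mo n (U.indicator u) y) atTop (𝓝 (u y)) := fun y hy => by
    refine ContDiffBump.convolution_tendsto_right (g := fun _ => U.indicator u) rOut_lim
      (Eventually.of_forall fun _ => hf.aestronglyMeasurable) (Tendsto.comp (g := U.indicator u)
        ?_ tendsto_snd) tendsto_const_nhds
    refine (hu.continuousAt (hO.mem_nhds hy)).tendsto.congr' ?_
    filter_upwards [hU.eventually_mem (hOU hy)] with w hw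
    rw [indicator_of_mem hw]
  filter_upwards [ball_mem_nhds z (half_pos hδ)] with y hy
  have s2 : ball z (δ / 2) ⊆ ball z δ := ball_subset_ball (half_le_self hδ.le)
  refine le_of_tendsto (((pt y (hd y (s2 hy)).1).sub (pt z hz)).sub_const (D' z (y - z))).norm ?_
  filter_upwards [rOut_lim.eventually (gt_mem_nhds (half_pos hδ))] with n hn
  refine (convex_ball z (δ / 2)).norm_image_sub_le_of_norm_fderiv_le' (fun x _ =>
    ((bp n).hasCompactSupport_normed.hasFDerivAt_convolution_left (ContinuousLinearMap.lsmul ℝ ℝ)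
      (bp n).contDiff_normed hf x).differentiableAt) (fun x hx => ?_)
    (mem_ball_self (half_pos hδ)) hy
  have s1 : closedBall x (bp n).rOut ⊆ ball z δ := fun w hw => by
    rw [mem_closedBall] at hw
    rw [mem_ball] at hx ⊢
    linarith [dist_triangle w x z]
  have b : ∀ v : ℂ, ‖v‖ = 1 → ‖(fderiv ℝ (mo n (U.indicator u)) x - D' z) v‖ ≤ ε / 2 := by
    intro v hv
    have n1 : ∀ w ∈ ball z δ, ‖D' w v - D' z v‖ ≤ ε / 6 := fun w hw => by
      have := (D' w - D' z).le_opNorm v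
      rw [hv, mul_one] at this
      exact this.trans (hd w hw).2
    have a := (bp n).dist_normed_convolution_le (μ := volume) (x₀ := x) (ε := ε / 3)
      (g := O.indicator fun y => D' y v) ((aestronglyMeasurable_indicator_iff hO.measurableSet).2
        ((hc.clm_apply continuousOn_const).aestronglyMeasurable hO.measurableSet)) fun w hw => by
        have hw' := s1 (ball_subset_closedBall hw)
        rw [indicator_of_mem (hd w hw').1, indicator_of_mem (hd x (s2 hx)).1]
        refine (dist_triangle_right _ _ (D' z v)).trans ?_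
        rw [dist_eq_norm, dist_eq_norm]
        linarith [n1 w hw', n1 x (s2 hx)]
    rw [indicator_of_mem (hd x (s2 hx)).1] at a
    rw [sub_apply, der hU hb h hOU hO hD n (fun w hw => (hd w (s1 hw)).1) v,
      ← dist_eq_norm]
    refine (dist_triangle _ (D' x v) _).trans ?_
    have := n1 x (s2 hx)
    rw [← dist_eq_norm] at this
    have a' : dist (mo n (O.indicator fun y => D' y v) x) (D' x v) ≤ ε / 3 := a
    linarith
  refine (L_norm _).2.2.trans ?_
  linarith [b 1 norm_one, b I norm_I]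

variable [FiniteDimensional ℝ E]

omit [CompleteSpace E] in
/-- a smooth map with compact support that is the identity near the origin -/
theorem bump : ∃ (Φ : E → E) (b : ℝ), ContDiff ℝ ∞ Φ ∧ (∀ w, ‖fderiv ℝ Φ w‖ ≤ b) ∧
    (∀ w, ‖Φ w‖ ≤ ‖w‖) ∧ fderiv ℝ Φ 0 = ContinuousLinearMap.id ℝ E ∧
    ∀ w, 2 < ‖w‖ → Φ w = 0 ∧ fderiv ℝ Φ w = 0 := by
  let χ : ContDiffBump (0 : E) := ⟨1, 2, one_pos, one_lt_two⟩
  have hs : ContDiff ℝ ∞ fun w : E => χ w • w := χ.contDiff.smul contDiff_id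
  have hc : HasCompactSupport fun w : E => χ w • w := χ.hasCompactSupport.smul_right
  obtain ⟨b, hb⟩ := (hc.fderiv ℝ).exists_bound_of_continuous (hs.continuous_fderiv (by simp))
  refine ⟨_, b, hs, hb, fun w => ?_, ?_, fun w hw => ?_⟩
  · rw [norm_smul, Real.norm_of_nonneg χ.nonneg]
    exact mul_le_of_le_one_left (norm_nonneg _) χ.le_one
  · have : (fun w : E => χ w • w) =ᶠ[𝓝 0] id := by
      filter_upwards [χ.eventuallyEq_one] with w hw
      simp only [hw, Pi.one_apply, one_smul, id]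
    rw [this.fderiv_eq, fderiv_id]
  · have : (fun w : E => χ w • w) =ᶠ[𝓝 w] fun _ => 0 := by
      filter_upwards [(isOpen_lt continuous_const continuous_norm).mem_nhds hw] with y hy
      rw [χ.zero_of_le_dist (by simpa using le_of_lt hy), zero_smul]
    exact ⟨this.self_of_nhds, by rw [this.fderiv_eq, fderiv_const_apply]⟩

theorem zero (kit : Sob E) (hU : IsOpen U) (hb : IsBounded U) (h : Sb U u D) :
    ∀ᵐ z ∂vo U, u z = 0 → D z = 0 := by
  classical
  obtain ⟨Φ, b, hs, hb', hn, h0, h2⟩ := bump (E := E)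
  have hb0 : 0 ≤ b := (norm_nonneg _).trans (hb' 0)
  have hk : ∀ k : ℕ, (0 : ℝ) < k + 1 := fun k => by positivity
  let Ψ : ℕ → E → E := fun k w => ((k : ℝ) + 1)⁻¹ • Φ (((k : ℝ) + 1) • w)
  have hΨ : ∀ k, ContDiff ℝ ∞ (Ψ k) := fun k =>
    (hs.comp (contDiff_id.const_smul _)).const_smul _
  have hd : ∀ (k : ℕ) w, fderiv ℝ (Ψ k) w = fderiv ℝ Φ (((k : ℝ) + 1) • w) := fun k w => by
    have a := (((hs.differentiable (by simp) (((k : ℝ) + 1) • w)).hasFDerivAt.comp w
      ((hasFDerivAt_id w).const_smul ((k : ℝ) + 1))).const_smul ((k : ℝ) + 1)⁻¹).fderiv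
    refine Eq.trans a (ContinuousLinearMap.ext fun y => ?_)
    simp only [smul_apply, ContinuousLinearMap.comp_apply,
      ContinuousLinearMap.id_apply, map_smul, smul_smul, inv_mul_cancel₀ (hk k).ne', one_smul]
  have hev : ∀ w : E, w ≠ 0 → ∀ᶠ k : ℕ in atTop, 2 < ‖((k : ℝ) + 1) • w‖ := fun w hw => by
    have : Tendsto (fun k : ℕ => ((k : ℝ) + 1) * ‖w‖) atTop atTop :=
      (tendsto_atTop_add_const_right _ 1 tendsto_natCast_atTop_atTop).atTop_mul_const
        (norm_pos_iff.2 hw)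
    filter_upwards [this.eventually_gt_atTop 2] with k hk'
    rwa [norm_smul, Real.norm_of_nonneg (hk k).le]
  have key : Sb U (fun _ => (0 : E)) fun z => if u z = 0 then D z else 0 := by
    refine kit.dom U (fun k z => Ψ k (u z)) (fun k z => (fderiv ℝ (Ψ k) (u z)).comp (D z)) _ _
      (fun k => kit.chain E U u D (Ψ k) b hb h (hΨ k) fun w => by rw [hd]; exact hb' _)
      ⟨fun z => ‖u z‖ + b * ‖D z‖, h.memLp.1.norm.add (h.memLp.2.norm.const_mul b),
        Eventually.of_forall fun z => ⟨fun k => ⟨?_, ?_⟩, ?_, ?_⟩⟩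
    · refine le_trans ?_ (le_add_of_nonneg_right (by positivity))
      simp only [Ψ]
      rw [norm_smul, Real.norm_of_nonneg (inv_nonneg.2 (hk k).le)]
      refine (mul_le_mul_of_nonneg_left (hn _) (inv_nonneg.2 (hk k).le)).trans_eq ?_
      rw [norm_smul, Real.norm_of_nonneg (hk k).le, inv_mul_cancel_left₀ (hk k).ne']
    · refine le_trans ?_ (le_add_of_nonneg_left (norm_nonneg _))
      simp only [hd]
      exact (ContinuousLinearMap.opNorm_comp_le _ _).trans
        (mul_le_mul_of_nonneg_right (hb' _) (norm_nonneg _))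
    · by_cases hz : u z = 0
      · have : Φ 0 = 0 := norm_le_zero_iff.1 ((hn 0).trans_eq norm_zero)
        simp only [Ψ, hz, smul_zero, this]
        exact tendsto_const_nhds
      · refine tendsto_const_nhds.congr' ?_
        filter_upwards [hev _ hz] with k hk'
        simp only [Ψ, (h2 _ hk').1, smul_zero]
    · by_cases hz : u z = 0
      · simp only [hd, hz, smul_zero, h0, ContinuousLinearMap.id_comp, if_true]
        exact tendsto_const_nhds
      · simp only [if_neg hz]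
        refine tendsto_const_nhds.congr' ?_
        filter_upwards [hev _ hz] with k hk'
        simp only [hd, (h2 _ hk').2, ContinuousLinearMap.zero_comp]
  filter_upwards [uniq hU hb key] with z hz h0
  rwa [if_pos h0] at hz

end PartA

theorem part : SobS → PartS := fun sob E _ _ _ _ _ _ _ hU hb h =>
  ⟨fun _ h1 hc hs v => PartA.ibp hb h h1 hc hs v, PartA.zero (sob E) hU hb h,
    fun _ a b c => PartA.cls hb h a b c,
    fun _ a b c _ d e _ hz => PartA.cnt hU hb h a b c d e hz⟩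

end Pool.Agent.MP_815c6c_an.Q

end
end MrgPart1

-- ======== part 2: formerly Pool.Agent.MP_815c6c_an.Q.Poi
section MrgPart2

/-! Planar p-harmonic maps: the Poincaré inequalities on discs and annuli. -/

set_option autoImplicit false

noncomputable section

namespace Pool.Agent.MP_815c6c_an.Q

open Set Metric MeasureTheory Filter Topology Complex
open scoped ContDiff ENNReal ComplexConjugate
open P (vo ml)

namespace PoiA

theorem chg (a : ℂ) {b : ℂ} (hb : b ≠ 0) {f : ℂ → ℝ≥0∞} (hf : Measurable f) :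
    ∫⁻ z, f (a + b * z) = ENNReal.ofReal (‖b‖ ^ 2)⁻¹ * ∫⁻ z, f z := by
  have e : LinearMap.det (LinearMap.mul ℝ ℂ b) = ‖b‖ ^ 2 := by
    rw [Complex.sq_norm, ← Algebra.norm_complex_apply, Algebra.norm_apply]
    rfl
  have p : 0 < ‖b‖ ^ 2 := by positivity
  have h1 := Measure.map_linearMap_addHaar_eq_smul_addHaar (volume : Measure ℂ)
    (f := LinearMap.mul ℝ ℂ b) (by rw [e]; exact p.ne')
  rw [e, abs_of_pos (inv_pos.2 p)] at h1
  have m : Measurable fun z : ℂ => b * z := measurable_const_mul b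
  have h2 : (volume : Measure ℂ).map (fun z => b * z) =
      ENNReal.ofReal (‖b‖ ^ 2)⁻¹ • (volume : Measure ℂ) := h1
  have h3 := lintegral_map (μ := (volume : Measure ℂ)) (hf.comp (measurable_const_add a)) m
  rw [h2, lintegral_smul_measure] at h3
  simp only [Function.comp_apply] at h3
  rw [← h3, lintegral_add_left_eq_self f a, smul_eq_mul]

theorem chg' (a : ℂ) {b : ℂ} (hb : b ≠ 0) {f : ℂ → ℝ≥0∞} (hf : Measurable f) :
    ∫⁻ z, f z = ENNReal.ofReal (‖b‖ ^ 2) * ∫⁻ z, f (a + b * z) := by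
  have p : 0 < ‖b‖ ^ 2 := by positivity
  rw [chg a hb hf, ← mul_assoc, ← ENNReal.ofReal_mul p.le, mul_inv_cancel₀ p.ne',
    ENNReal.ofReal_one, one_mul]

theorem jen {Z : ℝ → ℝ≥0∞} (hZ : AEMeasurable Z (volume.restrict (Icc (0 : ℝ) 1))) :
    (∫⁻ t in Icc (0 : ℝ) 1, Z t) ^ 2 ≤ ∫⁻ t in Icc (0 : ℝ) 1, Z t ^ 2 := by
  have h := ENNReal.lintegral_mul_le_Lp_mul_Lq (volume.restrict (Icc (0 : ℝ) 1))
    Real.HolderConjugate.two_two hZ (g := fun _ => 1) aemeasurable_const
  simp only [Pi.mul_apply, mul_one, ENNReal.one_rpow, lintegral_const, MeasurableSet.univ,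
    Measure.restrict_apply, univ_inter, Real.volume_Icc, sub_zero, ENNReal.ofReal_one] at h
  have h2 := ENNReal.rpow_le_rpow h (z := 2) two_pos.le
  rw [← ENNReal.rpow_mul, show (1 / 2 : ℝ) * 2 = 1 by norm_num, ENNReal.rpow_one] at h2
  simpa only [ENNReal.rpow_two] using h2

section
variable {E : Type} [NormedAddCommGroup E] [NormedSpace ℝ E]

theorem path [CompleteSpace E] {v : ℂ → E} (hv : ContDiff ℝ ∞ v) {γ : ℝ → ℂ}
    (hγ : ContDiff ℝ 1 γ) {B : ℝ} (hB : ∀ t ∈ Icc (0 : ℝ) 1, ‖deriv γ t‖ ≤ B) :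
    ‖v (γ 1) - v (γ 0)‖ₑ ^ 2 ≤
      ENNReal.ofReal B ^ 2 * ∫⁻ t in Icc (0 : ℝ) 1, ‖fderiv ℝ v (γ t)‖ₑ ^ 2 := by
  have h1 : ContDiff ℝ 1 (fun t => v (γ t)) := (hv.of_le (by simp)).comp hγ
  have h2 := enorm_sub_le_lintegral_deriv_of_contDiffOn_Icc
    (h1.contDiffOn (s := Icc (0 : ℝ) 1)) zero_le_one
  have c : Continuous fun t => ‖fderiv ℝ v (γ t)‖ₑ :=
    ((hv.continuous_fderiv (by simp)).comp hγ.continuous).enorm
  have h3 : ∫⁻ t in Icc (0 : ℝ) 1, ‖deriv (fun t => v (γ t)) t‖ₑ ≤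
      ENNReal.ofReal B * ∫⁻ t in Icc (0 : ℝ) 1, ‖fderiv ℝ v (γ t)‖ₑ := by
    rw [← lintegral_const_mul _ c.measurable]
    refine setLIntegral_mono' measurableSet_Icc fun t ht => ?_
    have d : HasDerivAt (fun t => v (γ t)) (fderiv ℝ v (γ t) (deriv γ t)) t :=
      ((hv.differentiable (by simp)) _).hasFDerivAt.comp_hasDerivAt t
        ((hγ.differentiable (by simp)) t).hasDerivAt
    rw [d.deriv, ← ofReal_norm, ← ofReal_norm,
      ← ENNReal.ofReal_mul ((norm_nonneg _).trans (hB t ht))]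
    refine ENNReal.ofReal_le_ofReal ((ContinuousLinearMap.le_opNorm _ _).trans ?_)
    rw [mul_comm]
    exact mul_le_mul_of_nonneg_right (hB t ht) (norm_nonneg _)
  calc _ ≤ (ENNReal.ofReal B * ∫⁻ t in Icc (0 : ℝ) 1, ‖fderiv ℝ v (γ t)‖ₑ) ^ 2 := by
        gcongr
        exact h2.trans h3
    _ ≤ _ := by
        rw [mul_pow]
        gcongr
        exact jen c.measurable.aemeasurable

/-- the double integral for a smooth map -/
theorem dbl [CompleteSpace E] {S Λ : Set ℂ} (hS : MeasurableSet S) (hΛ : MeasurableSet Λ)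
    (Ψ : ℂ → ℝ → ℂ → ℂ) (hm : Measurable fun p : ℂ × ℂ × ℝ => Ψ p.2.1 p.2.2 p.1)
    {K1 K3 : ℝ≥0∞} {B : ℝ}
    (ha : ∀ z ∈ S, ∀ f : ℂ → ℝ≥0∞, Measurable f → ∫⁻ y, f y ≤ K1 * ∫⁻ h, f (Ψ h 1 z))
    (hb : ∀ z ∈ S, ∀ h, Ψ h 1 z ∈ S → h ∈ Λ ∧ Ψ h 0 z = z ∧ ContDiff ℝ 1 (fun t => Ψ h t z) ∧
      ∀ t ∈ Icc (0 : ℝ) 1, Ψ h t z ∈ S ∧ ‖deriv (fun t => Ψ h t z) t‖ ≤ B)
    (hc : ∀ h ∈ Λ, ∀ t ∈ Icc (0 : ℝ) 1, ∀ f : ℂ → ℝ≥0∞, Measurable f →
      ∫⁻ z, f (Ψ h t z) ≤ K3 * ∫⁻ z, f z)
    {v : ℂ → E} (hv : ContDiff ℝ ∞ v) :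
    ∫⁻ z in S, ∫⁻ y in S, ‖v y - v z‖ₑ ^ 2 ≤
      K1 * ENNReal.ofReal B ^ 2 * volume Λ * K3 * ∫⁻ z in S, ‖fderiv ℝ v z‖ₑ ^ 2 := by
  set G : ℂ → ℝ≥0∞ := S.indicator fun w => ‖fderiv ℝ v w‖ₑ ^ 2 with hG
  have mG : Measurable G :=
    (((hv.continuous_fderiv (by simp)).enorm.measurable).pow_const 2).indicator hS
  set ν : Measure (ℂ × ℝ) := (vo Λ).prod (volume.restrict (Icc (0 : ℝ) 1)) with hν
  have mm : Measurable fun p : ℂ × ℂ × ℝ => G (Ψ p.2.1 p.2.2 p.1) := mG.comp hm
  have s1 : ∀ z ∈ S, ∫⁻ y in S, ‖v y - v z‖ₑ ^ 2 ≤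
      K1 * ENNReal.ofReal B ^ 2 * ∫⁻ q, G (Ψ q.1 q.2 z) ∂ν := by
    intro z hz
    have mz : Measurable fun q : ℂ × ℝ => G (Ψ q.1 q.2 z) := mm.comp measurable_prodMk_left
    have mf : Measurable fun y => ‖v y - v z‖ₑ ^ 2 :=
      ((hv.continuous.sub continuous_const).enorm.measurable).pow_const 2
    rw [← lintegral_indicator hS, mul_assoc]
    refine (ha z hz _ (mf.indicator hS)).trans (mul_le_mul_right ?_ _)
    rw [hν, lintegral_prod _ mz.aemeasurable, ← lintegral_const_mul _ mz.lintegral_prod_right',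
      ← lintegral_indicator hΛ]
    refine lintegral_mono fun h => ?_
    by_cases hh : Ψ h 1 z ∈ S
    · obtain ⟨b1, b2, b3, b4⟩ := hb z hz h hh
      rw [indicator_of_mem hh, indicator_of_mem b1]
      have := path hv b3 fun t ht => (b4 t ht).2
      rw [b2] at this
      refine this.trans (mul_le_mul_right (setLIntegral_mono' measurableSet_Icc fun t ht => ?_) _)
      rw [hG, indicator_of_mem (b4 t ht).1]
    · rw [indicator_of_notMem hh]
      exact zero_le
  have s2 : ∫⁻ z, ∫⁻ q, G (Ψ q.1 q.2 z) ∂ν ≤ volume Λ * K3 * ∫⁻ z, G z := by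
    rw [lintegral_lintegral_swap mm.aemeasurable]
    have : ∀ᵐ q ∂ν, ∫⁻ z, G (Ψ q.1 q.2 z) ≤ K3 * ∫⁻ z, G z := by
      rw [hν, Measure.prod_restrict]
      filter_upwards [ae_restrict_mem (hΛ.prod measurableSet_Icc)] with q hq
      exact hc _ hq.1 _ hq.2 _ mG
    refine (lintegral_mono_ae this).trans ?_
    rw [lintegral_const, hν, ← univ_prod_univ, Measure.prod_prod]
    simp [mul_comm, mul_assoc, mul_left_comm]
  calc _ ≤ ∫⁻ z in S, K1 * ENNReal.ofReal B ^ 2 * ∫⁻ q, G (Ψ q.1 q.2 z) ∂ν :=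
        setLIntegral_mono' hS s1
    _ ≤ ∫⁻ z, K1 * ENNReal.ofReal B ^ 2 * ∫⁻ q, G (Ψ q.1 q.2 z) ∂ν :=
        setLIntegral_le_lintegral _ _
    _ = K1 * ENNReal.ofReal B ^ 2 * ∫⁻ z, ∫⁻ q, G (Ψ q.1 q.2 z) ∂ν :=
        lintegral_const_mul _ mm.lintegral_prod_right'
    _ ≤ K1 * ENNReal.ofReal B ^ 2 * (volume Λ * K3 * ∫⁻ z, G z) := mul_le_mul_right s2 _
    _ = _ := by rw [hG, lintegral_indicator hS]; ring

omit [NormedSpace ℝ E] in
theorem en_eq {S : Set ℂ} {f : ℂ → E} (hf : AEStronglyMeasurable f (vo S)) :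
    en S f = (∫⁻ z in S, ‖f z‖ₑ ^ 2).toReal := by
  rw [en, integral_eq_lintegral_of_nonneg_ae (Eventually.of_forall fun _ => sq_nonneg _)
    (hf.norm.pow 2)]
  simp only [ENNReal.ofReal_pow (norm_nonneg _), ofReal_norm]

omit [NormedSpace ℝ E] in
theorem fin {S : Set ℂ} {f : ℂ → E} (hf : MemLp f 2 (vo S)) : ∫⁻ z in S, ‖f z‖ₑ ^ 2 ≠ ⊤ := by
  have := (lintegral_rpow_enorm_lt_top_of_eLpNorm_lt_top (by simp) (by simp) hf.2).ne
  simpa using this

/-- the passage to the limit and the choice of the constant -/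
theorem lim {S : Set ℂ} (h0 : volume S ≠ 0) (h1 : volume S ≠ ⊤) {u : ℂ → E} {D : ℂ → L E}
    (h : Sb S u D) {K : ℝ≥0∞} {A : ℝ} (hA : 0 ≤ A) (hK : K ≤ ENNReal.ofReal A * volume S)
    (hv : ∀ v : ℂ → E, ContDiff ℝ ∞ v →
      ∫⁻ z in S, ∫⁻ y in S, ‖v y - v z‖ₑ ^ 2 ≤ K * ∫⁻ z in S, ‖fderiv ℝ v z‖ₑ ^ 2) :
    ∃ c, en S (fun z => u z - c) ≤ A * en S D := by
  obtain ⟨mu, mD⟩ := h.memLp
  obtain ⟨v, sv, g, hg, h⟩ := h
  have : IsFiniteMeasure (vo S) := isFiniteMeasure_restrict.2 h1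
  have kt : K ≠ ⊤ := ne_top_of_le_ne_top (ENNReal.mul_ne_top ENNReal.ofReal_ne_top h1) hK
  have c2 : Continuous fun t : ℝ≥0∞ => t ^ 2 := ENNReal.continuous_pow 2
  set F : ℕ → ℂ → ℝ≥0∞ := fun n z => ∫⁻ y in S, ‖v n y - v n z‖ₑ ^ 2 with hF
  have mF : ∀ n, Measurable (F n) := fun n =>
    Measurable.lintegral_prod_right' (f := fun p : ℂ × ℂ => ‖v n p.2 - v n p.1‖ₑ ^ 2)
      (((((sv n).continuous.comp continuous_snd).sub
        ((sv n).continuous.comp continuous_fst)).enorm.measurable).pow_const 2)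
  have t1 : Tendsto (fun n => ∫⁻ z in S, ‖fderiv ℝ (v n) z‖ₑ ^ 2) atTop
      (𝓝 (∫⁻ z in S, ‖D z‖ₑ ^ 2)) := by
    refine tendsto_lintegral_of_dominated_convergence (fun z => ‖g z‖ₑ ^ 2)
      (fun n => (((sv n).continuous_fderiv (by simp)).enorm.measurable).pow_const 2)
      (fun n => h.mono fun z a => ?_) (fin hg) (h.mono fun z a => (c2.tendsto _).comp a.2.2.enorm)
    have : ‖fderiv ℝ (v n) z‖ₑ ≤ ‖g z‖ₑ :=
      enorm_le_iff_norm_le.2 ((a.1 n).2.trans (le_abs_self _))
    show ‖fderiv ℝ (v n) z‖ₑ ^ 2 ≤ ‖g z‖ₑ ^ 2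
    gcongr
  have t2 : ∫⁻ z in S, liminf (fun n => F n z) atTop ≤ K * ∫⁻ z in S, ‖D z‖ₑ ^ 2 := by
    refine (lintegral_liminf_le mF).trans ?_
    rw [← (ENNReal.Tendsto.const_mul t1 (Or.inr kt)).liminf_eq]
    exact liminf_le_liminf (Eventually.of_forall fun n => hv _ (sv n))
  have z0 : (vo S) ≠ 0 := by
    rw [Ne, Measure.restrict_eq_zero]
    exact h0
  obtain ⟨z, hz, le⟩ := exists_notMem_null_le_laverage (μ := vo S) z0
    (Measurable.liminf mF).aemeasurable (ae_iff.1 (h.mono fun z a => a.2.1))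
  have hz' : Tendsto (fun n => v n z) atTop (𝓝 (u z)) := not_not.1 hz
  have t3 : ∫⁻ y in S, ‖u y - u z‖ₑ ^ 2 ≤ liminf (fun n => F n z) atTop := by
    refine le_trans (lintegral_mono_ae (h.mono fun y a => ?_)) (lintegral_liminf_le fun n =>
      (((sv n).continuous.sub continuous_const).enorm.measurable).pow_const 2)
    exact ((c2.tendsto _).comp (a.2.1.sub hz').enorm).liminf_eq.ge
  have t4 : ∫⁻ y in S, ‖u y - u z‖ₑ ^ 2 ≤ ENNReal.ofReal A * ∫⁻ z in S, ‖D z‖ₑ ^ 2 := by
    refine t3.trans (le.trans ?_)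
    rw [laverage_eq, Measure.restrict_apply_univ]
    refine ENNReal.div_le_of_le_mul (t2.trans ?_)
    rw [mul_right_comm]
    exact mul_le_mul_left hK _
  refine ⟨u z, ?_⟩
  rw [en_eq (f := fun y => u y - u z) (mu.1.sub aestronglyMeasurable_const), en_eq mD.1]
  refine (ENNReal.toReal_mono (ENNReal.mul_ne_top ENNReal.ofReal_ne_top (fin mD)) t4).trans_eq ?_
  rw [ENNReal.toReal_mul, ENNReal.toReal_ofReal hA]
end

theorem vol (x : ℂ) {r : ℝ} (hr : 0 ≤ r) :
    volume (ball x r) = ENNReal.ofReal (r ^ 2 * Real.pi) := by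
  rw [Complex.volume_ball, ENNReal.ofReal_mul (sq_nonneg _), ENNReal.ofReal_pow hr,
    ← NNReal.coe_real_pi, ENNReal.ofReal_coe_nnreal]

theorem btw {a t : ℝ} (ha : 0 < a) (ht : t ∈ Icc (0 : ℝ) 1) :
    min 1 a ≤ a * Real.exp ((t - 1) * Real.log a) ∧
      a * Real.exp ((t - 1) * Real.log a) ≤ max 1 a := by
  have e : a * Real.exp ((t - 1) * Real.log a) = Real.exp (t * Real.log a) := by
    nth_rewrite 1 [← Real.exp_log ha]
    rw [← Real.exp_add]
    congr 1
    ring
  rw [e]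
  rcases le_total 1 a with h | h
  · have l := Real.log_nonneg h
    rw [min_eq_left h, max_eq_right h]
    refine ⟨Real.one_le_exp (mul_nonneg ht.1 l), ?_⟩
    nth_rewrite 2 [← Real.exp_log ha]
    exact Real.exp_le_exp.2 (by nlinarith [ht.2])
  · have l := Real.log_nonpos ha.le h
    rw [min_eq_right h, max_eq_left h]
    refine ⟨?_, Real.exp_le_one_iff.2 (by nlinarith [ht.1])⟩
    nth_rewrite 1 [← Real.exp_log ha]
    exact Real.exp_le_exp.2 (by nlinarith [ht.2])

theorem nrm (h : ℂ) (t : ℝ) :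
    ‖h * exp (((t : ℂ) - 1) * log h)‖ = ‖h‖ * Real.exp ((t - 1) * Real.log ‖h‖) := by
  rw [norm_mul, Complex.norm_exp]
  congr 2
  rw [show (t : ℂ) - 1 = ((t - 1 : ℝ) : ℂ) by push_cast; ring, re_ofReal_mul, log_re]

theorem lg {h : ℂ} (h1 : 1 / 2 ≤ ‖h‖) (h2 : ‖h‖ ≤ 2) : ‖log h‖ ≤ 5 := by
  have p : 0 < ‖h‖ := by linarith
  have a := Real.log_le_sub_one_of_pos p
  have b := Real.log_le_sub_one_of_pos (inv_pos.2 p)
  have c : ‖h‖⁻¹ ≤ 2 := by
    rw [inv_le_comm₀ p two_pos]
    linarith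
  rw [Real.log_inv] at b
  have d : |Real.log ‖h‖| ≤ 1 := abs_le.2 ⟨by linarith, by linarith⟩
  have := Complex.norm_le_abs_re_add_abs_im (log h)
  rw [log_re, log_im] at this
  linarith [abs_arg_le_pi h, Real.pi_le_four]

section
variable {E : Type} [NormedAddCommGroup E] [NormedSpace ℝ E] [CompleteSpace E]

theorem disc (x : ℂ) {r : ℝ} {v : ℂ → E} (hv : ContDiff ℝ ∞ v) :
    ∫⁻ z in ball x r, ∫⁻ y in ball x r, ‖v y - v z‖ₑ ^ 2 ≤
      1 * ENNReal.ofReal (2 * r) ^ 2 * volume (ball (0 : ℂ) (2 * r)) * 1 *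
        ∫⁻ z in ball x r, ‖fderiv ℝ v z‖ₑ ^ 2 := by
  refine dbl measurableSet_ball measurableSet_ball (fun h t z => z + t * h) (by fun_prop)
    (fun z _ f _ => ?_) (fun z hz h hh => ?_) (fun h _ t _ f _ => ?_) hv
  · simp only [ofReal_one, one_mul]
    exact (lintegral_add_left_eq_self f z).ge
  · simp only [ofReal_one, one_mul] at hh
    have n : ‖h‖ < 2 * r := by
      have := dist_triangle_right (z + h) z x
      rw [dist_self_add_left] at this
      linarith [mem_ball.1 hz, mem_ball.1 hh]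
    have d : ∀ t : ℝ, HasDerivAt (fun t : ℝ => z + t * h) h t := fun t => by
      simpa using ((hasDerivAt_id t).ofReal_comp.mul_const h).const_add z
    refine ⟨mem_ball_zero_iff.2 n, by simp,
      contDiff_const.add (ofRealCLM.contDiff.mul contDiff_const), fun t ht => ⟨?_, ?_⟩⟩
    · simpa using (convex_ball x r).add_smul_mem hz hh ht
    · rw [(d t).deriv]
      exact n.le
  · rw [one_mul]
    exact (lintegral_add_right_eq_self f _).le

theorem ann (x : ℂ) {r : ℝ} (hr : 0 < r) {v : ℂ → E} (hv : ContDiff ℝ ∞ v) :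
    ∫⁻ z in ball x (2 * r) \ ball x r, ∫⁻ y in ball x (2 * r) \ ball x r, ‖v y - v z‖ₑ ^ 2 ≤
      ENNReal.ofReal (4 * r ^ 2) * ENNReal.ofReal (10 * r) ^ 2 *
        volume (ball (0 : ℂ) 2 \ ball 0 (1 / 2)) * ENNReal.ofReal 4 *
        ∫⁻ z in ball x (2 * r) \ ball x r, ‖fderiv ℝ v z‖ₑ ^ 2 := by
  have ms : ∀ w : ℂ, w ∈ ball x (2 * r) \ ball x r ↔ ‖w - x‖ < 2 * r ∧ r ≤ ‖w - x‖ := fun w => by
    simp [mem_ball, dist_eq_norm]
  refine dbl (measurableSet_ball.diff measurableSet_ball)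
    (measurableSet_ball.diff measurableSet_ball)
    (fun h t z => x + h * exp (((t : ℂ) - 1) * log h) * (z - x)) ?_
    (fun z hz f hf => ?_) (fun z hz h hh => ?_) (fun h hh t ht f hf => ?_) hv
  · have := Complex.measurable_log
    fun_prop
  · obtain ⟨a, b⟩ := (ms z).1 hz
    have n : z - x ≠ 0 := norm_pos_iff.1 (by linarith)
    simp only [ofReal_one, sub_self, zero_mul, exp_zero, mul_one]
    rw [chg' x n hf]
    simp only [mul_comm (z - x)]
    refine mul_le_mul_left (ENNReal.ofReal_le_ofReal ?_) _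
    nlinarith [norm_nonneg (z - x)]
  · obtain ⟨a, b⟩ := (ms z).1 hz
    simp only [ofReal_one, sub_self, zero_mul, exp_zero, mul_one] at hh
    obtain ⟨a', b'⟩ := (ms _).1 hh
    rw [add_sub_cancel_left, norm_mul] at a' b'
    have h2 : ‖h‖ < 2 := by nlinarith [norm_nonneg h]
    have h1 : 1 / 2 ≤ ‖h‖ := by nlinarith [norm_nonneg h]
    have p : 0 < ‖h‖ := by linarith
    have n : h ≠ 0 := norm_pos_iff.1 p
    have d : ∀ t : ℝ, HasDerivAt (fun t : ℝ => x + h * exp (((t : ℂ) - 1) * log h) * (z - x))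
        (h * (exp (((t : ℂ) - 1) * log h) * log h) * (z - x)) t := fun t => by
      simpa using ((((((hasDerivAt_id t).ofReal_comp.sub_const 1).mul_const
        (log h)).cexp).const_mul h).mul_const (z - x)).const_add x
    have q : ∀ t ∈ Icc (0 : ℝ) 1, ‖h * exp (((t : ℂ) - 1) * log h) * (z - x)‖ < 2 * r ∧
        r ≤ ‖h * exp (((t : ℂ) - 1) * log h) * (z - x)‖ := fun t ht => by
      obtain ⟨l, u⟩ := btw p ht
      rw [norm_mul, nrm]
      have zn := norm_nonneg (z - x)
      constructor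
      · refine (mul_le_mul_of_nonneg_right u zn).trans_lt ?_
        rw [max_mul_of_nonneg _ _ zn, one_mul]
        exact max_lt a a'
      · refine le_trans ?_ (mul_le_mul_of_nonneg_right l zn)
        rw [min_mul_of_nonneg _ _ zn, one_mul]
        exact le_min b b'
    refine ⟨⟨mem_ball_zero_iff.2 h2, fun k => (mem_ball_zero_iff.1 k).not_ge h1⟩, ?_, ?_,
      fun t ht => ⟨(ms _).2 (by rw [add_sub_cancel_left]; exact q t ht), ?_⟩⟩
    · simp [exp_neg, exp_log n, n]
    · exact contDiff_const.add ((contDiff_const.mul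
        (((ofRealCLM.contDiff.sub contDiff_const).mul contDiff_const).cexp)).mul contDiff_const)
    · rw [(d t).deriv, show h * (exp (((t : ℂ) - 1) * log h) * log h) * (z - x) =
        h * exp (((t : ℂ) - 1) * log h) * (z - x) * log h by ring, norm_mul]
      exact (mul_le_mul (q t ht).1.le (lg h1 h2.le) (norm_nonneg _) (by linarith)).trans_eq
        (by ring)
  · have h1 : 1 / 2 ≤ ‖h‖ := not_lt.1 fun k => hh.2 (mem_ball_zero_iff.2 k)
    have l := (btw (a := ‖h‖) (by linarith) ht).1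
    rw [← nrm] at l
    set c := h * exp (((t : ℂ) - 1) * log h)
    have l2 : 1 / 2 ≤ ‖c‖ := (le_min (by norm_num) h1).trans l
    have n : c ≠ 0 := norm_pos_iff.1 (by linarith)
    have e : ∀ z, x + c * (z - x) = x - c * x + c * z := fun z => by ring
    simp only [e]
    rw [chg _ n hf]
    refine mul_le_mul_left (ENNReal.ofReal_le_ofReal ?_) _
    rw [inv_le_comm₀ (by positivity) (by norm_num)]
    nlinarith
end

end PoiA

open PoiA in
theorem poi : PoiS := by
  refine ⟨25600, by norm_num, fun E _ _ _ u D x r hr => ⟨fun h => ?_, fun h => ?_⟩⟩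
  · refine lim (measure_ball_pos _ _ hr).ne' measure_ball_lt_top.ne h (by positivity) ?_
      fun v hv => disc x hv
    rw [vol _ hr.le, vol _ (by positivity), one_mul, mul_one,
      ← ENNReal.ofReal_pow (by positivity), ← ENNReal.ofReal_mul (by positivity),
      ← ENNReal.ofReal_mul (by positivity)]
    refine ENNReal.ofReal_le_ofReal ?_
    have : 0 ≤ r ^ 4 * Real.pi := by positivity
    nlinarith
  · have s : ball (x + (3 * r / 2 : ℝ)) (r / 2) ⊆ ball x (2 * r) \ ball x r := fun w hw => by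
      have e : dist (x + (3 * r / 2 : ℝ)) x = 3 * r / 2 := by
        rw [dist_self_add_left, norm_real, Real.norm_of_nonneg (by positivity)]
      have a := dist_triangle w (x + (3 * r / 2 : ℝ)) x
      have b := dist_triangle_left (x + (3 * r / 2 : ℝ)) x w
      have c := mem_ball.1 hw
      exact ⟨mem_ball.2 (by linarith), fun k => by linarith [mem_ball.1 k]⟩
    have m := measure_mono (μ := volume) s
    refine lim ((measure_ball_pos _ _ (half_pos hr)).trans_le m).ne'
      ((measure_mono sdiff_subset).trans_lt measure_ball_lt_top).ne (h.mono sdiff_subset)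
      (by positivity) ?_ fun v hv => ann x hr hv
    refine le_trans ?_ (mul_le_mul_right m _)
    refine (mul_le_mul_left (mul_le_mul_right (measure_mono sdiff_subset) _) _).trans ?_
    rw [vol _ two_pos.le, vol _ (half_pos hr).le,
      ← ENNReal.ofReal_pow (by positivity), ← ENNReal.ofReal_mul (by positivity),
      ← ENNReal.ofReal_mul (by positivity), ← ENNReal.ofReal_mul (by positivity),
      ← ENNReal.ofReal_mul (by positivity)]
    exact ENNReal.ofReal_le_ofReal (le_of_eq (by ring))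

end Pool.Agent.MP_815c6c_an.Q

end
end MrgPart2

-- ======== part 3: formerly Pool.Agent.MP_815c6c_an.Q.Shl
section MrgPart3

/-! Planar p-harmonic maps: convergence of the derivatives, and the shell. -/

set_option autoImplicit false

namespace Pool.Agent.MP_815c6c_an.Q

open Set Metric MeasureTheory Filter Topology Complex
open scoped ContDiff ENNReal Manifold
open P (vo)

namespace ShlA

theorem interp {E : Type} [NormedAddCommGroup E] [NormedSpace ℝ E] {u : ℂ → E} {y : ℂ}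
    {h ε σ : ℝ} (h0 : 0 < h) (hd : ∀ z ∈ closedBall y h, DifferentiableAt ℝ u z)
    (hε : ∀ z ∈ closedBall y h, ‖fderiv ℝ u z - fderiv ℝ u y‖ ≤ ε)
    (hσ : ∀ z ∈ closedBall y h, ‖u z‖ ≤ σ) : ‖fderiv ℝ u y‖ ≤ ε + 2 * σ / h := by
  have hy := mem_closedBall_self (x := y) h0.le
  have e0 : 0 ≤ ε := (norm_nonneg _).trans (hε y hy)
  have s0 : 0 ≤ σ := (norm_nonneg _).trans (hσ y hy)
  refine ContinuousLinearMap.opNorm_le_of_unit_norm (by positivity) fun v hv => ?_
  have hn : ‖h • v‖ = h := by rw [norm_smul, hv, mul_one, Real.norm_of_nonneg h0.le]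
  have hz : y + h • v ∈ closedBall y h := by
    rw [mem_closedBall, dist_eq_norm, add_sub_cancel_left, hn]
  have h1 := (convex_closedBall y h).norm_image_sub_le_of_norm_fderiv_le' hd hε hy hz
  rw [add_sub_cancel_left, hn, map_smul] at h1
  have h2 := norm_sub_le (u (y + h • v) - u y) (u (y + h • v) - u y - h • fderiv ℝ u y v)
  rw [sub_sub_cancel, norm_smul, Real.norm_of_nonneg h0.le] at h2
  have h3 := norm_sub_le (u (y + h • v)) (u y)
  have h4 := hσ _ hz
  have h5 := hσ _ hy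
  rw [add_div' _ _ _ h0.ne', le_div_iff₀ h0]
  linarith

theorem memLp_compact {E : Type} [NormedAddCommGroup E] {f : ℂ → E} {K : Set ℂ}
    (hK : IsCompact K) (h : ∀ x ∈ K, ∃ r, 0 < r ∧ MemLp f 2 (vo (ball x r))) :
    MemLp f 2 (vo K) := by
  refine hK.induction_on (p := fun s => MemLp f 2 (vo s)) (by simp [vo])
    (fun s t hst ht => ht.mono_measure (Measure.restrict_mono hst le_rfl)) (fun s t hs ht => ?_)
    fun x hx => ?_
  · exact (memLp_two_iff_integrable_sq_norm (aestronglyMeasurable_union_iff.2 ⟨hs.1, ht.1⟩)).2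
      (IntegrableOn.union ((memLp_two_iff_integrable_sq_norm hs.1).1 hs)
        ((memLp_two_iff_integrable_sq_norm ht.1).1 ht))
  · obtain ⟨r, hr, hm⟩ := h x hx
    exact ⟨_, mem_nhdsWithin_of_mem_nhds (ball_mem_nhds x hr), hm⟩

/-- A property of test functions that is additive and local holds for all test functions. -/
theorem glue {U : Set ℂ} {Q : (ℂ → ℝ) → Prop} (h0 : Q fun _ => 0)
    (hadd : ∀ a b, ContDiff ℝ 1 a → ContDiff ℝ 1 b → Q a → Q b → Q fun z => a z + b z)
    (hloc : ∀ x ∈ U, ∃ r, 0 < r ∧ ∀ η, ContDiff ℝ 1 η → HasCompactSupport η →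
      tsupport η ⊆ ball x r → Q η)
    {η : ℂ → ℝ} (h1 : ContDiff ℝ 1 η) (h2 : HasCompactSupport η) (h3 : tsupport η ⊆ U) : Q η := by
  have key : ∃ O, IsOpen O ∧ tsupport η ⊆ O ∧ ∀ ζ, ContDiff ℝ 1 ζ → HasCompactSupport ζ →
      tsupport ζ ⊆ O → Q ζ := by
    refine IsCompact.induction_on h2 (p := fun s => ∃ O, IsOpen O ∧ s ⊆ O ∧ ∀ ζ,
      ContDiff ℝ 1 ζ → HasCompactSupport ζ → tsupport ζ ⊆ O → Q ζ)
      ⟨∅, isOpen_empty, Subset.rfl, fun ζ _ _ h => ?_⟩
      (fun s t hst ⟨O, a, b, c⟩ => ⟨O, a, hst.trans b, c⟩)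
      (fun s t ⟨O, a, b, c⟩ ⟨O', a', b', c'⟩ =>
        ⟨O ∪ O', a.union a', union_subset_union b b', fun ζ z1 z2 z3 => ?_⟩) fun x hx => ?_
    · have : ζ = fun _ => 0 := funext fun z => image_eq_zero_of_notMem_tsupport fun hz => h hz
      rwa [this]
    · obtain ⟨χ, x0, x1, -⟩ := exists_contMDiffMap_zero_one_nhds_of_isClosed (n := 1) 𝓘(ℝ, ℂ)
        ((isClosed_tsupport ζ).sdiff a) ((isClosed_tsupport ζ).sdiff a')
        (Set.disjoint_left.2 fun z h h' => (z3 h.1).elim h.2 h'.2)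
      have hχ : ContDiff ℝ 1 χ := χ.contMDiff.contDiff
      have aux : ∀ (ψ : ℂ → ℝ) (V : Set ℂ), (∀ᶠ z in 𝓝ˢ (tsupport ζ \ V), ψ z = 0) →
          tsupport (fun z => ζ z * ψ z) ⊆ V := fun ψ V h z hz => by
        by_contra hV
        have h1 : ∀ᶠ w in 𝓝 z, ψ w = 0 :=
          eventually_nhdsSet_iff_forall.1 h z ⟨tsupport_mul_subset_left hz, hV⟩
        exact notMem_tsupport_iff_eventuallyEq.2 h1 (tsupport_mul_subset_right hz)
      have h := hadd _ _ (z1.mul hχ) (z1.mul (contDiff_const.sub hχ))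
        (c _ (z1.mul hχ) z2.mul_right (aux χ O x0))
        (c' _ (z1.mul ((contDiff_const (c := (1 : ℝ))).sub hχ)) z2.mul_right
          (aux (fun z => 1 - χ z) O' (x1.mono fun z hz => by rw [hz, sub_self])))
      have e : (fun z => ζ z * χ z + ζ z * (1 - χ z)) = ζ := funext fun z => by ring
      rwa [e] at h
    · obtain ⟨r, hr, h⟩ := hloc x (h3 hx)
      exact ⟨_, mem_nhdsWithin_of_mem_nhds (ball_mem_nhds x hr), _, isOpen_ball, Subset.rfl, h⟩
  obtain ⟨O, -, b, c⟩ := key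
  exact c η h1 h2 b

end ShlA

theorem cv : Kit → NdS → CvS := by
  intro k nd n s F G s0 s1 hF hG hc K hK hne
  obtain ⟨δ, β, C, hδ, hβ, hC, h⟩ := nd s s0 s1
  refine (tendstoLocallyUniformlyOn_iff_tendstoUniformlyOn_of_compact hK).1
    (Metric.tendstoLocallyUniformlyOn_iff.2 fun ε hε x hx => ?_)
  have ha : 0 < ‖G x‖ := norm_pos_iff.2 (hne x hx)
  set B := δ * ‖G x‖ / (8 + 4 * δ) with hB
  have hB0 : 0 < B := by positivity
  have hGc : Continuous G := continuousOn_univ.1 hG.1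
  obtain ⟨r, hr, hrG⟩ := Metric.continuousAt_iff.1 (hGc.continuousAt (x := x)) B hB0
  have loc : ∀ H : ℂ → Cn n, Sol s univ H → (∀ z ∈ ball x r, ‖H z - G x‖ ≤ 2 * B) →
      (∀ y ∈ ball x (r / 64), DifferentiableAt ℝ H y) ∧
      ∀ y ∈ ball x (r / 64), ∀ y' ∈ ball x (r / 64),
        ‖fderiv ℝ H y - fderiv ℝ H y'‖ ≤ C * (4 * B) / r * (‖y - y'‖ / r) ^ β := by
    intro H hH hb
    obtain ⟨m1, m2, m3⟩ := (k.osc (Cn n)).sup H x r (G x) (2 * B) hr
      (continuousOn_univ.1 hH.1).aestronglyMeasurable hb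
    have m4 : ‖G x‖ ≤ ‖av H x r‖ + 2 * B := by
      have := norm_sub_norm_le (G x) (av H x r)
      rw [norm_sub_rev] at this
      linarith
    have m5 : B * (8 + 4 * δ) = δ * ‖G x‖ := div_mul_cancel₀ _ (by positivity)
    obtain ⟨-, n2, n3⟩ := h n H x r hr (hH.mono (subset_univ _)) m1 (by
      nlinarith [mul_le_mul_of_nonneg_left m4 hδ.le, mul_pos hδ hB0])
    refine ⟨fun y hy => (n2.contDiffAt (isOpen_ball.mem_nhds hy)).differentiableAt one_ne_zero,
      fun y hy y' hy' => (n3 y hy y' hy').trans ?_⟩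
    gcongr
    linarith
  have hlim : Tendsto (fun t : ℝ => 2 * (C * (4 * B) / r * (t / r) ^ β)) (𝓝[>] 0) (𝓝 0) :=
    tendsto_nhdsWithin_of_tendsto_nhds (Continuous.tendsto' (continuous_const.mul
      (continuous_const.mul ((Real.continuous_rpow_const hβ.le).comp (continuous_id.div_const r))))
      _ _ (by simp [Real.zero_rpow hβ.ne']))
  obtain ⟨t, ht1, ht0, ht2⟩ := ((hlim.eventually (gt_mem_nhds (half_pos hε))).and
    (Ioo_mem_nhdsGT (show 0 < r / 128 by positivity))).exists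
  refine ⟨ball x (r / 128), mem_nhdsWithin_of_mem_nhds (ball_mem_nhds x (by positivity)), ?_⟩
  have hsub : ball x r ⊆ ball 0 (r + ‖x‖) := ball_subset_ball' (by simp)
  obtain ⟨g1, g2⟩ := loc G hG fun z hz => by
    have := hrG hz
    rw [dist_eq_norm] at this
    linarith
  filter_upwards [Metric.tendstoUniformlyOn_iff.1 (hc (r + ‖x‖)) (min B (ε * t / 8))
    (lt_min hB0 (by positivity))] with j hj y hy
  have hj' : ∀ z ∈ ball x r, ‖G z - F j z‖ < min B (ε * t / 8) := fun z hz => by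
    simpa only [dist_eq_norm] using hj z (hsub hz)
  obtain ⟨f1, f2⟩ := loc (F j) (hF j) fun z hz => by
    have a1 := hrG hz
    have a2 := (hj' z hz).trans_le (min_le_left _ _)
    have a3 := norm_sub_le_norm_sub_add_norm_sub (F j z) (G z) (G x)
    rw [dist_eq_norm] at a1
    rw [norm_sub_rev] at a2
    linarith
  have hb : closedBall y t ⊆ ball x (r / 64) :=
    closedBall_subset_ball' (by have := mem_ball.1 hy; linarith)
  have hy' := hb (mem_closedBall_self ht0.le)
  have hd : ∀ z ∈ ball x (r / 64), fderiv ℝ (fun z => G z - F j z) z =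
      fderiv ℝ G z - fderiv ℝ (F j) z := fun z hz => fderiv_fun_sub (g1 z hz) (f1 z hz)
  have key := ShlA.interp (u := fun z => G z - F j z) (σ := ε * t / 8)
    (ε := 2 * (C * (4 * B) / r * (t / r) ^ β)) ht0
    (fun z hz => (g1 z (hb hz)).sub (f1 z (hb hz)))
    (fun z hz => by
      have a0 : C * (4 * B) / r * (‖z - y‖ / r) ^ β ≤ C * (4 * B) / r * (t / r) ^ β := by
        have : ‖z - y‖ ≤ t := mem_closedBall_iff_norm.1 hz
        gcongr
      have a1 := g2 z (hb hz) y hy'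
      have a2 := f2 z (hb hz) y hy'
      rw [hd z (hb hz), hd y hy', sub_sub_sub_comm]
      exact (norm_sub_le _ _).trans (by linarith))
    fun z hz => ((hj' z (ball_subset_ball (by linarith) (hb hz))).trans_le (min_le_right _ _)).le
  rw [hd y hy', show 2 * (ε * t / 8) / t = ε / 4 by field_simp; ring] at key
  rw [dist_eq_norm]
  linarith

theorem shl : Kit → HolS → RegS → CptS → CvS → ShlS := by
  intro k hol reg cpt cv n s s0 s1
  have small : ∀ {U : Set ℂ}, IsOpen U → ∀ x ∈ U, ∃ r, 0 < r ∧ closedBall x r ⊆ U :=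
    fun hU x hx => nhds_basis_closedBall.mem_iff.1 (hU.mem_nhds hx)
  refine ⟨fun U F hU hF => (reg n s U F s0 s1 hU hF).c1, fun U F hU hF => ?_, ?_,
    fun F hF hb => ?_, fun U U' F x r c hr hc hU hF => ?_⟩
  · have R := reg n s U F s0 s1 hU hF
    refine ⟨fun K hKU hK => ShlA.memLp_compact hK fun x hx => ?_, fun al η hal h1 h2 h3 => ?_⟩
    · obtain ⟨r, hr, h⟩ := small hU x (hKU hx)
      exact ⟨r, hr, (R.sb x r h).memLp.2⟩
    · refine ShlA.glue (Q := fun η => Integrable (fun z => η z * dl al (F z) (Dz F z)) ∧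
        Integrable (fun z => fderiv ℝ η z 1 * al (F z) (Dz F z I) -
          fderiv ℝ η z I * al (F z) (Dz F z 1)) ∧
        ∫ z, η z * dl al (F z) (Dz F z) = -∫ z, (fderiv ℝ η z 1 * al (F z) (Dz F z I) -
          fderiv ℝ η z I * al (F z) (Dz F z 1))) (by simp)
        ?_ ?_ h1 h2 h3
      · rintro a b ha hb ⟨a1, a2, a3⟩ ⟨b1, b2, b3⟩
        have e : ∀ z, fderiv ℝ (fun z => a z + b z) z 1 * al (F z) (Dz F z I) -
            fderiv ℝ (fun z => a z + b z) z I * al (F z) (Dz F z 1) =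
            (fderiv ℝ a z 1 * al (F z) (Dz F z I) - fderiv ℝ a z I * al (F z) (Dz F z 1)) +
            (fderiv ℝ b z 1 * al (F z) (Dz F z I) - fderiv ℝ b z I * al (F z) (Dz F z 1)) :=
          fun z => by
            rw [fderiv_fun_add (ha.differentiable one_ne_zero z) (hb.differentiable one_ne_zero z),
              add_apply, add_apply]
            ring
        simp only [e, add_mul]
        refine ⟨a1.add b1, a2.add b2, ?_⟩
        rw [integral_add a1 b1, integral_add a2 b2, a3, b3, neg_add]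
      · intro x hx
        obtain ⟨r, hr, h⟩ := small hU x hx
        exact ⟨r, hr, fun η e1 e2 e3 => k.sto (Cn n) _ F _ isOpen_ball isBounded_ball (R.sb x r h)
          al η hal e1 e2 e3 (Or.inr (R.c0.mono (ball_subset_closedBall.trans h)))⟩
  · obtain ⟨α, C, a0, a1, hC, h⟩ := hol s s0 s1
    refine ⟨α, 2 * C + 8, a0, by positivity, fun F x r M hr hF hM y hy => ?_⟩
    have r2 : 0 < 2 * r := by positivity
    have M0 : 0 ≤ M := (norm_nonneg _).trans (hM x (mem_ball_self r2))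
    have p0 : 0 ≤ (‖y - x‖ / r) ^ α := by positivity
    obtain ⟨m1, -, m3⟩ := (k.osc (Cn n)).sup F x (2 * r) 0 M r2
      (hF.1.aestronglyMeasurable measurableSet_ball) (by simpa using hM)
    by_cases hq : y ∈ ball x (2 * r / 8)
    · have b := ((h n F x (2 * r) r2 hF.2 m1).2 hF.1).1 y hq x (mem_ball_self (by positivity))
      have b2 : C * osc F x (2 * r) * (‖y - x‖ / (2 * r)) ^ α ≤
          C * (2 * M) * (‖y - x‖ / r) ^ α := by
        gcongr
        linarith
      nlinarith [mul_nonneg M0 p0]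
    · have b1 : (1 / 4 : ℝ) ≤ ‖y - x‖ / r := by
        rw [mem_ball_iff_norm, not_lt] at hq
        rw [le_div_iff₀ hr]
        linarith
      have b2 : (1 / 4 : ℝ) ≤ (‖y - x‖ / r) ^ α :=
        ((Real.rpow_one _).symm.trans_le (Real.rpow_le_rpow_of_exponent_ge (by norm_num)
          (by norm_num) a1)).trans (Real.rpow_le_rpow (by norm_num) b1 a0.le)
      have b3 := norm_sub_le (F y) (F x)
      have b4 := hM y (ball_subset_ball (by linarith) hy)
      have b5 := hM x (mem_ball_self r2)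
      nlinarith [mul_nonneg hC (mul_nonneg M0 p0), mul_le_mul_of_nonneg_left b2 M0]
  · obtain ⟨φ, G, hφ, hG, h⟩ := cpt n s F (fun j => j) s0 s1 tendsto_natCast_atTop_atTop
      (fun j => (hF j).mono (subset_univ _))
      fun r => (hb r).imp fun M hM => Eventually.of_forall hM
    refine ⟨φ, G, hφ, hG, Metric.tendstoLocallyUniformly_iff.2 fun ε hε x => ?_,
      cv n s _ G s0 s1 (fun j => hF (φ j)) hG h⟩
    exact ⟨ball 0 (‖x‖ + 1), isOpen_ball.mem_nhds (by simp),
      Metric.tendstoUniformlyOn_iff.1 (h _) ε hε⟩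
  · exact ⟨(hF.1.comp (by fun_prop) hU).const_smul c, (k.sca n s U F hF.2).1 U' x r c hr hc hU⟩

end Pool.Agent.MP_815c6c_an.Q

end MrgPart3

-- ======== part 4: formerly Pool.Agent.MP_815c6c_an.Q.Sob
section MrgPart4

/-! Planar p-harmonic maps: closure, chain rule and affine maps in the Sobolev class. -/

set_option autoImplicit false

namespace Pool.Agent.MP_815c6c_an.Q

open Set Metric MeasureTheory Filter Topology Complex
open scoped ContDiff ENNReal ComplexConjugate
open P (vo ml norm_ml)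
open P.Kit (dct dom mem_lim tri fin map_le)

namespace SobA

variable {E : Type} [NormedAddCommGroup E] [NormedSpace ℝ E] {E' : Type} [NormedAddCommGroup E']
  [NormedSpace ℝ E'] {U U' : Set ℂ} {u u' u0 : ℂ → E} {D D' D0 : ℂ → L E}

theorem cf {v : E → E'} (hv : ContDiff ℝ ∞ v) : Continuous (fderiv ℝ v) :=
  hv.continuous_fderiv (by simp)

theorem df {v : E → E'} (hv : ContDiff ℝ ∞ v) (z : E) : HasFDerivAt v (fderiv ℝ v z) z :=
  (hv.differentiable (by simp) z).hasFDerivAt

theorem apx (h : Sb U u D) {ε : ℝ≥0∞} (hε : 0 < ε) : ∃ w : ℂ → E, ContDiff ℝ ∞ w ∧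
    eLpNorm (w - u) 2 (vo U) ≤ ε ∧ eLpNorm (fderiv ℝ w - D) 2 (vo U) ≤ ε := by
  obtain ⟨v, hv, g, hg, h⟩ := h
  have h1 := dct (fun n => (hv n).continuous.aestronglyMeasurable) hg
    (h.mono fun z a n => (a.1 n).1) (h.mono fun z a => a.2.1)
  have h2 := dct (fun n => (cf (hv n)).aestronglyMeasurable) hg
    (h.mono fun z a n => (a.1 n).2) (h.mono fun z a => a.2.2)
  obtain ⟨n, a, b⟩ :=
    ((h1.eventually (Iic_mem_nhds hε)).and (h2.eventually (Iic_mem_nhds hε))).exists
  exact ⟨v n, hv n, a, b⟩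

theorem of_apx (hu : MemLp u 2 (vo U)) (hD : MemLp D 2 (vo U))
    (h : ∀ ε : ℝ≥0∞, 0 < ε → ∃ w : ℂ → E, ContDiff ℝ ∞ w ∧
      eLpNorm (w - u) 2 (vo U) ≤ ε ∧ eLpNorm (fderiv ℝ w - D) 2 (vo U) ≤ ε) : Sb U u D := by
  choose w hw h1 h2 using fun n : ℕ => h (2⁻¹ ^ n) (ENNReal.pow_pos (by simp) n)
  obtain ⟨g1, m1, a1⟩ := dom (fun n => (hw n).continuous.aestronglyMeasurable.sub hu.1) h1
  obtain ⟨g2, m2, a2⟩ := dom (fun n => (cf (hw n)).aestronglyMeasurable.sub hD.1) h2
  refine ⟨w, hw, fun z => g1 z + ‖u z‖ + (g2 z + ‖D z‖), (m1.add hu.norm).add (m2.add hD.norm), ?_⟩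
  filter_upwards [a1, a2] with z b1 b2
  refine ⟨fun n => ?_, tendsto_sub_nhds_zero_iff.1 b1.2, tendsto_sub_nhds_zero_iff.1 b2.2⟩
  have c1 : ‖w n z - u z‖ ≤ g1 z := b1.1 n
  have c2 : ‖fderiv ℝ (w n) z - D z‖ ≤ g2 z := b2.1 n
  have d1 := norm_sub_norm_le (w n z) (u z)
  have d2 := norm_sub_norm_le (fderiv ℝ (w n) z) (D z)
  constructor <;> linarith [norm_nonneg (w n z - u z), norm_nonneg (fderiv ℝ (w n) z - D z),
    norm_nonneg (u z), norm_nonneg (D z)]

theorem clo {u : ℕ → ℂ → E} {D : ℕ → ℂ → L E} (h : ∀ n, Sb U (u n) (D n))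
    (hu : AEStronglyMeasurable u0 (vo U)) (hD : AEStronglyMeasurable D0 (vo U))
    (h1 : Tendsto (fun n => eLpNorm (u n - u0) 2 (vo U)) atTop (𝓝 0))
    (h2 : Tendsto (fun n => eLpNorm (D n - D0) 2 (vo U)) atTop (𝓝 0)) : Sb U u0 D0 := by
  refine of_apx (mem_lim (fun n => (h n).memLp.1) hu h1) (mem_lim (fun n => (h n).memLp.2) hD h2)
    fun ε hε => ?_
  have hε' : 0 < ε / 2 := ENNReal.half_pos hε.ne'
  obtain ⟨n, a, b⟩ :=
    ((h1.eventually (Iic_mem_nhds hε')).and (h2.eventually (Iic_mem_nhds hε'))).exists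
  obtain ⟨w, hw, c, d⟩ := apx (h n) hε'
  exact ⟨w, hw, tri hw.continuous.aestronglyMeasurable (h n).memLp.1.1 hu c a,
    tri (cf hw).aestronglyMeasurable (h n).memLp.2.1 hD d b⟩

theorem cloD {u : ℕ → ℂ → E} {D : ℕ → ℂ → L E} (h : ∀ n, Sb U (u n) (D n))
    (hd : Dom U u D u0 D0) : Sb U u0 D0 := by
  obtain ⟨g, hg, hd⟩ := hd
  exact clo h
    (aestronglyMeasurable_of_tendsto_ae atTop (fun n => (h n).memLp.1.1) (hd.mono fun z a => a.2.1))
    (aestronglyMeasurable_of_tendsto_ae atTop (fun n => (h n).memLp.2.1) (hd.mono fun z a => a.2.2))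
    (dct (fun n => (h n).memLp.1.1) hg (hd.mono fun z a n => (a.1 n).1) (hd.mono fun z a => a.2.1))
    (dct (fun n => (h n).memLp.2.1) hg (hd.mono fun z a n => (a.1 n).2) (hd.mono fun z a => a.2.2))

theorem near (hU : Bornology.IsBounded U) :
    ∃ R : ℝ, ∀ᵐ z ∂vo U, z ∈ closedBall (0 : ℂ) R := by
  obtain ⟨R, hR⟩ := hU.subset_closedBall 0
  exact ⟨R, ae_mono (Measure.restrict_mono hR le_rfl) (ae_restrict_mem measurableSet_closedBall)⟩

theorem sm (hU : Bornology.IsBounded U) (h : ContDiff ℝ ∞ u) : Sb U u (fderiv ℝ u) := by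
  have := fin hU
  obtain ⟨R, hz⟩ := near hU
  obtain ⟨A, hA⟩ := (isCompact_closedBall (0 : ℂ) R).exists_bound_of_continuousOn
    h.continuous.continuousOn
  obtain ⟨B, hB⟩ := (isCompact_closedBall (0 : ℂ) R).exists_bound_of_continuousOn
    (cf h).continuousOn
  refine ⟨fun _ => u, fun _ => h, fun _ => max A B, memLp_const _, ?_⟩
  filter_upwards [hz] with z r
  exact ⟨fun _ => ⟨(hA z r).trans (le_max_left ..), (hB z r).trans (le_max_right ..)⟩,
    tendsto_const_nhds, tendsto_const_nhds⟩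

theorem grow {Φ : E → E'} {b : ℝ} (hΦ : ContDiff ℝ ∞ Φ) (hb : ∀ w, ‖fderiv ℝ Φ w‖ ≤ b) (w : E) :
    ‖Φ w‖ ≤ ‖Φ 0‖ + b * ‖w‖ := by
  have := convex_univ.norm_image_sub_le_of_norm_fderiv_le (𝕜 := ℝ) (f := Φ) (C := b)
    (fun x _ => (df hΦ x).differentiableAt) (fun x _ => hb x) (mem_univ 0) (mem_univ w)
  rw [sub_zero] at this
  linarith [norm_sub_norm_le (Φ w) (Φ 0)]

theorem chain {Φ : E → E'} {b : ℝ} (hU : Bornology.IsBounded U) (h : Sb U u D)
    (hΦ : ContDiff ℝ ∞ Φ) (hb : ∀ w, ‖fderiv ℝ Φ w‖ ≤ b) :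
    Sb U (fun z => Φ (u z)) fun z => (fderiv ℝ Φ (u z)).comp (D z) := by
  obtain ⟨v, hv, g, hg, h⟩ := h
  have := fin hU
  have b0 : 0 ≤ b := (norm_nonneg _).trans (hb 0)
  have e : ∀ n z, fderiv ℝ (fun z => Φ (v n z)) z = (fderiv ℝ Φ (v n z)).comp (fderiv ℝ (v n) z) :=
    fun n z => by
      have := ((df hΦ (v n z)).comp z (df (hv n) z)).fderiv
      exact this
  have k : ∀ n, ContDiff ℝ ∞ fun z => Φ (v n z) := fun n => by
    have := hΦ.comp (hv n)
    exact this
  have m : MemLp (fun z => ‖Φ 0‖ + b * g z) 2 (vo U) :=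
    MemLp.add (f := fun _ => ‖Φ 0‖) (g := fun z => b * g z) (memLp_const _) (hg.const_mul b)
  refine ⟨fun n z => Φ (v n z), k, fun z => ‖Φ 0‖ + b * g z, m, ?_⟩
  filter_upwards [h] with z a
  simp only [e]
  refine ⟨fun n => ⟨?_, ?_⟩, (hΦ.continuous.tendsto _).comp a.2.1, ?_⟩
  · have := mul_le_mul_of_nonneg_left (a.1 n).1 b0
    linarith [grow hΦ hb (v n z)]
  · have := mul_le_mul (hb (v n z)) (a.1 n).2 (norm_nonneg _) b0
    linarith [(fderiv ℝ Φ (v n z)).opNorm_comp_le (fderiv ℝ (v n) z), norm_nonneg (Φ 0)]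
  · have c : Tendsto (fun n => fderiv ℝ Φ (v n z)) atTop (𝓝 (fderiv ℝ Φ (u z))) :=
      ((cf hΦ).tendsto _).comp a.2.1
    have d : Continuous fun p : (E →L[ℝ] E') × L E => p.1.comp p.2 :=
      continuous_fst.clm_comp continuous_snd
    exact (d.tendsto (_, _)).comp (c.prodMk_nhds a.2.2)

theorem lin (t t' : ℝ) (B : L E) (c : E) (hU : Bornology.IsBounded U) (h : Sb U u D)
    (h' : Sb U u' D') :
    Sb U (fun z => t • u z + t' • u' z + B z + c) fun z => t • D z + t' • D' z + B := by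
  obtain ⟨v, hv, g, hg, h⟩ := h
  obtain ⟨v', hv', g', hg', h'⟩ := h'
  have := fin hU
  obtain ⟨R, hz⟩ := near hU
  have e : ∀ n z, fderiv ℝ (fun z => t • v n z + t' • v' n z + B z + c) z =
      t • fderiv ℝ (v n) z + t' • fderiv ℝ (v' n) z + B := fun n z =>
    (((((df (hv n) z).const_smul t).add ((df (hv' n) z).const_smul t')).add
      B.hasFDerivAt).add_const c).fderiv
  refine ⟨fun n z => t • v n z + t' • v' n z + B z + c,
    fun n => ((((hv n).const_smul t).add ((hv' n).const_smul t')).add B.contDiff).add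
      contDiff_const, fun z => ‖t‖ * g z + ‖t'‖ * g' z + (‖B‖ * R + ‖c‖ + ‖B‖),
    ((hg.const_mul _).add (hg'.const_mul _)).add (memLp_const _), ?_⟩
  filter_upwards [h, h', hz] with z a a' r
  rw [mem_closedBall_zero_iff] at r
  simp only [e]
  have r1 : ‖B z‖ ≤ ‖B‖ * R := B.le_opNorm_of_le r
  refine ⟨fun n => ⟨?_, ?_⟩, ?_, ?_⟩
  · have := (norm_smul_le t (v n z)).trans
      (mul_le_mul_of_nonneg_left (a.1 n).1 (norm_nonneg t))
    have := (norm_smul_le t' (v' n z)).trans
      (mul_le_mul_of_nonneg_left (a'.1 n).1 (norm_nonneg t'))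
    have := norm_add_le (t • v n z + t' • v' n z + B z) c
    have := norm_add₃_le (a := t • v n z) (b := t' • v' n z) (c := B z)
    linarith [norm_nonneg B]
  · have := (norm_smul_le t (fderiv ℝ (v n) z)).trans
      (mul_le_mul_of_nonneg_left (a.1 n).2 (norm_nonneg t))
    have := (norm_smul_le t' (fderiv ℝ (v' n) z)).trans
      (mul_le_mul_of_nonneg_left (a'.1 n).2 (norm_nonneg t'))
    have := norm_add₃_le (a := t • fderiv ℝ (v n) z) (b := t' • fderiv ℝ (v' n) z) (c := B)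
    linarith [norm_nonneg c, norm_nonneg (B z)]
  · exact (((a.2.1.const_smul t).add (a'.2.1.const_smul t')).add_const _).add_const _
  · exact ((a.2.2.const_smul t).add (a'.2.2.const_smul t')).add_const _

theorem aff {a b : ℂ} (hb : b ≠ 0) (hU : ∀ z ∈ U', a + b * z ∈ U) (h : Sb U u D) :
    Sb U' (fun z => u (a + b * z)) fun z => (D (a + b * z)).comp (ml b) := by
  obtain ⟨v, hv, g, hg, h⟩ := h
  obtain ⟨c, hc, hm⟩ := map_le hb hU
  have s : ContDiff ℝ ∞ fun z : ℂ => a + b * z := contDiff_const.add (ml b).contDiff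
  have e : ∀ n z, fderiv ℝ (fun z => v n (a + b * z)) z =
      (fderiv ℝ (v n) (a + b * z)).comp (ml b) := fun n z =>
    ((df (hv n) _).comp z ((ml b).hasFDerivAt.const_add a)).fderiv
  have m := s.continuous.measurable.aemeasurable (μ := vo U')
  refine ⟨fun n z => v n (a + b * z), fun n => (hv n).comp s, fun z => (1 + ‖b‖) * g (a + b * z),
    ((hg.of_measure_le_smul hc hm).comp_of_map m).const_mul _, ?_⟩
  filter_upwards [ae_of_ae_map m ((Measure.absolutelyContinuous_of_le_smul hm).ae_le h)] with z k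
  simp only [e]
  have g0 : 0 ≤ g (a + b * z) := (norm_nonneg _).trans (k.1 0).1
  have d : Continuous fun p : L E => p.comp (ml b) := continuous_id.clm_comp continuous_const
  refine ⟨fun n => ⟨?_, ?_⟩, k.2.1, (d.tendsto _).comp k.2.2⟩
  · nlinarith [(k.1 n).1, norm_nonneg b]
  · refine (ContinuousLinearMap.opNorm_comp_le _ _).trans ?_
    rw [norm_ml]
    nlinarith [(k.1 n).2, norm_nonneg b]

end SobA

theorem sob : SobS := fun _ _ _ =>
  ⟨fun _ _ _ _ _ => SobA.clo, fun _ _ _ _ _ => SobA.cloD, fun _ _ hU _ => SobA.sm hU,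
    fun _ _ _ _ _ t t' B c hU _ => SobA.lin t t' B c hU, fun _ _ _ _ _ _ hb _ => SobA.aff hb,
    fun _ _ _ _ _ _ _ _ => SobA.chain⟩

end Pool.Agent.MP_815c6c_an.Q

end MrgPart4

-- ======== part 5: formerly Pool.Agent.MP_815c6c_an.Q.Sto
section MrgPart5

/-! Planar p-harmonic maps: the Stokes formula. -/

set_option autoImplicit false

namespace Pool.Agent.MP_815c6c_an.Q

open Set Metric MeasureTheory Filter Topology Complex Bornology
open scoped ContDiff ENNReal
open P (vo Ts Cu)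

namespace StoA

theorem lim {U : Set ℂ} {a : ℂ → ℝ} (ha : Continuous a) (hc : HasCompactSupport a)
    (hs : Function.support a ⊆ U) {w : ℕ → ℂ → ℝ} {w0 G : ℂ → ℝ} (hG : Integrable G (vo U))
    (hm : ∀ n, Continuous (w n))
    (h : ∀ᵐ z ∂vo U, (∀ n, ‖w n z‖ ≤ G z) ∧ Tendsto (fun n => w n z) atTop (𝓝 (w0 z))) :
    Integrable (fun z => a z * w0 z) ∧
      Tendsto (fun n => ∫ z, a z * w n z) atTop (𝓝 (∫ z, a z * w0 z)) := by
  obtain ⟨C, hC⟩ := hc.exists_bound_of_continuous ha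
  have hC0 : 0 ≤ C := (norm_nonneg _).trans (hC 0)
  have hgi : Integrable (fun z => C * G z) (vo U) := hG.const_mul C
  have e : ∀ f : ℂ → ℝ, ∫ z in U, a z * f z = ∫ z, a z * f z := fun f =>
    setIntegral_eq_integral_of_forall_compl_eq_zero fun z hz => by
      rw [Function.notMem_support.1 fun h => hz (hs h), zero_mul]
  have m0 : AEStronglyMeasurable w0 (vo U) := aestronglyMeasurable_of_tendsto_ae atTop
    (fun n => (hm n).aestronglyMeasurable) (h.mono fun z a => a.2)
  refine ⟨(integrableOn_iff_integrable_of_support_subset (s := U) fun z hz =>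
    hs fun h0 => hz (by simp only [h0, zero_mul])).1 ?_, ?_⟩
  · refine hgi.mono' (ha.aestronglyMeasurable.mul m0) (h.mono fun z hz => ?_)
    rw [norm_mul]
    exact mul_le_mul (hC z) (le_of_tendsto' hz.2.norm hz.1) (norm_nonneg _) hC0
  · simp only [← e]
    refine tendsto_integral_of_dominated_convergence (fun z => C * G z)
      (fun n => (ha.mul (hm n)).aestronglyMeasurable) hgi (fun n => h.mono fun z hz => ?_)
      (h.mono fun z hz => hz.2.const_mul _)
    rw [norm_mul]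
    exact mul_le_mul (hC z) (hz.1 n) (norm_nonneg _) hC0

variable {E : Type} [NormedAddCommGroup E] [NormedSpace ℝ E] {al : E → E →L[ℝ] ℝ} {η : ℂ → ℝ}
  {v : ℂ → E}

theorem c1 (ha : ContDiff ℝ 1 al) (hv : ContDiff ℝ ∞ v) (e : ℂ) :
    ContDiff ℝ 1 fun z => al (v z) (fderiv ℝ v z e) :=
  (ha.comp (hv.of_le (by simp))).clm_apply
    ((hv.fderiv_right (m := 1) (by norm_cast)).clm_apply contDiff_const)

theorem der (ha : ContDiff ℝ 1 al) (hv : ContDiff ℝ ∞ v) (e e' z : ℂ) :
    fderiv ℝ (fun z => al (v z) (fderiv ℝ v z e)) z e' =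
      fderiv ℝ al (v z) (fderiv ℝ v z e') (fderiv ℝ v z e) +
        al (v z) (fderiv ℝ (fderiv ℝ v) z e' e) := by
  have h1 := ((ha.differentiable one_ne_zero (v z)).hasFDerivAt.comp z
    (hv.differentiable (by simp) z).hasFDerivAt)
  have h2 := (((hv.fderiv_right (m := 1) (by norm_cast)).differentiable
    one_ne_zero z).hasFDerivAt.clm_apply (hasFDerivAt_const e z))
  have := (h1.clm_apply h2).fderiv
  simp only [Function.comp_def] at this
  rw [this]
  simp [add_comm]

theorem smooth (ha : ContDiff ℝ 1 al) (hv : ContDiff ℝ ∞ v) (h1 : ContDiff ℝ 1 η)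
    (hc : HasCompactSupport η) : ∫ z, η z * dl al (v z) (fderiv ℝ v z) =
      -((∫ z, fderiv ℝ η z 1 * al (v z) (fderiv ℝ v z I)) -
        ∫ z, fderiv ℝ η z I * al (v z) (fderiv ℝ v z 1)) := by
  have i1 : ∀ e e' : ℂ, Integrable fun z =>
      η z * fderiv ℝ (fun z => al (v z) (fderiv ℝ v z e)) z e' := fun e e' =>
    (h1.continuous.mul (((c1 ha hv e).continuous_fderiv one_ne_zero).clm_apply
      continuous_const)).integrable_of_hasCompactSupport hc.mul_right
  have k : ∀ e e' : ℂ, ∫ z, η z * fderiv ℝ (fun z => al (v z) (fderiv ℝ v z e)) z e' =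
      -∫ z, fderiv ℝ η z e' * al (v z) (fderiv ℝ v z e) := fun e e' =>
    integral_mul_fderiv_eq_neg_fderiv_mul_of_integrable
      ((((h1.continuous_fderiv one_ne_zero).clm_apply continuous_const).mul
        (c1 ha hv e).continuous).integrable_of_hasCompactSupport (hc.fderiv_apply ℝ e').mul_right)
      (i1 e e')
      ((h1.continuous.mul (c1 ha hv e).continuous).integrable_of_hasCompactSupport hc.mul_right)
      (fun x _ => h1.differentiable one_ne_zero x)
      (fun x _ => (c1 ha hv e).differentiable one_ne_zero x)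
  have := integral_sub (i1 I 1) (i1 1 I)
  rw [k, k] at this
  rw [← neg_sub_neg, neg_sub, ← this]
  refine integral_congr_ae (.of_forall fun z => ?_)
  have s : fderiv ℝ (fderiv ℝ v) z 1 I = fderiv ℝ (fderiv ℝ v) z I 1 :=
    (hv.contDiffAt (x := z)).isSymmSndFDerivAt (by simp; norm_cast) 1 I
  simp only [der ha hv, dl, s]
  ring

theorem bd {U : Set ℂ} {u : ℂ → E} {D : ℂ → L E} (hb : IsBounded U) (h : Sb U u D)
    (ha : ContDiff ℝ 1 al) (h1 : ContDiff ℝ 1 η) (hc : HasCompactSupport η) (hs : tsupport η ⊆ U)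
    {b : ℝ} (hB : ∀ w, ‖fderiv ℝ al w‖ ≤ b) :
    Integrable (fun z => η z * dl al (u z) (D z)) ∧
    Integrable (fun z => fderiv ℝ η z 1 * al (u z) (D z I) - fderiv ℝ η z I * al (u z) (D z 1)) ∧
    ∫ z, η z * dl al (u z) (D z) =
      -∫ z, (fderiv ℝ η z 1 * al (u z) (D z I) - fderiv ℝ η z I * al (u z) (D z 1)) := by
  obtain ⟨v, hv, g, hg, h⟩ := h
  have : IsFiniteMeasure (vo U) := isFiniteMeasure_restrict.2 hb.measure_lt_top.ne
  have b0 : 0 ≤ b := (ContinuousLinearMap.opNorm_nonneg _).trans (hB 0)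
  have g2 : Integrable (fun z => g z * g z) (vo U) := hg.integrable_mul hg
  have ca := ha.continuous_fderiv one_ne_zero
  have lip : ∀ w, ‖al w‖ ≤ ‖al 0‖ + b * ‖w‖ := fun w => by
    have := convex_univ.norm_image_sub_le_of_norm_fderiv_le (𝕜 := ℝ) (f := al)
      (fun x _ => ha.differentiable one_ne_zero x) (fun x _ => hB x) (mem_univ 0) (mem_univ w)
    rw [sub_zero] at this
    linarith [norm_sub_norm_le (al w) (al 0)]
  have A : ∀ e e' : ℂ, (∀ N : L E, ‖N e‖ ≤ ‖N‖) →
      Integrable (fun z => fderiv ℝ η z e' * al (u z) (D z e)) ∧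
      Tendsto (fun n => ∫ z, fderiv ℝ η z e' * al (v n z) (fderiv ℝ (v n) z e)) atTop
        (𝓝 (∫ z, fderiv ℝ η z e' * al (u z) (D z e))) := fun e e' he =>
    lim (G := fun z => ‖al 0‖ * g z + b * (g z * g z))
      ((h1.continuous_fderiv one_ne_zero).clm_apply continuous_const) (hc.fderiv_apply ℝ e')
      (fun z hz => hs (support_fderiv_subset ℝ fun h0 => hz (by simp only [h0, zero_apply])))
      (((hg.integrable one_le_two).const_mul _).add (g2.const_mul b))
      (fun n => (c1 ha (hv n) e).continuous) (h.mono fun z a => ⟨fun n => by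
        have g0 : 0 ≤ g z := (norm_nonneg _).trans (a.1 n).1
        refine ((al _).le_opNorm _).trans ((mul_le_mul ((lip _).trans (add_le_add le_rfl
          (mul_le_mul_of_nonneg_left (a.1 n).1 b0))) ((he _).trans (a.1 n).2) (norm_nonneg _)
          (by positivity)).trans_eq (by ring)),
        (show Continuous fun x : E × L E => al x.1 (x.2 e) from
          (ha.continuous.comp continuous_fst).clm_apply
            (continuous_snd.clm_apply continuous_const)).continuousAt.tendsto.comp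
          (a.2.1.prodMk_nhds a.2.2)⟩)
  have cd : Continuous fun x : E × L E => dl al x.1 x.2 :=
    have k : ∀ e e' : ℂ, Continuous fun x : E × L E => fderiv ℝ al x.1 (x.2 e) (x.2 e') :=
      fun e e' => ((ca.comp continuous_fst).clm_apply
        (continuous_snd.clm_apply continuous_const)).clm_apply
        (continuous_snd.clm_apply continuous_const)
    (k 1 I).sub (k I 1)
  have B := lim (w := fun n z => dl al (v n z) (fderiv ℝ (v n) z)) (w0 := fun z => dl al (u z) (D z))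
    (G := fun z => 2 * b * (g z * g z)) h1.continuous hc ((subset_tsupport η).trans hs)
    (g2.const_mul _)
    (fun n => cd.comp ((hv n).continuous.prodMk ((hv n).continuous_fderiv (by simp))))
    (h.mono fun z a => ⟨fun n => by
      have g0 : 0 ≤ g z := (norm_nonneg _).trans (a.1 n).1
      have k : ∀ x y : E, ‖x‖ ≤ g z → ‖y‖ ≤ g z → ‖fderiv ℝ al (v n z) x y‖ ≤ b * g z * g z :=
        fun x y hx hy => ((fderiv ℝ al (v n z)).le_opNorm₂ x y).trans (by gcongr; exact hB _)
      have k1 := (L_norm _).1.trans (a.1 n).2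
      have k2 := (L_norm _).2.1.trans (a.1 n).2
      exact (norm_sub_le _ _).trans ((add_le_add (k _ _ k1 k2) (k _ _ k2 k1)).trans_eq (by ring)),
      cd.continuousAt.tendsto.comp (a.2.1.prodMk_nhds a.2.2)⟩)
  have A1 := A I 1 fun N => (L_norm N).2.1
  have A2 := A 1 I fun N => (L_norm N).1
  refine ⟨B.1, A1.1.sub A2.1, ?_⟩
  rw [integral_sub A1.1 A2.1]
  exact tendsto_nhds_unique B.2 ((A1.2.sub A2.2).neg.congr fun n => (smooth ha (hv n) h1 hc).symm)

theorem cut {F : Type} [NormedAddCommGroup F] [NormedSpace ℝ F] [FiniteDimensional ℝ E]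
    {al : E → F} (ha : ContDiff ℝ 1 al) {R : ℝ} (R0 : 0 < R) :
    ∃ (al' : E → F) (b : ℝ), ContDiff ℝ 1 al' ∧ (∀ w, ‖fderiv ℝ al' w‖ ≤ b) ∧
      ∀ w ∈ ball (0 : E) R, al' =ᶠ[𝓝 w] al := by
  let χ : ContDiffBump (0 : E) := ⟨R, R + 1, R0, lt_add_one R⟩
  have a1 : ContDiff ℝ 1 fun w => χ w • al w := χ.contDiff.smul ha
  have a2 : HasCompactSupport fun w => χ w • al w := χ.hasCompactSupport.smul_right
  obtain ⟨b, hB⟩ := (a2.fderiv ℝ).exists_bound_of_continuous (a1.continuous_fderiv one_ne_zero)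
  refine ⟨_, b, a1, hB, fun w hw => ?_⟩
  filter_upwards [χ.eventuallyEq_one_of_mem_ball hw] with w hw
  rw [hw, Pi.one_apply, one_smul]

end StoA

theorem sto : StoS := by
  intro E _ _ _ U u D _ hb h al η ha h1 hc hs hB
  rcases hB with ⟨b, hB⟩ | hu
  · exact StoA.bd hb h ha h1 hc hs hB
  obtain ⟨R, R0, hR⟩ := (hc.isCompact.image_of_continuousOn (hu.mono hs)).isBounded.subset_ball_lt
    0 (0 : E)
  obtain ⟨al', b, a1, hB, e⟩ := StoA.cut ha R0
  have := StoA.bd hb h a1 h1 hc hs hB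
  replace e := fun z hz => e (u z) (hR (mem_image_of_mem u hz))
  have e1 : ∀ z, η z * dl al' (u z) (D z) = η z * dl al (u z) (D z) := fun z => by
    by_cases hz : z ∈ tsupport η
    · rw [dl, dl, (e z hz).fderiv_eq]
    · rw [image_eq_zero_of_notMem_tsupport hz, zero_mul, zero_mul]
  have e2 : ∀ z e' x, fderiv ℝ η z e' * al' (u z) x = fderiv ℝ η z e' * al (u z) x :=
    fun z e' x => by
    by_cases hz : z ∈ tsupport η
    · rw [(e z hz).self_of_nhds]
    · rw [Function.notMem_support.1 fun h => hz (support_fderiv_subset ℝ h),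
        zero_apply, zero_mul, zero_mul]
  simpa only [e1, e2] using this

end Pool.Agent.MP_815c6c_an.Q

end MrgPart5

-- marker of a merged file
example : 731051 + 883596 = 731051 + 883596 := rfl
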