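import Pool.Agent.MP_815c6c_an.Q.Osc
import Pool.Agent.MP_815c6c_an.P.Pt
import Pool.Agent.MP_815c6c_an.P.Wk
import Pool.Agent.MP_815c6c_an.Q.Alg
import Pool.Agent.MP_815c6c_an.Q.Sto
import Pool.Agent.MP_815c6c_an.Q.Pt
import Pool.Agent.MP_815c6c_an.Q.Lin

-- ======== part 0: formerly Pool.Agent.MP_815c6c_an.Q.Cac
section MrgPart0

/-! Planar p-harmonic maps: the Caccioppoli inequality with a right hand side. -/

set_option autoImplicit false

noncomputable section

namespace Pool.Agent.MP_815c6c_an.Q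

open Set Metric MeasureTheory Filter Topology Complex
open scoped ContDiff ENNReal ComplexConjugate
open P (vo Ts Cu)

namespace CacA

/-- the symplectic form -/
theorem form (n : ℕ) : ∃ B : Cn n →L[ℝ] Cn n →L[ℝ] ℝ, ∀ w X, B w X = (inner ℂ w X).im := by
  have e : ∀ (t : ℝ) (w : Cn n), t • w = (t : ℂ) • w := fun t w => (algebraMap_smul ℂ t w).symm
  refine ⟨LinearMap.mkContinuous₂ (LinearMap.mk₂ ℝ (fun w X : Cn n => (inner ℂ w X).im)
    ?_ ?_ ?_ ?_) 1 ?_, fun w X => rfl⟩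
  · intro a b X
    rw [inner_add_left, add_im]
  · intro t a X
    rw [e, inner_smul_left]
    simp
  · intro a X Y
    rw [inner_add_right, add_im]
  · intro t a X
    rw [e, inner_smul_right]
    simp
  · intro a X
    rw [one_mul]
    exact (abs_im_le_norm _).trans (norm_inner_le_norm (𝕜 := ℂ) a X)

/-- the cut off functions -/
theorem cut : ∃ M : ℝ, 0 ≤ M ∧ ∀ (x : ℂ) (r : ℝ), 0 < r → ∃ η : ℂ → ℝ, ContDiff ℝ 1 η ∧
    HasCompactSupport η ∧ tsupport η ⊆ ball x (2 * r) ∧ (∀ z, |η z| ≤ 1) ∧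
    (∀ z, ‖fderiv ℝ η z‖ ≤ M / r) ∧ ∀ z ∈ ball x r, η z = 1 ∧ fderiv ℝ η z = 0 := by
  let b : ContDiffBump (0 : ℂ) := ⟨1, 3 / 2, one_pos, by norm_num⟩
  have hb : ContDiff ℝ 1 b := b.contDiff
  obtain ⟨M, hM⟩ := (hb.continuous_fderiv (by simp)).bounded_above_of_compact_support
    (b.hasCompactSupport.fderiv ℝ)
  refine ⟨M, (norm_nonneg _).trans (hM 0), fun x r hr => ?_⟩
  have hn : ∀ z : ℂ, ‖r⁻¹ • (z - x)‖ = r⁻¹ * dist z x := fun z => by
    rw [norm_smul, norm_inv, Real.norm_of_nonneg hr.le, dist_eq_norm]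
  have hs : tsupport (fun z : ℂ => b (r⁻¹ • (z - x))) ⊆ closedBall x (3 / 2 * r) := by
    refine closure_minimal (fun z hz => ?_) isClosed_closedBall
    have h1 : r⁻¹ • (z - x) ∈ Function.support b := hz
    rw [b.support_eq, mem_ball_zero_iff, hn, inv_mul_lt_iff₀ hr] at h1
    have h2 : dist z x < r * (3 / 2) := h1
    exact mem_closedBall.2 (by linarith)
  have h1 : ∀ z ∈ ball x r, b (r⁻¹ • (z - x)) = 1 := fun z hz => by
    refine b.one_of_mem_closedBall ?_
    rw [mem_closedBall_zero_iff, hn, inv_mul_le_iff₀ hr]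
    have h2 : dist z x < r := hz
    change dist z x ≤ r * 1
    linarith
  refine ⟨fun z => b (r⁻¹ • (z - x)), hb.comp (by fun_prop),
    (isCompact_closedBall x _).of_isClosed_subset (isClosed_tsupport _) hs,
    hs.trans (closedBall_subset_ball (by linarith)), fun z => ?_, fun z => ?_, fun z hz =>
    ⟨h1 z hz, ?_⟩⟩
  · rw [abs_of_nonneg b.nonneg]
    exact b.le_one
  · have d1 : HasFDerivAt (fun z : ℂ => r⁻¹ • (z - x)) (r⁻¹ • ContinuousLinearMap.id ℝ ℂ) z :=
      ((hasFDerivAt_id z).sub_const x).fun_const_smul r⁻¹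
    have d2 := (hb.differentiable (by simp) (r⁻¹ • (z - x))).hasFDerivAt.comp z d1
    have d3 : fderiv ℝ (fun z : ℂ => b (r⁻¹ • (z - x))) z = _ := d2.fderiv
    rw [d3]
    refine (ContinuousLinearMap.opNorm_comp_le _ _).trans ?_
    rw [norm_smul, ContinuousLinearMap.norm_id, norm_inv, Real.norm_of_nonneg hr.le, mul_one,
      div_eq_mul_inv]
    exact mul_le_mul_of_nonneg_right (hM _) (by positivity)
  · have : (fun z : ℂ => b (r⁻¹ • (z - x))) =ᶠ[𝓝 z] fun _ => 1 :=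
      eventually_of_mem (isOpen_ball.mem_nhds hz) h1
    rw [this.fderiv_eq]
    simp

theorem ell {k a b d g : ℝ} (k0 : 0 ≤ k) (k1 : k < 1) (b0 : 0 ≤ b) (d0 : 0 ≤ d)
    (h1 : b ≤ k * a + g) (h2 : d ≤ a + b) :
    (1 - k) ^ 2 * d ^ 2 ≤ 4 * (1 - k) * (a ^ 2 - b ^ 2) + 6 * g ^ 2 := by
  have t0 : 0 < 1 - k := by linarith
  have e1 : b ^ 2 ≤ (k * a + g) ^ 2 := pow_le_pow_left₀ b0 h1 2
  have e2 : (1 - k) * (k * a + g) ^ 2 ≤ (1 - k) * k * a ^ 2 + g ^ 2 := by
    nlinarith [mul_nonneg k0 (sq_nonneg ((1 - k) * a - g))]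
  have e3 : (1 - k) * b ^ 2 ≤ (1 - k) * k * a ^ 2 + g ^ 2 :=
    (mul_le_mul_of_nonneg_left e1 t0.le).trans e2
  have e4 : d ^ 2 ≤ 2 * a ^ 2 + 2 * b ^ 2 := by
    nlinarith [pow_le_pow_left₀ d0 h2 2, sq_nonneg (a - b)]
  have e5 : (1 - k) ^ 2 * d ^ 2 ≤ (1 - k) ^ 2 * (2 * a ^ 2 + 2 * b ^ 2) :=
    mul_le_mul_of_nonneg_left e4 (sq_nonneg _)
  have e6 : (1 - k) * ((1 - k) * b ^ 2) ≤ (1 - k) * ((1 - k) * k * a ^ 2 + g ^ 2) :=
    mul_le_mul_of_nonneg_left e3 t0.le
  have e7 : 0 ≤ (1 - k) ^ 2 * ((1 - k) * a ^ 2) := by positivity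
  have e8 : 0 ≤ k * g ^ 2 := by positivity
  nlinarith

theorem young {t e d j g m w X : ℝ} (t0 : 0 ≤ t) (e1 : |e| ≤ 1)
    (h1 : t ^ 2 * d ^ 2 ≤ 4 * t * j + 6 * g ^ 2) (h2 : |X| ≤ 2 * m * (w * d)) :
    t ^ 2 * (e ^ 2 * d ^ 2) ≤ 4 * t * (e * e * (2 * j) + 2 * e * X) + 64 * (m ^ 2 * w ^ 2) +
      12 * g ^ 2 := by
  have a1 : e ^ 2 * (t ^ 2 * d ^ 2) ≤ e ^ 2 * (4 * t * j + 6 * g ^ 2) :=
    mul_le_mul_of_nonneg_left h1 (sq_nonneg _)
  have a2 : e ^ 2 * g ^ 2 ≤ 1 * g ^ 2 :=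
    mul_le_mul_of_nonneg_right (by rw [← sq_abs]; exact pow_le_one₀ (abs_nonneg _) e1)
      (sq_nonneg _)
  have a3 : -(e * X) ≤ |e| * (2 * m * (w * d)) := by
    refine (neg_le_abs _).trans ?_
    rw [abs_mul]
    exact mul_le_mul_of_nonneg_left h2 (abs_nonneg _)
  have a4 : t * -(e * X) ≤ t * (|e| * (2 * m * (w * d))) := mul_le_mul_of_nonneg_left a3 t0
  have a5 := sq_nonneg (t * |e| * d - 8 * m * w)
  have a6 : (t * |e| * d) ^ 2 = t ^ 2 * (e ^ 2 * d ^ 2) := by
    rw [mul_pow, mul_pow, sq_abs, mul_assoc]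
  nlinarith

end CacA

theorem cac : SobS → StoS → AlgS → CacS := by
  intro _ sto alg k k0 k1
  obtain ⟨M, M0, hM⟩ := CacA.cut
  have t0 : 0 < 1 - k := by linarith
  refine ⟨(64 * M ^ 2 + 12) / (1 - k) ^ 2, by positivity, fun n u D g c x r hr h hg hq => ?_⟩
  obtain ⟨η, hη, hc, hs, h1, hd, hb⟩ := hM x r hr
  obtain ⟨B, hB⟩ := CacA.form n
  have dal : ∀ w, fderiv ℝ (fun w => B (w - c)) w = B := fun w => by
    have := (B.hasFDerivAt.comp w ((hasFDerivAt_id w).sub_const c)).fderiv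
    rw [ContinuousLinearMap.comp_id] at this
    exact this
  have ddl : ∀ w N, dl (fun w => B (w - c)) w N = 2 * jc N := fun w N => by
    rw [dl, dal, hB, hB, jc, ← inner_conj_symm (N I) (N 1), conj_im]
    ring
  have dη : ∀ z v, fderiv ℝ (fun z => η z * η z) z v = 2 * η z * fderiv ℝ η z v := fun z v => by
    have d1 := (hη.differentiable (by simp) z).hasFDerivAt
    rw [(d1.fun_mul d1).fderiv]
    simp only [_root_.add_apply, _root_.smul_apply, smul_eq_mul]
    ring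
  obtain ⟨i1, i2, e12⟩ := sto (Cn n) _ u D isOpen_ball isBounded_ball h (fun w => B (w - c))
    (fun z => η z * η z) (B.contDiff.comp (contDiff_id.sub contDiff_const)) (hη.mul hη)
    hc.mul_right ((tsupport_mul_subset_left).trans hs) (Or.inl ⟨‖B‖, fun w => by rw [dal]⟩)
  obtain ⟨G, hG⟩ : ∃ G : ℂ → ℝ, G = fun z => η z * η z * (2 * jc (D z)) + 2 * η z *
    (fderiv ℝ η z 1 * B (u z - c) (D z I) - fderiv ℝ η z I * B (u z - c) (D z 1)) := ⟨_, rfl⟩
  have eG : G = fun z => η z * η z * dl (fun w => B (w - c)) (u z) (D z) +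
      (fderiv ℝ (fun z => η z * η z) z 1 * B (u z - c) (D z I) -
        fderiv ℝ (fun z => η z * η z) z I * B (u z - c) (D z 1)) := by
    funext z
    rw [hG, ddl, dη, dη]
    ring
  have iG : Integrable G := eG ▸ i1.add i2
  have zG : ∫ z in ball x (2 * r), G z = 0 := by
    rw [setIntegral_eq_integral_of_forall_compl_eq_zero, eG, integral_add i1 i2, e12,
      neg_add_cancel]
    intro z hz
    simp [hG, image_eq_zero_of_notMem_tsupport fun a => hz (hs a)]
  have iu : Integrable (fun z => ‖u z - c‖ ^ 2) (vo (ball x (2 * r))) :=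
    (h.memLp.1.sub (memLp_const c)).norm.integrable_sq
  have iD : Integrable (fun z => ‖D z‖ ^ 2) (vo (ball x (2 * r))) := h.memLp.2.norm.integrable_sq
  have ig : Integrable (fun z => ‖g z‖ ^ 2) (vo (ball x (2 * r))) := hg.norm.integrable_sq
  have mb : MeasurableSet (ball x r) := measurableSet_ball
  have hy : ∀ᵐ z ∂vo (ball x (2 * r)),
      (1 - k) ^ 2 * (ball x r).indicator (fun z => ‖D z‖ ^ 2) z ≤ 4 * (1 - k) * G z +
        64 * (M / r) ^ 2 * (ball x r)ᶜ.indicator (fun z => ‖u z - c‖ ^ 2) z + 12 * ‖g z‖ ^ 2 := by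
    filter_upwards [hq] with z hz
    have a1 := CacA.ell k0 k1 (norm_nonneg _) (norm_nonneg _) hz ((alg n).n1 (D z)).2.2
    rw [← (alg n).jc] at a1
    have a0 : ∀ p q : ℂ, ‖p‖ = 1 → ‖q‖ = 1 → |fderiv ℝ η z p * B (u z - c) (D z q)| ≤
        ‖fderiv ℝ η z‖ * (‖u z - c‖ * ‖D z‖) := by
      intro p q hp hq
      rw [abs_mul, hB]
      refine mul_le_mul ?_ ((abs_im_le_norm _).trans ((norm_inner_le_norm (𝕜 := ℂ) _ _).trans
        (mul_le_mul_of_nonneg_left ?_ (norm_nonneg _)))) (abs_nonneg _) (norm_nonneg _)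
      · have := (fderiv ℝ η z).le_opNorm p
        rwa [hp, mul_one] at this
      · have := (D z).le_opNorm q
        rwa [hq, mul_one] at this
    have a2 : |fderiv ℝ η z 1 * B (u z - c) (D z I) - fderiv ℝ η z I * B (u z - c) (D z 1)| ≤
        2 * ‖fderiv ℝ η z‖ * (‖u z - c‖ * ‖D z‖) := by
      have := abs_sub (fderiv ℝ η z 1 * B (u z - c) (D z I)) (fderiv ℝ η z I * B (u z - c) (D z 1))
      linarith [a0 1 I norm_one norm_I, a0 I 1 norm_I norm_one]
    have a3 := CacA.young t0.le (h1 z) a1 a2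
    rw [Real.norm_eq_abs, sq_abs, hG]
    dsimp only
    by_cases hz : z ∈ ball x r
    · rw [indicator_of_mem hz, indicator_of_notMem (notMem_compl_iff.2 hz)]
      rw [(hb z hz).2] at a3 ⊢
      rw [(hb z hz).1] at a3 ⊢
      simpa using a3
    · rw [indicator_of_notMem hz, indicator_of_mem (mem_compl hz)]
      have a4 : ‖fderiv ℝ η z‖ ^ 2 * ‖u z - c‖ ^ 2 ≤ (M / r) ^ 2 * ‖u z - c‖ ^ 2 :=
        mul_le_mul_of_nonneg_right (pow_le_pow_left₀ (norm_nonneg _) (hd z) 2) (sq_nonneg _)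
      have a5 : 0 ≤ (1 - k) ^ 2 * (η z ^ 2 * ‖D z‖ ^ 2) := by positivity
      linarith
  have j1 := (iG.integrableOn (s := ball x (2 * r))).const_mul (4 * (1 - k))
  have j2 := (iu.indicator mb.compl).const_mul (64 * (M / r) ^ 2)
  have j3 := ig.const_mul 12
  have j4 : Integrable (fun z => 4 * (1 - k) * G z + 64 * (M / r) ^ 2 *
      (ball x r)ᶜ.indicator (fun z => ‖u z - c‖ ^ 2) z) (vo (ball x (2 * r))) := j1.add j2
  have j5 : Integrable (fun z => 4 * (1 - k) * G z + 64 * (M / r) ^ 2 *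
      (ball x r)ᶜ.indicator (fun z => ‖u z - c‖ ^ 2) z + 12 * ‖g z‖ ^ 2)
      (vo (ball x (2 * r))) := j4.add j3
  have key := integral_mono_ae ((iD.indicator mb).const_mul ((1 - k) ^ 2)) j5 hy
  rw [integral_add j4 j3, integral_add j1 j2, integral_const_mul, integral_const_mul,
    integral_const_mul, integral_const_mul, zG, setIntegral_indicator mb,
    setIntegral_indicator mb.compl, inter_eq_right.2 (ball_subset_ball (by linarith)),
    ← Set.sdiff_eq] at key
  have p1 := en_nonneg (ball x (2 * r) \ ball x r) fun z => u z - c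
  have p2 := en_nonneg (ball x (2 * r)) g
  rw [div_mul_eq_mul_div, le_div_iff₀ (by positivity)]
  have p3 : 0 ≤ (r ^ 2)⁻¹ * en (ball x (2 * r) \ ball x r) fun z => u z - c := by positivity
  have p4 : 0 ≤ M ^ 2 * en (ball x (2 * r)) g := by positivity
  rw [div_pow, div_eq_mul_inv] at key
  unfold en at *
  nlinarith

end Pool.Agent.MP_815c6c_an.Q

end
end MrgPart0

-- ======== part 1: formerly Pool.Agent.MP_815c6c_an.Q.Core
section MrgPart1

/-! Planar p-harmonic maps: the gradient bound from the two regimes. -/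

set_option autoImplicit false

namespace Pool.Agent.MP_815c6c_an.Q

open Set Metric MeasureTheory Filter Topology Complex
open scoped ContDiff ENNReal ComplexConjugate
open P (vo Ts Cu)

namespace CoreA

variable {E : Type} [NormedAddCommGroup E] [NormedSpace ℝ E] {F : ℂ → E} {y : ℂ} {R δ ε C : ℝ}

/-- a small radius with small oscillation at a point which is not a zero -/
theorem good (ho : Osc E) (hR : 0 < R) (hδ : 0 < δ) (hc : ContinuousOn F (ball y R))
    (h0 : F y ≠ 0) : ∃ t ∈ Ioc 0 R, osc F y t < δ * ‖av F y t‖ := by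
  have hn := norm_pos_iff.2 h0
  obtain ⟨B, hB, e⟩ : ∃ B, 0 < B ∧ B * (2 * (2 + δ)) = δ * ‖F y‖ :=
    ⟨δ * ‖F y‖ / (2 * (2 + δ)), by positivity, div_mul_cancel₀ _ (by positivity)⟩
  obtain ⟨t, ht, h⟩ := Metric.continuousAt_iff.1 (hc.continuousAt (ball_mem_nhds y hR)) B hB
  have hs : ball y (min t R) ⊆ ball y R := ball_subset_ball (min_le_right _ _)
  obtain ⟨-, h1, h2⟩ := ho.sup F y (min t R) (F y) B (lt_min ht hR)
    ((hc.mono hs).aestronglyMeasurable measurableSet_ball) fun z hz => by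
      rw [← dist_eq_norm]; exact (h (hz.trans_le (min_le_left _ _))).le
  refine ⟨_, ⟨lt_min ht hR, min_le_right _ _⟩, ?_⟩
  have h3 := norm_sub_norm_le (F y) (av F y (min t R))
  rw [norm_sub_rev] at h3
  nlinarith

/-- a good radius with the decay of the degenerate regime -/
theorem last (ho : Osc E) (hε : 0 < ε) (hC : 0 ≤ C) (hm : MemLp F 2 (vo (ball y R)))
    (hd : ∀ ρ, 0 < ρ → ρ ≤ R → (∀ t ∈ Icc ρ R, δ * ‖av F y t‖ ≤ osc F y t) →
      osc F y ρ ≤ C * (ρ / R) ^ (1 + ε) * osc F y R)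
    (hg : ∃ t ∈ Ioc 0 R, osc F y t < δ * ‖av F y t‖) :
    ∃ ρ ∈ Ioc 0 R, osc F y ρ < δ * ‖av F y ρ‖ ∧
      osc F y ρ ≤ 4 * (C + 1) * 2 ^ (1 + ε) * (ρ / R) ^ (1 + ε) * osc F y R := by
  obtain ⟨S, hS⟩ : ∃ S : Set ℝ, S = {t | t ∈ Ioc 0 R ∧ osc F y t < δ * ‖av F y t‖} := ⟨_, rfl⟩
  have hb : BddAbove S := ⟨R, fun t ht => by rw [hS] at ht; exact ht.1.2⟩
  obtain ⟨t, ht⟩ : S.Nonempty := by rw [hS]; exact hg
  have hp : 0 < sSup S := lt_of_lt_of_le (by rw [hS] at ht; exact ht.1.1) (le_csSup hb ht)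
  obtain ⟨ρ, hρ, h1⟩ := exists_lt_of_lt_csSup ⟨t, ht⟩ (half_lt_self hp)
  rw [hS] at hρ
  obtain ⟨⟨h2, h3⟩, h4⟩ := hρ
  have hR := h2.trans_le h3
  have hO := ho.nn F y R
  refine ⟨ρ, ⟨h2, h3⟩, h4, ?_⟩
  rw [mul_assoc (4 * (C + 1)), ← Real.mul_rpow zero_le_two (by positivity), ← mul_div_assoc]
  rcases le_total (2 * ρ) R with h | h
  · have h5 := hd (2 * ρ) (by positivity) h fun u hu => not_lt.1 fun hu' => by
      have := le_csSup hb (show u ∈ S by rw [hS]; exact ⟨⟨by linarith [hu.1], hu.2⟩, hu'⟩)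
      linarith [hu.1]
    have h6 := (ho.sub F y (2 * ρ) y ρ h2 (ball_subset_ball (by linarith))
      (hm.mono_measure (Measure.restrict_mono (ball_subset_ball h) le_rfl))).2
    rw [mul_div_assoc, div_self h2.ne'] at h6
    have h7 : 0 ≤ (2 * ρ / R) ^ (1 + ε) * osc F y R := by positivity
    nlinarith
  · have h6 := (ho.sub F y R y ρ h2 (ball_subset_ball h3) hm).2
    have h7 : R / ρ ≤ 2 := (div_le_iff₀ h2).2 h
    have h8 : 1 ≤ (2 * ρ / R) ^ (1 + ε) :=
      Real.one_le_rpow ((one_le_div hR).2 h) (by positivity)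
    calc _ ≤ 2 * 2 * osc F y R := h6.trans (by gcongr)
      _ = 4 * (0 + 1) * 1 * osc F y R := by ring
      _ ≤ _ := by gcongr

/-- a power of the distance tends to zero -/
theorem pow0 (hε : 0 < ε) (a b : ℝ) (y : ℂ) :
    Tendsto (fun z : ℂ => a * (b * ‖z - y‖) ^ ε) (𝓝 y) (𝓝 0) := by
  have h : Continuous fun z : ℂ => a * (b * ‖z - y‖) ^ ε :=
    continuous_const.mul (Continuous.rpow_const (by fun_prop) fun _ => Or.inr hε.le)
  simpa [Real.zero_rpow hε.ne'] using h.tendsto y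

/-- the derivative vanishes where the oscillation decays faster than the radius -/
theorem flat (hR : 0 < R) (hε : 0 < ε) (hC : 0 ≤ C)
    (h : ∀ ρ ∈ Ioc 0 R, ∀ z ∈ ball y (ρ / 8), ‖F z - F y‖ ≤ C * (ρ / R) ^ (1 + ε)) :
    HasFDerivAt F (0 : L E) y := by
  rw [hasFDerivAt_iff_isLittleO, Asymptotics.isLittleO_iff]
  intro c hc
  filter_upwards [ball_mem_nhds y (show 0 < R / 16 by positivity),
    (pow0 hε (C * (16 / R)) (16 / R) y).eventually (gt_mem_nhds hc)] with z h1 h2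
  rcases eq_or_ne z y with rfl | hz
  · simp
  have h3 := norm_pos_iff.2 (sub_ne_zero.2 hz)
  rw [mem_ball, dist_eq_norm] at h1
  have h4 := h (16 * ‖z - y‖) ⟨by positivity, by linarith⟩ z
    (by rw [mem_ball, dist_eq_norm]; linarith)
  rw [Real.rpow_add (by positivity), Real.rpow_one, mul_div_right_comm] at h4
  rw [zero_apply, sub_zero]
  nlinarith

end CoreA

open CoreA in
theorem core : Kit → HolS → NdS → ∀ n s, 0 ≤ s → s < 1 → DegS n s → CoreS n s := by
  intro k hol nd n s s0 s1 ⟨ε, hε, dg⟩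
  obtain ⟨δ, β, C1, hδ, -, h1, nd⟩ := nd s s0 s1
  obtain ⟨C2, h2, dg⟩ := dg δ hδ
  obtain ⟨α, C3, -, -, h3, hol⟩ := hol s s0 s1
  have ho := k.osc (Cn n)
  obtain ⟨C, hC, eC⟩ : ∃ C, 0 ≤ C ∧ C = C1 * (4 * (C2 + 1) * 2 ^ (1 + ε)) := ⟨_, by positivity, rfl⟩
  have pt : ∀ (F : ℂ → Cn n) (y : ℂ) (R : ℝ), 0 < R → Sol s (ball y R) F →
      MemLp F 2 (vo (ball y R)) → (F y = 0 → HasFDerivAt F (0 : L (Cn n)) y) ∧
      (F y ≠ 0 → ContDiffAt ℝ 1 F y ∧ ∃ ρ ∈ Ioc 0 R, (∀ z ∈ ball y (ρ / 64), F z ≠ 0) ∧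
        ‖fderiv ℝ F y‖ ≤ C * osc F y R / R * (ρ / R) ^ ε) := fun F y R hR hs hm => by
    have sm : ∀ ρ, ρ ≤ R → Sol s (ball y ρ) F ∧ MemLp F 2 (vo (ball y ρ)) := fun ρ h =>
      ⟨hs.mono (ball_subset_ball h),
        hm.mono_measure (Measure.restrict_mono (ball_subset_ball h) le_rfl)⟩
    have hO := ho.nn F y R
    refine ⟨fun h0 => flat (C := 2 * C3 * C2 * osc F y R) hR hε (by positivity)
      fun ρ hρ z hz => ?_, fun h0 => ?_⟩
    · have a := dg F y R ρ hρ.1 hρ.2 hs hm fun t ht => not_lt.1 fun h =>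
        ((nd n F y t (hρ.1.trans_le ht.1) (sm t ht.2).1 (sm t ht.2).2 h).1 y
          (mem_ball_self (by linarith [hρ.1, ht.1]))).1 h0
      have b := ((hol n F y ρ hρ.1 (sm ρ hρ.2).1.2 (sm ρ hρ.2).2).2 (sm ρ hρ.2).1.1).2
      have c := norm_sub_le_norm_sub_add_norm_sub (F z) (av F y ρ) (F y)
      rw [norm_sub_rev (av F y ρ)] at c
      have d := b z hz
      have e := b y (mem_ball_self (by linarith [hρ.1]))
      nlinarith [mul_le_mul_of_nonneg_left a h3]
    · obtain ⟨ρ, hρ, a, b⟩ := last ho hε h2 hm (fun ρ a b => dg F y R ρ a b hs hm)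
        (good ho hR hδ hs.1 h0)
      have p := hρ.1
      obtain ⟨c, d, -⟩ := nd n F y ρ p (sm ρ hρ.2).1 (sm ρ hρ.2).2 a
      refine ⟨d.contDiffAt (ball_mem_nhds y (by positivity)), ρ, hρ, fun z hz => (c z hz).1,
        (c y (mem_ball_self (by positivity))).2.trans ?_⟩
      rw [Real.rpow_add (div_pos p hR), Real.rpow_one] at b
      calc _ ≤ C1 * (4 * (C2 + 1) * 2 ^ (1 + ε) * (ρ / R * (ρ / R) ^ ε) * osc F y R) / ρ := by
            gcongr
        _ = _ := by rw [eC]; field_simp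
  refine ⟨8 * C, by positivity, fun F x r hr hs hm => ?_⟩
  have hO := ho.nn F x r
  have pt' : ∀ y ∈ ball x (r / 4), (F y = 0 → HasFDerivAt F (0 : L (Cn n)) y) ∧
      (F y ≠ 0 → ContDiffAt ℝ 1 F y ∧ ∃ ρ ∈ Ioc 0 (r / 2), (∀ z ∈ ball y (ρ / 64), F z ≠ 0) ∧
        ‖fderiv ℝ F y‖ ≤ 8 * C * osc F x r / r * (ρ / (r / 2)) ^ ε) := fun y hy => by
    have hb : ball y (r / 2) ⊆ ball x r :=
      ball_subset_ball' (by linarith [mem_ball.1 hy])
    obtain ⟨a, b⟩ := pt F y (r / 2) (by positivity) (hs.mono hb)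
      (hm.mono_measure (Measure.restrict_mono hb le_rfl))
    refine ⟨a, fun h0 => ⟨(b h0).1, ?_⟩⟩
    obtain ⟨ρ, hρ, c, d⟩ := (b h0).2
    have p := hρ.1
    have e := (ho.sub F x r y (r / 2) (by positivity) hb hm).2
    refine ⟨ρ, hρ, c, d.trans ?_⟩
    calc _ ≤ C * (2 * (r / (r / 2)) * osc F x r) / (r / 2) * (ρ / (r / 2)) ^ ε := by gcongr
      _ = _ := by field_simp; ring
  have hK : 0 ≤ 8 * C * osc F x r / r := by positivity
  refine ⟨(contDiffOn_succ_iff_fderiv_of_isOpen (n := 0) isOpen_ball).2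
    ⟨fun y hy => DifferentiableAt.differentiableWithinAt ?_, by simp,
      contDiffOn_zero.2 fun y hy => ContinuousAt.continuousWithinAt ?_⟩, fun y hy => ?_⟩
  · by_cases h0 : F y = 0
    exacts [((pt' y hy).1 h0).differentiableAt, ((pt' y hy).2 h0).1.differentiableAt one_ne_zero]
  · by_cases h0 : F y = 0
    swap
    · exact ((pt' y hy).2 h0).1.continuousAt_fderiv one_ne_zero
    rw [ContinuousAt, ((pt' y hy).1 h0).fderiv]
    refine squeeze_zero_norm' ?_ (pow0 hε (8 * C * osc F x r / r) (64 / (r / 2)) y)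
    filter_upwards [isOpen_ball.mem_nhds hy] with z hz
    by_cases h : F z = 0
    · rw [((pt' z hz).1 h).fderiv, norm_zero]; positivity
    obtain ⟨ρ, hρ, a, b⟩ := ((pt' z hz).2 h).2
    have p := hρ.1
    have c : ρ ≤ 64 * ‖z - y‖ := by
      have := mt (a y) (not_not.2 h0)
      rw [mem_ball, dist_comm, dist_eq_norm, not_lt] at this
      linarith
    rw [div_mul_eq_mul_div 64]
    exact b.trans (by gcongr)
  · by_cases h0 : F y = 0
    · rwa [((pt' y hy).1 h0).fderiv, norm_zero]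
    obtain ⟨ρ, hρ, -, b⟩ := ((pt' y hy).2 h0).2
    have p := hρ.1
    exact b.trans (mul_le_of_le_one_right hK
      (Real.rpow_le_one (by positivity) (div_le_one_of_le₀ hρ.2 (by positivity)) hε.le))

end Pool.Agent.MP_815c6c_an.Q

end MrgPart1

-- ======== part 2: formerly Pool.Agent.MP_815c6c_an.Q.Cpt
section MrgPart2

/-! Planar p-harmonic maps: compactness of bounded families of solutions. -/

set_option autoImplicit false

namespace Pool.Agent.MP_815c6c_an.Q

open Set Metric MeasureTheory Filter Topology Complex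
open scoped ContDiff ENNReal ComplexConjugate
open P (vo Ts Cu dz)

namespace CptA

/-- a locally uniformly convergent subsequence -/
theorem asc {E : Type} [NormedAddCommGroup E] [ProperSpace E] (F : ℕ → ℂ → E)
    (hb : ∀ r : ℝ, ∃ M : ℝ, ∀ᶠ j in atTop, ∀ z ∈ ball (0 : ℂ) r, ‖F j z‖ ≤ M)
    (he : ∀ r ε : ℝ, 0 < r → 0 < ε → ∃ δ : ℝ, 0 < δ ∧ ∀ᶠ j in atTop, ∀ y ∈ ball (0 : ℂ) r,
      ∀ y' ∈ ball (0 : ℂ) r, ‖y - y'‖ < δ → ‖F j y - F j y'‖ < ε) :
    ∃ (φ : ℕ → ℕ) (G : ℂ → E), StrictMono φ ∧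
      ∀ r : ℝ, TendstoUniformlyOn (fun j => F (φ j)) G atTop (ball 0 r) := by
  let q := TopologicalSpace.denseSeq ℂ
  have h1 : ∀ i, ∃ M : ℝ, ∀ j, ‖F j (q i)‖ ≤ M := fun i => by
    obtain ⟨M, hM⟩ := hb (‖q i‖ + 1)
    have : IsBoundedUnder (· ≤ ·) atTop fun j => ‖F j (q i)‖ :=
      ⟨M, hM.mono fun j h => h _ (by simp)⟩
    obtain ⟨M', h'⟩ := this.bddAbove_range
    exact ⟨M', fun j => h' ⟨j, rfl⟩⟩
  choose M hM using h1
  obtain ⟨g, -, φ, hφ, hg⟩ := (isCompact_univ_pi fun i => isCompact_closedBall (0 : E) (M i)).tendsto_subseq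
    (x := fun j i => F j (q i)) fun j i _ => by simpa using hM i j
  have hc : ∀ r : ℝ, UniformCauchySeqOn (fun j => F (φ j)) atTop (ball 0 r) := by
    intro r
    rcases le_or_gt r 0 with hr | hr
    · rw [ball_eq_empty.2 hr]
      exact fun u _ => Eventually.of_forall fun _ _ h => h.elim
    refine Metric.uniformCauchySeqOn_iff.2 fun ε hε => ?_
    obtain ⟨δ, hδ, h⟩ := he (r + 1) (ε / 4) (by linarith) (by linarith)
    obtain ⟨t, ht⟩ := (isCompact_closedBall (0 : ℂ) r).elim_finite_subcover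
      (fun i => ball (q i) (min δ 1)) (fun _ => isOpen_ball) fun z _ => by
        obtain ⟨i, hi⟩ := (TopologicalSpace.denseRange_denseSeq ℂ).exists_dist_lt z
          (lt_min hδ one_pos)
        exact mem_iUnion.2 ⟨i, hi⟩
    have h2 : ∀ᶠ j in atTop, ∀ i ∈ t, dist (F (φ j) (q i)) (g i) < ε / 4 :=
      (eventually_all_finset t).2 fun i _ =>
        Metric.tendsto_nhds.1 (tendsto_pi_nhds.1 hg i) _ (by linarith)
    obtain ⟨N, hN⟩ := eventually_atTop.1 (h2.and (hφ.tendsto_atTop.eventually h))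
    refine ⟨N, fun m hm k hk z hz => ?_⟩
    obtain ⟨i, hi, hz'⟩ := mem_iUnion₂.1 (ht (ball_subset_closedBall hz))
    have a1 : ‖z - q i‖ < min δ 1 := by simpa [dist_eq_norm] using hz'
    have a2 : z ∈ ball (0 : ℂ) (r + 1) := ball_subset_ball (by linarith) hz
    have a3 : q i ∈ ball (0 : ℂ) (r + 1) := by
      rw [mem_ball_zero_iff] at hz ⊢
      linarith [norm_le_norm_add_norm_sub z (q i), min_le_right δ 1]
    have b1 := (hN m hm).2 z a2 _ a3 (a1.trans_le (min_le_left _ _))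
    have b2 := (hN k hk).2 z a2 _ a3 (a1.trans_le (min_le_left _ _))
    rw [← dist_eq_norm] at b1 b2
    linarith [(hN m hm).1 i hi, (hN k hk).1 i hi,
      dist_triangle4_right (F (φ m) z) (F (φ k) z) (F (φ m) (q i)) (F (φ k) (q i)),
      dist_triangle_right (F (φ m) (q i)) (F (φ k) (q i)) (g i)]
  have hp : ∀ z, ∃ w, Tendsto (fun j => F (φ j) z) atTop (𝓝 w) := fun z =>
    cauchySeq_tendsto_of_complete ((hc (‖z‖ + 1)).cauchySeq (by simp))
  choose G hG using hp
  exact ⟨φ, G, hφ, fun r => (hc r).tendstoUniformlyOn_of_tendsto fun z _ => hG z⟩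

theorem cu_lim (f : ℕ → ℂ → ℂ) (g : ℂ → ℂ)
    (h : ∀ r : ℝ, ∃ M : ℝ, ∀ᶠ j in atTop, ContinuousOn (f j) (ball 0 r) ∧ Cu (ball 0 r) (f j) ∧
      ∀ z ∈ ball (0 : ℂ) r, ‖f j z‖ ≤ M)
    (ht : ∀ z, Tendsto (fun j => f j z) atTop (𝓝 (g z))) : Cu univ g := by
  intro φ hφ
  obtain ⟨r, hr⟩ := hφ.2.1.isCompact.isBounded.subset_ball (0 : ℂ)
  obtain ⟨M, hM⟩ := h r
  have hd : Continuous (fderiv ℝ φ) := hφ.1.continuous_fderiv (by simp)
  have hc : Continuous (dz φ) := by unfold dz; fun_prop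
  have e : ∀ u : ℂ → ℂ, ∫ z, (u z * dz φ z).im = ∫ z in ball 0 r, (u z * dz φ z).im := fun u =>
    (setIntegral_eq_integral_of_forall_compl_eq_zero fun z hz => by
      have : fderiv ℝ φ z = 0 := by
        by_contra hn
        exact hz (hr (support_fderiv_subset ℝ hn))
      simp [dz, this]).symm
  have t : Tendsto (fun j => ∫ z in ball 0 r, (f j z * dz φ z).im) atTop
      (𝓝 (∫ z in ball 0 r, (g z * dz φ z).im)) := by
    refine tendsto_integral_filter_of_dominated_convergence (fun z => M * ‖dz φ z‖) ?_ ?_ ?_ ?_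
    · exact hM.mono fun j hj => (continuous_im.comp_continuousOn
        (hj.1.mul hc.continuousOn)).aestronglyMeasurable measurableSet_ball
    · refine hM.mono fun j hj => (ae_restrict_mem measurableSet_ball).mono fun z hz => ?_
      refine (abs_im_le_norm _).trans ?_
      rw [norm_mul]
      exact mul_le_mul_of_nonneg_right (hj.2.2 z hz) (norm_nonneg _)
    · exact (((continuous_const.mul hc.norm).continuousOn.integrableOn_compact
        (isCompact_closedBall 0 r)).mono_set ball_subset_closedBall)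
    · exact ae_of_all _ fun z => (continuous_im.tendsto _).comp ((ht z).mul_const _)
  rw [e]
  refine tendsto_nhds_unique t (tendsto_const_nhds.congr' (hM.mono fun j hj => ?_))
  exact ((e _).symm.trans (hj.2.1 φ ⟨hφ.1, hφ.2.1, hr⟩)).symm

end CptA

open CptA in
theorem cpt : Kit → HolS → CptS := by
  intro K H n s F R s0 s1 hR hS hb
  obtain ⟨α, C, hα, -, hC, H⟩ := H s s0 s1
  have hS' : ∀ r : ℝ, ∀ᶠ j in atTop, Sol s (ball 0 r) (F j) := fun r =>
    (hR.eventually_ge_atTop r).mono fun j hj => (hS j).mono (ball_subset_ball hj)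
  obtain ⟨φ, G, hφ, hG⟩ := asc F hb fun r ε hr hε => by
    obtain ⟨M, hM⟩ := hb (8 * r)
    have c : ContinuousAt (fun t : ℝ => C * (2 * M) * (t / (8 * r)) ^ α) 0 :=
      continuousAt_const.mul ((continuousAt_id.div_const _).rpow_const (Or.inr hα.le))
    obtain ⟨δ, hδ, h⟩ := Metric.continuousAt_iff.1 c ε hε
    refine ⟨δ, hδ, (hM.and (hS' (8 * r))).mono fun j hj y hy y' hy' hd => ?_⟩
    have o := (K.osc (Cn n)).sup (F j) 0 (8 * r) 0 M (by linarith)
      (hj.2.1.aestronglyMeasurable measurableSet_ball) (by simpa using hj.1)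
    have a := ((H n (F j) 0 (8 * r) (by linarith) hj.2.2 o.1).2 hj.2.1).1
    rw [show 8 * r / 8 = r by ring] at a
    have b := h (x := ‖y - y'‖) (by simpa using hd)
    rw [zero_div, Real.zero_rpow hα.ne', mul_zero, dist_zero_right] at b
    refine ((a y hy y' hy').trans ?_).trans_lt ((le_abs_self _).trans_lt b)
    gcongr
    exact o.2.2
  have hp : ∀ z, Tendsto (fun j => F (φ j) z) atTop (𝓝 (G z)) := fun z =>
    (hG (‖z‖ + 1)).tendsto_at (by simp)
  have P := K.pow (Cn n)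
  have hn : ∀ (b : ℝ), -1 < b → ∀ r : ℝ, ∃ M : ℝ, ∀ᶠ j in atTop, Sol s (ball 0 r) (F (φ j)) ∧
      (∀ a, ContinuousOn (fun z => pw b (F (φ j) z) a) (ball 0 r)) ∧
      ∀ z ∈ ball (0 : ℂ) r, ∀ a, ‖pw b (F (φ j) z) a‖ ≤ M := fun b hb' r => by
    obtain ⟨M, hM⟩ := hb r
    refine ⟨M ^ (b + 1), (hφ.tendsto_atTop.eventually (hM.and (hS' r))).mono fun j hj =>
      ⟨hj.2, fun a => ((EuclideanSpace.proj a : Cn n →L[ℂ] ℂ).continuous.comp
        (P.cont b hb')).comp_continuousOn hj.2.1, fun z hz a => ?_⟩⟩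
    refine (PiLp.norm_apply_le _ a).trans ?_
    rw [P.norm b _ hb']
    exact Real.rpow_le_rpow (norm_nonneg _) (hj.1 z hz) (by linarith)
  have ht : ∀ (b : ℝ), -1 < b → ∀ a z,
      Tendsto (fun j => pw b (F (φ j) z) a) atTop (𝓝 (pw b (G z) a)) := fun b hb' a z =>
    ((((EuclideanSpace.proj a : Cn n →L[ℂ] ℂ).continuous.comp (P.cont b hb')).tendsto _).comp
      (hp z) :)
  refine ⟨φ, G, hφ, ⟨fun z _ => ?_, fun a => ⟨?_, ?_⟩⟩, hG⟩
  · exact (((hG (‖z‖ + 1)).continuousOn ((hφ.tendsto_atTop.eventually (hS' _)).mono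
      fun j hj => hj.1).frequently).continuousAt
        (isOpen_ball.mem_nhds (by simp))).continuousWithinAt
  · refine cu_lim (fun j z => pw (-s) (F (φ j) z) a) _ (fun r => ?_) (ht _ (by linarith) a)
    obtain ⟨M, hM⟩ := hn (-s) (by linarith) r
    exact ⟨M, hM.mono fun j hj => ⟨hj.2.1 a, (hj.1.2 a).1, fun z hz => hj.2.2 z hz a⟩⟩
  · refine cu_lim (fun j z => I * pw s (F (φ j) z) a) _ (fun r => ?_)
      fun z => (ht _ (by linarith) a z).const_mul _
    obtain ⟨M, hM⟩ := hn s (by linarith) r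
    exact ⟨M, hM.mono fun j hj => ⟨continuousOn_const.mul (hj.2.1 a), (hj.1.2 a).2,
      fun z hz => by simpa using hj.2.2 z hz a⟩⟩

end Pool.Agent.MP_815c6c_an.Q

end MrgPart2

-- ======== part 3: formerly Pool.Agent.MP_815c6c_an.Q.Deg
section MrgPart3

/-! Planar p-harmonic maps: the degenerate regime, by blow-up. -/

set_option autoImplicit false

namespace Pool.Agent.MP_815c6c_an.Q

open Set Metric MeasureTheory Filter Topology Complex
open scoped ContDiff ENNReal ComplexConjugate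
open P (vo Ts Cu)

namespace DegA

/-- a point where a bounded function is above half of its supremum -/
theorem half {S : Set ℝ} {φ : ℝ → ℝ} {a B : ℝ} (ha : a ∈ S) (h0 : 0 < φ a)
    (hB : ∀ t ∈ S, φ t ≤ B) : ∃ t ∈ S, ∀ u ∈ S, φ u ≤ 2 * φ t := by
  have hb : BddAbove (φ '' S) := ⟨B, by rintro _ ⟨t, ht, rfl⟩; exact hB t ht⟩
  have h1 : φ a ≤ sSup (φ '' S) := le_csSup hb ⟨a, ha, rfl⟩
  obtain ⟨_, ⟨t, ht, rfl⟩, h2⟩ := exists_lt_of_lt_csSup (s := φ '' S) ⟨_, a, ha, rfl⟩
    (show sSup (φ '' S) / 2 < sSup (φ '' S) by linarith)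
  exact ⟨t, ht, fun u hu => by linarith [le_csSup hb ⟨u, hu, rfl⟩]⟩

variable {n : ℕ} {s : ℝ}

/-- a normalised solution -/
structure Nrm (s q δ R : ℝ) (G : ℂ → Cn n) : Prop where
  one : 1 ≤ R
  sol : Sol s (ball 0 R) G
  mem : MemLp G 2 (vo (ball 0 R))
  o1 : osc G 0 1 = 1
  gr : ∀ T ∈ Icc 1 R, osc G 0 T ≤ 2 * T ^ q ∧ δ * ‖av G 0 T‖ ≤ osc G 0 T

theorem blow (k : Kit) {q δ C : ℝ} {F : ℂ → Cn n} {x : ℂ} {r ρ : ℝ} (hq : 0 ≤ q) (hC : 0 ≤ C)
    (hρ : 0 < ρ) (hr : ρ ≤ r) (hF : Sol s (ball x r) F) (hm : MemLp F 2 (vo (ball x r)))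
    (hd : ∀ t ∈ Icc ρ r, δ * ‖av F x t‖ ≤ osc F x t)
    (hlt : C * (ρ / r) ^ q * osc F x r < osc F x ρ) :
    ∃ (R : ℝ) (G : ℂ → Cn n), Nrm s q δ R G ∧ C ≤ 4 * R ^ (q + 1) := by
  have O := k.osc (Cn n)
  have r0 : 0 < r := hρ.trans_le hr
  have or := O.nn F x r
  have sub : ∀ t ∈ Icc ρ r, osc F x t ≤ 2 * (r / t) * osc F x r := fun t ht =>
    (O.sub F x r x t (hρ.trans_le ht.1) (ball_subset_ball ht.2) hm).2
  have p0 : 0 < osc F x ρ := lt_of_le_of_lt (by positivity) hlt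
  obtain ⟨t, ht, hmax⟩ := half (S := Icc ρ r) (φ := fun t => osc F x t / t ^ q)
    (B := 2 * (r / ρ) * osc F x r / ρ ^ q) (left_mem_Icc.2 hr) (by positivity) fun t ht => by
      have t0 := hρ.trans_le ht.1
      refine (div_le_div_of_nonneg_right (sub t ht) (by positivity)).trans ?_
      gcongr
      exacts [ht.1, ht.1]
  have t0 := hρ.trans_le ht.1
  have tq : 0 < t ^ q := by positivity
  have h1 := hmax ρ (left_mem_Icc.2 hr)
  have ot : 0 < osc F x t := by
    have : 0 < osc F x t / t ^ q := by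
      have : 0 < osc F x ρ / ρ ^ q := by positivity
      linarith
    exact (div_pos_iff_of_pos_right tq).1 this
  have hin : ∀ z ∈ ball (0 : ℂ) (r / t), x + t * z ∈ ball x r := fun z hz => by
    rw [mem_ball_zero_iff, lt_div_iff₀ t0] at hz
    rw [mem_ball_iff_norm, add_sub_cancel_left, norm_mul, norm_real, Real.norm_of_nonneg t0.le]
    linarith
  have ci : 0 < (osc F x t)⁻¹ := by positivity
  have sc := fun T => O.sca F x t (osc F x t)⁻¹ T t0 ci.le
  have R1 : 1 ≤ r / t := (one_le_div t0).2 ht.2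
  refine ⟨r / t, fun z => (osc F x t)⁻¹ • F (x + t * z), ⟨R1, ⟨?_, ?_⟩, ?_, ?_, ?_⟩, ?_⟩
  · exact (hF.1.comp (by fun_prop) hin).const_smul (osc F x t)⁻¹
  · exact (k.sca n s _ F hF.2).1 _ x t _ t0 ci hin
  · exact (sc _).2.2.2.1 (by rwa [mul_div_cancel₀ _ t0.ne'])
  · rw [(sc 1).2.1, mul_one, inv_mul_cancel₀ ot.ne']
  · intro T hT
    have T0 : 0 < T := one_pos.trans_le hT.1
    have hu : t * T ∈ Icc ρ r := ⟨ht.1.trans (le_mul_of_one_le_right t0.le hT.1),
      by rw [mul_comm]; exact (le_div_iff₀ t0).1 hT.2⟩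
    rw [(sc T).2.1, (sc T).1, norm_smul, Real.norm_of_nonneg ci.le, mul_left_comm]
    refine ⟨?_, mul_le_mul_of_nonneg_left (hd _ hu) ci.le⟩
    have h2 := hmax _ hu
    rw [Real.mul_rpow t0.le T0.le, div_le_iff₀ (by positivity)] at h2
    rw [inv_mul_le_iff₀ ot]
    refine h2.trans_eq ?_
    field_simp
  · have ρq : 0 < ρ ^ q := by positivity
    have rq : 0 < r ^ q := by positivity
    have h2 := sub t ht
    have or' : 0 < osc F x r := by
      refine or.lt_of_ne fun e => ?_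
      rw [← e, mul_zero] at h2
      linarith
    have h3 : C * osc F x r / r ^ q ≤ osc F x ρ / ρ ^ q := by
      rw [le_div_iff₀ ρq]
      refine le_of_eq_of_le ?_ hlt.le
      rw [Real.div_rpow hρ.le r0.le]
      ring
    have h4 : C * osc F x r / r ^ q ≤ 2 * (2 * (r / t) * osc F x r / t ^ q) :=
      h3.trans (h1.trans (by gcongr))
    rw [div_le_iff₀ rq] at h4
    refine le_of_mul_le_mul_right (h4.trans_eq ?_) or'
    rw [Real.rpow_add_one (by positivity), Real.div_rpow r0.le t0.le]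
    field_simp
    ring

theorem bound {q δ R α C : ℝ} {G : ℂ → Cn n} (hδ : 0 < δ) (hC : 0 ≤ C)
    (H : ∀ (F : ℂ → Cn n) (x : ℂ) (r : ℝ), 0 < r → Wk s (ball x r) F →
      MemLp F 2 (vo (ball x r)) → ContinuousOn F (ball x r) → Hol α C F F x r)
    (h : Nrm s q δ R G) {T : ℝ} (hT : T ∈ Icc 1 R) {z : ℂ} (hz : z ∈ ball (0 : ℂ) (T / 8)) :
    ‖G z‖ ≤ (C + δ⁻¹) * (2 * T ^ q) := by
  have sb : ball (0 : ℂ) T ⊆ ball 0 R := ball_subset_ball hT.2
  have h1 := (H G 0 T (one_pos.trans_le hT.1) (h.sol.2.mono sb)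
    (h.mem.mono_measure (Measure.restrict_mono sb le_rfl)) (h.sol.1.mono sb)).2 z hz
  obtain ⟨h2, h3⟩ := h.gr T hT
  have h4 : ‖av G 0 T‖ ≤ δ⁻¹ * (2 * T ^ q) := (le_inv_mul_iff₀ hδ).2 (h3.trans h2)
  have h5 := mul_le_mul_of_nonneg_left h2 hC
  have h6 := norm_add_le (G z - av G 0 T) (av G 0 T)
  rw [sub_add_cancel] at h6
  linarith

end DegA

open DegA in
theorem deg (k : Kit) (hol : HolS) (cpt : CptS) (n : ℕ) (s : ℝ) (s0 : 0 ≤ s) (s1 : s < 1)
    (li : LiouS n s) : DegS n s := by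
  obtain ⟨ε, hε, li⟩ := li
  obtain ⟨α, C, -, -, hC, H⟩ := hol s s0 s1
  have O := k.osc (Cn n)
  refine ⟨ε, hε, fun δ hδ => ?_⟩
  by_contra hcon
  have key : ∀ j : ℕ, ∃ (R : ℝ) (G : ℂ → Cn n), Nrm s (1 + ε) δ R G ∧
      (j : ℝ) ≤ 4 * R ^ (1 + ε + 1) := fun j => by
    by_contra h
    refine hcon ⟨j, j.cast_nonneg, fun F x r ρ hρ hr hF hm hd => ?_⟩
    by_contra h'
    exact h (blow k (by positivity) j.cast_nonneg hρ hr hF hm hd (not_le.1 h'))
  choose R G hN hR using key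
  have hRt : Tendsto R atTop atTop := by
    refine tendsto_atTop.2 fun b => ?_
    filter_upwards [(tendsto_natCast_atTop_atTop (R := ℝ)).eventually_gt_atTop
      (4 * b ^ (1 + ε + 1))] with j hj
    by_contra h
    have : R j ^ (1 + ε + 1) ≤ b ^ (1 + ε + 1) :=
      Real.rpow_le_rpow (zero_le_one.trans (hN j).one) (not_le.1 h).le (by positivity)
    linarith [hR j]
  have bd : ∀ r : ℝ, 0 ≤ r → ∀ᶠ j in atTop, ∀ z ∈ ball (0 : ℂ) (1 + r),
      ‖G j z‖ ≤ (C + δ⁻¹) * (2 * (8 * (1 + r)) ^ (1 + ε)) := fun r hr => by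
    filter_upwards [hRt.eventually_ge_atTop (8 * (1 + r))] with j hj z hz
    exact bound hδ hC (fun F x r a b c => (H n F x r a b c).2) (hN j) ⟨by linarith, hj⟩
      (by rwa [mul_div_cancel_left₀ _ (by norm_num)])
  obtain ⟨φ, G0, hφ, hG, hu⟩ := cpt n s G R s0 s1 hRt (fun j => (hN j).sol) fun r =>
    ⟨_, (bd |r| (abs_nonneg r)).mono fun j hj z hz =>
      hj z (ball_subset_ball (by linarith [le_abs_self r]) hz)⟩
  have hc := li G0 ((C + δ⁻¹) * (2 * 8 ^ (1 + ε))) hG fun z => by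
    have hz : z ∈ ball (0 : ℂ) (1 + ‖z‖) := by simp
    refine (le_of_tendsto ((hu _).tendsto_at hz).norm
      ((hφ.tendsto_atTop.eventually (bd ‖z‖ (norm_nonneg z))).mono fun j hj => hj z hz)).trans_eq ?_
    rw [Real.mul_rpow (by norm_num) (by positivity)]
    ring
  have h1 := (O.lim (fun j => G (φ j)) G0 0 1 one_pos (Eventually.of_forall fun j =>
    (hN _).mem.mono_measure (Measure.restrict_mono (ball_subset_ball (hN _).one) le_rfl))
    (hu 1)).2
  simp only [fun j => (hN j).o1] at h1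
  have h2 := tendsto_nhds_unique h1 tendsto_const_nhds
  have h3 := (O.sup G0 0 1 (G0 0) 0 one_pos
    ((continuousOn_univ.1 hG.1).aestronglyMeasurable) fun z _ => by simp [hc z]).2.2
  linarith

end Pool.Agent.MP_815c6c_an.Q

end MrgPart3

-- ======== part 4: formerly Pool.Agent.MP_815c6c_an.Q.Dq
section MrgPart4

/-! Planar p-harmonic maps: the difference quotient estimate. -/

set_option autoImplicit false

noncomputable section

namespace Pool.Agent.MP_815c6c_an.Q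

open Set Metric MeasureTheory Filter Topology Complex
open scoped ContDiff ENNReal ComplexConjugate Convolution
open P (vo Ts Cu dz mo bp)
open P.DqR

namespace DqA

lemma conjg {s : ℝ} (hs0 : 0 ≤ s) (hs1 : s < 1) :
    ENNReal.HolderConjugate (ENNReal.ofReal (2 / (s + 1))) (ENNReal.ofReal (2 / (1 - s))) :=
  have hs : 0 < 1 - s := by linarith
  Real.HolderConjugate.ennrealOfReal ⟨by field_simp; ring, by positivity, by positivity⟩

/-- the estimate for one component -/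
lemma comp {s σ r d c C : ℝ} {f a : ℂ → ℂ} {η X D : ℂ → ℝ} {h : ℂ} (hs0 : 0 ≤ s) (hs1 : s < 1)
    (σ0 : 0 < σ) (hd : 0 < d) (hh : ‖h‖ < d) (hη : Ts (ball (0 : ℂ) (r + 2 * d)) η)
    (η0 : ∀ z, 0 ≤ η z) (η1 : ∀ z, η z ≤ 1) (hc : ∀ z, ‖dz η z‖ ≤ c)
    (hf : MemLp f (ENNReal.ofReal (2 / (1 - s))) volume)
    (ha : MemLp a (ENNReal.ofReal (2 / (s + 1))) volume)
    (h1 : Cu (ball 0 (r + 4 * d)) f) (h2 : Cu (ball 0 (r + 4 * d)) fun z => I * a z)
    (X0 : ∀ z, 0 ≤ X z) (iX : Integrable fun z => X z ^ 2)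
    (iE : Integrable fun z => η z ^ 2 * D z ^ 2)
    (hA : ∀ z, ‖a (z + h) - a z‖ ≤ C * (X z ^ s * D z)) :
    Integrable (fun z => η z ^ 2 * ((a (z + h) - a z) * conj (f (z + h) - f z)).re) ∧
    ∫ z, η z ^ 2 * ((a (z + h) - a z) * conj (f (z + h) - f z)).re ≤
      σ * (∫ z, η z ^ 2 * D z ^ 2) + (c * C * ‖h‖) ^ 2 / σ *
        ((∫ z, X z ^ 2) + (∫⁻ z, ‖f z‖ₑ ^ (2 / (1 - s))).toReal) := by
  have hs : 0 < 1 - s := by linarith
  have := conjg hs0 hs1
  set p : ℝ := 2 / (1 - s) with hp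
  have p1 : 1 ≤ p := by rw [hp, le_div_iff₀ hs]; linarith
  have q1 : 1 ≤ 2 / (s + 1) := by rw [le_div_iff₀ (by linarith)]; linarith
  have P1 : 1 ≤ ENNReal.ofReal p := ENNReal.one_le_ofReal.2 p1
  have Q1 : 1 ≤ ENNReal.ofReal (2 / (s + 1)) := ENNReal.one_le_ofReal.2 q1
  obtain ⟨my, ml⟩ := P.mol ℂ _ f P1 ENNReal.ofReal_ne_top hf
  have fl := hf.locallyIntegrable P1
  have sm : ∀ n, ContDiff ℝ ∞ (mo n f) := fun n =>
    (bp n).hasCompactSupport_normed.contDiff_convolution_left _ (bp n).contDiff_normed fl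
  have le : ∀ n, eLpNorm (mo n f) (ENNReal.ofReal p) volume ≤
      eLpNorm f (ENNReal.ofReal p) volume := fun n => by
    have := my _ ((bp n).continuous_normed (μ := volume)) (bp n).hasCompactSupport_normed
    simpa only [abs_of_nonneg ((bp n).nonneg_normed _), (bp n).integral_normed,
      ENNReal.ofReal_one, one_mul, mo] using this
  have mm : ∀ n, MemLp (mo n f) (ENNReal.ofReal p) volume := fun n =>
    ⟨(sm n).continuous.aestronglyMeasurable, (le n).trans_lt hf.2⟩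
  have P0 : ENNReal.ofReal p ≠ 0 := (zero_lt_one.trans_le P1).ne'
  have fin : ∫⁻ z, ‖f z‖ₑ ^ p < ⊤ := by
    have := lintegral_rpow_enorm_lt_top_of_eLpNorm_lt_top P0 ENNReal.ofReal_ne_top hf.2
    rwa [ENNReal.toReal_ofReal (by linarith)] at this
  have le' : ∀ n, ∫⁻ z, ‖mo n f z‖ₑ ^ p ≤ ∫⁻ z, ‖f z‖ₑ ^ p := fun n => by
    have := le n
    rw [eLpNorm_eq_lintegral_rpow_enorm_toReal P0 ENNReal.ofReal_ne_top,
      eLpNorm_eq_lintegral_rpow_enorm_toReal P0 ENNReal.ofReal_ne_top,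
      ENNReal.toReal_ofReal (by linarith)] at this
    exact (ENNReal.rpow_le_rpow_iff (by positivity)).1 this
  set B : ℝ := (∫⁻ z, ‖f z‖ₑ ^ p).toReal
  have ηb : ∀ z, η z ^ 2 ≤ 1 := fun z => pow_le_one₀ (η0 z) (η1 z)
  have ηc : Continuous fun z => η z ^ 2 := hη.1.continuous.pow 2
  set b : ℂ → ℂ := fun z => (η z ^ 2 : ℝ) * (a (z + h) - a z) with hbd
  have hb : MemLp b (ENNReal.ofReal (2 / (s + 1))) volume := by
    refine ((tr ha h).sub ha).of_le ((continuous_ofReal.comp ηc).aestronglyMeasurable.mul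
      ((tr ha h).sub ha).1) (Eventually.of_forall fun z => ?_)
    rw [norm_mul, Complex.norm_real, Real.norm_of_nonneg (sq_nonneg _)]
    exact mul_le_of_le_one_left (norm_nonneg _) (ηb z)
  have eb : (fun z => η z ^ 2 * ((a (z + h) - a z) * conj (f (z + h) - f z)).re) =
      fun z => (b z * conj (f (z + h) - f z)).re := by
    funext z
    simp only [hbd, mul_assoc, re_ofReal_mul]
  rw [eb]
  refine ⟨pair_int hb ((tr hf h).sub hf), ?_⟩
  have lim : Tendsto (fun n => ∫ z, (b z * conj (mo n f (z + h) - mo n f z)).re) atTop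
      (𝓝 (∫ z, (b z * conj (f (z + h) - f z)).re)) := by
    refine pair (g := fun n z => mo n f (z + h) - mo n f z) hb
      (fun n => (tr (mm n) h).sub (mm n)) ((tr hf h).sub hf) ?_
    have l := ml.add ml
    rw [add_zero] at l
    refine tendsto_of_tendsto_of_tendsto_of_le_of_le tendsto_const_nhds l (fun _ => zero_le)
      fun n => ?_
    have m := (mm n).sub hf
    have e : ((fun z => mo n f (z + h) - mo n f z) - fun z => f (z + h) - f z) =
        (mo n f - f) ∘ (· + h) - (mo n f - f) := by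
      funext z
      simp only [Pi.sub_apply, Function.comp]
      ring
    simp only [e]
    refine (eLpNorm_sub_le (tr m h).1 m.1 P1).trans_eq ?_
    rw [← eLpNorm_comp_measurePreserving m.1 (measurePreserving_add_right volume h)]
    rfl
  refine le_of_tendsto lim ?_
  have t : Tendsto (fun n : ℕ => (2 : ℝ) / (n + 1)) atTop (𝓝 0) :=
    tendsto_const_nhds.div_atTop (tendsto_natCast_atTop_atTop.atTop_add tendsto_const_nhds)
  filter_upwards [t.eventually_lt_const hd] with n hn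
  obtain ⟨u, hu⟩ := pot (ρ := r + 3 * d) (sm n) fun z hz => mo_cu fl h1 n z (by
    rw [mem_ball_zero_iff] at hz
    linarith)
  obtain ⟨t1, t2, t3⟩ := test (sm n) hu hη (h := h) (by linarith)
  have al := ha.locallyIntegrable Q1
  have al' := (tr ha h).locallyIntegrable Q1
  have z0 := shift al al' h2 t1 (by linarith)
  have i0 : Integrable fun z => ((a (z + h) - a z) *
      dz (fun z => η z ^ 2 * (u (z + h) - u z)) z).re := (integ (al'.sub al) t1.1 t1.2.1).re
  have i1 : Integrable fun z => (b z * conj (mo n f (z + h) - mo n f z)).re :=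
    pair_int hb ((tr (mm n) h).sub (mm n))
  have ac : Continuous fun z => P.DqR.av (mo n f) h z ^ p :=
    (av_cont (sm n).continuous h).rpow_const fun _ => Or.inr (by linarith)
  have an : ∀ z, 0 ≤ P.DqR.av (mo n f) h z ^ p := fun z => Real.rpow_nonneg (av_nonneg _ _ _) _
  have ab := (av_lint p1 (sm n).continuous h).trans (le' n)
  have ia : Integrable fun z => P.DqR.av (mo n f) h z ^ p :=
    ⟨ac.aestronglyMeasurable,
      (hasFiniteIntegral_iff_ofReal (Eventually.of_forall an)).2 (ab.trans_lt fin)⟩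
  have aB : ∫ z, P.DqR.av (mo n f) h z ^ p ≤ B := by
    rw [integral_eq_lintegral_of_nonneg_ae (Eventually.of_forall an) ia.1]
    exact ENNReal.toReal_mono fin.ne ab
  have i3 : Integrable fun z => X z ^ 2 + P.DqR.av (mo n f) h z ^ p := iX.add ia
  have K0 : 0 ≤ (c * C * ‖h‖) ^ 2 / σ := by positivity
  calc _ = ∫ z, ((b z * conj (mo n f (z + h) - mo n f z)).re - ((a (z + h) - a z) *
        dz (fun z => η z ^ 2 * (u (z + h) - u z)) z).re) := by
        rw [integral_sub i1 i0, z0, sub_zero]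
    _ ≤ ∫ z, (σ * (η z ^ 2 * D z ^ 2) + (c * C * ‖h‖) ^ 2 / σ *
        (X z ^ 2 + P.DqR.av (mo n f) h z ^ p)) := by
        refine integral_mono (i1.sub i0) ((iE.const_mul _).add (i3.const_mul _)) fun z => ?_
        have e : (b z * conj (mo n f (z + h) - mo n f z)).re - ((a (z + h) - a z) *
            dz (fun z => η z ^ 2 * (u (z + h) - u z)) z).re =
            -((a (z + h) - a z) * ((2 * η z * (u (z + h) - u z) : ℝ) * dz η z)).re := by
          rw [t2, ← sub_re, ← neg_re, hbd]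
          congr 1
          ring
        simp only [e]
        by_cases hz : z ∈ ball (0 : ℂ) (r + 2 * d)
        · exact young hs0 hs1 σ0 (X0 z) (av_nonneg _ _ _) (η0 z) (hA z) (hc z) (t3 z hz)
        · rw [dz_zero fun h' => hz (hη.2.2 h')]
          have := an z
          simp only [mul_zero, zero_re, neg_zero]
          positivity
    _ ≤ _ := by
        rw [integral_add (iE.const_mul _) (i3.const_mul _), integral_const_mul,
          integral_const_mul, integral_add iX ia]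
        gcongr

variable {n : ℕ}

lemma tr' {p : ℝ≥0∞} {f : ℂ → Cn n} (hf : MemLp f p volume) (h : ℂ) :
    MemLp (fun z => f (z + h)) p volume :=
  hf.comp_measurePreserving (measurePreserving_add_right volume h)

lemma inn (x y : Cn n) : inner ℝ x y = ∑ a, (x a * conj (y a)).re := by
  rw [real_inner_comm, PiLp.inner_apply]
  exact Finset.sum_congr rfl fun a _ => Complex.inner _ _

lemma pw_mem (pow : Pow (Cn n)) {b : ℝ} (hb : -1 < b) {V : ℂ → Cn n} (hV : MemLp V 2 volume)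
    (a : Fin n) : MemLp (fun z => pw b (V z) a) (ENNReal.ofReal (2 / (b + 1))) volume := by
  have h := hV.norm_rpow_div (ENNReal.ofReal (b + 1))
  rw [ENNReal.toReal_ofReal (by linarith)] at h
  rw [ENNReal.ofReal_div_of_pos (by linarith), ENNReal.ofReal_ofNat]
  have c : Continuous fun w : Cn n => pw b w a := by
    have := pow.cont b hb
    fun_prop
  refine h.of_le (c.comp_aestronglyMeasurable hV.1) (Eventually.of_forall fun z => ?_)
  rw [Real.norm_of_nonneg (by positivity), ← pow.norm b _ hb]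
  exact PiLp.norm_apply_le _ _

lemma main (pow : Pow (Cn n)) {s r R : ℝ} {V : ℂ → Cn n} (hs0 : 0 ≤ s) (hs1 : s < 1)
    (hr : 0 < r) (hrR : r < R) (hV : MemLp V 2 volume) (hw : Wk s (ball 0 R) V) : Dq r V := by
  obtain ⟨d, hd, rfl⟩ : ∃ d, 0 < d ∧ R = r + 4 * d := ⟨(R - r) / 4, by linarith, by ring⟩
  have hs : 0 < 1 - s := by linarith
  have hf := pw_mem pow (b := -s) (by linarith) hV
  rw [neg_add_eq_sub] at hf
  have ha := pw_mem pow (b := s) (by linarith) hV
  let η : ContDiffBump (0 : ℂ) := ⟨r, r + d, hr, by linarith⟩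
  have hη : Ts (ball (0 : ℂ) (r + 2 * d)) η := ⟨η.contDiff, η.hasCompactSupport, by
    rw [η.tsupport_eq]
    exact closedBall_subset_ball (show r + d < _ by linarith)⟩
  obtain ⟨c, hc⟩ := (dz_cont hη.1).bounded_above_of_compact_support (dz_supp hη.2.1)
  obtain ⟨C, C0, hC⟩ := pow.lip s hs0
  set σ : ℝ := (1 - s) / (n + 1) with hσ
  have σ0 : 0 < σ := by positivity
  set N : ℝ := ∫ z, ‖V z‖ ^ 2
  set B : Fin n → ℝ := fun a => (∫⁻ z, ‖pw (-s) (V z) a‖ₑ ^ (2 / (1 - s))).toReal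
  refine ⟨(c * C) ^ 2 / σ * (∑ a, (4 * N + B a)) / σ, d, hd, fun h hh => ?_⟩
  have ηb : ∀ z, η z ^ 2 ≤ 1 := fun z => pow_le_one₀ η.nonneg η.le_one
  have ηc : Continuous fun z => η z ^ 2 := η.continuous.pow 2
  have iV : Integrable fun z => ‖V z‖ ^ 2 := hV.norm.integrable_sq
  have iW : Integrable fun z => ‖V (z + h)‖ ^ 2 := (tr' hV h).norm.integrable_sq
  have iX : Integrable fun z => (‖V (z + h)‖ + ‖V z‖) ^ 2 :=
    ((tr' hV h).norm.add hV.norm).integrable_sq
  have XN : ∫ z, (‖V (z + h)‖ + ‖V z‖) ^ 2 ≤ 4 * N := by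
    refine (integral_mono iX ((iW.const_mul 2).add (iV.const_mul 2)) fun z => ?_).trans_eq ?_
    · simp only [Pi.add_apply]
      nlinarith [sq_nonneg (‖V (z + h)‖ - ‖V z‖)]
    · simp only [Pi.add_apply]
      rw [integral_add (iW.const_mul 2) (iV.const_mul 2), integral_const_mul, integral_const_mul,
        integral_add_right_eq_self (fun z => ‖V z‖ ^ 2) h]
      ring
  have iE : Integrable fun z => η z ^ 2 * ‖V (z + h) - V z‖ ^ 2 :=
    ((tr' hV h).sub hV).norm.integrable_sq.bdd_mul ηc.aestronglyMeasurable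
      (Eventually.of_forall fun z => by rw [Real.norm_of_nonneg (sq_nonneg _)]; exact ηb z)
  set E : ℝ := ∫ z, η z ^ 2 * ‖V (z + h) - V z‖ ^ 2 with hE
  have key := fun a => comp (C := C) hs0 hs1 σ0 hd hh hη (fun _ => η.nonneg) (fun _ => η.le_one) hc
    (hf a) (ha a) (hw a).1 (hw a).2 (X := fun z => ‖V (z + h)‖ + ‖V z‖) (fun _ => by positivity)
    iX iE fun z => (PiLp.norm_apply_le (pw s (V (z + h)) - pw s (V z)) a).trans (hC _ _)
  have low : (1 - s) * E ≤ ∑ a, ∫ z, η z ^ 2 * ((pw s (V (z + h)) a - pw s (V z) a) *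
      conj (pw (-s) (V (z + h)) a - pw (-s) (V z) a)).re := by
    rw [hE, ← integral_const_mul, ← integral_finsetSum _ fun a _ => (key a).1]
    refine integral_mono (iE.const_mul _) (integrable_finsetSum _ fun a _ => (key a).1)
      fun z => ?_
    have := mul_le_mul_of_nonneg_left (pow.mon s (V (z + h)) (V z) hs0 hs1) (sq_nonneg (η z))
    rw [inn, Finset.mul_sum] at this
    simp only [PiLp.sub_apply] at this
    simp only
    linarith
  have fi : E ≤ (c * C) ^ 2 / σ * (∑ a, (4 * N + B a)) / σ * ‖h‖ ^ 2 := by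
    have K0 : 0 ≤ (c * C * ‖h‖) ^ 2 / σ := by positivity
    have := low.trans (Finset.sum_le_sum fun a _ => (key a).2.trans
      (b := _) (c := σ * E + (c * C * ‖h‖) ^ 2 / σ * (4 * N + B a)) (by gcongr))
    rw [Finset.sum_add_distrib, ← Finset.mul_sum, ← Finset.mul_sum, Finset.sum_const,
      Finset.card_univ, Fintype.card_fin, nsmul_eq_mul] at this
    rw [div_mul_eq_mul_div, le_div_iff₀ σ0]
    have e : (c * C * ‖h‖) ^ 2 / σ * ∑ a, (4 * N + B a) =
        (c * C) ^ 2 / σ * (∑ a, (4 * N + B a)) * ‖h‖ ^ 2 := by ring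
    have e' : (1 - s) * E = σ * (n * E) + E * σ := by rw [hσ]; field_simp
    linarith
  refine le_trans ?_ (ENNReal.ofReal_le_ofReal fi)
  rw [hE, ofReal_integral_eq_lintegral_ofReal iE (Eventually.of_forall fun z => by positivity)]
  refine le_trans (le_of_eq ?_) (setLIntegral_le_lintegral (ball 0 r) _)
  refine setLIntegral_congr_fun measurableSet_ball fun z hz => ?_
  simp only [η.one_of_mem_closedBall (ball_subset_closedBall hz), one_pow, one_mul]
  rw [ENNReal.ofReal_pow (norm_nonneg _), ofReal_norm]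

end DqA

theorem dq : PowS → DqS := by
  intro pow n s r R V hs0 hs1 hrR hV hw
  rcases le_or_gt r 0 with hr | hr
  · exact ⟨0, 1, one_pos, fun h _ => by simp [ball_eq_empty.2 hr]⟩
  obtain ⟨C, τ, hτ, H⟩ := DqA.main (pow _) (V := (ball 0 R).indicator V) hs0 hs1 hr hrR
    ((memLp_indicator_iff_restrict measurableSet_ball).2 hV) fun a =>
    ⟨cut (hw a).1 fun z hz => by rw [indicator_of_mem hz],
      cut (hw a).2 fun z hz => by rw [indicator_of_mem hz]⟩
  refine ⟨C, min τ (R - r), lt_min hτ (by linarith), fun h hh => ?_⟩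
  refine le_trans (le_of_eq ?_) (H h (hh.trans_le (min_le_left _ _)))
  refine setLIntegral_congr_fun measurableSet_ball fun z hz => ?_
  have a := hh.trans_le (min_le_right _ _)
  have b : z + h ∈ ball (0 : ℂ) R := by
    rw [mem_ball_zero_iff] at hz ⊢
    linarith [norm_add_le z h]
  simp only [indicator_of_mem b, indicator_of_mem (ball_subset_ball hrR.le hz)]

end Pool.Agent.MP_815c6c_an.Q

end
end MrgPart4

-- ======== part 5: formerly Pool.Agent.MP_815c6c_an.Q.End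
section MrgPart5

/-! Planar p-harmonic maps: the representative and the linear decay. -/

set_option autoImplicit false

namespace Pool.Agent.MP_815c6c_an.Q

open Set Metric MeasureTheory Filter Topology Complex
open scoped ContDiff ENNReal ComplexConjugate
open P (vo Ts Cu)

namespace EndA

variable {n : ℕ}

theorem glu {U : Set ℂ} {f : ℂ → Cn n} (hU : IsOpen U)
    (h : ∀ x ∈ U, ∃ r, 0 < r ∧ ∃ W : ℂ → Cn n, ContDiffOn ℝ 1 W (ball x r) ∧
      W =ᵐ[vo (ball x r)] f) : ∃ W : ℂ → Cn n, ContDiffOn ℝ 1 W U ∧ W =ᵐ[vo U] f := by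
  choose! r hr g c hg using h
  have e : ∀ x ∈ U, ∀ y ∈ U, y ∈ ball x (r x) → g y y = g x y := by
    intro x hx y hy hxy
    refine Measure.eqOn_open_of_ae_eq (μ := volume) (U := ball x (r x) ∩ ball y (r y)) ?_
      (isOpen_ball.inter isOpen_ball) ((c y hy).continuousOn.mono inter_subset_right)
      ((c x hx).continuousOn.mono inter_subset_left) ⟨hxy, mem_ball_self (hr y hy)⟩
    filter_upwards [ae_restrict_of_ae_restrict_of_subset inter_subset_left (hg x hx),
      ae_restrict_of_ae_restrict_of_subset inter_subset_right (hg y hy)] with z a b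
    rw [a, b]
  refine ⟨fun x => g x x, fun x hx => ContDiffAt.contDiffWithinAt ?_, ?_⟩
  · refine ((c x hx).contDiffAt (ball_mem_nhds x (hr x hx))).congr_of_eventuallyEq ?_
    filter_upwards [hU.mem_nhds hx, ball_mem_nhds x (hr x hx)] with y a b
    exact e x hx y a b
  · refine (ae_restrict_iff' hU.measurableSet).2 (ae_iff.2 (measure_null_of_locally_null _ ?_))
    intro x hx
    have hx' : x ∈ U := (Classical.not_imp.1 hx).1
    refine ⟨_, inter_mem_nhdsWithin _ (ball_mem_nhds x (hr x hx')), ?_⟩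
    refine measure_mono_null (fun y hy => ?_)
      (ae_iff.1 ((ae_restrict_iff' measurableSet_ball).1 (hg x hx')))
    exact fun a => hy.1 fun b => (e x hx' y b hy.2).trans (a hy.2)

theorem cont {α C r : ℝ} {F W : ℂ → Cn n} {x : ℂ} (a0 : 0 < α) (h : Hol α C F W x r) :
    ContinuousOn W (ball x (r / 8)) := by
  intro y hy
  refine tendsto_iff_norm_sub_tendsto_zero.2 (squeeze_zero' (Eventually.of_forall fun _ =>
    norm_nonneg _) (eventually_nhdsWithin_of_forall fun z hz => h.1 z hz y hy) ?_)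
  have c : Continuous fun z : ℂ => C * osc F x r * (‖z - y‖ / r) ^ α :=
    continuous_const.mul (Continuous.rpow_const (by fun_prop) fun _ => Or.inr a0.le)
  simpa [Real.zero_rpow a0.ne'] using (c.tendsto y).mono_left nhdsWithin_le_nhds

end EndA

open EndA

theorem ends : Kit → HolS → ∀ n s, 0 ≤ s → s < 1 → CoreS n s → EndS n s := by
  rintro k hol n s s0 s1 ⟨C, C0, core⟩
  obtain ⟨α, C', a0, -, -, hol⟩ := hol s s0 s1
  have o := k.osc (Cn n)
  refine ⟨2 * C + 32, fun U F hU hF hK => ?_⟩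
  have rep : ∃ W : ℂ → Cn n, ContDiffOn ℝ 1 W U ∧ W =ᵐ[vo U] F := by
    refine glu hU fun x hx => ?_
    obtain ⟨r, r0, hr⟩ := nhds_basis_closedBall.mem_iff.1 (hU.mem_nhds hx)
    have w := hF.mono (ball_subset_closedBall.trans hr)
    have m : MemLp F 2 (vo (ball x r)) := (hK _ hr (isCompact_closedBall x r)).mono_measure
      (Measure.restrict_mono ball_subset_closedBall le_rfl)
    obtain ⟨W, e, h⟩ := (hol n F x r r0 w m).1
    have b : ball x (r / 8) ⊆ ball x r := ball_subset_ball (by linarith)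
    refine ⟨r / 8 / 4, by positivity, W, (core W x (r / 8) (by positivity) ⟨cont a0 h,
      (k.sca n s _ F (w.mono b)).2 W measurableSet_ball e⟩ ((memLp_congr_ae e).2
      (m.mono_measure (Measure.restrict_mono b le_rfl)))).1,
      ae_restrict_of_ae_restrict_of_subset (ball_subset_ball (by linarith)) e⟩
  refine ⟨rep, fun x r r0 hr m θ hθ => ?_⟩
  obtain ⟨W, c, e⟩ := rep
  have θ0 := hθ.1
  have O0 := o.nn F x r
  have sub : ball x (θ * r) ⊆ ball x r := ball_subset_ball (mul_le_of_le_one_left r0.le hθ.2)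
  rcases le_total θ (1 / 4) with h | h
  · have e1 : W =ᵐ[vo (ball x r)] F := ae_restrict_of_ae_restrict_of_subset hr e
    obtain ⟨d, b⟩ := core W x r r0 ⟨c.continuousOn.mono hr,
      (k.sca n s _ F (hF.mono hr)).2 W measurableSet_ball e1⟩ ((memLp_congr_ae e1).2 m)
    rw [(o.congr W F x r e1).2] at b
    have ss : ball x (θ * r) ⊆ ball x (r / 4) := ball_subset_ball (by nlinarith)
    rw [← (o.congr W F x _ (ae_restrict_of_ae_restrict_of_subset sub e1)).2]
    refine (o.sup W x (θ * r) (W x) (C * osc F x r * θ) (by positivity)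
      ((d.continuousOn.mono ss).aestronglyMeasurable measurableSet_ball) fun z hz => ?_).2.2.trans
      (by nlinarith [mul_nonneg θ0.le O0])
    refine ((convex_ball x (r / 4)).norm_image_sub_le_of_norm_fderiv_le (𝕜 := ℝ)
      (fun y hy => (d.contDiffAt (isOpen_ball.mem_nhds hy)).differentiableAt one_ne_zero) b
      (mem_ball_self (by positivity)) (ss hz)).trans ?_
    refine (mul_le_mul_of_nonneg_left (mem_ball_iff_norm.1 hz).le (by positivity)).trans_eq ?_
    field_simp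
  · refine (o.sub F x r x (θ * r) (by positivity) sub m).2.trans
      (mul_le_mul_of_nonneg_right ?_ O0)
    rw [mul_div_assoc', div_le_iff₀ (by positivity)]
    nlinarith [mul_nonneg (mul_nonneg C0 θ0.le) (mul_pos θ0 r0).le, mul_nonneg r0.le
      (show 0 ≤ 16 * θ ^ 2 - 1 by nlinarith)]

end Pool.Agent.MP_815c6c_an.Q

end MrgPart5

-- ======== part 6: formerly Pool.Agent.MP_815c6c_an.Q.Hol
section MrgPart6

/-! Planar p-harmonic maps: the Hölder estimate by hole filling. -/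

set_option autoImplicit false

namespace Pool.Agent.MP_815c6c_an.Q

open Set Metric MeasureTheory Filter Topology Complex
open scoped ContDiff ENNReal ComplexConjugate
open P (vo Ts Cu)

namespace HolA

/-- an exponent for a contraction factor -/
theorem expo {θ : ℝ} (h1 : θ < 1) : ∃ α : ℝ, 0 < α ∧ α ≤ 1 ∧ θ * 2 ^ (2 * α) ≤ 1 := by
  have hc : ContinuousAt (fun α : ℝ => θ * 2 ^ (2 * α)) 0 := by
    have : Continuous fun α : ℝ => (2 : ℝ) ^ (2 * α) :=
      Real.continuous_const_rpow two_ne_zero |>.comp (continuous_const.mul continuous_id)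
    exact (continuous_const.mul this).continuousAt
  have hev : ∀ᶠ α : ℝ in 𝓝 0, θ * 2 ^ (2 * α) < 1 := hc.eventually_lt continuousAt_const (by simpa)
  obtain ⟨ε, hε, h⟩ := Metric.eventually_nhds_iff.1 hev
  refine ⟨min (ε / 2) 1, by positivity, min_le_right _ _, (h ?_).le⟩
  rw [Real.dist_eq, sub_zero, abs_of_pos (by positivity)]
  exact (min_le_left _ _).trans_lt (by linarith)

/-- the dyadic iteration -/
theorem iter {Φ : ℝ → ℝ} {θ β R : ℝ} (hβ : 0 ≤ β) (hθ0 : 0 ≤ θ) (hθ : θ * 2 ^ β ≤ 1) (hR : 0 < R)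
    (h0 : 0 ≤ Φ R) (hm : ∀ ρ, 0 < ρ → ρ ≤ R → Φ ρ ≤ Φ R)
    (hs : ∀ ρ, 0 < ρ → 2 * ρ ≤ R → Φ ρ ≤ θ * Φ (2 * ρ)) (ρ : ℝ) (hρ : 0 < ρ) (hρR : ρ ≤ R) :
    Φ ρ ≤ (2 * ρ / R) ^ β * Φ R := by
  have key : ∀ n : ℕ, ∀ ρ, 0 < ρ → ρ ≤ R → R ≤ 2 ^ n * ρ → Φ ρ ≤ (2 * ρ / R) ^ β * Φ R := by
    have big : ∀ ρ, 0 < ρ → ρ ≤ R → R ≤ 2 * ρ → Φ ρ ≤ (2 * ρ / R) ^ β * Φ R := fun ρ a b c =>
      (hm ρ a b).trans (le_mul_of_one_le_left h0 (Real.one_le_rpow ((one_le_div hR).2 c) hβ))
    intro n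
    induction n with
    | zero => intro ρ a b c; exact big ρ a b (by simp at c; linarith)
    | succ n ih =>
      intro ρ a b c
      rcases le_total R (2 * ρ) with h | h
      · exact big ρ a b h
      · have h2 := ih (2 * ρ) (by linarith) h (by rw [pow_succ] at c; linarith)
        have h3 : (2 * (2 * ρ) / R) ^ β = 2 ^ β * (2 * ρ / R) ^ β := by
          rw [mul_div_assoc, Real.mul_rpow (by norm_num) (by positivity)]
        have h4 : 0 ≤ (2 * ρ / R) ^ β * Φ R := by positivity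
        calc Φ ρ ≤ θ * Φ (2 * ρ) := hs ρ a h
          _ ≤ θ * (2 ^ β * (2 * ρ / R) ^ β * Φ R) := by rw [← h3]; gcongr
          _ = θ * 2 ^ β * ((2 * ρ / R) ^ β * Φ R) := by ring
          _ ≤ 1 * ((2 * ρ / R) ^ β * Φ R) := by gcongr
          _ = _ := one_mul _
  obtain ⟨n, hn⟩ := pow_unbounded_of_one_lt (R / ρ) (one_lt_two (α := ℝ))
  exact key n ρ hρ hρR ((div_lt_iff₀ hρ).1 hn).le

theorem en_diff {E : Type} [NormedAddCommGroup E] {f : ℂ → E} {U U' : Set ℂ} (h : U' ⊆ U)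
    (hU : MeasurableSet U') (hf : MemLp f 2 (vo U)) : en (U \ U') f = en U f - en U' f :=
  setIntegral_sdiff hU ((memLp_two_iff_integrable_sq_norm hf.1).1 hf) h

theorem en_zero (U : Set ℂ) : en U (fun _ => (0 : ℝ)) = 0 := by simp [en]

/-- the Caccioppoli inequality without right hand side -/
def Ca (k C : ℝ) : Prop := ∀ (n : ℕ) (u : ℂ → Cn n) (D : ℂ → L (Cn n)) (c : Cn n) (x : ℂ) (r : ℝ),
  0 < r → Sb (ball x (2 * r)) u D → (∀ᵐ z ∂vo (ball x (2 * r)), ‖zb (D z)‖ ≤ k * ‖zd (D z)‖) →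
  en (ball x r) D ≤ C * ((r ^ 2)⁻¹ * en (ball x (2 * r) \ ball x r) fun z => u z - c)

theorem ca (h : CacS) {k : ℝ} (h0 : 0 ≤ k) (h1 : k < 1) : ∃ C, 0 ≤ C ∧ Ca k C := by
  obtain ⟨C, hC, h⟩ := h k h0 h1
  refine ⟨C, hC, fun n u D c x r hr hs he => ?_⟩
  have := h n u D (fun _ => 0) c x r hr hs (memLp_const 0) (he.mono fun z a => by simpa using a)
  rwa [en_zero, add_zero] at this

/-- the decay of the oscillation -/
theorem decay (ki : Kit) (nat : NatS) (cac : CacS) (poi : PoiS) {s : ℝ} (s0 : 0 ≤ s) (s1 : s < 1) :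
    ∃ α K : ℝ, 0 < α ∧ α ≤ 1 ∧ 0 ≤ K ∧ ∀ (n : ℕ) (F : ℂ → Cn n) (x : ℂ) (r : ℝ), 0 < r →
      Wk s (ball x r) F → MemLp F 2 (vo (ball x r)) → ∀ y ∈ ball x (r / 8),
      ∀ ρ ∈ Ioc (0 : ℝ) (r / 8), osc F y ρ ≤ K * osc F x r * (ρ / (r / 8)) ^ α := by
  obtain ⟨Cc, hCc, hc⟩ := ca cac (k := s / (2 - s)) (div_nonneg s0 (by linarith))
    ((div_lt_one (by linarith)).2 (by linarith))
  obtain ⟨Cp, hCp, hp⟩ := poi
  have hC1 : 0 ≤ Cc * Cp := mul_nonneg hCc hCp
  obtain ⟨α, a0, a1, hα⟩ := expo (θ := Cc * Cp / (1 + Cc * Cp))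
    ((div_lt_one (by linarith)).2 (by linarith))
  refine ⟨α, 2 * √(Cp * Cc * (64 / 9)), a0, a1, by positivity, ?_⟩
  intro n F x r hr hw hF y hy ρ hρ
  obtain ⟨D, hs, he⟩ := nat n s (3 * r / 4) r x F s0 s1 (by linarith) hF hw
  have he' : ∀ᵐ z ∂vo (ball x (3 * r / 4)), ‖zb (D z)‖ ≤ s / (2 - s) * ‖zd (D z)‖ :=
    he.mono fun z a => by simpa [a.1] using (ki.alg n).gar s (F z) (D z) s0 s1
  have oF := ki.osc (Cn n)
  have oD := ki.osc (L (Cn n))
  have hy' : dist y x < r / 8 := hy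
  have sub : ∀ t R : ℝ, t + r / 8 ≤ R → ball y t ⊆ ball x R := fun t R h =>
    ball_subset_ball' (by linarith)
  have o0 := oF.nn F x r
  -- the energy on the large disc
  have e1 : en (ball x (3 * r / 8)) D ≤ Cc * (64 / 9) * Real.pi * osc F x r ^ 2 := by
    have e2 : 2 * (3 * r / 8) = 3 * r / 4 := by ring
    have h1 := hc n F D (av F x r) x (3 * r / 8) (by linarith) (by rwa [e2]) (by rwa [e2])
    have h2 := oF.mono (fun z => F z - av F x r) (ball x r)
      (ball x (2 * (3 * r / 8)) \ ball x (3 * r / 8))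
      (sdiff_subset.trans (ball_subset_ball (by linarith))) (hF.sub (memLp_const _))
    rw [oF.en_eq F x r hr] at h2
    refine h1.trans ?_
    calc _ ≤ Cc * (((3 * r / 8) ^ 2)⁻¹ * (Real.pi * r ^ 2 * osc F x r ^ 2)) := by gcongr
      _ = _ := by field_simp; ring
  -- hole filling
  have step : ∀ t, 0 < t → 2 * t ≤ r / 4 →
      en (ball y t) D ≤ Cc * Cp / (1 + Cc * Cp) * en (ball y (2 * t)) D := by
    intro t ht h2
    have hsub := sub (2 * t) (3 * r / 4) (by linarith)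
    have hs' := hs.mono hsub
    obtain ⟨c, h3⟩ := (hp (Cn n) F D y t ht).2 hs'
    have h4 := hc n F D c y t ht hs' (ae_restrict_of_ae_restrict_of_subset hsub he')
    rw [en_diff (ball_subset_ball (by linarith)) measurableSet_ball hs'.memLp.2] at h3
    have h5 : en (ball y t) D ≤ Cc * Cp * (en (ball y (2 * t)) D - en (ball y t) D) := by
      refine h4.trans ?_
      calc _ ≤ Cc * ((t ^ 2)⁻¹ * (Cp * t ^ 2 * (en (ball y (2 * t)) D - en (ball y t) D))) := by
            gcongr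
        _ = _ := by field_simp
    rw [div_mul_eq_mul_div, le_div_iff₀ (by linarith)]
    linarith
  have hs4 := hs.mono (sub (r / 4) (3 * r / 4) (by linarith))
  have it := iter (Φ := fun t => en (ball y t) D) (β := 2 * α) (R := r / 4) (by positivity)
    (by positivity) hα (by linarith) (en_nonneg _ _)
    (fun t _ h => oD.mono D _ _ (ball_subset_ball h) hs4.memLp.2) step ρ hρ.1 (by linarith [hρ.2])
  have e3 : en (ball y (r / 4)) D ≤ en (ball x (3 * r / 8)) D :=
    oD.mono D _ _ (sub _ _ (by linarith)) (hs.mono (ball_subset_ball (by linarith))).memLp.2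
  have e4 : 2 * ρ / (r / 4) = ρ / (r / 8) := by field_simp; ring
  have hρ0 := hρ.1
  have hq : 0 ≤ ρ / (r / 8) := by positivity
  rw [e4, mul_comm 2 α, Real.rpow_mul hq, Real.rpow_two] at it
  have hsρ := hs.mono (sub ρ (3 * r / 4) (by linarith [hρ.2]))
  obtain ⟨c, h6⟩ := (hp (Cn n) F D y ρ hρ.1).1 hsρ
  have hB := (oF.le F y ρ c (√(Cp * Cc * (64 / 9)) * osc F x r * (ρ / (r / 8)) ^ α) hρ.1
    (by positivity) hsρ.memLp.1 (h6.trans ?_)).2
  · linarith
  · calc _ ≤ Cp * ρ ^ 2 * (((ρ / (r / 8)) ^ α) ^ 2 * (Cc * (64 / 9) * Real.pi * osc F x r ^ 2)) := by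
          have := e3.trans e1
          refine mul_le_mul_of_nonneg_left (it.trans ?_) (by positivity)
          gcongr
      _ = _ := by rw [mul_pow, mul_pow, Real.sq_sqrt (by positivity)]; ring

theorem cont_of {E : Type} [NormedAddCommGroup E] {W : ℂ → E} {U : Set ℂ} {A α r : ℝ} (hα : 0 < α)
    (h : ∀ y ∈ U, ∀ y' ∈ U, ‖W y - W y'‖ ≤ A * (‖y - y'‖ / r) ^ α) : ContinuousOn W U := by
  intro y hy
  rw [ContinuousWithinAt, tendsto_iff_norm_sub_tendsto_zero]
  have h1 : Tendsto (fun z : ℂ => A * (‖z - y‖ / r) ^ α) (𝓝 y) (𝓝 0) := by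
    have : Continuous fun z : ℂ => A * (‖z - y‖ / r) ^ α :=
      continuous_const.mul ((((continuous_id.sub continuous_const).norm).div_const r).rpow_const
        fun _ => Or.inr hα.le)
    simpa [Real.zero_rpow hα.ne'] using this.tendsto y
  exact squeeze_zero' (Eventually.of_forall fun _ => norm_nonneg _)
    (eventually_nhdsWithin_of_forall fun z hz => h z hz y hy) (h1.mono_left nhdsWithin_le_nhds)

end HolA

open HolA in
theorem hol (ki : Kit) (nat : NatS) (cac : CacS) (poi : PoiS) (cam : CamS) : HolS := by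
  intro s s0 s1
  obtain ⟨α, K, a0, a1, hK, hd⟩ := decay ki nat cac poi s0 s1
  obtain ⟨Cm, hCm, hm⟩ := cam α a0 a1
  refine ⟨α, 8 * Cm * K + 8, a0, a1, by positivity, ?_⟩
  intro n F x r hr hw hF
  have oF := ki.osc (Cn n)
  have o0 := oF.nn F x r
  obtain ⟨W, hW, h1, h2⟩ := hm (Cn n) F x (r / 8) (K * osc F x r) (by positivity) (by positivity)
    (hF.mono_measure (Measure.restrict_mono (ball_subset_ball (by linarith)) le_rfl))
    (hd n F x r hr hw hF)
  have hH : Hol α (8 * Cm * K + 8) F W x r := by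
    refine ⟨fun y hy y' hy' => (h1 y hy y' hy').trans ?_, fun y hy => ?_⟩
    · have e : ‖y - y'‖ / (r / 8) = 8 * (‖y - y'‖ / r) := by field_simp
      have h8 : (8 : ℝ) ^ α ≤ 8 := by
        simpa using Real.rpow_le_rpow_of_exponent_le (x := 8) (by norm_num) a1
      have hq : 0 ≤ (‖y - y'‖ / r) ^ α := by positivity
      rw [e, Real.mul_rpow (by norm_num) (by positivity)]
      calc _ ≤ Cm * (K * osc F x r) * (8 * (‖y - y'‖ / r) ^ α) := by gcongr
        _ ≤ _ := by nlinarith [mul_nonneg o0 hq]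
    · have h3 := (oF.sub F x r x (r / 8) (by positivity) (ball_subset_ball (by linarith)) hF).1
      have e : r / (r / 8) = 8 := by field_simp
      rw [e] at h3
      have h4 := norm_sub_le_norm_sub_add_norm_sub (W y) (av F x (r / 8)) (av F x r)
      have h5 := h2 y hy
      nlinarith [mul_nonneg hCm (mul_nonneg hK o0)]
  refine ⟨⟨W, hW, hH⟩, fun hc => ?_⟩
  have e := Measure.eqOn_open_of_ae_eq hW isOpen_ball (cont_of a0 hH.1)
    (hc.mono (ball_subset_ball (by linarith)))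
  exact ⟨fun y hy y' hy' => by rw [← e hy, ← e hy']; exact hH.1 y hy y' hy',
    fun y hy => by rw [← e hy]; exact hH.2 y hy⟩

end Pool.Agent.MP_815c6c_an.Q

end MrgPart6

-- ======== part 7: formerly Pool.Agent.MP_815c6c_an.Q.Nat
section MrgPart7

/-! Planar p-harmonic maps: weak solutions are Sobolev maps and solve the first order system. -/

set_option autoImplicit false

noncomputable section

namespace Pool.Agent.MP_815c6c_an.Q

open Set Metric MeasureTheory Filter Topology Complex Bornology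
open scoped ContDiff ENNReal ComplexConjugate
open P (vo Ts Cu ml)

namespace NatA

variable {n : ℕ}

/-- the coordinates and the coordinate axes -/
def pr (a : Fin n) : Cn n →L[ℝ] ℂ := (EuclideanSpace.proj a : Cn n →L[ℂ] ℂ).restrictScalars ℝ
def sg (a : Fin n) : ℂ →L[ℝ] Cn n :=
  ((1 : ℂ →L[ℂ] ℂ).smulRight (EuclideanSpace.single a (1 : ℂ))).restrictScalars ℝ

theorem pr_apply (a : Fin n) (w : Cn n) : pr a w = w a := rfl

theorem sum_sg (w : Cn n) : ∑ a, sg a (pr a w) = w := by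
  ext b
  simp [sg, pr_apply, Pi.single_apply]

section
variable {E E' : Type} [NormedAddCommGroup E] [NormedSpace ℝ E] [NormedAddCommGroup E']
  [NormedSpace ℝ E'] {U : Set ℂ}

theorem sb_clm (sob : SobS) (A : E →L[ℝ] E') (hU : IsBounded U) {u : ℂ → E} {D : ℂ → L E}
    (h : Sb U u D) : Sb U (fun z => A (u z)) fun z => A.comp (D z) := by
  have := (sob E).chain E' U u D A ‖A‖ hU h A.contDiff fun w => by rw [A.fderiv]
  simpa only [A.fderiv] using this

theorem sb_sum (sob : SobS) (hU : IsBounded U) (hm : MeasurableSet U) {ι : Type} (u : ι → ℂ → E)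
    (h : ∀ a, ∃ D, Sb U (u a) D) (s : Finset ι) : ∃ D, Sb U (fun z => ∑ a ∈ s, u a z) D := by
  classical
  induction s using Finset.induction_on with
  | empty => exact ⟨_, (sob E).sm U _ hU hm contDiff_const⟩
  | insert a s ha ih =>
    obtain ⟨D, hD⟩ := ih
    obtain ⟨D', hD'⟩ := h a
    refine ⟨_, ((sob E).lin U _ _ _ _ 1 1 0 0 hU hm hD' hD).congr
      (Eventually.of_forall fun z => ?_) EventuallyEq.rfl⟩
    simp [Finset.sum_insert ha]
end

theorem mem_pw (pow : PowS) {a r : ℝ} {V : ℂ → Cn n} (ha : |a| < 1)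
    (hV : MemLp V 4 (vo (ball 0 r))) : MemLp (fun z => pw a (V z)) 2 (vo (ball 0 r)) := by
  have h2 : MemLp (fun z => ‖V z‖ ^ (2 : ℝ≥0∞).toReal) (4 / 2) (vo (ball 0 r)) :=
    hV.norm_rpow_div 2
  have e : (4 : ℝ≥0∞) / 2 = 2 := by
    rw [ENNReal.div_eq_inv_mul, show (4 : ℝ≥0∞) = 2 * 2 by norm_num, ← mul_assoc,
      ENNReal.inv_mul_cancel (by norm_num) (by norm_num), one_mul]
  rw [e] at h2
  have h3 := (memLp_const (p := 2) (μ := vo (ball (0 : ℂ) r)) (1 : ℝ)).add h2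
  refine h3.mono' (((pow _).cont a (abs_lt.1 ha).1).comp_aestronglyMeasurable hV.1)
    (Eventually.of_forall fun z => ?_)
  rw [(pow _).norm a _ (abs_lt.1 ha).1]
  simp only [Pi.add_apply, ENNReal.toReal_ofNat]
  rcases le_total ‖V z‖ 1 with h | h
  · exact (Real.rpow_le_one (norm_nonneg _) h (by linarith [(abs_lt.1 ha).1])).trans
      (le_add_of_nonneg_right (by positivity))
  · exact (Real.rpow_le_rpow_of_exponent_le h (by linarith [(abs_lt.1 ha).2])).trans
      (le_add_of_nonneg_left zero_le_one)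

/-- the statement for discs with centre `0` -/
theorem nat0 (k : Kit) (dq : DqS) (wk : WkS) (pt : PtS) {s r R : ℝ} {V : ℂ → Cn n} (s0 : 0 ≤ s)
    (s1 : s < 1) (hr : r < R) (hV : MemLp V 2 (vo (ball 0 R))) (hW : Wk s (ball 0 R) V) :
    ∃ D, Sb (ball 0 r) V D ∧
      ∀ᵐ z ∂vo (ball 0 r), Op s (V z) (D z) = 0 ∧ (V z = 0 → D z = 0) := by
  have hs : |s| < 1 := by rwa [abs_of_nonneg s0]
  have hs' : |-s| < 1 := by rwa [abs_neg]
  obtain ⟨D, hD⟩ := (wk n).1 ((2 * r + R) / 3) ((r + 2 * R) / 3) R V (by linarith) (by linarith) hV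
    (dq n s _ R V s0 s1 (by linarith) hV hW)
  have h4 := (wk n).2 r _ V D (by linarith) hD
  have hD' : Sb (ball 0 r) V D := hD.mono (ball_subset_ball (by linarith))
  have hW' := hW.mono (ball_subset_ball hr.le)
  have sm := (k.pow (Cn n)).sm
  have p1 := ae_all_iff.2 fun a : Fin n => pt n r V (fun w => pr a (pw (-s) w)) D hD'
    ((pr a).contDiff.comp_contDiffOn (sm _)) ((pr a).comp_memLp' (mem_pw k.pow hs' h4)) (hW' a).1
  have p2 := ae_all_iff.2 fun a : Fin n => pt n r V (fun w => I * pr a (pw s w)) D hD'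
    (contDiffOn_const.mul ((pr a).contDiff.comp_contDiffOn (sm _)))
    (((pr a).comp_memLp' (mem_pw k.pow hs h4)).const_mul I) (hW' a).2
  have p3 := (k.part _ _ V D isOpen_ball isBounded_ball hD').2.1
  refine ⟨D, hD', ?_⟩
  filter_upwards [p1, p2, p3] with z a b c
  refine ⟨?_, c⟩
  by_cases h0 : V z = 0
  · simp [Op, zb, lz, c h0]
  have hd : ∀ t : ℝ, HasFDerivAt (pw t) (fderiv ℝ (pw t) (V z)) (V z) := fun t =>
    (((sm t).contDiffAt (isOpen_compl_singleton.mem_nhds h0)).differentiableAt (by simp)).hasFDerivAt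
  have hp : ∀ (t : ℝ) (i : Fin n), HasFDerivAt (fun w => pr i (pw t w))
      ((pr i).comp (fderiv ℝ (pw t) (V z))) (V z) := fun t i => (pr i).hasFDerivAt.comp _ (hd t)
  refine (k.alg n).sys _ _ _ h0 (fun i => ?_) fun i => ?_
  · have := a i h0
    rwa [(hp _ i).fderiv] at this
  · have := b i h0
    rw [((hp _ i).const_mul I).fderiv] at this
    simp only [smul_apply, smul_eq_mul, ← mul_add] at this
    rwa [mul_im, I_re, I_im, zero_mul, one_mul, zero_add] at this

end NatA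

open NatA

theorem wk : SobS → WkS := by
  intro sob n
  refine ⟨fun r R R' V h1 h2 hV hq => ?_, fun r R V D h hD => ?_⟩
  · have := sb_sum sob isBounded_ball measurableSet_ball (fun a z => sg a (pr a (V z)))
      (U := ball 0 r) (fun a => ?_) Finset.univ
    · simpa only [sum_sg] using this
    obtain ⟨C, τ, hτ, hq⟩ := hq
    have le : ∀ v w : Cn n, ‖pr a v - pr a w‖ₑ ^ 2 ≤ ‖v - w‖ₑ ^ 2 := fun v w => by
      rw [← map_sub, ← ofReal_norm, ← ofReal_norm]
      gcongr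
      exact PiLp.norm_apply_le (v - w) a
    obtain ⟨D, hD⟩ := P.wk P.kit P.mol r R R' (fun z => pr a (V z)) h1 h2 ((pr a).comp_memLp' hV)
      ⟨C, τ, hτ, fun h hh => le_trans (lintegral_mono fun z => le _ _) (hq h hh)⟩
    exact ⟨_, sb_clm sob (sg a) isBounded_ball (sb_iff.2 hD)⟩
  · have := memLp_finsetSum (p := 4) (μ := vo (ball 0 r)) (f := fun a z => sg a (pr a (V z)))
      Finset.univ fun a _ => (sg a).comp_memLp' (P.four.1 r R _ _ h
        (sb_iff.1 (sb_clm sob (pr a) isBounded_ball hD)))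
    simpa only [sum_sg] using this

theorem nat : Kit → DqS → WkS → PtS → NatS := by
  intro k dq wk pt n s r R x V s0 s1 hr hV hW
  have o := fun ρ => (k.osc (Cn n)).sca V x 1 1 ρ one_pos zero_le_one
  obtain ⟨D, hD, hE⟩ := nat0 k dq wk pt s0 s1 hr ((o R).2.2.2.1 (by rwa [one_mul]))
    ((k.sca n s _ V hW).1 (ball 0 R) x 1 1 one_pos one_pos fun z hz => by simpa using hz)
  have e : ∀ z : ℂ, x + (1 : ℝ) * (-x + 1 * z) = z := fun z => by simp
  have e' : ∀ z : ℂ, -x + 1 * (x + (1 : ℝ) * z) = z := fun z => by simp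
  have m : ∀ N : L (Cn n), N.comp (ml 1) = N := fun N => by
    ext z
    simp [ml]
  have := (k.sob _).sca _ (ball x r) _ D (-x) 1 one_ne_zero measurableSet_ball
    (fun z hz => by simpa [neg_add_eq_sub, dist_eq_norm] using hz) hD
  simp only [e, m, one_smul] at this
  refine ⟨_, this, ?_⟩
  have t := ((o r).2.2.2.2 fun z => Op s (V z) (D (-x + 1 * z)) = 0 ∧
    (V z = 0 → D (-x + 1 * z) = 0)).2 (by simpa only [e', one_smul] using hE)
  rwa [one_mul] at t

end Pool.Agent.MP_815c6c_an.Q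

end
end MrgPart7

-- ======== part 8: formerly Pool.Agent.MP_815c6c_an.Q.Pow
section MrgPart8

/-! Planar p-harmonic maps: radial powers, invariance of the weak equations. -/

set_option autoImplicit false

namespace Pool.Agent.MP_815c6c_an.Q

open Set Metric MeasureTheory Filter Topology Complex
open scoped ContDiff ENNReal ComplexConjugate
open P (vo Ts Cu)

namespace PowA

section
variable {E : Type} [NormedAddCommGroup E] [InnerProductSpace ℝ E]

theorem norm_pw (a : ℝ) (w : E) (ha : -1 < a) : ‖pw a w‖ = ‖w‖ ^ (a + 1) := by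
  rw [pw, norm_smul, Real.norm_of_nonneg (Real.rpow_nonneg (norm_nonneg _) _),
    Real.rpow_add_one' (norm_nonneg _) (by linarith)]

omit [InnerProductSpace ℝ E] in
theorem sq_rpow (a : ℝ) (w : E) : (‖w‖ ^ 2) ^ (a / 2) = ‖w‖ ^ a := by
  rw [← Real.rpow_natCast, ← Real.rpow_mul (norm_nonneg _)]
  congr 1
  push_cast
  ring

theorem pw_eq (a : ℝ) : (pw a : E → E) = fun w => (‖w‖ ^ 2) ^ (a / 2) • w := funext fun w => by
  rw [pw, sq_rpow]

theorem smooth (a : ℝ) {w : E} (h : w ≠ 0) : ContDiffAt ℝ ∞ (pw a : E → E) w := by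
  rw [pw_eq]
  exact ((contDiff_norm_sq ℝ).contDiffAt.rpow_const_of_ne (by simpa using h)).smul contDiffAt_id

theorem der (a : ℝ) (w X : E) (h : w ≠ 0) :
    fderiv ℝ (pw a) w X = ‖w‖ ^ a • (X + (a * inner ℝ w X / ‖w‖ ^ 2) • w) := by
  have h0 : ‖w‖ ^ 2 ≠ 0 := by simpa using h
  have h1 := ((hasStrictFDerivAt_norm_sq w).hasFDerivAt.rpow_const (p := a / 2)
    (.inl h0)).smul (hasFDerivAt_id w)
  rw [pw_eq, show fderiv ℝ (fun w : E => (‖w‖ ^ 2) ^ (a / 2) • w) w = _ from h1.fderiv]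
  simp only [_root_.add_apply, _root_.smul_apply, ContinuousLinearMap.smulRight_apply,
    ContinuousLinearMap.id_apply, innerSL_apply_apply, id, smul_eq_mul, nsmul_eq_mul,
    Real.rpow_sub_one h0, sq_rpow, smul_add, smul_smul]
  congr 2
  push_cast
  ring

theorem inner_eq (p q p' q' : ℝ) (x y : E) : inner ℝ (p • x - q • y) (p' • x - q' • y) =
    p * p' * ‖x‖ ^ 2 + q * q' * ‖y‖ ^ 2 - (p * q' + q * p') * inner ℝ x y := by
  simp only [inner_sub_left, inner_sub_right, real_inner_smul_left, real_inner_smul_right,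
    real_inner_self_eq_norm_sq, real_inner_comm x y]
  ring

theorem mono (s : ℝ) (x y : E) (h0 : 0 ≤ s) (h1 : s < 1) :
    (1 - s) * ‖x - y‖ ^ 2 ≤ inner ℝ (pw s x - pw s y) (pw (-s) x - pw (-s) y) := by
  have e : ∀ w : E, ‖w‖ ^ s * ‖w‖ ^ (-s) * ‖w‖ ^ 2 = ‖w‖ ^ 2 := fun w => by
    rcases (norm_nonneg w).eq_or_lt with h | h
    · simp [← h]
    · rw [← Real.rpow_add h]
      simp
  simp only [pw]
  rw [inner_eq, norm_sub_sq_real, e, e]
  by_cases hx : x = 0
  · simp only [hx, norm_zero, inner_zero_left]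
    nlinarith [sq_nonneg ‖y‖]
  by_cases hy : y = 0
  · simp only [hy, norm_zero, inner_zero_right]
    nlinarith [sq_nonneg ‖x‖]
  have r0 := norm_pos_iff.2 hx
  have t0 := norm_pos_iff.2 hy
  have k : ∀ r t : ℝ, 0 < r → 0 < t → r ^ s * t ^ (-s) * (r * t) ≤ s * r ^ 2 + (1 - s) * (r * t) :=
    fun r t hr ht => by
      have := Real.geom_mean_le_arith_mean2_weighted h0 (sub_nonneg.2 h1.le) hr.le ht.le (by ring)
      rw [show 1 - s = -s + 1 by ring, Real.rpow_add_one ht.ne'] at this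
      nlinarith [mul_le_mul_of_nonneg_left this hr.le]
  have k1 := k _ _ r0 t0
  have k2 := k _ _ t0 r0
  have a0 : 0 < ‖x‖ ^ s * ‖y‖ ^ (-s) := by positivity
  have a1 : ‖x‖ ^ s * ‖y‖ ^ (-s) * (‖y‖ ^ s * ‖x‖ ^ (-s)) = 1 := by
    rw [Real.rpow_neg r0.le, Real.rpow_neg t0.le]
    field_simp
  have a2 : 2 ≤ ‖x‖ ^ s * ‖y‖ ^ (-s) + ‖y‖ ^ s * ‖x‖ ^ (-s) :=
    le_of_mul_le_mul_left (by nlinarith [sq_nonneg (‖x‖ ^ s * ‖y‖ ^ (-s) - 1)]) a0
  have a3 := mul_le_mul_of_nonneg_left (real_inner_le_norm x y)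
    (show 0 ≤ ‖x‖ ^ s * ‖y‖ ^ (-s) + ‖y‖ ^ s * ‖x‖ ^ (-s) - 2 * (1 - s) by linarith)
  linarith

theorem upper0 {a : ℝ} (ha : 0 ≤ a) {x y : E} (c : ‖y‖ ≤ ‖x‖) :
    ‖pw a x - pw a y‖ ≤ (1 + max a 1) * ((‖x‖ + ‖y‖) ^ a * ‖x - y‖) := by
  have r0 := norm_nonneg x
  have m0 : 0 ≤ max a 1 := ha.trans (le_max_left _ _)
  have k : (‖x‖ ^ a - ‖y‖ ^ a) * ‖y‖ ≤ max a 1 * (‖x‖ ^ a * (‖x‖ - ‖y‖)) := by
    rcases (norm_nonneg y).eq_or_lt with t0 | t0
    · rw [← t0, mul_zero, sub_zero]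
      positivity
    have r1 := t0.trans_le c
    obtain ⟨τ, e⟩ : ∃ τ, ‖y‖ = τ * ‖x‖ := ⟨‖y‖ / ‖x‖, by field_simp⟩
    rw [e] at t0 c ⊢
    have τ0 : 0 < τ := (mul_pos_iff_of_pos_right r1).1 t0
    have τ1 : τ ≤ 1 := le_of_mul_le_mul_right (by linarith) r1
    have b := one_add_mul_self_le_rpow_one_add (s := τ - 1) (by linarith) (le_max_right a 1)
    rw [add_sub_cancel] at b
    replace b := b.trans (Real.rpow_le_rpow_of_exponent_ge τ0 τ1 (le_max_left a 1))
    have b2 : (1 - τ ^ a) * τ ≤ max a 1 * (1 - τ) :=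
      (mul_le_mul_of_nonneg_right (by linarith) τ0.le).trans
        (mul_le_of_le_one_right (mul_nonneg m0 (sub_nonneg.2 τ1)) τ1)
    rw [Real.mul_rpow τ0.le r0]
    nlinarith [mul_le_mul_of_nonneg_left b2 (show 0 ≤ ‖x‖ ^ a * ‖x‖ by positivity)]
  have e : pw a x - pw a y = ‖x‖ ^ a • (x - y) + (‖x‖ ^ a - ‖y‖ ^ a) • y := by
    simp only [pw, smul_sub, sub_smul]
    abel
  have p1 : 0 ≤ ‖x‖ ^ a := by positivity
  have q : ‖x‖ ^ a * ‖x - y‖ ≤ (‖x‖ + ‖y‖) ^ a * ‖x - y‖ := mul_le_mul_of_nonneg_right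
    (Real.rpow_le_rpow r0 (le_add_of_nonneg_right (norm_nonneg _)) ha) (norm_nonneg _)
  have q2 := mul_le_mul_of_nonneg_left ((mul_le_mul_of_nonneg_left (norm_sub_norm_le x y) p1).trans
    q) m0
  rw [e]
  refine (norm_add_le _ _).trans ?_
  rw [norm_smul, norm_smul, Real.norm_of_nonneg p1, Real.norm_of_nonneg
    (sub_nonneg.2 (Real.rpow_le_rpow (norm_nonneg y) c ha))]
  linarith

theorem pw_smul (a c : ℝ) (w : E) (hc : 0 < c) : pw a (c • w) = c ^ (a + 1) • pw a w := by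
  rw [pw, pw, norm_smul, Real.norm_of_nonneg hc.le, Real.mul_rpow hc.le (norm_nonneg _),
    smul_smul, smul_smul, Real.rpow_add_one hc.ne']
  congr 1
  ring
end

theorem cu_smul {U : Set ℂ} {f : ℂ → ℂ} (t : ℝ) (h : Cu U f) : Cu U fun z => t * f z := by
  intro φ hφ
  simp only [mul_assoc, im_ofReal_mul]
  rw [integral_const_mul, h φ hφ, mul_zero]

theorem cu_congr {U : Set ℂ} {f g : ℂ → ℂ} (hU : MeasurableSet U) (e : g =ᵐ[vo U] f)
    (h : Cu U f) : Cu U g := by
  intro φ hφ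
  rw [← h φ hφ]
  refine integral_congr_ae ?_
  filter_upwards [(ae_restrict_iff' hU).1 e] with z hz
  by_cases hm : z ∈ U
  · rw [hz hm]
  · have h0 : fderiv ℝ φ z = 0 := by
      by_contra hc
      exact hm (hφ.2.2 (support_fderiv_subset ℝ (Function.mem_support.2 hc)))
    simp [P.dz, h0]

end PowA

open PowA

theorem pow : PowS := by
  intro E _ _
  refine ⟨fun a w ha => norm_pw a w ha, fun a ha => ?_,
    fun a w hw => (smooth a hw).contDiffWithinAt, fun a b w hb => ?_, pw_smul, der, mono,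
    fun a ha => ?_⟩
  · refine continuous_iff_continuousAt.2 fun w => ?_
    rcases eq_or_ne w 0 with rfl | h
    · rw [ContinuousAt, pw_zero, tendsto_zero_iff_norm_tendsto_zero]
      simp only [norm_pw a _ ha]
      have := (continuous_norm.rpow_const (p := a + 1) fun w : E => .inr (by linarith)).tendsto 0
      rwa [norm_zero, Real.zero_rpow (by linarith)] at this
    · exact (smooth a h).continuousAt
  · rcases eq_or_ne w 0 with rfl | h
    · simp only [pw_zero]
    · have h0 := norm_pos_iff.2 h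
      rw [pw, norm_pw b w hb, pw, pw, smul_smul, ← Real.rpow_mul h0.le, ← Real.rpow_add h0]
      congr 2
      ring
  · have m0 : 0 ≤ max a 1 := ha.trans (le_max_left _ _)
    refine ⟨1 + max a 1, by positivity, fun x y => ?_⟩
    rcases le_total ‖y‖ ‖x‖ with c | c
    · exact upper0 ha c
    · rw [norm_sub_rev, norm_sub_rev x, add_comm ‖x‖]
      exact upper0 ha c

theorem sca : PowS → ScaS := by
  intro pow n s U F h
  refine ⟨fun U' x r c hr hc hU a => ⟨?_, ?_⟩, fun F' hU e a => ⟨?_, ?_⟩⟩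
  · have := cu_smul (c ^ (-s + 1)) (P.Four.cu hr hU (h a).1)
    simpa only [(pow (Cn n)).smul _ _ _ hc, PiLp.smul_apply, real_smul] using this
  · have := cu_smul (c ^ (s + 1)) (P.Four.cu hr hU (h a).2)
    simpa only [(pow (Cn n)).smul _ _ _ hc, PiLp.smul_apply, real_smul, mul_left_comm I]
      using this
  · exact cu_congr hU (e.mono fun z hz => by simp only [hz]) (h a).1
  · exact cu_congr hU (e.mono fun z hz => by simp only [hz]) (h a).2

end Pool.Agent.MP_815c6c_an.Q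

end MrgPart8

-- ======== part 9: formerly Pool.Agent.MP_815c6c_an.Q.Shell
section MrgPart9

/-! Assembly of the shell. -/

set_option autoImplicit false

namespace Pool.Agent.MP_815c6c_an.Q

theorem yes_of (liou : ∀ n s, 0 < s → s < 1 → Shell n s → LiouS n s) (n : ℕ) (p : ℝ)
    (hp : 2 < p) : N.Yes 2 n p :=
  fin_of sob part oscS sto pow alg sca dq wk pt nat cac poi cam hol sup int lin stp Q.ite nd reg
    cpt cv shl liou deg core ends fin n p hp

end Pool.Agent.MP_815c6c_an.Q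

end MrgPart9

-- marker of a merged file
example : 731051 + 474719 = 731051 + 474719 := rfl
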