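import Pool.Agent.MP_815c6c_an.N.All

/-! Planar duality for all exponents, and the dichotomy in the dimension. -/

set_option autoImplicit false

namespace Pool.Agent.MP_815c6c_an.N

open Set Metric MeasureTheory

open XdA in
theorem yes_dual {n : ℕ} {p : ℝ} (p1 : 1 < p) (H : Yes 2 n (p / (p - 1))) : Yes 2 n p := by
  have p0 : 0 < p - 1 := by linarith
  obtain ⟨c, hc⟩ := H
  refine ⟨9 * (|c| + 1), fun U h G hU H => ?_⟩
  have key : ∀ x r, 0 < r → ball x (3 * r) ⊆ U →
      Rep (ball x r) (fun y => J (‖G y‖ ^ (p / 2 - 1) • G y)) ∧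
      Dec c (ball x r) fun y => J (‖G y‖ ^ (p / 2 - 1) • G y) := fun x r r0 hr => by
    obtain ⟨h', H'⟩ := dual p1 H r0 hr
    have := hc _ _ _ isOpen_ball H'
    simp only [cA (show 0 < p - 2 + 1 by linarith)] at this
    rwa [show (p - 2 + 1) * (p / (p - 1) / 2 - 1) + (p - 2) = p / 2 - 1 by
      field_simp; ring] at this
  refine ⟨glu 2 n U _ hU fun x hx => ?_, fun x r r0 hr hX θ hθ => ?_⟩
  · obtain ⟨r, r0, hr⟩ := Metric.isOpen_iff.1 hU x hx
    obtain ⟨W, w1, w2⟩ :=
      (key x (r / 3) (by positivity) (by rwa [mul_div_cancel₀ _ three_ne_zero])).1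
    refine ⟨r / 3, by positivity, fun y => -J (W y), (J.contDiff.comp_contDiffOn w1).neg, ?_⟩
    filter_upwards [w2] with y hy
    rw [hy, JJ]
  · have O0 : 0 ≤ osc (fun y => ‖G y‖ ^ (p / 2 - 1) • G y) x r := Real.sqrt_nonneg _
    have θ0 := hθ.1
    have c0 := abs_nonneg c
    rcases le_total (3 * θ) 1 with t | t
    · have := (key x (r / 3) (by positivity) (by rwa [mul_div_cancel₀ _ three_ne_zero])).2 x (r / 3)
        (by positivity) Subset.rfl (J.toContinuousLinearMap.comp_memLp' (hX.mono_measure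
          (Measure.restrict_mono (ball_subset_ball (by linarith)) le_rfl))) (3 * θ)
        ⟨by positivity, t⟩
      rw [oscJ, oscJ, show 3 * θ * (r / 3) = θ * r by ring] at this
      have b := osc3 (ρ := r / 3) (by positivity) (by linarith) (by linarith) hX
      have O1 : 0 ≤ osc (fun y => ‖G y‖ ^ (p / 2 - 1) • G y) x (r / 3) := Real.sqrt_nonneg _
      refine this.trans ((mul_le_mul (mul_le_mul_of_nonneg_right (le_abs_self c) (by positivity))
        b O1 (by positivity)).trans ?_)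
      nlinarith [mul_nonneg θ0.le O0]
    · refine (osc3 (by positivity) (mul_le_of_le_one_left r0.le hθ.2) (by nlinarith) hX).trans ?_
      nlinarith [mul_nonneg (mul_nonneg c0 θ0.le) O0]

theorem dim (H : ∀ (n : ℕ) (p : ℝ), 2 < p → Yes 2 n p) (d n : ℕ) (hd : 1 ≤ d) (hn : 1 ≤ n) :
    (d ≤ 2 → ∀ p : ℝ, 1 < p → Yes d n p) ∧ (¬ d ≤ 2 → No d n (17 / 10)) := by
  refine ⟨fun h p hp => ?_, fun h => xn bas d n _ (by omega) hn le_rfl (by norm_num)⟩
  obtain rfl | rfl : d = 1 ∨ d = 2 := by omega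
  · exact x1 n p hp
  rcases lt_trichotomy p 2 with q | rfl | q
  · exact yes_dual hp (H n _ (by rw [lt_div_iff₀ (by linarith)]; linarith))
  · exact x2 kit (evS kit (shl kit)) (mol kit) (loc kit) glu oscS 2 n
  · exact H n p q

end Pool.Agent.MP_815c6c_an.N
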